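import Mathlib

/-!
# Definitions: fewer than `2M-1` subspaces whenever `M-1` is not a power of two (`M = 2h+1`, `h` even)

Coordinate functions `x : ℕ → ℂ` (supported in `0..h`, `x 0` real) stand for the vectors of
`ℝ ⊕ ℂ^h = ℝ^{2h+1}`.
-/

open scoped ComplexConjugate
open Polynomial

namespace Pool.Agent.AD

/-- the sum term of weight `w` of the pair `(i,j)` -/
noncomputable def cf (w : ℕ) (x y : ℕ → ℂ) (i j : ℕ) : ℂ :=
  if i + j = w then x i * y j + y i * x j else 0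

/-- the difference term of weight `w` of the pair `(i,j)` (`i` even, `j` odd; none for `i = 0`) -/
noncomputable def df (w : ℕ) (x y : ℕ → ℂ) (i j : ℕ) : ℂ :=
  if j + w = i then x i * conj (y j) + y i * conj (x j)
  else if i ≠ 0 ∧ i + w = j then conj (x i) * y j + conj (y i) * x j else 0

/-- the odd form of weight `w` with coefficients `c`, `d` -/
noncomputable def oddF (h : ℕ) (c d : ℕ → ℕ → ℂ) (w : ℕ) (x y : ℕ → ℂ) : ℂ :=
  ∑ i ∈ (Finset.range (h + 1)).filter Even, ∑ j ∈ (Finset.range (h + 1)).filter Odd,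
    (c i j * cf w x y i j + d i j * df w x y i j)

/-- coefficient of weight `w` of the product of the polynomials of `x` and `y` -/
noncomputable def pc (w : ℕ) (x y : ℕ → ℂ) : ℂ :=
  ∑ a ∈ Finset.HasAntidiagonal.antidiagonal w, x a.1 * y a.2

/-- the real form of weight `0` on the odd coordinates -/
noncomputable def Dform (h : ℕ) (D : ℕ → ℝ) (x y : ℕ → ℂ) : ℝ :=
  ∑ j ∈ (Finset.range (h + 1)).filter Odd, D j * (x j * conj (y j)).re

/-- coordinate functions of the vectors of `ℝ ⊕ ℂ^h` -/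
def Vec (h : ℕ) (x : ℕ → ℂ) : Prop := (∀ j, h < j → x j = 0) ∧ (x 0).im = 0

/-- `x` has only even coordinates -/
def EvenV (x : ℕ → ℂ) : Prop := ∀ j, Odd j → x j = 0

/-- `x` has only odd coordinates -/
def OddV (x : ℕ → ℂ) : Prop := ∀ j, Even j → x j = 0

/-- index set of the real parameters: `(i, j, sum/difference, real/imaginary part)` and `D j` -/
abbrev PI (h : ℕ) := (Fin (h + 1) × Fin (h + 1) × Bool × Bool) ⊕ Fin (h + 1)

/-- complex parameter number `(i, j, b)`; `b = false`: sum term, `b = true`: difference term -/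
noncomputable def par {h : ℕ} (θ : PI h → ℝ) (b : Bool) (i j : ℕ) : ℂ :=
  if hij : i < h + 1 ∧ j < h + 1 then
    ⟨θ (Sum.inl (⟨i, hij.1⟩, ⟨j, hij.2⟩, b, false)), θ (Sum.inl (⟨i, hij.1⟩, ⟨j, hij.2⟩, b, true))⟩
  else 0

/-- real parameter `D j` -/
noncomputable def parR {h : ℕ} (θ : PI h → ℝ) (j : ℕ) : ℝ :=
  if hj : j < h + 1 then θ (Sum.inr ⟨j, hj⟩) else 1

/-- the algebraic closure of `ℚ(T)` in `ℂ` -/
noncomputable def acl (T : Set ℂ) : IntermediateField ℚ ℂ :=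
  (algebraicClosure (IntermediateField.adjoin ℚ T) ℂ).restrictScalars ℚ

/-- all coordinates of `x` and their conjugates lie in `acl T` -/
def InAcl (T : Set ℂ) (x : ℕ → ℂ) : Prop := ∀ j, x j ∈ acl T ∧ conj (x j) ∈ acl T

/-- the form of weight `w` has a nonzero term with a generic coefficient; `𝒟` = set of the pairs
whose difference term has a generic coefficient -/
def seen (h : ℕ) (𝒟 : ℕ → ℕ → Prop) (w : ℕ) (x y : ℕ → ℂ) : Prop :=
  ∃ i ≤ h, ∃ j ≤ h, Even i ∧ Odd j ∧ (cf w x y i j ≠ 0 ∨ (𝒟 i j ∧ df w x y i j ≠ 0))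

/-- no condition on the pair -/
def allD : ℕ → ℕ → Prop := fun _ _ => True

/-- polynomial with the coefficients `x 0, ..., x h` -/
noncomputable def pol (h : ℕ) (x : ℕ → ℂ) : ℂ[X] := ∑ j ∈ Finset.range (h + 1), C (x j) * X ^ j

/-- zero of the whole system of bilinear forms -/
def Sys (h : ℕ) (c d : ℕ → ℕ → ℂ) (D : ℕ → ℝ) (x y : ℕ → ℂ) : Prop :=
  (∀ l ≤ h, pc (2 * l) x y = 0) ∧ Dform h D x y = 0 ∧
    ∀ w, Odd w → w ≤ 2 * h - 3 → oddF h c d w x y = 0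

/-- neither (even, odd) nor (odd, even) -/
def NonPure (x y : ℕ → ℂ) : Prop := ¬ (EvenV x ∧ OddV y) ∧ ¬ (OddV x ∧ EvenV y)

/-- coefficient of the normalised product -/
noncomputable def rr (p q : ℕ) (x y : ℕ → ℂ) (w : ℕ) : ℂ := pc w x y / (x p * y q)

/-- support of the product -/
noncomputable def SS (p q : ℕ) (x y : ℕ → ℂ) : Finset ℕ :=
  (Finset.range (p + q + 1)).filter (fun w => pc w x y ≠ 0)

/-- support of the product without the top weight -/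
noncomputable def SS' (p q : ℕ) (x y : ℕ → ℂ) : Finset ℕ :=
  (Finset.range (p + q)).filter (fun w => pc w x y ≠ 0)

/-- normalised pair: leading coefficients `x p`, `y q` of modulus one, and some coefficient of the
normalised product below the top is nonzero and real -/
structure Nrm (h p q : ℕ) (x y : ℕ → ℂ) : Prop where
  vx : Vec h x
  vy : Vec h y
  ph : p ≤ h
  qh : q ≤ h
  np : ‖x p‖ = 1
  nq : ‖y q‖ = 1
  dp : ∀ j, p < j → x j = 0
  dq : ∀ j, q < j → y j = 0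
  re : ∃ w, w < p + q ∧ rr p q x y w ≠ 0 ∧ conj (rr p q x y w) = rr p q x y w

/-- the odd forms have no common zero on the pairs (even, odd) -/
def PureNS (h : ℕ) (c d : ℕ → ℕ → ℂ) : Prop :=
  ∀ x y, Vec h x → Vec h y → EvenV x → OddV y →
    (∀ w, Odd w → w ≤ 2 * h - 3 → oddF h c d w x y = 0) → (∀ j, x j = 0) ∨ (∀ j, y j = 0)

/-! ### the pure part: `h = 2n`, `n = e q`, `e = 2^r`, `q = 2m+1` -/

/-- pure forms: `x i` has weight `2i`, `y j` weight `2j-1`, the form number `k` weight `2k-1` -/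
noncomputable def pF (n : ℕ) (a : ℕ → ℕ → ℂ) (μ l : ℕ → ℂ) (k : ℕ) (x y : ℕ → ℂ) : ℂ :=
  ∑ i ∈ Finset.range (n + 1), ∑ j ∈ Finset.Icc 1 n, (if i + j = k then a i j * (x i * y j) else 0)
    + μ k * (conj (x (n - k)) * y n) + l k * (x n * conj (y (n + 1 - k)))

/-- the numbers `μ k` are switched off for `k ≥ n` and for the multiples of `2e` -/
noncomputable def muM (n e : ℕ) (μ : ℕ → ℂ) (k : ℕ) : ℂ :=
  if 1 ≤ k ∧ k < n ∧ ¬ (2 * e ∣ k) then μ k else 0

/-- the root of unity `exp (π i / m)` -/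
noncomputable def vp (m : ℕ) : ℂ := Complex.exp (Real.pi * Complex.I / m)

/-- the small coefficients `λ_k`; `ε = t^{2m}`, `N = 4e` -/
noncomputable def lam (e m : ℕ) (t : ℝ) (k : ℕ) : ℂ :=
  if k = 1 then (t : ℂ) ^ (8 * e * m)
  else if 2 ≤ k ∧ k < 2 * e then (t : ℂ) ^ (2 * m)
  else if k = 2 * e then (t : ℂ) ^ (2 * m) * vp m else 0

/-- coordinate functions of the even vectors of `ℝ ⊕ ℂ^n` -/
def XV (n : ℕ) (x : ℕ → ℂ) : Prop := (∀ i, n < i → x i = 0) ∧ (x 0).im = 0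

/-- coordinate functions of the odd vectors of `ℂ^n` -/
def YV (n : ℕ) (y : ℕ → ℂ) : Prop := (∀ j, n < j → y j = 0) ∧ y 0 = 0

/-- the mask of the generic differences in the pure part: `(2(n-k), 2n-1)`, `1 ≤ k < n`, `2e ∤ k` -/
def maskD (n e : ℕ) (i j : ℕ) : Prop :=
  j = 2 * n - 1 ∧ ∃ k, 1 ≤ k ∧ k < n ∧ ¬ (2 * e ∣ k) ∧ i = 2 * (n - k)

/-- the difference coefficients made of `μ` and `l` -/
noncomputable def dml (n : ℕ) (μ l : ℕ → ℂ) (i j : ℕ) : ℂ :=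
  if j = 2 * n - 1 ∧ i < 2 * n then μ (n - i / 2)
  else if i = 2 * n then l ((2 * n + 1 - j) / 2) else 0

/-- a sequence (along the ultrafilter `𝓤`) of zeros of the pure forms tending to the base point:
`U k i = x_{n-i} / x_n`, `V k i = y_{n-i} / y_n`, `ξ = conj x_n / x_n`, `υ = conj y_n / y_n` -/
structure NearSeq (𝓤 : Ultrafilter ℕ) (n e m : ℕ) (t : ℕ → ℝ) (a : ℕ → ℕ → ℕ → ℂ)
    (μ : ℕ → ℕ → ℂ) (ξ υ : ℕ → ℂ) (U V : ℕ → ℕ → ℂ) : Prop where
  he : 1 ≤ e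
  hm : 1 ≤ m
  hn : n = e * (2 * m + 1)
  tpos : ∀ k, 0 < t k
  t0 : Filter.Tendsto t 𝓤 (nhds 0)
  a1 : ∀ i j, Filter.Tendsto (fun k => a k i j) 𝓤 (nhds 1)
  μ1 : ∀ i, Filter.Tendsto (fun k => μ k i) 𝓤 (nhds 1)
  nξ : ∀ k, ‖ξ k‖ = 1
  nυ : ∀ k, ‖υ k‖ = 1
  U0 : ∀ k, U k 0 = 1
  V0 : ∀ k, V k 0 = 1
  Un : ∀ k i, n < i → U k i = 0
  Vn : ∀ k i, n ≤ i → V k i = 0
  Us : ∀ i, 1 ≤ i → Filter.Tendsto (fun k => U k i) 𝓤 (nhds 0)
  Vs : ∀ i, 1 ≤ i → Filter.Tendsto (fun k => V k i) 𝓤 (nhds 0)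
  E2 : ∀ k K, 1 ≤ K → K ≤ n →
    ∑ i ∈ Finset.range (K + 1), a k i (K - i) * (U k i * V k (K - i)) = 0
  E1 : ∀ k c, 1 ≤ c → c < n →
    ∑ i ∈ Finset.range (2 * n - c + 1), a k i (2 * n - c - i) * (U k i * V k (2 * n - c - i))
      + (if 2 * e ∣ c then 0 else μ k c * (ξ k * conj (U k c)))
      + lam e m (t k) c * (υ k * conj (V k (c - 1))) = 0
  real : ∀ k, ∃ s : ℝ, 0 ≤ s ∧ U k n ^ 2 * conj (ξ k) = s

end Pool.Agent.AD
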