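import Mathlib
import Pool.Agent.Lib_helper59.AD.Defs

/-!
# Block ACLA: `acl` is a closure operator, compatible with conjugation
-/

open scoped ComplexConjugate
open Polynomial

namespace Pool.Agent.AD.ACLA

private lemma mem_iff' {T : Set ℂ} {z : ℂ} :
    z ∈ acl T ↔ IsAlgebraic (IntermediateField.adjoin ℚ T) z := by
  unfold acl
  rw [IntermediateField.mem_restrictScalars, mem_algebraicClosure_iff]

/-- T lies in acl T: `IntermediateField.subset_adjoin` + algebraMap into the algebraic closure. -/
theorem acl_subset (T : Set ℂ) : T ⊆ (acl T : Set ℂ) := by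
  intro z hz
  rw [SetLike.mem_coe, mem_iff']
  have : z ∈ IntermediateField.adjoin ℚ T := IntermediateField.subset_adjoin ℚ T hz
  exact isAlgebraic_algebraMap (⟨z, this⟩ : IntermediateField.adjoin ℚ T)

/-- acl is a closure operator: adjoin ℚ T ≤ acl T', so an element algebraic over adjoin ℚ T is algebraic over acl T', which is algebraically closed in ℂ (`algebraicClosure` of an algebraic closure: transitivity `IsAlgebraic`/`Algebra.IsAlgebraic.trans`). -/
theorem acl_le {T T' : Set ℂ} (hT : T ⊆ (acl T' : Set ℂ)) : acl T ≤ acl T' := by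
  intro z hz
  rw [mem_iff'] at hz
  have h1 : IntermediateField.adjoin ℚ T ≤ acl T' := IntermediateField.adjoin_le_iff.2 hT
  obtain ⟨p, hp, hpz⟩ := hz
  -- z is algebraic over `algebraicClosure (adjoin ℚ T') ℂ`
  have h2 : IsAlgebraic (algebraicClosure (IntermediateField.adjoin ℚ T') ℂ) z := by
    let f : IntermediateField.adjoin ℚ T →+* algebraicClosure (IntermediateField.adjoin ℚ T') ℂ :=
      (IntermediateField.inclusion h1).toRingHom
    have hf : ∀ x, ((f x : algebraicClosure (IntermediateField.adjoin ℚ T') ℂ) : ℂ) = (x : ℂ) :=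
      fun x => rfl
    refine ⟨p.map f, ?_, ?_⟩
    · exact (Polynomial.map_ne_zero_iff (RingHom.injective f)).2 hp
    · rw [Polynomial.aeval_def, Polynomial.eval₂_map]
      rw [Polynomial.aeval_def] at hpz
      exact hpz
  rw [mem_iff', ← mem_algebraicClosure_iff]
  have h3 := IsAlgebraic.restrictScalars (R := IntermediateField.adjoin ℚ T') h2
  rw [mem_algebraicClosure_iff]
  exact h3

/-- conj is a ring automorphism of ℂ fixing ℚ; it maps adjoin ℚ T onto adjoin ℚ (conj '' T), apply it to a polynomial relation. -/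
theorem acl_conj {T : Set ℂ} {z : ℂ} (hz : z ∈ acl T) :
    conj z ∈ acl ((fun w => conj w) '' T) := by
  rw [mem_iff'] at hz ⊢
  obtain ⟨p, hp, hpz⟩ := hz
  let c : ℂ →ₐ[ℚ] ℂ := (Complex.conjAe.toAlgHom).restrictScalars ℚ
  have hc : ∀ w, c w = conj w := fun w => rfl
  have hmap : (IntermediateField.adjoin ℚ T).map c =
      IntermediateField.adjoin ℚ ((fun w => conj w) '' T) := by
    rw [IntermediateField.adjoin_map]
    rfl
  have hmem : ∀ x : IntermediateField.adjoin ℚ T,
      c (x : ℂ) ∈ IntermediateField.adjoin ℚ ((fun w => conj w) '' T) := by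
    intro x
    rw [← hmap]
    exact ⟨(x : ℂ), x.2, rfl⟩
  let f : IntermediateField.adjoin ℚ T →+*
      IntermediateField.adjoin ℚ ((fun w => conj w) '' T) :=
    (c.toRingHom.comp (IntermediateField.adjoin ℚ T).val.toRingHom).codRestrict
      (IntermediateField.adjoin ℚ ((fun w => conj w) '' T)) hmem
  refine ⟨p.map f, ?_, ?_⟩
  · exact (Polynomial.map_ne_zero_iff (RingHom.injective f)).2 hp
  · rw [Polynomial.aeval_def, Polynomial.eval₂_map]
    rw [Polynomial.aeval_def] at hpz
    have := congrArg c.toRingHom hpz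
    rw [Polynomial.hom_eval₂] at this
    rw [map_zero] at this
    exact this

/-- I is a root of X^2+1; re = (z+conj z)/2, im = (z-conj z)/(2I). -/
theorem acl_re_im {T : Set ℂ} {z : ℂ} (hz : z ∈ acl T) (hz' : conj z ∈ acl T) :
    (z.re : ℂ) ∈ acl T ∧ (z.im : ℂ) ∈ acl T ∧ Complex.I ∈ acl T := by
  have hI : Complex.I ∈ acl T := by
    rw [mem_iff']
    refine ⟨X ^ 2 + 1, ?_, ?_⟩
    · intro h
      have := congrArg (fun q => Polynomial.eval 0 q) h
      simp at this
    · simp
  have h2 : (2 : ℂ) ∈ acl T := by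
    simp
  have hre : (z.re : ℂ) = (z + conj z) / 2 := by
    rw [Complex.re_eq_add_conj]
  have him : (z.im : ℂ) = (z - conj z) / (2 * Complex.I) := by
    rw [Complex.im_eq_sub_conj]
  refine ⟨?_, ?_, hI⟩
  · rw [hre]
    exact (acl T).div_mem ((acl T).add_mem hz hz') h2
  · rw [him]
    exact (acl T).div_mem ((acl T).sub_mem hz hz') ((acl T).mul_mem h2 hI)

end Pool.Agent.AD.ACLA

namespace Pool.Agent.AD

alias acl_subset := Pool.Agent.AD.ACLA.acl_subset

alias acl_le := Pool.Agent.AD.ACLA.acl_le

alias acl_conj := Pool.Agent.AD.ACLA.acl_conj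

alias acl_re_im := Pool.Agent.AD.ACLA.acl_re_im

end Pool.Agent.AD
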