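import Mathlib
import Pool.Agent.Lib_helper59.AD.Defs

/-! # MP_f4c587_an, AD, blocks ACLB and FL2 (cite no stub) -/

open scoped ComplexConjugate
open Polynomial

namespace Pool.Agent.AD.ACLB

/-- the coefficients of a monic polynomial lie in every subring which contains the roots -/
theorem aclb_coeff_mem (S : Subring ℂ) (P : ℂ[X]) (hP : P.Monic) (h : ∀ z, P.eval z = 0 → z ∈ S)
    (n : ℕ) : P.coeff n ∈ S := by
  have h1 : P ∈ Polynomial.lifts S.subtype := by
    have h2 : P = (P.roots.map (fun a => X - C a)).prod :=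
      (IsAlgClosed.splits P).eq_prod_roots_of_monic hP
    rw [h2]
    refine Subsemiring.multiset_prod_mem _ _ ?_
    intro q hq
    obtain ⟨a, ha, rfl⟩ := Multiset.mem_map.1 hq
    have h3 : a ∈ S := h a ((Polynomial.mem_roots hP.ne_zero).1 ha)
    exact ⟨X - C ⟨a, h3⟩, by simp⟩
  obtain ⟨⟨x, hx⟩, hx'⟩ := (Polynomial.lifts_iff_coeff_lifts P).1 h1 n
  rw [← hx']
  exact hx

/-- A root of a nonzero polynomial with coefficients in acl T is algebraic over acl T, hence in acl T (transitivity). -/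
theorem acl_root {T : Set ℂ} (p : ℂ[X]) (hp : p ≠ 0) (hc : ∀ n, p.coeff n ∈ acl T) (z : ℂ)
    (hz : p.eval z = 0) : z ∈ acl T := by
  have h1 : p ∈ Polynomial.lifts
      (algebraMap (algebraicClosure (IntermediateField.adjoin ℚ T) ℂ) ℂ) := by
    rw [Polynomial.lifts_iff_coeff_lifts]
    intro n
    exact ⟨⟨p.coeff n, hc n⟩, rfl⟩
  obtain ⟨q, hq⟩ := (Polynomial.mem_lifts _).1 h1
  have h2 : IsAlgebraic (algebraicClosure (IntermediateField.adjoin ℚ T) ℂ) z := by
    refine ⟨q, ?_, ?_⟩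
    · rintro rfl
      exact hp (by rw [← hq, Polynomial.map_zero])
    · rw [Polynomial.aeval_def, ← Polynomial.eval_map, hq, hz]
  have h3 : IsAlgebraic (IntermediateField.adjoin ℚ T) z :=
    h2.restrictScalars (IntermediateField.adjoin ℚ T)
  exact mem_algebraicClosure_iff.2 h3

/-- P monic, P*Q ≠ 0. -/
theorem acl_factor {T : Set ℂ} (P Q : ℂ[X]) (hP : P.Monic) (hQ : Q ≠ 0)
    (hc : ∀ n, (P * Q).coeff n ∈ acl T) (n : ℕ) : P.coeff n ∈ acl T := by
  refine aclb_coeff_mem (acl T).toSubfield.toSubring P hP (fun z hz => ?_) n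
  exact acl_root (P * Q) (mul_ne_zero hP.ne_zero hQ) hc z (by rw [Polynomial.eval_mul, hz, zero_mul])

end Pool.Agent.AD.ACLB

namespace Pool.Agent.AD.FL2

/-- Roots of P are roots of the monic polynomial P*Q with coefficients in A, hence integral; coefficients of P = ∏(X-ρ) are in the subring integralClosure A ℂ. -/
theorem coeff_integral (A : Subalgebra ℚ ℂ) (P Q : ℂ[X]) (hP : P.Monic) (hPQ : (P * Q).Monic)
    (hc : ∀ n, (P * Q).coeff n ∈ A) (n : ℕ) : P.coeff n ∈ integralClosure A ℂ := by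
  refine ACLB.aclb_coeff_mem (integralClosure A ℂ).toSubring P hP (fun z hz => ?_) n
  have h1 : (P * Q) ∈ Polynomial.lifts (algebraMap A ℂ) := by
    rw [Polynomial.lifts_iff_coeff_lifts]
    intro n
    exact ⟨⟨_, hc n⟩, rfl⟩
  obtain ⟨R, hR, -, hR'⟩ := Polynomial.lifts_and_natDegree_eq_and_monic h1 hPQ
  show IsIntegral A z
  refine ⟨R, hR', ?_⟩
  rw [← Polynomial.eval_map, hR, Polynomial.eval_mul, hz, zero_mul]

end Pool.Agent.AD.FL2

namespace Pool.Agent.AD

alias acl_root := Pool.Agent.AD.ACLB.acl_root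

alias acl_factor := Pool.Agent.AD.ACLB.acl_factor

end Pool.Agent.AD
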