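import Mathlib
import Pool.Agent.Lib_helper59.AD.Defs

open scoped ComplexConjugate
open Polynomial

namespace Pool.Agent.AD.AP

open scoped Pointwise in
private theorem ap_step (Y : Finset ℕ) (hY0 : 0 ∈ Y) (hY2 : 2 ≤ Y.card) (X : Finset ℕ)
    (hX0 : 0 ∈ X) (hX2 : 2 ≤ X.card) (hc : (X + Y).card + 1 = X.card + Y.card) :
    ∃ M N, M ∈ X ∧ N ∈ Y ∧ 0 < M ∧ 0 < N ∧ (∀ y ∈ Y, y ≤ N) ∧ (∀ x ∈ X, x ≤ M) ∧
      (X.erase M + Y).card + 1 = (X.erase M).card + Y.card ∧
      X + Y = insert (M + N) (X.erase M + Y) := by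
  have hXn : X.Nonempty := ⟨0, hX0⟩
  have hYn : Y.Nonempty := ⟨0, hY0⟩
  obtain ⟨N, hN, hNm⟩ : ∃ N ∈ Y, ∀ y ∈ Y, y ≤ N := ⟨Y.max' hYn, Y.max'_mem _, fun y hy => Y.le_max' y hy⟩
  obtain ⟨M, hM, hMm⟩ : ∃ M ∈ X, ∀ x ∈ X, x ≤ M := ⟨X.max' hXn, X.max'_mem _, fun x hx => X.le_max' x hx⟩
  have pos : ∀ (Z : Finset ℕ) (K : ℕ), 2 ≤ Z.card → (∀ z ∈ Z, z ≤ K) → 0 < K := by
    intro Z K hZ hK
    by_contra h
    have h0 : Z ⊆ {0} := fun z hz => by
      have := hK z hz
      rw [Finset.mem_singleton]; omega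
    have := Finset.card_le_card h0
    rw [Finset.card_singleton] at this
    omega
  have hM0 := pos X M hX2 hMm
  have hN0 := pos Y N hY2 hNm
  have hX'0 : 0 ∈ X.erase M := Finset.mem_erase.2 ⟨hM0.ne, hX0⟩
  have hcard : (X.erase M).card + 1 = X.card := Finset.card_erase_add_one hM
  have hcd := cauchy_davenport_add_of_linearOrder_isCancelAdd (s := X.erase M) (t := Y) ⟨0, hX'0⟩ hYn
  have hnot : M + N ∉ X.erase M + Y := by
    intro h
    obtain ⟨x, hx, y, hy, hxy⟩ := Finset.mem_add.1 h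
    have h1 := hMm x (Finset.mem_of_mem_erase hx)
    have h2 := hNm y hy
    have h3 : x ≠ M := Finset.ne_of_mem_erase hx
    omega
  have hsub : insert (M + N) (X.erase M + Y) ⊆ X + Y := by
    rw [Finset.insert_subset_iff]
    exact ⟨Finset.add_mem_add hM hN, Finset.add_subset_add_right (Finset.erase_subset _ _)⟩
  have hins := Finset.card_insert_of_notMem hnot
  have hle := Finset.card_le_card hsub
  have hY1 : 1 ≤ Y.card := by omega
  have hX1 : 1 ≤ (X.erase M).card := by omega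
  refine ⟨M, N, hM, hN, hM0, hN0, hNm, hMm, by omega, ?_⟩
  exact (Finset.eq_of_subset_of_card_le hsub (by omega)).symm

open scoped Pointwise in
private theorem ap_main (Y : Finset ℕ) (hY0 : 0 ∈ Y) (hY2 : 2 ≤ Y.card) : ∀ (k : ℕ) (X : Finset ℕ),
    X.card = k + 2 → 0 ∈ X → (X + Y).card + 1 = X.card + Y.card →
    ∃ d, 0 < d ∧ d ∈ X ∧ (∀ x ∈ X, d ∣ x) ∧ ∀ y ∈ Y, d ∣ y := by
  intro k
  induction k with
  | zero =>
    intro X hX hX0 hc
    obtain ⟨M, N, hM, hN, hM0, hN0, hNm, hMm, -, heq⟩ := ap_step Y hY0 hY2 X hX0 (by omega) hc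
    have hX' : X.erase M = {0} := by
      have h1 : (X.erase M).card = 1 := by rw [Finset.card_erase_of_mem hM]; omega
      obtain ⟨z, hz⟩ := Finset.card_eq_one.1 h1
      have h2 : 0 ∈ X.erase M := Finset.mem_erase.2 ⟨hM0.ne, hX0⟩
      rw [hz, Finset.mem_singleton] at h2
      rw [hz, ← h2]
    rw [hX', Finset.singleton_add] at heq
    have hstep : ∀ y ∈ Y, y ≠ N → M + y ∈ Y := by
      intro y hy hyN
      have h1 : M + y ∈ X + Y := Finset.add_mem_add hM hy
      rw [heq, Finset.mem_insert] at h1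
      rcases h1 with h1 | h1
      · omega
      · obtain ⟨z, hz, hzy⟩ := Finset.mem_image.1 h1
        have : z = M + y := by
          simpa using hzy
        rw [← this]; exact hz
    have hdiv : ∀ (j : ℕ) (y : ℕ), y ∈ Y → N - y = j → M ∣ N - y := by
      intro j
      induction j using Nat.strong_induction_on with
      | _ j ih =>
        intro y hy hj
        by_cases hyN : y = N
        · rw [hyN, Nat.sub_self]; exact dvd_zero _
        · have h1 := hstep y hy hyN
          have h2 := hNm _ h1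
          have h3 := ih (N - (M + y)) (by omega) (M + y) h1 rfl
          have h4 : N - y = N - (M + y) + M := by omega
          rw [h4]
          exact Dvd.dvd.add h3 dvd_rfl
    have hMN : M ∣ N := by
      have := hdiv N 0 hY0 (by omega)
      simpa using this
    refine ⟨M, hM0, hM, ?_, ?_⟩
    · intro x hx
      by_cases hxM : x = M
      · rw [hxM]
      · have : x ∈ X.erase M := Finset.mem_erase.2 ⟨hxM, hx⟩
        rw [hX', Finset.mem_singleton] at this
        rw [this]; exact dvd_zero _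
    · intro y hy
      have h1 := hdiv _ y hy rfl
      have h2 := hNm y hy
      exact (Nat.dvd_sub_iff_right h2 hMN).1 h1
  | succ k ih =>
    intro X hX hX0 hc
    obtain ⟨M, N, hM, hN, hM0, hN0, hNm, hMm, hc', heq⟩ := ap_step Y hY0 hY2 X hX0 (by omega) hc
    have h0 : 0 ∈ X.erase M := Finset.mem_erase.2 ⟨hM0.ne, hX0⟩
    obtain ⟨d, hd, hdX, hdx, hdy⟩ := ih (X.erase M)
      (by rw [Finset.card_erase_of_mem hM]; omega) h0 hc'
    refine ⟨d, hd, Finset.mem_of_mem_erase hdX, ?_, hdy⟩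
    intro x hx
    by_cases hxM : x = M
    · rw [hxM]
      have h1 : M + 0 ∈ X + Y := Finset.add_mem_add hM hY0
      rw [heq, Finset.mem_insert] at h1
      rcases h1 with h1 | h1
      · omega
      · obtain ⟨x', hx', y', hy', h2⟩ := Finset.mem_add.1 h1
        rw [add_zero] at h2
        rw [← h2]
        exact Dvd.dvd.add (hdx x' hx') (hdy y' hy')
    · exact hdx x (Finset.mem_erase.2 ⟨hxM, hx⟩)

/-- A = {a_1<...<a_s=n}, B = {b_1<...<b_t=n}: equality in `|A+B| ≥ |A|+|B|-1` -/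
theorem ap_lemma (n : ℕ) (A B : Finset ℕ) (hA : ∀ a ∈ A, a ≤ n) (hB : ∀ b ∈ B, b ≤ n) (hnA : n ∈ A)
    (hnB : n ∈ B) (hA2 : 2 ≤ A.card) (hB2 : 2 ≤ B.card)
    (hc : (Finset.image₂ (· + ·) A B).card + 1 = A.card + B.card) :
    ∃ d, 0 < d ∧ (∃ a ∈ A, a + d = n) ∧ (∀ a ∈ A, d ∣ n - a) ∧ (∀ b ∈ B, d ∣ n - b) := by
  have hAc : (A.image fun a => n - a).card = A.card :=
    Finset.card_image_of_injOn fun a ha b hb h => by
      have h1 := hA a ha
      have h2 := hA b hb
      change n - a = n - b at h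
      omega
  have hBc : (B.image fun a => n - a).card = B.card :=
    Finset.card_image_of_injOn fun a ha b hb h => by
      have h1 := hB a ha
      have h2 := hB b hb
      change n - a = n - b at h
      omega
  have hABc : (Finset.image₂ (· + ·) (A.image fun a => n - a) (B.image fun a => n - a)).card =
      (Finset.image₂ (· + ·) A B).card := by
    have h1 : Finset.image₂ (· + ·) (A.image fun a => n - a) (B.image fun a => n - a) =
        (Finset.image₂ (· + ·) A B).image fun s => 2 * n - s := by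
      ext z
      simp only [Finset.mem_image₂, Finset.mem_image]
      constructor
      · rintro ⟨_, ⟨a, ha, rfl⟩, _, ⟨b, hb, rfl⟩, rfl⟩
        refine ⟨a + b, ⟨a, ha, b, hb, rfl⟩, ?_⟩
        have h1 := hA a ha
        have h2 := hB b hb
        omega
      · rintro ⟨_, ⟨a, ha, b, hb, rfl⟩, rfl⟩
        refine ⟨_, ⟨a, ha, rfl⟩, _, ⟨b, hb, rfl⟩, ?_⟩
        have h1 := hA a ha
        have h2 := hB b hb
        omega
    rw [h1]
    refine Finset.card_image_of_injOn ?_
    intro s hs s' hs' h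
    obtain ⟨a, ha, b, hb, rfl⟩ := Finset.mem_image₂.1 (Finset.mem_coe.1 hs)
    obtain ⟨a', ha', b', hb', rfl⟩ := Finset.mem_image₂.1 (Finset.mem_coe.1 hs')
    have h1 := hA a ha
    have h2 := hB b hb
    have h3 := hA a' ha'
    have h4 := hB b' hb'
    simp only at h
    omega
  obtain ⟨d, hd, hdX, hdx, hdy⟩ := ap_main (B.image fun a => n - a)
    (Finset.mem_image.2 ⟨n, hnB, Nat.sub_self n⟩) (by rw [hBc]; exact hB2) (A.card - 2)
    (A.image fun a => n - a) (by rw [hAc]; omega) (Finset.mem_image.2 ⟨n, hnA, Nat.sub_self n⟩) (by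
      rw [hAc, hBc, ← hc]
      exact congrArg (· + 1) hABc)
  refine ⟨d, hd, ?_, fun a ha => hdx _ (Finset.mem_image_of_mem _ ha),
    fun b hb => hdy _ (Finset.mem_image_of_mem _ hb)⟩
  obtain ⟨a, ha, had⟩ := Finset.mem_image.1 hdX
  refine ⟨a, ha, ?_⟩
  have := hA a ha
  omega

end Pool.Agent.AD.AP

namespace Pool.Agent.AD

alias ap_lemma := Pool.Agent.AD.AP.ap_lemma

end Pool.Agent.AD
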