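import Mathlib
import Pool.Agent.Lib_helper59.AD.Defs

/-! Project AD (MP_f4c587_an), block BB: a bound for the coefficients of two polynomials whose product is almost
constant. -/

set_option autoImplicit false

open scoped ComplexConjugate
open Polynomial

namespace Pool.Agent.AD.BB

private theorem BB_ulim (𝓤 : Ultrafilter ℕ) (f : ℕ → ℂ) (C : ℝ) (hf : ∀ᶠ k in 𝓤, ‖f k‖ ≤ C) :
    ∃ z, Filter.Tendsto f 𝓤 (nhds z) := by
  have hc : IsCompact (Metric.closedBall (0 : ℂ) C) := isCompact_closedBall 0 C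
  have h1 : ((𝓤.map f : Ultrafilter ℂ) : Filter ℂ) ≤ Filter.principal (Metric.closedBall (0 : ℂ) C) := by
    rw [Filter.le_principal_iff]
    show f ⁻¹' (Metric.closedBall (0 : ℂ) C) ∈ (𝓤 : Filter ℕ)
    filter_upwards [hf] with k hk
    show f k ∈ Metric.closedBall (0 : ℂ) C
    rw [mem_closedBall_zero_iff]
    exact hk
  obtain ⟨z, _, hz⟩ := hc.ultrafilter_le_nhds (𝓤.map f) h1
  exact ⟨z, hz⟩

private theorem BB_coeff (m : ℕ) (x : ℕ → ℂ) (hx : ∀ i, m < i → x i = 0) (j : ℕ) :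
    (∑ i ∈ Finset.range (m + 1), C (x i) * X ^ i : ℂ[X]).coeff j = x j := by
  rw [finsetSum_coeff]
  simp only [coeff_C_mul, coeff_X_pow]
  by_cases hj : j < m + 1
  · rw [Finset.sum_eq_single j]
    · simp
    · intro b _ hb
      rw [if_neg (Ne.symm hb), mul_zero]
    · intro h
      exact absurd (Finset.mem_range.2 hj) h
  · rw [hx j (by omega)]
    refine Finset.sum_eq_zero fun b hb => ?_
    have h1 : j ≠ b := by
      rintro rfl
      exact hj (Finset.mem_range.1 hb)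
    rw [if_neg h1, mul_zero]

/-- two polynomials with product one are constant -/
private theorem BB_poly (m : ℕ) (p v : ℕ → ℂ) (p0 : p 0 = 1) (v0 : v 0 = 1)
    (pm : ∀ i, m < i → p i = 0) (vm : ∀ i, m < i → v i = 0)
    (h : ∀ j, 1 ≤ j → j ≤ 2 * m → ∑ i ∈ Finset.range (j + 1), p i * v (j - i) = 0) :
    ∀ i, 1 ≤ i → p i = 0 ∧ v i = 0 := by
  obtain ⟨P, hP⟩ : ∃ P : ℂ[X], P = ∑ i ∈ Finset.range (m + 1), C (p i) * X ^ i := ⟨_, rfl⟩
  obtain ⟨V, hV⟩ : ∃ V : ℂ[X], V = ∑ i ∈ Finset.range (m + 1), C (v i) * X ^ i := ⟨_, rfl⟩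
  have cP : ∀ j, P.coeff j = p j := fun j => by rw [hP]; exact BB_coeff m p pm j
  have cV : ∀ j, V.coeff j = v j := fun j => by rw [hV]; exact BB_coeff m v vm j
  have hPV : P * V = 1 := by
    ext j
    rw [coeff_mul, Finset.Nat.sum_antidiagonal_eq_sum_range_succ (fun a b => P.coeff a * V.coeff b)]
    simp only [cP, cV]
    rcases Nat.eq_zero_or_pos j with rfl | hj
    · simp [p0, v0]
    · have h1 : (1 : ℂ[X]).coeff j = 0 := by
        rw [coeff_one, if_neg (by omega)]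
      rw [h1]
      by_cases hj2 : j ≤ 2 * m
      · exact h j hj hj2
      · refine Finset.sum_eq_zero fun i hi => ?_
        by_cases hi2 : m < i
        · rw [pm i hi2, zero_mul]
        · rw [vm (j - i) (by omega), mul_zero]
  have hVP : V * P = 1 := by rw [mul_comm]; exact hPV
  have uP : IsUnit P := IsUnit.of_mul_eq_one V hPV
  have uV : IsUnit V := IsUnit.of_mul_eq_one P hVP
  have dP := natDegree_eq_zero_of_isUnit uP
  have dV := natDegree_eq_zero_of_isUnit uV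
  intro i hi
  constructor
  · rw [← cP i]
    exact coeff_eq_zero_of_natDegree_lt (by omega)
  · rw [← cV i]
    exact coeff_eq_zero_of_natDegree_lt (by omega)

/-- the scale of a finite sequence -/
private theorem BB_scale (m : ℕ) (x : ℕ → ℝ) (hx : ∀ i, 0 ≤ x i) :
    ∃ θ : ℝ, 0 ≤ θ ∧ (∀ i, 1 ≤ i → i ≤ m → x i ≤ θ ^ i) ∧
      (θ = 0 ∨ ∃ i, 1 ≤ i ∧ i ≤ m ∧ x i = θ ^ i) := by
  rcases Nat.eq_zero_or_pos m with rfl | hm
  · exact ⟨0, le_refl _, fun i h1 h2 => by omega, Or.inl rfl⟩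
  · obtain ⟨i0, hi0, hmax⟩ := Finset.exists_max_image (Finset.Icc 1 m)
      (fun i => x i ^ ((i : ℝ)⁻¹)) ⟨1, Finset.mem_Icc.2 ⟨le_refl _, hm⟩⟩
    rw [Finset.mem_Icc] at hi0
    have key : ∀ i, 1 ≤ i → (x i ^ ((i : ℝ)⁻¹)) ^ i = x i := fun i hi =>
      Real.rpow_inv_natCast_pow (hx i) (by omega)
    refine ⟨x i0 ^ ((i0 : ℝ)⁻¹), Real.rpow_nonneg (hx i0) _, ?_, Or.inr ⟨i0, hi0.1, hi0.2, ?_⟩⟩
    · intro i h1 h2
      calc x i = (x i ^ ((i : ℝ)⁻¹)) ^ i := (key i h1).symm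
        _ ≤ (x i0 ^ ((i0 : ℝ)⁻¹)) ^ i :=
            pow_le_pow_left₀ (Real.rpow_nonneg (hx i) _) (hmax i (Finset.mem_Icc.2 ⟨h1, h2⟩)) i
    · exact (key i0 hi0.1).symm

theorem block_bound (𝓤 : Ultrafilter ℕ) (m : ℕ) (δ : ℕ → ℝ) (hδ : ∀ k, 0 < δ k)
    (a : ℕ → ℕ → ℕ → ℂ) (ha : ∀ i j, Filter.Tendsto (fun k => a k i j) 𝓤 (nhds 1))
    (p v : ℕ → ℕ → ℂ) (p0 : ∀ k, p k 0 = 1) (v0 : ∀ k, v k 0 = 1)
    (pm : ∀ k i, m < i → p k i = 0) (vm : ∀ k i, m < i → v k i = 0) (C : ℝ)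
    (hq : ∀ᶠ k in 𝓤, ∀ j, 1 ≤ j → j ≤ 2 * m →
      ‖∑ i ∈ Finset.range (j + 1), a k i (j - i) * (p k i * v k (j - i))‖ ≤ C * δ k ^ j) :
    ∃ C' : ℝ, ∀ᶠ k in 𝓤, ∀ i, ‖p k i‖ ≤ C' * δ k ^ i ∧ ‖v k i‖ ≤ C' * δ k ^ i := by
  have hsc := fun k => BB_scale m (fun i => ‖p k i‖ + ‖v k i‖)
    (fun i => add_nonneg (norm_nonneg _) (norm_nonneg _))
  choose θ hθ0 hθ1 hθ2 using hsc
  by_cases hK : ∃ K : ℝ, ∀ᶠ k in 𝓤, θ k ≤ K * δ k
  · obtain ⟨K, hK⟩ := hK
    obtain ⟨L, hL⟩ : ∃ L : ℝ, L = max 1 K := ⟨_, rfl⟩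
    have hL1 : 1 ≤ L := by rw [hL]; exact le_max_left _ _
    have hLK : K ≤ L := by rw [hL]; exact le_max_right _ _
    refine ⟨L ^ m, ?_⟩
    filter_upwards [hK] with k hk i
    have hLm : 1 ≤ L ^ m := one_le_pow₀ hL1
    have hd : 0 < δ k ^ i := pow_pos (hδ k) i
    rcases Nat.eq_zero_or_pos i with rfl | hi
    · rw [p0, v0, norm_one, pow_zero, mul_one]
      exact ⟨hLm, hLm⟩
    · by_cases him : i ≤ m
      · have h1 := hθ1 k i hi him
        have h2 : θ k ^ i ≤ L ^ m * δ k ^ i := by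
          calc θ k ^ i ≤ (L * δ k) ^ i := pow_le_pow_left₀ (hθ0 k)
                (hk.trans (mul_le_mul_of_nonneg_right hLK (hδ k).le)) i
            _ = L ^ i * δ k ^ i := mul_pow _ _ _
            _ ≤ L ^ m * δ k ^ i := mul_le_mul_of_nonneg_right (pow_le_pow_right₀ hL1 him) hd.le
        have h3 := norm_nonneg (p k i)
        have h4 := norm_nonneg (v k i)
        have h5 : ‖p k i‖ + ‖v k i‖ ≤ L ^ m * δ k ^ i := h1.trans h2
        exact ⟨by linarith, by linarith⟩
      · rw [pm k i (by omega), vm k i (by omega), norm_zero]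
        have := mul_pos (lt_of_lt_of_le one_pos hLm) hd
        exact ⟨this.le, this.le⟩
  · exfalso
    have hK' : ∀ K : ℝ, ∀ᶠ k in 𝓤, K * δ k < θ k := by
      intro K
      have h1 : ¬ ∀ᶠ k in 𝓤, θ k ≤ K * δ k := fun h => hK ⟨K, h⟩
      rw [← Ultrafilter.eventually_not] at h1
      filter_upwards [h1] with k hk
      exact not_le.1 hk
    have hpos : ∀ᶠ k in 𝓤, 0 < θ k := by
      filter_upwards [hK' 0] with k hk
      linarith
    -- the quotient tends to zero
    have hr : Filter.Tendsto (fun k => δ k / θ k) 𝓤 (nhds 0) := by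
      rw [Metric.tendsto_nhds]
      intro ε hε
      filter_upwards [hK' (1 / ε), hpos] with k hk hk0
      rw [Real.dist_eq, sub_zero, abs_of_pos (div_pos (hδ k) hk0), div_lt_iff₀ hk0]
      rw [one_div, inv_mul_lt_iff₀ hε] at hk
      exact hk
    -- the normalised coefficients
    have hbp : ∀ i, ∀ᶠ k in 𝓤, ‖p k i / (θ k : ℂ) ^ i‖ ≤ 1 ∧ ‖v k i / (θ k : ℂ) ^ i‖ ≤ 1 := by
      intro i
      filter_upwards [hpos] with k hk
      have hn : ‖(θ k : ℂ) ^ i‖ = θ k ^ i := by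
        rw [norm_pow, Complex.norm_real, Real.norm_of_nonneg hk.le]
      have hpw : 0 < θ k ^ i := pow_pos hk i
      rw [norm_div, norm_div, hn, div_le_one hpw, div_le_one hpw]
      rcases Nat.eq_zero_or_pos i with rfl | hi
      · rw [p0, v0, norm_one, pow_zero]
        exact ⟨le_refl _, le_refl _⟩
      · by_cases him : i ≤ m
        · have h1 := hθ1 k i hi him
          have h3 := norm_nonneg (p k i)
          have h4 := norm_nonneg (v k i)
          exact ⟨by linarith, by linarith⟩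
        · rw [pm k i (by omega), vm k i (by omega), norm_zero]
          exact ⟨hpw.le, hpw.le⟩
    have hlp := fun i => BB_ulim 𝓤 (fun k => p k i / (θ k : ℂ) ^ i) 1 ((hbp i).mono fun k h => h.1)
    have hlv := fun i => BB_ulim 𝓤 (fun k => v k i / (θ k : ℂ) ^ i) 1 ((hbp i).mono fun k h => h.2)
    choose P hP using hlp
    choose V hV using hlv
    have hPu : ∀ i z, Filter.Tendsto (fun k => p k i / (θ k : ℂ) ^ i) 𝓤 (nhds z) → P i = z :=
      fun i z hz => tendsto_nhds_unique (hP i) hz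
    have hVu : ∀ i z, Filter.Tendsto (fun k => v k i / (θ k : ℂ) ^ i) 𝓤 (nhds z) → V i = z :=
      fun i z hz => tendsto_nhds_unique (hV i) hz
    have P0 : P 0 = 1 := hPu 0 1 (by
      simp only [p0, pow_zero, div_one]
      exact tendsto_const_nhds)
    have V0 : V 0 = 1 := hVu 0 1 (by
      simp only [v0, pow_zero, div_one]
      exact tendsto_const_nhds)
    have Pm : ∀ i, m < i → P i = 0 := fun i hi => hPu i 0 (by
      simp only [pm _ i hi, zero_div]
      exact tendsto_const_nhds)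
    have Vm : ∀ i, m < i → V i = 0 := fun i hi => hVu i 0 (by
      simp only [vm _ i hi, zero_div]
      exact tendsto_const_nhds)
    have hsum : ∀ j, 1 ≤ j → j ≤ 2 * m → ∑ i ∈ Finset.range (j + 1), P i * V (j - i) = 0 := by
      intro j hj hj2
      have h1 : Filter.Tendsto (fun k => ∑ i ∈ Finset.range (j + 1),
          a k i (j - i) * ((p k i / (θ k : ℂ) ^ i) * (v k (j - i) / (θ k : ℂ) ^ (j - i)))) 𝓤
          (nhds (∑ i ∈ Finset.range (j + 1), 1 * (P i * V (j - i)))) :=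
        tendsto_finsetSum _ fun i _ => (ha i (j - i)).mul ((hP i).mul (hV (j - i)))
      have h2 : Filter.Tendsto (fun k => ∑ i ∈ Finset.range (j + 1),
          a k i (j - i) * ((p k i / (θ k : ℂ) ^ i) * (v k (j - i) / (θ k : ℂ) ^ (j - i)))) 𝓤
          (nhds 0) := by
        have h3 : Filter.Tendsto (fun k => C * (δ k / θ k) ^ j) 𝓤 (nhds 0) := by
          have h4 := (hr.pow j).const_mul C
          rw [zero_pow (by omega), mul_zero] at h4
          exact h4
        refine squeeze_zero_norm' ?_ h3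
        filter_upwards [hq, hpos] with k hk hk0
        have hne : (θ k : ℂ) ≠ 0 := by
          exact_mod_cast hk0.ne'
        have h5 : ∑ i ∈ Finset.range (j + 1),
            a k i (j - i) * ((p k i / (θ k : ℂ) ^ i) * (v k (j - i) / (θ k : ℂ) ^ (j - i))) =
            (∑ i ∈ Finset.range (j + 1), a k i (j - i) * (p k i * v k (j - i))) /
              (θ k : ℂ) ^ j := by
          rw [Finset.sum_div]
          refine Finset.sum_congr rfl fun i hi => ?_
          have hij : i + (j - i) = j := by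
            have := Finset.mem_range.1 hi
            omega
          have h6 : (θ k : ℂ) ^ j = (θ k : ℂ) ^ i * (θ k : ℂ) ^ (j - i) := by
            rw [← pow_add, hij]
          rw [h6]
          field_simp
        rw [h5, norm_div, norm_pow, Complex.norm_real, Real.norm_of_nonneg hk0.le, div_pow,
          ← mul_div_assoc]
        exact div_le_div_of_nonneg_right (hk j hj hj2) (pow_pos hk0 j).le
      have h7 := tendsto_nhds_unique h1 h2
      simpa only [one_mul] using h7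
    have hz := BB_poly m P V P0 V0 Pm Vm hsum
    have hge : ∀ᶠ k in 𝓤, (1 : ℝ) ≤ ∑ i ∈ Finset.Icc 1 m,
        (‖p k i / (θ k : ℂ) ^ i‖ + ‖v k i / (θ k : ℂ) ^ i‖) := by
      filter_upwards [hpos] with k hk
      rcases hθ2 k with h0 | ⟨i, hi1, hi2, hi3⟩
      · exact absurd h0 hk.ne'
      · have hn : ‖(θ k : ℂ) ^ i‖ = θ k ^ i := by
          rw [norm_pow, Complex.norm_real, Real.norm_of_nonneg hk.le]
        have hpw : 0 < θ k ^ i := pow_pos hk i
        have h1 : ‖p k i / (θ k : ℂ) ^ i‖ + ‖v k i / (θ k : ℂ) ^ i‖ = 1 := by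
          rw [norm_div, norm_div, hn, ← add_div, div_eq_one_iff_eq hpw.ne']
          exact hi3
        rw [← h1]
        exact Finset.single_le_sum (f := fun i => ‖p k i / (θ k : ℂ) ^ i‖ + ‖v k i / (θ k : ℂ) ^ i‖)
          (fun i _ => add_nonneg (norm_nonneg _) (norm_nonneg _)) (Finset.mem_Icc.2 ⟨hi1, hi2⟩)
    have hlim : Filter.Tendsto (fun k => ∑ i ∈ Finset.Icc 1 m,
        (‖p k i / (θ k : ℂ) ^ i‖ + ‖v k i / (θ k : ℂ) ^ i‖)) 𝓤
        (nhds (∑ i ∈ Finset.Icc 1 m, (‖P i‖ + ‖V i‖))) :=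
      tendsto_finsetSum _ fun i _ => (hP i).norm.add (hV i).norm
    have hzero : ∑ i ∈ Finset.Icc 1 m, (‖P i‖ + ‖V i‖) = 0 := by
      refine Finset.sum_eq_zero fun i hi => ?_
      have := hz i (Finset.mem_Icc.1 hi).1
      rw [this.1, this.2, norm_zero, add_zero]
    rw [hzero] at hlim
    have := ge_of_tendsto hlim hge
    linarith

end Pool.Agent.AD.BB

namespace Pool.Agent.AD

alias block_bound := Pool.Agent.AD.BB.block_bound

end Pool.Agent.AD
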