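import Mathlib
import Pool.Agent.Lib_helper59.AD.Defs

open scoped ComplexConjugate
open Polynomial

namespace Pool.Agent.AD.RAW

/-- the size of the coordinates whose index is not divisible by `2e` -/
private noncomputable def om (n e : ℕ) (U V : ℕ → ℂ) : ℝ :=
  ∑ i ∈ (Finset.range (n + 1)).filter (fun i => ¬ (2 * e ∣ i)), (‖U i‖ + ‖V i‖)

/-- the size of all coordinates of index `≥ 1` -/
private noncomputable def oo (n : ℕ) (U V : ℕ → ℂ) : ℝ :=
  ∑ i ∈ Finset.Icc 1 n, (‖U i‖ + ‖V i‖)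

private theorem om_nonneg (n e : ℕ) (U V : ℕ → ℂ) : 0 ≤ om n e U V :=
  Finset.sum_nonneg fun _ _ => by positivity

private theorem oo_nonneg (n : ℕ) (U V : ℕ → ℂ) : 0 ≤ oo n U V :=
  Finset.sum_nonneg fun _ _ => by positivity

private theorem le_om {n e : ℕ} {U V : ℕ → ℂ} {i : ℕ} (hi : i ≤ n) (h : ¬ (2 * e ∣ i)) :
    ‖U i‖ + ‖V i‖ ≤ om n e U V :=
  Finset.single_le_sum (f := fun i => ‖U i‖ + ‖V i‖) (fun _ _ => by positivity)
    (Finset.mem_filter.2 ⟨Finset.mem_range.2 (by omega), h⟩)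

private theorem le_oo {n : ℕ} {U V : ℕ → ℂ} {i : ℕ} (hi : i ≤ n) (h : 1 ≤ i) :
    ‖U i‖ + ‖V i‖ ≤ oo n U V :=
  Finset.single_le_sum (f := fun i => ‖U i‖ + ‖V i‖) (fun _ _ => by positivity)
    (Finset.mem_Icc.2 ⟨h, hi⟩)

/-- a product with both indices `≥ 1`, one of them not divisible by `2e` -/
private theorem prod_le {n e : ℕ} {U V : ℕ → ℂ} (Un : ∀ i, n < i → U i = 0)
    (Vn : ∀ i, n ≤ i → V i = 0) {i j : ℕ} (hi : 1 ≤ i) (hj : 1 ≤ j)
    (h : ¬ (2 * e ∣ i + j)) : ‖U i * V j‖ ≤ om n e U V * oo n U V := by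
  have o1 := om_nonneg n e U V
  have o2 := oo_nonneg n U V
  by_cases hin : n < i
  · rw [Un i hin]; simpa using mul_nonneg o1 o2
  by_cases hjn : n ≤ j
  · rw [Vn j hjn]; simpa using mul_nonneg o1 o2
  rw [norm_mul]
  have a1 := le_oo (U := U) (V := V) (n := n) (i := i) (by omega) hi
  have a2 := le_oo (U := U) (V := V) (n := n) (i := j) (by omega) hj
  have b1 := norm_nonneg (U i)
  have b2 := norm_nonneg (V i)
  have b3 := norm_nonneg (U j)
  have b4 := norm_nonneg (V j)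
  by_cases hd : 2 * e ∣ i
  · have hd' : ¬ (2 * e ∣ j) := fun h' => h (dvd_add hd h')
    have a3 := le_om (U := U) (V := V) (n := n) (e := e) (i := j) (by omega) hd'
    calc ‖U i‖ * ‖V j‖ ≤ oo n U V * om n e U V :=
          mul_le_mul (by linarith) (by linarith) b4 o2
      _ = om n e U V * oo n U V := mul_comm _ _
  · have a3 := le_om (U := U) (V := V) (n := n) (e := e) (i := i) (by omega) hd
    exact mul_le_mul (by linarith) (by linarith) b4 o1

private theorem sum_le_aux {n e : ℕ} {U V : ℕ → ℂ} (Un : ∀ i, n < i → U i = 0)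
    (Vn : ∀ i, n ≤ i → V i = 0) (a : ℕ → ℕ → ℂ) (N : ℕ) (hN : ¬ (2 * e ∣ N)) (hN2 : N ≤ 2 * n)
    (ha : ∀ i ≤ 2 * n, ∀ j ≤ 2 * n, ‖a i j‖ ≤ 2) (s : Finset ℕ)
    (hs : ∀ i ∈ s, 1 ≤ i ∧ i < N) :
    ‖∑ i ∈ s, a i (N - i) * (U i * V (N - i))‖ ≤ 4 * n * (om n e U V * oo n U V) := by
  have hm : 0 ≤ om n e U V * oo n U V := mul_nonneg (om_nonneg n e U V) (oo_nonneg n U V)
  have hcard : (s.card : ℝ) ≤ 2 * n := by
    have h1 : s ⊆ Finset.Ico 1 N := fun i hi => Finset.mem_Ico.2 (hs i hi)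
    have h2 := Finset.card_le_card h1
    rw [Nat.card_Ico] at h2
    have : s.card ≤ 2 * n := by omega
    exact_mod_cast this
  calc ‖∑ i ∈ s, a i (N - i) * (U i * V (N - i))‖
      ≤ ∑ i ∈ s, ‖a i (N - i) * (U i * V (N - i))‖ := norm_sum_le _ _
    _ ≤ ∑ i ∈ s, 2 * (om n e U V * oo n U V) := by
        refine Finset.sum_le_sum fun i hi => ?_
        obtain ⟨h1, h2⟩ := hs i hi
        rw [norm_mul]
        refine mul_le_mul (ha _ (by omega) _ (by omega)) ?_ (norm_nonneg _) (by norm_num)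
        refine prod_le Un Vn h1 (by omega) ?_
        rwa [show i + (N - i) = N by omega]
    _ = s.card * (2 * (om n e U V * oo n U V)) := by rw [Finset.sum_const, nsmul_eq_mul]
    _ ≤ 2 * n * (2 * (om n e U V * oo n U V)) := by
        exact mul_le_mul_of_nonneg_right hcard (by positivity)
    _ = 4 * n * (om n e U V * oo n U V) := by ring

theorem raw {𝓤 : Ultrafilter ℕ} {n e m : ℕ} {t : ℕ → ℝ} {a : ℕ → ℕ → ℕ → ℂ} {μ : ℕ → ℕ → ℂ}
    {ξ υ : ℕ → ℂ} {U V : ℕ → ℕ → ℂ} (hS : NearSeq 𝓤 n e m t a μ ξ υ U V) :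
    ∃ C : ℝ, ∀ᶠ k in 𝓤, ∀ i, ¬ (2 * e ∣ i) →
      ‖U k i‖ ≤ C * t k ^ (8 * e * m) ∧ ‖V k i‖ ≤ C * t k ^ (8 * e * m) := by
  have he := hS.he
  have hm := hS.hm
  have hn := hS.hn
  have hn3 : 3 * e ≤ n := by rw [hn]; nlinarith
  have hen : ¬ (2 * e ∣ n) := by
    rw [hn, mul_comm 2 e]
    intro h
    have := Nat.dvd_of_mul_dvd_mul_left (by omega) h
    omega
  have hev : ∀ᶠ k in 𝓤, ∀ i ∈ Finset.range (2 * n + 1), ∀ j ∈ Finset.range (2 * n + 1),
      ‖a k i j - 1‖ < 1 / 2 := by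
    rw [Filter.eventually_all_finset]
    intro i _
    rw [Filter.eventually_all_finset]
    intro j _
    have := (Metric.tendsto_nhds.1 (hS.a1 i j)) (1 / 2) (by norm_num)
    simpa [dist_eq_norm] using this
  have hmu : ∀ᶠ k in 𝓤, ∀ i ∈ Finset.range (n + 1), ‖μ k i - 1‖ < 1 / 2 := by
    rw [Filter.eventually_all_finset]
    intro i _
    have := (Metric.tendsto_nhds.1 (hS.μ1 i)) (1 / 2) (by norm_num)
    simpa [dist_eq_norm] using this
  have hoo : Filter.Tendsto (fun k => oo n (U k) (V k)) 𝓤 (nhds 0) := by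
    unfold oo
    rw [show (0 : ℝ) = ∑ i ∈ Finset.Icc 1 n, (0 + 0) by simp]
    refine tendsto_finsetSum _ fun i hi => ?_
    rw [Finset.mem_Icc] at hi
    have h1 := (hS.Us i hi.1).norm
    have h2 := (hS.Vs i hi.1).norm
    rw [norm_zero] at h1 h2
    exact h1.add h2
  -- constants
  set B : ℝ := 100 * (n + 1) ^ 2 with hB
  have hBp : 0 < B := by positivity
  have hoo1 : ∀ᶠ k in 𝓤, oo n (U k) (V k) < 1 / (4 * B) :=
    hoo.eventually (gt_mem_nhds (by positivity))
  have ht1 : ∀ᶠ k in 𝓤, t k < 1 / (4 * B) := hS.t0.eventually (gt_mem_nhds (by positivity))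
  refine ⟨2 * B, ?_⟩
  filter_upwards [hev, hmu, hoo1, ht1] with k ha hμ ho ht
  have tp := hS.tpos k
  have hB4 : 1 / (4 * B) ≤ 1 := by
    rw [div_le_one (by positivity)]
    have : (1 : ℝ) ≤ (n + 1) ^ 2 := by
      have : (1 : ℝ) ≤ n + 1 := by linarith [Nat.cast_nonneg (α := ℝ) n]
      nlinarith
    rw [hB]; linarith
  have t1 : t k ≤ 1 := by linarith
  set w := om n e (U k) (V k) with hw
  set o := oo n (U k) (V k) with hodef
  have w0 : 0 ≤ w := om_nonneg _ _ _ _
  have o0 : 0 ≤ o := oo_nonneg _ _ _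
  set T := t k ^ (8 * e * m) with hT
  have T0 : 0 < T := by positivity
  have ha2 : ∀ i ≤ 2 * n, ∀ j ≤ 2 * n, ‖a k i j‖ ≤ 2 := by
    intro i hi j hj
    have := ha i (Finset.mem_range.2 (by omega)) j (Finset.mem_range.2 (by omega))
    have h2 : ‖a k i j‖ ≤ ‖a k i j - 1‖ + ‖(1 : ℂ)‖ := by
      simpa using norm_add_le (a k i j - 1) 1
    rw [norm_one] at h2
    linarith
  have ha3 : ∀ i ≤ 2 * n, ∀ j ≤ 2 * n, 1 / 2 ≤ ‖a k i j‖ := by
    intro i hi j hj
    have := ha i (Finset.mem_range.2 (by omega)) j (Finset.mem_range.2 (by omega))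
    have h2 : ‖(1 : ℂ)‖ ≤ ‖a k i j‖ + ‖a k i j - 1‖ := by
      have := norm_sub_le (a k i j) (a k i j - 1)
      simpa using this
    rw [norm_one] at h2
    linarith
  have hμ3 : ∀ i ≤ n, 1 / 2 ≤ ‖μ k i‖ := by
    intro i hi
    have := hμ i (Finset.mem_range.2 (by omega))
    have h2 : ‖(1 : ℂ)‖ ≤ ‖μ k i‖ + ‖μ k i - 1‖ := by
      have := norm_sub_le (μ k i) (μ k i - 1)
      simpa using this
    rw [norm_one] at h2
    linarith
  -- equations E2
  have hE2 : ∀ K, 1 ≤ K → K ≤ n → ¬ (2 * e ∣ K) →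
      ‖a k 0 K * V k K + a k K 0 * U k K‖ ≤ 4 * n * (w * o) := by
    intro K h1 h2 h3
    have h4 := hS.E2 k K h1 h2
    rw [Finset.sum_range_succ] at h4
    have h5 : ∑ i ∈ Finset.range K, a k i (K - i) * (U k i * V k (K - i))
        = ∑ i ∈ Finset.Ico 1 K, a k i (K - i) * (U k i * V k (K - i)) + a k 0 K * V k K := by
      rw [Finset.range_eq_Ico, ← Finset.sum_Ico_consecutive _ (Nat.zero_le 1) h1]
      simp [hS.U0 k, add_comm]
    rw [h5] at h4
    have h6 : a k 0 K * V k K + a k K 0 * U k K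
        = -∑ i ∈ Finset.Ico 1 K, a k i (K - i) * (U k i * V k (K - i)) := by
      have h7 : a k K (K - K) * (U k K * V k (K - K)) = a k K 0 * U k K := by
        rw [Nat.sub_self, hS.V0 k, mul_one]
      rw [h7] at h4
      linear_combination h4
    rw [h6, norm_neg]
    exact sum_le_aux (hS.Un k) (hS.Vn k) (a k) K h3 (by omega) ha2 _
      (fun i hi => Finset.mem_Ico.1 hi)
  have hwo : 0 ≤ w * o := mul_nonneg w0 o0
  have hV : ∀ K, 1 ≤ K → K ≤ n → ¬ (2 * e ∣ K) → ‖V k K‖ ≤ 4 * ‖U k K‖ + 8 * n * (w * o) := by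
    intro K h1 h2 h3
    have h4 := hE2 K h1 h2 h3
    have h5 : ‖a k 0 K * V k K‖ ≤ ‖a k 0 K * V k K + a k K 0 * U k K‖ + ‖a k K 0 * U k K‖ := by
      have := norm_sub_le (a k 0 K * V k K + a k K 0 * U k K) (a k K 0 * U k K)
      simpa using this
    rw [norm_mul, norm_mul (a k K 0)] at h5
    have h6 := mul_le_mul_of_nonneg_right (ha3 0 (by omega) K (by omega)) (norm_nonneg (V k K))
    have h7 := mul_le_mul_of_nonneg_right (ha2 K (by omega) 0 (by omega)) (norm_nonneg (U k K))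
    linarith
  have hUn : ‖U k n‖ ≤ 8 * n * (w * o) := by
    have h4 := hE2 n (by omega) le_rfl hen
    rw [hS.Vn k n le_rfl, mul_zero, zero_add, norm_mul] at h4
    have h7 := mul_le_mul_of_nonneg_right (ha3 n (by omega) 0 (by omega)) (norm_nonneg (U k n))
    linarith
  have hlam : ∀ c, 1 ≤ c → c < n → ¬ (2 * e ∣ c) →
      ‖lam e m (t k) c * (υ k * conj (V k (c - 1)))‖ ≤ T + t k * w := by
    intro c h1 h2 h3
    have htw : 0 ≤ t k * w := mul_nonneg tp.le w0
    rw [norm_mul, norm_mul, hS.nυ k, one_mul, RCLike.norm_conj]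
    unfold lam
    split_ifs with h4 h5 h6
    · rw [h4, Nat.sub_self, hS.V0 k, norm_one, mul_one, norm_pow, Complex.norm_real,
        Real.norm_eq_abs, abs_of_pos tp]
      linarith
    · have h7 : ¬ (2 * e ∣ c - 1) := Nat.not_dvd_of_pos_of_lt (by omega) (by omega)
      have h8 := le_om (U := U k) (V := V k) (n := n) (e := e) (i := c - 1) (by omega) h7
      have h9 : ‖V k (c - 1)‖ ≤ w := by linarith [norm_nonneg (U k (c - 1))]
      rw [norm_pow, Complex.norm_real, Real.norm_eq_abs, abs_of_pos tp]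
      have h10 : t k ^ (2 * m) ≤ t k := by
        calc t k ^ (2 * m) ≤ t k ^ 1 := pow_le_pow_of_le_one tp.le t1 (by omega)
          _ = t k := pow_one _
      have h11 := mul_le_mul h10 h9 (norm_nonneg _) tp.le
      linarith
    · exact absurd (h6 ▸ dvd_refl _) h3
    · simpa using add_nonneg T0.le htw
  have hU : ∀ c, 1 ≤ c → c ≤ n → ¬ (2 * e ∣ c) →
      ‖U k c‖ ≤ 2 * T + 2 * (t k * w) + 8 * n * (w * o) := by
    intro c h1 h2 h3
    have htw : 0 ≤ t k * w := mul_nonneg tp.le w0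
    rcases Nat.lt_or_ge c n with h4 | h4
    swap
    · rw [show c = n by omega]; linarith
    have h5 := hS.E1 k c h1 h4
    rw [if_neg h3] at h5
    have h6 : ¬ (2 * e ∣ 2 * n - c) := by
      intro h
      have h7 : 2 * e ∣ 2 * n := ⟨2 * m + 1, by rw [hn]; ring⟩
      have h8 : 2 * e ∣ 2 * n - (2 * n - c) := Nat.dvd_sub h7 h
      rw [show 2 * n - (2 * n - c) = c by omega] at h8
      exact h3 h8
    have h7 : ∑ i ∈ Finset.range (2 * n - c + 1), a k i (2 * n - c - i) * (U k i * V k (2 * n - c - i))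
        = ∑ i ∈ Finset.Ico 1 (2 * n - c), a k i (2 * n - c - i) * (U k i * V k (2 * n - c - i)) := by
      rw [Finset.sum_range_succ, hS.Un k (2 * n - c) (by omega), zero_mul, mul_zero, add_zero,
        Finset.range_eq_Ico, ← Finset.sum_Ico_consecutive _ (Nat.zero_le 1) (by omega)]
      simp [hS.Vn k (2 * n - c) (by omega)]
    rw [h7] at h5
    have h8 := sum_le_aux (e := e) (hS.Un k) (hS.Vn k) (a k) (2 * n - c) h6 (by omega) ha2
      (Finset.Ico 1 (2 * n - c)) (fun i hi => Finset.mem_Ico.1 hi)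
    have h9 := hlam c h1 h4 h3
    have h10 : μ k c * (ξ k * conj (U k c))
        = -(∑ i ∈ Finset.Ico 1 (2 * n - c), a k i (2 * n - c - i) * (U k i * V k (2 * n - c - i))
          + lam e m (t k) c * (υ k * conj (V k (c - 1)))) := by
      linear_combination h5
    have h11 : ‖μ k c * (ξ k * conj (U k c))‖ = ‖μ k c‖ * ‖U k c‖ := by
      rw [norm_mul, norm_mul, hS.nξ k, one_mul, RCLike.norm_conj]
    have h12 := mul_le_mul_of_nonneg_right (hμ3 c h2) (norm_nonneg (U k c))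
    rw [← h11, h10, norm_neg] at h12
    have h13 := norm_add_le
      (∑ i ∈ Finset.Ico 1 (2 * n - c), a k i (2 * n - c - i) * (U k i * V k (2 * n - c - i)))
      (lam e m (t k) c * (υ k * conj (V k (c - 1))))
    linarith
  have hone : ∀ i, i ≤ n → ¬ (2 * e ∣ i) →
      ‖U k i‖ + ‖V k i‖ ≤ 10 * T + 10 * (t k * w) + 48 * n * (w * o) := by
    intro i h1 h2
    have h3 : 1 ≤ i := by
      rcases Nat.eq_zero_or_pos i with h | h
      · exact absurd (h ▸ dvd_zero _) h2
      · exact h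
    have h4 := hU i h3 h1 h2
    have h5 := hV i h3 h1 h2
    linarith
  have hnR : (0 : ℝ) ≤ n := Nat.cast_nonneg n
  have hw1 : w ≤ (n + 1) * (10 * T + 10 * (t k * w) + 48 * n * (w * o)) := by
    have hX : 0 ≤ 10 * T + 10 * (t k * w) + 48 * n * (w * o) := by positivity
    calc w ≤ ∑ i ∈ (Finset.range (n + 1)).filter (fun i => ¬ (2 * e ∣ i)),
          (10 * T + 10 * (t k * w) + 48 * n * (w * o)) := by
          rw [hw]; unfold om
          refine Finset.sum_le_sum fun i hi => ?_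
          rw [Finset.mem_filter, Finset.mem_range] at hi
          exact hone i (by omega) hi.2
      _ = ((Finset.range (n + 1)).filter (fun i => ¬ (2 * e ∣ i))).card *
          (10 * T + 10 * (t k * w) + 48 * n * (w * o)) := by rw [Finset.sum_const, nsmul_eq_mul]
      _ ≤ (n + 1) * (10 * T + 10 * (t k * w) + 48 * n * (w * o)) := by
          refine mul_le_mul_of_nonneg_right ?_ hX
          have := Finset.card_filter_le (Finset.range (n + 1)) (fun i => ¬ (2 * e ∣ i))
          rw [Finset.card_range] at this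
          exact_mod_cast this
  have hq1 : (n + 1) * (10 * (t k * w)) ≤ w / 40 := by
    have h1 : (n + 1) * (10 * t k) ≤ 1 / 40 := by
      have h2 : (10 : ℝ) * (n + 1) * (1 / (4 * B)) ≤ 1 / 40 := by
        rw [hB]
        rw [show (10 : ℝ) * (n + 1) * (1 / (4 * (100 * (n + 1) ^ 2))) = 1 / (40 * (n + 1)) by
          field_simp; ring]
        exact one_div_le_one_div_of_le (by norm_num) (by linarith)
      have h3 : (10 : ℝ) * (n + 1) * t k ≤ 10 * (n + 1) * (1 / (4 * B)) :=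
        mul_le_mul_of_nonneg_left ht.le (by positivity)
      linarith
    have h2 := mul_le_mul_of_nonneg_right h1 w0
    linarith
  have hq2 : (n + 1) * (48 * n * (w * o)) ≤ 12 / 100 * w := by
    have h1 : (n + 1) * (48 * n * o) ≤ 12 / 100 := by
      have h2 : (48 : ℝ) * (n + 1) ^ 2 * (1 / (4 * B)) = 12 / 100 := by
        rw [hB]; field_simp; norm_num
      have h3 : (48 : ℝ) * (n + 1) ^ 2 * o ≤ 48 * (n + 1) ^ 2 * (1 / (4 * B)) :=
        mul_le_mul_of_nonneg_left ho.le (by positivity)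
      have h4 : (n + 1) * (48 * n * o) ≤ (48 : ℝ) * (n + 1) ^ 2 * o := by
        have : 0 ≤ 48 * (n + 1) * o := by positivity
        nlinarith
      linarith
    have h2 := mul_le_mul_of_nonneg_right h1 w0
    linarith
  have hfin : w ≤ 2 * B * T := by
    have h1 : w ≤ 10 * (n + 1) * T + w / 40 + 12 / 100 * w := by
      calc w ≤ _ := hw1
        _ = 10 * (n + 1) * T + (n + 1) * (10 * (t k * w)) + (n + 1) * (48 * n * (w * o)) := by ring
        _ ≤ _ := by linarith
    have h2 : w ≤ 20 * (n + 1) * T := by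
      have : 0 ≤ (n + 1) * T := by positivity
      linarith
    have h3 : 20 * (n + 1) * T ≤ 2 * B * T := by
      refine mul_le_mul_of_nonneg_right ?_ T0.le
      rw [hB]; nlinarith
    linarith
  intro i hi
  by_cases hin : i ≤ n
  · have := le_om (U := U k) (V := V k) (n := n) (e := e) (i := i) hin hi
    constructor
    · linarith [norm_nonneg (V k i)]
    · linarith [norm_nonneg (U k i)]
  · rw [hS.Un k i (by omega), hS.Vn k i (by omega), norm_zero]
    exact ⟨by positivity, by positivity⟩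

end Pool.Agent.AD.RAW

namespace Pool.Agent.AD

alias raw := Pool.Agent.AD.RAW.raw

end Pool.Agent.AD
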