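import Mathlib
import Pool.Agent.Lib_helper59.AD.Defs
import Pool.Agent.Lib_helper59.AD.RAW

open scoped ComplexConjugate
open Polynomial

namespace Pool.Agent.AD.BE

/-- splitting a sum over the multiples of `d` -/
private theorem be_split (d j : ℕ) (hd : 1 ≤ d) (f : ℕ → ℂ) :
    ∑ i ∈ Finset.range (d * j + 1), f i =
      ∑ i ∈ Finset.range (j + 1), f (d * i) +
        ∑ i ∈ (Finset.range (d * j + 1)).filter (fun i => ¬ d ∣ i), f i := by
  rw [← Finset.sum_filter_add_sum_filter_not (Finset.range (d * j + 1)) (fun i => d ∣ i)]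
  congr 1
  symm
  refine Finset.sum_nbij' (fun i => d * i) (fun i => i / d) ?_ ?_ ?_ ?_ ?_
  · intro i hi
    rw [Finset.mem_range] at hi
    rw [Finset.mem_filter, Finset.mem_range]
    exact ⟨by nlinarith [Nat.mul_le_mul_left d (Nat.lt_succ_iff.1 hi)], Dvd.intro _ rfl⟩
  · intro i hi
    rw [Finset.mem_filter, Finset.mem_range] at hi
    rw [Finset.mem_range]
    obtain ⟨h1, k, rfl⟩ := hi
    rw [Nat.mul_div_cancel_left _ hd]
    have h2 : d * k ≤ d * j := by omega
    have h3 := Nat.le_of_mul_le_mul_left h2 hd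
    omega
  · intro i hi
    exact Nat.mul_div_cancel_left _ hd
  · intro i hi
    rw [Finset.mem_filter] at hi
    exact Nat.mul_div_cancel' hi.2
  · intro i hi
    rfl

/-- j ≤ m: E2 with K = 2ej ≤ n; j > m: E1 with c = 2n - 2ej = 2e(2m+1-j) (2e ∣ c, so no μ; lam c = 0 unless c = 2e, j = 2m; 1 ≤ c < n). In the sum over all i ≤ 2ej the i with 2e ∣ i give the displayed sum, the others are products of two raw-small numbers: ≤ (2 + o(1)) C² t^{16em} each. -/
theorem block_eq {𝓤 : Ultrafilter ℕ} {n e m : ℕ} {t : ℕ → ℝ} {a : ℕ → ℕ → ℕ → ℂ} {μ : ℕ → ℕ → ℂ}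
    {ξ υ : ℕ → ℂ} {U V : ℕ → ℕ → ℂ} (hS : NearSeq 𝓤 n e m t a μ ξ υ U V) :
    ∃ C : ℝ, ∀ᶠ k in 𝓤, ∀ j, 1 ≤ j → j ≤ 2 * m →
      ‖∑ i ∈ Finset.range (j + 1), a k (2 * e * i) (2 * e * (j - i)) *
          (U k (2 * e * i) * V k (2 * e * (j - i)))
        + (if j = 2 * m then lam e m (t k) (2 * e) * (υ k * conj (V k (2 * e - 1))) else 0)‖
        ≤ C * t k ^ (16 * e * m) := by
  obtain ⟨C, hC⟩ := raw hS
  have he := hS.he
  have hm := hS.hm
  have hn := hS.hn
  -- the coefficients are bounded by two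
  have ha : ∀ᶠ k in 𝓤, ∀ i ∈ Finset.range (4 * e * m + 1), ∀ l ∈ Finset.range (4 * e * m + 1),
      ‖a k i l‖ ≤ 2 := by
    rw [Filter.eventually_all_finset]
    intro i _
    rw [Filter.eventually_all_finset]
    intro l _
    have h1 := (hS.a1 i l).norm
    rw [norm_one] at h1
    exact (h1.eventually (gt_mem_nhds (by norm_num : (1 : ℝ) < 2))).mono fun k hk => hk.le
  refine ⟨(4 * e * m + 1 : ℕ) * (2 * (C * C)), ?_⟩
  filter_upwards [hC, ha] with k hk hak j hj1 hj2
  -- the full sum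
  set E : ℂ := if j = 2 * m then lam e m (t k) (2 * e) * (υ k * conj (V k (2 * e - 1))) else 0
    with hE
  have hjm : 2 * e * j ≤ 4 * e * m := by nlinarith
  have hfull : ∑ i ∈ Finset.range (2 * e * j + 1), a k i (2 * e * j - i) *
      (U k i * V k (2 * e * j - i)) + E = 0 := by
    rcases le_or_gt j m with h | h
    · have h1 : 2 * e * j ≤ n := by rw [hn]; nlinarith
      have h2 : 1 ≤ 2 * e * j := by nlinarith
      rw [hS.E2 k _ h2 h1, hE, if_neg (by omega), add_zero]
    · obtain ⟨i, hi⟩ : ∃ i, 2 * m + 1 = j + i := ⟨2 * m + 1 - j, by omega⟩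
      have hi1 : 1 ≤ i := by omega
      have hi2 : i ≤ m := by omega
      have hc : 2 * n - 2 * e * i = 2 * e * j := by
        have : 2 * n = 2 * e * j + 2 * e * i := by
          rw [hn, hi]; ring
        omega
      have h1 : 1 ≤ 2 * e * i := by nlinarith
      have h2 : 2 * e * i < n := by rw [hn]; nlinarith
      have h3 := hS.E1 k _ h1 h2
      rw [hc, if_pos (Dvd.intro _ rfl), add_zero] at h3
      rw [← h3]
      congr 1
      rw [hE]
      by_cases hj : j = 2 * m
      · have hi' : i = 1 := by omega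
        rw [if_pos hj, hi', mul_one]
      · rw [if_neg hj]
        have hi' : 2 ≤ i := by omega
        have h4 : lam e m (t k) (2 * e * i) = 0 := by
          have h5 : 2 * e * 2 ≤ 2 * e * i := Nat.mul_le_mul_left _ hi'
          rw [lam, if_neg (by omega), if_neg (by omega), if_neg (by omega)]
        rw [h4, zero_mul]
  rw [be_split (2 * e) j (by omega)] at hfull
  have hD : ∑ i ∈ Finset.range (j + 1), a k (2 * e * i) (2 * e * (j - i)) *
      (U k (2 * e * i) * V k (2 * e * (j - i))) =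
      ∑ i ∈ Finset.range (j + 1), a k (2 * e * i) (2 * e * j - 2 * e * i) *
      (U k (2 * e * i) * V k (2 * e * j - 2 * e * i)) := by
    refine Finset.sum_congr rfl fun i _ => ?_
    rw [Nat.mul_sub]
  rw [hD]
  have h1 : ∑ i ∈ Finset.range (j + 1), a k (2 * e * i) (2 * e * j - 2 * e * i) *
      (U k (2 * e * i) * V k (2 * e * j - 2 * e * i)) + E =
      -∑ i ∈ (Finset.range (2 * e * j + 1)).filter (fun i => ¬ 2 * e ∣ i),
        a k i (2 * e * j - i) * (U k i * V k (2 * e * j - i)) := by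
    linear_combination hfull
  rw [h1, norm_neg]
  have ht : 0 ≤ t k ^ (16 * e * m) := pow_nonneg (hS.tpos k).le _
  have hterm : ∀ i ∈ (Finset.range (2 * e * j + 1)).filter (fun i => ¬ 2 * e ∣ i),
      ‖a k i (2 * e * j - i) * (U k i * V k (2 * e * j - i))‖ ≤
        2 * (C * C) * t k ^ (16 * e * m) := by
    intro i hi
    rw [Finset.mem_filter, Finset.mem_range] at hi
    obtain ⟨hi1, hi2⟩ := hi
    have hi3 : ¬ 2 * e ∣ 2 * e * j - i := by
      intro h
      apply hi2
      have h4 : 2 * e ∣ 2 * e * j := Dvd.intro _ rfl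
      have h5 := (Nat.dvd_sub h4 h)
      have h6 : 2 * e * j - (2 * e * j - i) = i := by omega
      rwa [h6] at h5
    have hu := (hk i hi2).1
    have hv := (hk _ hi3).2
    have ha2 := hak i (by rw [Finset.mem_range]; omega) (2 * e * j - i)
      (by rw [Finset.mem_range]; omega)
    rw [norm_mul, norm_mul]
    have h7 : ‖U k i‖ * ‖V k (2 * e * j - i)‖ ≤
        C * t k ^ (8 * e * m) * (C * t k ^ (8 * e * m)) :=
      mul_le_mul hu hv (norm_nonneg _) ((norm_nonneg _).trans hu)
    have h8 : C * t k ^ (8 * e * m) * (C * t k ^ (8 * e * m)) = C * C * t k ^ (16 * e * m) := by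
      have : 16 * e * m = 8 * e * m + 8 * e * m := by ring
      rw [this, pow_add]; ring
    rw [h8] at h7
    calc ‖a k i (2 * e * j - i)‖ * (‖U k i‖ * ‖V k (2 * e * j - i)‖)
        ≤ 2 * (C * C * t k ^ (16 * e * m)) :=
          mul_le_mul ha2 h7 (by positivity) (by norm_num)
      _ = 2 * (C * C) * t k ^ (16 * e * m) := by ring
  refine (norm_sum_le_of_le _ hterm).trans ?_
  rw [Finset.sum_const, nsmul_eq_mul]
  have hcard : ((Finset.range (2 * e * j + 1)).filter (fun i => ¬ 2 * e ∣ i)).card ≤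
      4 * e * m + 1 := by
    refine (Finset.card_filter_le _ _).trans ?_
    rw [Finset.card_range]; omega
  have hnn : 0 ≤ 2 * (C * C) * t k ^ (16 * e * m) :=
    mul_nonneg (mul_nonneg (by norm_num) (mul_self_nonneg C)) ht
  calc (((Finset.range (2 * e * j + 1)).filter (fun i => ¬ 2 * e ∣ i)).card : ℝ) *
      (2 * (C * C) * t k ^ (16 * e * m)) ≤ (4 * e * m + 1 : ℕ) *
      (2 * (C * C) * t k ^ (16 * e * m)) :=
        mul_le_mul_of_nonneg_right (by exact_mod_cast hcard) hnn
    _ = (4 * e * m + 1 : ℕ) * (2 * (C * C)) * t k ^ (16 * e * m) := by ring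

end Pool.Agent.AD.BE

namespace Pool.Agent.AD

alias block_eq := Pool.Agent.AD.BE.block_eq

end Pool.Agent.AD
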