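import Mathlib
import Pool.Agent.Lib_helper59.AD.Defs
import Pool.Agent.Lib_helper59.AD.BB
import Pool.Agent.Lib_helper59.AD.BE
import Pool.Agent.Lib_helper59.AD.RAW

/-! MP_f4c587_an, block COA. -/

open scoped ComplexConjugate
open Polynomial

namespace Pool.Agent.AD.COA

private theorem norm_vp (m : ℕ) : ‖vp m‖ = 1 := by
  unfold vp
  have h : (Real.pi : ℂ) * Complex.I / m = ((Real.pi / m : ℝ) : ℂ) * Complex.I := by
    push_cast
    ring
  rw [h, Complex.norm_exp_ofReal_mul_I]

private theorem lam_top {e : ℕ} (he : 1 ≤ e) (m : ℕ) (t : ℝ) :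
    lam e m t (2 * e) = (t : ℂ) ^ (2 * m) * vp m := by
  unfold lam
  rw [if_neg (by omega), if_neg (by omega), if_pos rfl]

/-- block_bound with p k i = U k (2ei), v k i = V k (2ei) (zero for i > m because 2e(m+1) > n), coefficients a k (2ei) (2ej), δ = t^{4e+1}: by block_eq the sums are ≤ C t^{16em} + [j=2m] t^{2m}·|V_{2e-1}|, |V_{2e-1}| ≤ C t^{8em} (raw, 2e ∤ 2e-1), t^{2m+8em} = δ^{2m}; 16em ≥ (4e+1)·2m. t ≤ 1 eventually. -/
theorem coarse {𝓤 : Ultrafilter ℕ} {n e m : ℕ} {t : ℕ → ℝ} {a : ℕ → ℕ → ℕ → ℂ} {μ : ℕ → ℕ → ℂ}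
    {ξ υ : ℕ → ℂ} {U V : ℕ → ℕ → ℂ} (hS : NearSeq 𝓤 n e m t a μ ξ υ U V) :
    ∃ C : ℝ, ∀ᶠ k in 𝓤, ∀ i, ‖U k (2 * e * i)‖ ≤ C * t k ^ ((4 * e + 1) * i) ∧
      ‖V k (2 * e * i)‖ ≤ C * t k ^ ((4 * e + 1) * i) := by
  have he := hS.he
  have hm := hS.hm
  have hn := hS.hn
  obtain ⟨C₁, hC₁⟩ := raw hS
  obtain ⟨C₂, hC₂⟩ := block_eq hS
  have ht1 : ∀ᶠ k in 𝓤, t k < 1 := hS.t0.eventually (gt_mem_nhds one_pos)
  have hbig : ∀ i, m < i → n < 2 * e * i := by
    intro i hi
    have h1 : 2 * e * (m + 1) ≤ 2 * e * i := Nat.mul_le_mul_left _ hi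
    have h2 : 2 * e * (m + 1) = e * (2 * m + 1) + e := by ring
    omega
  have key := block_bound 𝓤 m (fun k => t k ^ (4 * e + 1)) (fun k => pow_pos (hS.tpos k) _)
    (fun k i j => a k (2 * e * i) (2 * e * j)) (fun i j => hS.a1 _ _)
    (fun k i => U k (2 * e * i)) (fun k i => V k (2 * e * i))
    (fun k => by simpa using hS.U0 k) (fun k => by simpa using hS.V0 k)
    (fun k i hi => hS.Un k _ (hbig i hi)) (fun k i hi => hS.Vn k _ (hbig i hi).le)
    (|C₂| + |C₁|) (by
      filter_upwards [hC₁, hC₂, ht1] with k h1 h2 h3 j hj hj'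
      have htp := hS.tpos k
      have h4 := h2 j hj hj'
      set q : ℂ := ∑ i ∈ Finset.range (j + 1), a k (2 * e * i) (2 * e * (j - i)) *
          (U k (2 * e * i) * V k (2 * e * (j - i))) with hq
      have hexp : (4 * e + 1) * j ≤ 16 * e * m := by
        have h5 : (4 * e + 1) * j ≤ (4 * e + 1) * (2 * m) := Nat.mul_le_mul_left _ hj'
        have h6 : (4 * e + 1) * (2 * m) ≤ 16 * e * m := by
          have : 2 * m ≤ 8 * e * m := by nlinarith
          nlinarith
        exact h5.trans h6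
      have h7 : t k ^ (16 * e * m) ≤ (t k ^ (4 * e + 1)) ^ j := by
        rw [← pow_mul]
        exact pow_le_pow_of_le_one htp.le h3.le hexp
      have h8 : ‖(if j = 2 * m then lam e m (t k) (2 * e) * (υ k * conj (V k (2 * e - 1)))
          else 0 : ℂ)‖ ≤ |C₁| * (t k ^ (4 * e + 1)) ^ j := by
        split_ifs with hj2
        · rw [lam_top he, norm_mul, norm_mul, norm_vp, norm_mul, hS.nυ, one_mul, mul_one,
            RCLike.norm_conj, norm_pow, Complex.norm_real, Real.norm_of_nonneg htp.le]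
          have h9 := (h1 (2 * e - 1) (by
            intro hd
            have := Nat.le_of_dvd (by omega) hd
            omega)).2
          have h10 : (t k ^ (4 * e + 1)) ^ j = t k ^ (2 * m) * t k ^ (8 * e * m) := by
            rw [← pow_mul, ← pow_add, hj2]
            congr 1
            ring
          rw [h10]
          calc t k ^ (2 * m) * ‖V k (2 * e - 1)‖
              ≤ t k ^ (2 * m) * (C₁ * t k ^ (8 * e * m)) :=
                mul_le_mul_of_nonneg_left h9 (pow_nonneg htp.le _)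
            _ ≤ t k ^ (2 * m) * (|C₁| * t k ^ (8 * e * m)) := by
                apply mul_le_mul_of_nonneg_left _ (pow_nonneg htp.le _)
                exact mul_le_mul_of_nonneg_right (le_abs_self _) (pow_nonneg htp.le _)
            _ = _ := by ring
        · rw [norm_zero]
          positivity
      show ‖q‖ ≤ (|C₂| + |C₁|) * (t k ^ (4 * e + 1)) ^ j
      set r : ℂ := (if j = 2 * m then lam e m (t k) (2 * e) * (υ k * conj (V k (2 * e - 1)))
          else 0 : ℂ) with hr
      have h11 : ‖q‖ ≤ ‖q + r‖ + ‖r‖ := by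
        have := norm_sub_le (q + r) r
        rwa [add_sub_cancel_right] at this
      have h12 : ‖q + r‖ ≤ |C₂| * (t k ^ (4 * e + 1)) ^ j := by
        refine h4.trans ?_
        calc C₂ * t k ^ (16 * e * m) ≤ |C₂| * t k ^ (16 * e * m) :=
              mul_le_mul_of_nonneg_right (le_abs_self _) (pow_nonneg htp.le _)
          _ ≤ _ := mul_le_mul_of_nonneg_left h7 (abs_nonneg _)
      rw [add_mul]
      linarith)
  obtain ⟨C', hC'⟩ := key
  refine ⟨C', ?_⟩
  filter_upwards [hC'] with k hk i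
  have := hk i
  simpa only [pow_mul] using this

end Pool.Agent.AD.COA

namespace Pool.Agent.AD

alias coarse := Pool.Agent.AD.COA.coarse

end Pool.Agent.AD
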