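import Mathlib
import Pool.Agent.Lib_helper59.AD.Defs
import Pool.Agent.Lib_helper59.AD.COA
import Pool.Agent.Lib_helper59.AD.RAW

open scoped ComplexConjugate
open Polynomial

namespace Pool.Agent.AD.CH

private theorem CH_small {𝓤 : Ultrafilter ℕ} {t : ℕ → ℝ} (tpos : ∀ k, 0 < t k)
    (t0 : Filter.Tendsto t 𝓤 (nhds 0)) {f : ℕ → ℂ} {C : ℝ} {p R : ℕ} (h : R < p)
    (hf : ∀ᶠ k in 𝓤, ‖f k‖ ≤ C * t k ^ p) :
    Filter.Tendsto (fun k => f k / (t k : ℂ) ^ R) 𝓤 (nhds 0) := by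
  have h1 : Filter.Tendsto (fun k => C * t k ^ (p - R)) 𝓤 (nhds 0) := by
    have := (t0.pow (p - R)).const_mul C
    rwa [zero_pow (by omega), mul_zero] at this
  refine squeeze_zero_norm' ?_ h1
  filter_upwards [hf] with k hk
  have hpos := tpos k
  rw [norm_div, norm_pow, Complex.norm_real, Real.norm_eq_abs, abs_of_pos hpos,
    div_le_iff₀ (pow_pos hpos R), mul_assoc, ← pow_add, Nat.sub_add_cancel h.le]
  exact hk

private theorem CH_term {𝓤 : Ultrafilter ℕ} {t : ℕ → ℝ} (tpos : ∀ k, 0 < t k)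
    (t0 : Filter.Tendsto t 𝓤 (nhds 0)) {a f : ℕ → ℂ} (ha : Filter.Tendsto a 𝓤 (nhds 1))
    {C : ℝ} {p R : ℕ} (h : R < p) (hf : ∀ᶠ k in 𝓤, ‖f k‖ ≤ C * t k ^ p) :
    Filter.Tendsto (fun k => a k * f k / (t k : ℂ) ^ R) 𝓤 (nhds 0) := by
  have := ha.mul (CH_small tpos t0 h hf)
  rw [mul_zero] at this
  refine this.congr fun k => ?_
  rw [mul_div_assoc]

private theorem CH_div {𝓤 : Ultrafilter ℕ} {a f : ℕ → ℂ} {b L : ℂ} (hb : b ≠ 0)
    (ha : Filter.Tendsto a 𝓤 (nhds b)) (hf : Filter.Tendsto (fun k => a k * f k) 𝓤 (nhds L)) :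
    Filter.Tendsto f 𝓤 (nhds (L / b)) := by
  have h := hf.div ha hb
  refine h.congr' ?_
  filter_upwards [ha.eventually_ne hb] with k hk
  simp only [Pi.div_apply]
  rw [mul_comm, mul_div_assoc, div_self hk, mul_one]

section

variable {𝓤 : Ultrafilter ℕ} {n e m : ℕ} {t : ℕ → ℝ} {a : ℕ → ℕ → ℕ → ℂ} {μ : ℕ → ℕ → ℂ}
    {ξ υ : ℕ → ℂ} {U V : ℕ → ℕ → ℂ}

private theorem CH_le1 (hS : NearSeq 𝓤 n e m t a μ ξ υ U V) : ∀ᶠ k in 𝓤, t k ≤ 1 := by
  have := hS.t0.eventually (gt_mem_nhds (zero_lt_one))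
  filter_upwards [this] with k hk using hk.le

/-- the products in the second equation are small -/
private theorem CH_E2 (hS : NearSeq 𝓤 n e m t a μ ξ υ U V) (i : ℕ) (hi' : i + 1 < 2 * e) :
    Filter.Tendsto (fun k => (∑ j ∈ Finset.range i, a k (j + 1) (i - j) *
      (U k (j + 1) * V k (i - j))) / (t k : ℂ) ^ (2 * m * (4 * e + (i + 1) - 1))) 𝓤 (nhds 0) := by
  have hm := hS.hm
  have he := hS.he
  obtain ⟨C, hC⟩ := raw hS
  have h : Filter.Tendsto (fun k => ∑ j ∈ Finset.range i, a k (j + 1) (i - j) *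
      (U k (j + 1) * V k (i - j)) / (t k : ℂ) ^ (2 * m * (4 * e + (i + 1) - 1))) 𝓤
        (nhds (∑ j ∈ Finset.range i, (0 : ℂ))) := by
    refine tendsto_finsetSum _ fun j hj => ?_
    have hj := Finset.mem_range.1 hj
    refine CH_term (a := fun k => a k (j + 1) (i - j)) (f := fun k => U k (j + 1) * V k (i - j))
      hS.tpos hS.t0 (hS.a1 _ _) (C := C * C) (p := 8 * e * m + 8 * e * m) ?_ ?_
    · have h1 : 4 * e + (i + 1) - 1 ≤ 6 * e - 2 := by omega
      have h2 : 2 * m * (4 * e + (i + 1) - 1) ≤ 2 * m * (6 * e - 2) := Nat.mul_le_mul_left _ h1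
      have h3 : 2 * m * (6 * e - 2) < 2 * m * (8 * e) := by
        apply Nat.mul_lt_mul_of_pos_left <;> omega
      have h4 : 2 * m * (8 * e) = 8 * e * m + 8 * e * m := by ring
      omega
    · filter_upwards [hC] with k hk
      have h1 := (hk (j + 1) (by intro hd; have := Nat.le_of_dvd (by omega) hd; omega)).1
      have h2 := (hk (i - j) (by intro hd; have := Nat.le_of_dvd (by omega) hd; omega)).2
      rw [norm_mul, pow_add]
      calc ‖U k (j + 1)‖ * ‖V k (i - j)‖ ≤ (C * t k ^ (8 * e * m)) * (C * t k ^ (8 * e * m)) :=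
            mul_le_mul h1 h2 (norm_nonneg _) ((norm_nonneg _).trans h1)
        _ = C * C * (t k ^ (8 * e * m) * t k ^ (8 * e * m)) := by ring
  rw [Finset.sum_const_zero] at h
  refine h.congr fun k => ?_
  rw [Finset.sum_div]

/-- the sum in the first equation is small -/
private theorem CH_E1 (hS : NearSeq 𝓤 n e m t a μ ξ υ U V) (i : ℕ) (hi : 1 ≤ i)
    (hi' : i < 2 * e) :
    Filter.Tendsto (fun k => (∑ j ∈ Finset.range (2 * n - i + 1), a k j (2 * n - i - j) *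
      (U k j * V k (2 * n - i - j))) / (t k : ℂ) ^ (2 * m * (4 * e + i - 1))) 𝓤 (nhds 0) := by
  have hm := hS.hm
  have he := hS.he
  have hn := hS.hn
  obtain ⟨C, hC⟩ := raw hS
  obtain ⟨C', hC'⟩ := coarse hS
  have hR : 2 * m * (4 * e + i - 1) < 8 * e * m + (4 * e + 1) * m := by
    have h1 : 4 * e + i - 1 ≤ 6 * e - 2 := by omega
    have h2 : 2 * m * (4 * e + i - 1) ≤ 2 * m * (6 * e - 2) := Nat.mul_le_mul_left _ h1
    have h3 : 2 * m * (6 * e - 2) < 2 * m * (6 * e) := by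
      apply Nat.mul_lt_mul_of_pos_left <;> omega
    have h4 : 2 * m * (6 * e) = 8 * e * m + 4 * e * m := by ring
    have h5 : (4 * e + 1) * m = 4 * e * m + m := by ring
    omega
  have hp : (4 * e + 1) * m ≤ 8 * e * m := Nat.mul_le_mul_right _ (by omega)
  have hn2 : 2 * n = 2 * e * (2 * m + 1) := by rw [hn]; ring
  have hen : 3 * e ≤ n := by
    have h1 : e * 3 ≤ e * (2 * m + 1) := Nat.mul_le_mul_left _ (by omega)
    omega
  -- bounds for large indices
  have key : ∀ᶠ k in 𝓤, ∀ α, n < α + 2 * e → α ≤ n →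
      (‖U k α‖ ≤ (|C| + |C'|) * t k ^ ((4 * e + 1) * m)) ∧
      (‖V k α‖ ≤ (|C| + |C'|) * t k ^ ((4 * e + 1) * m)) := by
    filter_upwards [hC, hC', CH_le1 hS] with k h1 h2 h3 α hα hα'
    have ht := hS.tpos k
    by_cases hd : 2 * e ∣ α
    · obtain ⟨γ, rfl⟩ := hd
      have hγ : m ≤ γ := by
        by_contra hc
        have : γ + 1 ≤ m := by omega
        have h4 : 2 * e * (γ + 1) ≤ 2 * e * m := Nat.mul_le_mul_left _ this
        have h5 : 2 * e * (γ + 1) = 2 * e * γ + 2 * e := by ring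
        have h6 : n = 2 * e * m + e := by rw [hn]; ring
        omega
      have h4 : t k ^ ((4 * e + 1) * γ) ≤ t k ^ ((4 * e + 1) * m) :=
        pow_le_pow_of_le_one ht.le h3 (Nat.mul_le_mul_left _ hγ)
      have h5 : C' * t k ^ ((4 * e + 1) * γ) ≤ (|C| + |C'|) * t k ^ ((4 * e + 1) * m) := by
        have : 0 ≤ t k ^ ((4 * e + 1) * γ) := by positivity
        calc C' * t k ^ ((4 * e + 1) * γ) ≤ (|C| + |C'|) * t k ^ ((4 * e + 1) * γ) := by
              gcongr; exact (le_abs_self _).trans (le_add_of_nonneg_left (abs_nonneg _))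
          _ ≤ _ := by gcongr
      exact ⟨(h2 γ).1.trans h5, (h2 γ).2.trans h5⟩
    · have h4 : t k ^ (8 * e * m) ≤ t k ^ ((4 * e + 1) * m) :=
        pow_le_pow_of_le_one ht.le h3 hp
      have h5 : C * t k ^ (8 * e * m) ≤ (|C| + |C'|) * t k ^ ((4 * e + 1) * m) := by
        have : 0 ≤ t k ^ (8 * e * m) := by positivity
        calc C * t k ^ (8 * e * m) ≤ (|C| + |C'|) * t k ^ (8 * e * m) := by
              gcongr; exact (le_abs_self _).trans (le_add_of_nonneg_right (abs_nonneg _))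
          _ ≤ _ := by gcongr
      exact ⟨(h1 α hd).1.trans h5, (h1 α hd).2.trans h5⟩
  have h : Filter.Tendsto (fun k => ∑ j ∈ Finset.range (2 * n - i + 1), a k j (2 * n - i - j) *
      (U k j * V k (2 * n - i - j)) / (t k : ℂ) ^ (2 * m * (4 * e + i - 1))) 𝓤
        (nhds (∑ j ∈ Finset.range (2 * n - i + 1), (0 : ℂ))) := by
    refine tendsto_finsetSum _ fun j hj => ?_
    have hj := Finset.mem_range.1 hj
    by_cases hj1 : n < j
    · refine tendsto_const_nhds.congr fun k => ?_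
      rw [hS.Un k j hj1]; simp
    by_cases hj2 : n ≤ 2 * n - i - j
    · refine tendsto_const_nhds.congr fun k => ?_
      rw [hS.Vn k _ hj2]; simp
    refine CH_term (a := fun k => a k j (2 * n - i - j))
      (f := fun k => U k j * V k (2 * n - i - j))
      hS.tpos hS.t0 (hS.a1 _ _) (C := |C| * (|C| + |C'|)) hR ?_
    filter_upwards [hC, key] with k hk hk2
    have ht := hS.tpos k
    have hα := hk2 j (by omega) (by omega)
    have hβ := hk2 (2 * n - i - j) (by omega) (by omega)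
    have hnd : ¬ (2 * e ∣ j) ∨ ¬ (2 * e ∣ 2 * n - i - j) := by
      by_contra hc
      push Not at hc
      have h1 : 2 * e ∣ j + (2 * n - i - j) := dvd_add hc.1 hc.2
      have h2 : j + (2 * n - i - j) = 2 * n - i := by omega
      rw [h2] at h1
      have h3 : 2 * e ∣ 2 * n := by rw [hn2]; exact dvd_mul_right _ _
      have h4 : 2 * e ∣ 2 * n - (2 * n - i) := Nat.dvd_sub h3 h1
      have h5 : 2 * n - (2 * n - i) = i := by omega
      rw [h5] at h4
      have := Nat.le_of_dvd (by omega) h4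
      omega
    have hpos1 : 0 ≤ t k ^ (8 * e * m) := by positivity
    have hpos2 : 0 ≤ t k ^ ((4 * e + 1) * m) := by positivity
    have hCC : C * t k ^ (8 * e * m) ≤ |C| * t k ^ (8 * e * m) := by
      gcongr; exact le_abs_self _
    rw [norm_mul, pow_add]
    rcases hnd with hd | hd
    · have h1 := (hk _ hd).1.trans hCC
      calc ‖U k j‖ * ‖V k (2 * n - i - j)‖
          ≤ (|C| * t k ^ (8 * e * m)) * ((|C| + |C'|) * t k ^ ((4 * e + 1) * m)) :=
            mul_le_mul h1 hβ.2 (norm_nonneg _) (by positivity)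
        _ = _ := by ring
    · have h1 := (hk _ hd).2.trans hCC
      calc ‖U k j‖ * ‖V k (2 * n - i - j)‖
          ≤ ((|C| + |C'|) * t k ^ ((4 * e + 1) * m)) * (|C| * t k ^ (8 * e * m)) :=
            mul_le_mul hα.1 h1 (norm_nonneg _) (by positivity)
        _ = _ := by ring
  rw [Finset.sum_const_zero] at h
  refine h.congr fun k => ?_
  rw [Finset.sum_div]

private theorem CH_ne (hS : NearSeq 𝓤 n e m t a μ ξ υ U V) (ξ₀ : ℂ)
    (hξ : Filter.Tendsto ξ 𝓤 (nhds ξ₀)) : ξ₀ ≠ 0 := by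
  have h1 : Filter.Tendsto (fun k => ‖ξ k‖) 𝓤 (nhds ‖ξ₀‖) := hξ.norm
  have h2 : Filter.Tendsto (fun k => ‖ξ k‖) 𝓤 (nhds 1) :=
    tendsto_const_nhds.congr fun k => (hS.nξ k).symm
  have h3 := tendsto_nhds_unique h1 h2
  intro h
  rw [h, norm_zero] at h3
  exact zero_ne_one h3

private theorem CH_step (hS : NearSeq 𝓤 n e m t a μ ξ υ U V) (ξ₀ υ₀ : ℂ)
    (hξ : Filter.Tendsto ξ 𝓤 (nhds ξ₀)) (hυ : Filter.Tendsto υ 𝓤 (nhds υ₀)) (i : ℕ)
    (hi' : i + 1 < 2 * e)
    (hL : Filter.Tendsto (fun k => lam e m (t k) (i + 1) * conj (V k i)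
      / (t k : ℂ) ^ (2 * m * (4 * e + (i + 1) - 1))) 𝓤 (nhds ((υ₀ / ξ₀) ^ i))) :
    Filter.Tendsto (fun k => U k (i + 1) / (t k : ℂ) ^ (2 * m * (4 * e + (i + 1) - 1))) 𝓤
      (nhds (-conj ((υ₀ / ξ₀) ^ (i + 1)))) ∧
    Filter.Tendsto (fun k => V k (i + 1) / (t k : ℂ) ^ (2 * m * (4 * e + (i + 1) - 1))) 𝓤
      (nhds (conj ((υ₀ / ξ₀) ^ (i + 1)))) := by
  have hm := hS.hm
  have he := hS.he
  have hn := hS.hn
  have hn3 : n = 2 * e * m + e := by rw [hn]; ring
  have hem : 2 * e ≤ 2 * e * m := Nat.le_mul_of_pos_right _ (by omega)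
  have hξ0 := CH_ne hS ξ₀ hξ
  set R := 2 * m * (4 * e + (i + 1) - 1) with hRdef
  have hnd : ¬ (2 * e ∣ i + 1) := by intro hd; have := Nat.le_of_dvd (by omega) hd; omega
  -- limit of μ ξ conj U / t^R
  have h1 : Filter.Tendsto (fun k => (μ k (i + 1) * ξ k) * (conj (U k (i + 1)) / (t k : ℂ) ^ R)) 𝓤
      (nhds (-(υ₀ * (υ₀ / ξ₀) ^ i))) := by
    have h2 := (CH_E1 hS (i + 1) (by omega) hi').neg.sub (hυ.mul hL)
    rw [neg_zero, zero_sub] at h2
    refine h2.congr fun k => ?_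
    have h3 := hS.E1 k (i + 1) (by omega) (by omega)
    rw [if_neg hnd, Nat.add_sub_cancel] at h3
    have h4 : μ k (i + 1) * (ξ k * conj (U k (i + 1)))
        = -(∑ j ∈ Finset.range (2 * n - (i + 1) + 1), a k j (2 * n - (i + 1) - j) *
          (U k j * V k (2 * n - (i + 1) - j)))
          - lam e m (t k) (i + 1) * (υ k * conj (V k i)) := by
      linear_combination h3
    have h5 : μ k (i + 1) * ξ k * (conj (U k (i + 1)) / (t k : ℂ) ^ R)
        = μ k (i + 1) * (ξ k * conj (U k (i + 1))) / (t k : ℂ) ^ R := by ring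
    rw [h5, h4, sub_div, neg_div]
    congr 1
    ring
  have h2 : Filter.Tendsto (fun k => μ k (i + 1) * ξ k) 𝓤 (nhds ξ₀) := by
    have := (hS.μ1 (i + 1)).mul hξ
    rwa [one_mul] at this
  have h3 : Filter.Tendsto (fun k => conj (U k (i + 1)) / (t k : ℂ) ^ R) 𝓤
      (nhds (-(υ₀ / ξ₀) ^ (i + 1))) := by
    have := CH_div hξ0 h2 h1
    convert this using 2
    rw [pow_succ, neg_div]
    congr 1
    field_simp
  have hU : Filter.Tendsto (fun k => U k (i + 1) / (t k : ℂ) ^ R) 𝓤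
      (nhds (-conj ((υ₀ / ξ₀) ^ (i + 1)))) := by
    have h4 := (Complex.continuous_conj.tendsto _).comp h3
    rw [map_neg] at h4
    refine h4.congr fun k => ?_
    simp only [Function.comp_apply, map_div₀, map_pow, Complex.conj_conj, Complex.conj_ofReal]
  refine ⟨hU, ?_⟩
  have h4 : Filter.Tendsto (fun k => a k 0 (i + 1) * (V k (i + 1) / (t k : ℂ) ^ R)) 𝓤
      (nhds (conj ((υ₀ / ξ₀) ^ (i + 1)))) := by
    have h5 := ((CH_E2 hS i hi').add ((hS.a1 (i + 1) 0).mul hU)).neg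
    rw [zero_add, one_mul, neg_neg] at h5
    refine h5.congr fun k => ?_
    have h6 := hS.E2 k (i + 1) (by omega) (by omega)
    rw [Finset.sum_range_succ, Finset.sum_range_succ'] at h6
    simp only [Nat.sub_self, Nat.sub_zero, hS.U0 k, hS.V0 k, one_mul, mul_one,
      Nat.add_sub_add_right] at h6
    have h7 : a k 0 (i + 1) * V k (i + 1)
        = -((∑ j ∈ Finset.range i, a k (j + 1) (i - j) * (U k (j + 1) * V k (i - j)))
          + a k (i + 1) 0 * U k (i + 1)) := by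
      linear_combination h6
    rw [← mul_div_assoc, ← mul_div_assoc, h7, neg_div, add_div]
  have := CH_div one_ne_zero (hS.a1 0 (i + 1)) h4
  rwa [div_one] at this

theorem chain {𝓤 : Ultrafilter ℕ} {n e m : ℕ} {t : ℕ → ℝ} {a : ℕ → ℕ → ℕ → ℂ} {μ : ℕ → ℕ → ℂ}
    {ξ υ : ℕ → ℂ} {U V : ℕ → ℕ → ℂ} (hS : NearSeq 𝓤 n e m t a μ ξ υ U V) (ξ₀ υ₀ : ℂ)
    (hξ : Filter.Tendsto ξ 𝓤 (nhds ξ₀)) (hυ : Filter.Tendsto υ 𝓤 (nhds υ₀)) (i : ℕ) (hi : 1 ≤ i)
    (hi' : i < 2 * e) :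
    Filter.Tendsto (fun k => U k i / (t k : ℂ) ^ (2 * m * (4 * e + i - 1))) 𝓤
      (nhds (-conj ((υ₀ / ξ₀) ^ i))) ∧
    Filter.Tendsto (fun k => V k i / (t k : ℂ) ^ (2 * m * (4 * e + i - 1))) 𝓤
      (nhds (conj ((υ₀ / ξ₀) ^ i))) := by
  have hm := hS.hm
  have he := hS.he
  induction i, hi using Nat.le_induction with
  | base =>
    refine CH_step hS ξ₀ υ₀ hξ hυ 0 hi' ?_
    rw [pow_zero]
    refine tendsto_const_nhds.congr fun k => ?_
    have ht : (t k : ℂ) ≠ 0 := by exact_mod_cast (hS.tpos k).ne'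
    rw [hS.V0 k, map_one, mul_one]
    have : 2 * m * (4 * e + (0 + 1) - 1) = 8 * e * m := by
      rw [show 4 * e + (0 + 1) - 1 = 4 * e by omega]; ring
    rw [this, lam, if_pos rfl, div_self (pow_ne_zero _ ht)]
  | succ i hi ih =>
    obtain ⟨-, ihV⟩ := ih (by omega)
    refine CH_step hS ξ₀ υ₀ hξ hυ i hi' ?_
    have h4 := (Complex.continuous_conj.tendsto _).comp ihV
    rw [Complex.conj_conj] at h4
    refine h4.congr fun k => ?_
    have ht : (t k : ℂ) ≠ 0 := by exact_mod_cast (hS.tpos k).ne'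
    simp only [Function.comp_apply, map_div₀, map_pow, Complex.conj_ofReal]
    have h5 : 2 * m * (4 * e + (i + 1) - 1) = 2 * m + 2 * m * (4 * e + i - 1) := by
      rw [show 4 * e + (i + 1) - 1 = 1 + (4 * e + i - 1) by omega]; ring
    rw [h5, pow_add, lam, if_neg (by omega), if_pos ⟨by omega, hi'⟩]
    rw [mul_div_mul_left _ _ (pow_ne_zero _ ht)]

end

end Pool.Agent.AD.CH

namespace Pool.Agent.AD

alias chain := Pool.Agent.AD.CH.chain

end Pool.Agent.AD
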