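import Mathlib
import Pool.Agent.Lib_helper59.AD.Defs

open scoped ComplexConjugate
open Polynomial

namespace Pool.Agent.AD.UL

theorem ulim (𝓤 : Ultrafilter ℕ) (f : ℕ → ℂ) (C : ℝ) (hf : ∀ᶠ k in 𝓤, ‖f k‖ ≤ C) :
    ∃ z, Filter.Tendsto f 𝓤 (nhds z) := by
  have hc : IsCompact (Metric.closedBall (0 : ℂ) C) := isCompact_closedBall 0 C
  have h1 : ((𝓤.map f : Ultrafilter ℂ) : Filter ℂ) ≤ Filter.principal (Metric.closedBall 0 C) := by
    rw [Filter.le_principal_iff]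
    show f ⁻¹' Metric.closedBall 0 C ∈ (𝓤 : Filter ℕ)
    filter_upwards [hf] with k hk
    simpa using hk
  obtain ⟨z, _, hz⟩ := hc.ultrafilter_le_nhds (𝓤.map f) h1
  exact ⟨z, hz⟩

end Pool.Agent.AD.UL

namespace Pool.Agent.AD

alias ulim := Pool.Agent.AD.UL.ulim

end Pool.Agent.AD
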