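import Mathlib
import Pool.Agent.Lib_helper59.AD.Defs
import Pool.Agent.Lib_helper59.AD.BB
import Pool.Agent.Lib_helper59.AD.BE
import Pool.Agent.Lib_helper59.AD.CH
import Pool.Agent.Lib_helper59.AD.UL

/-! MP_f4c587_an, block BL. -/

open scoped ComplexConjugate
open Polynomial

namespace Pool.Agent.AD.BL

private theorem norm_vp (m : ℕ) : ‖vp m‖ = 1 := by
  unfold vp
  have h : (Real.pi : ℂ) * Complex.I / m = ((Real.pi / m : ℝ) : ℂ) * Complex.I := by
    push_cast
    ring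
  rw [h, Complex.norm_exp_ofReal_mul_I]

private theorem lam_top {e : ℕ} (he : 1 ≤ e) (m : ℕ) (t : ℝ) :
    lam e m t (2 * e) = (t : ℂ) ^ (2 * m) * vp m := by
  unfold lam
  rw [if_neg (by omega), if_neg (by omega), if_pos rfl]

/-- a product of limits -/
private theorem tend_of_eq {𝓤 : Ultrafilter ℕ} {f : ℕ → ℂ} {z w : ℂ}
    (h : Filter.Tendsto f 𝓤 (nhds z)) (h' : Filter.Tendsto f 𝓤 (nhds w)) : z = w :=
  tendsto_nhds_unique h h'

theorem block_lim {𝓤 : Ultrafilter ℕ} {n e m : ℕ} {t : ℕ → ℝ} {a : ℕ → ℕ → ℕ → ℂ} {μ : ℕ → ℕ → ℂ}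
    {ξ υ : ℕ → ℂ} {U V : ℕ → ℕ → ℂ} (hS : NearSeq 𝓤 n e m t a μ ξ υ U V) (ξ₀ υ₀ : ℂ)
    (hξ : Filter.Tendsto ξ 𝓤 (nhds ξ₀)) (hυ : Filter.Tendsto υ 𝓤 (nhds υ₀)) :
    ∃ p v : ℕ → ℂ, p 0 = 1 ∧ v 0 = 1 ∧ (∀ i, m < i → p i = 0) ∧ (∀ i, m < i → v i = 0) ∧
      (∀ i, Filter.Tendsto (fun k => U k (2 * e * i) / (t k : ℂ) ^ ((6 * e - 1) * i)) 𝓤
        (nhds (p i))) ∧
      (∀ i, Filter.Tendsto (fun k => V k (2 * e * i) / (t k : ℂ) ^ ((6 * e - 1) * i)) 𝓤
        (nhds (v i))) ∧
      (∀ j, 1 ≤ j → j ≤ 2 * m → ∑ i ∈ Finset.range (j + 1), p i * v (j - i)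
        = if j = 2 * m then -(vp m * υ₀ * (υ₀ / ξ₀) ^ (2 * e - 1)) else 0) := by
  have he := hS.he
  have hm := hS.hm
  have hn := hS.hn
  obtain ⟨C₂, hC₂⟩ := block_eq hS
  have ht1 : ∀ᶠ k in 𝓤, t k < 1 := hS.t0.eventually (gt_mem_nhds one_pos)
  have hbig : ∀ i, m < i → n < 2 * e * i := by
    intro i hi
    have h1 : 2 * e * (m + 1) ≤ 2 * e * i := Nat.mul_le_mul_left _ hi
    have h2 : 2 * e * (m + 1) = e * (2 * m + 1) + e := by ring
    omega
  obtain ⟨s, hs⟩ : ∃ s, 6 * e - 1 = s + 1 := ⟨6 * e - 2, by omega⟩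
  have hs' : 6 * e - 2 = s := by omega
  have hexp : ∀ j, j ≤ 2 * m → (6 * e - 1) * j + 1 ≤ 16 * e * m := by
    intro j hj
    have h5 : (6 * e - 1) * j ≤ (6 * e - 1) * (2 * m) := Nat.mul_le_mul_left _ hj
    have h6 : (6 * e - 1) * (2 * m) + 2 * m = 12 * e * m := by
      have : (6 * e - 1) * (2 * m) + 2 * m = (6 * e - 1 + 1) * (2 * m) := by ring
      rw [this, show 6 * e - 1 + 1 = 6 * e by omega]
      ring
    have h7 : 12 * e * m ≤ 16 * e * m := by nlinarith
    omega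
  -- the last term
  have hV : Filter.Tendsto (fun k => V k (2 * e - 1) / (t k : ℂ) ^ (2 * m * s)) 𝓤
      (nhds (conj ((υ₀ / ξ₀) ^ (2 * e - 1)))) := by
    have h1 := (chain hS ξ₀ υ₀ hξ hυ (2 * e - 1) (by omega) (by omega)).2
    have h2 : 4 * e + (2 * e - 1) - 1 = s := by omega
    rw [h2] at h1
    exact h1
  have htC : ∀ k, (t k : ℂ) ≠ 0 := fun k => Complex.ofReal_ne_zero.2 (hS.tpos k).ne'
  set R : ℕ → ℂ := fun k => lam e m (t k) (2 * e) * (υ k * conj (V k (2 * e - 1))) with hR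
  have hRdiv : ∀ k, R k / (t k : ℂ) ^ ((6 * e - 1) * (2 * m)) =
      vp m * υ k * conj (V k (2 * e - 1) / (t k : ℂ) ^ (2 * m * s)) := by
    intro k
    have h1 : (t k : ℂ) ^ ((6 * e - 1) * (2 * m)) = (t k : ℂ) ^ (2 * m) * (t k : ℂ) ^ (2 * m * s) := by
      rw [← pow_add, hs]
      congr 1
      ring
    have h2 : conj ((t k : ℂ) ^ (2 * m * s)) = (t k : ℂ) ^ (2 * m * s) := by
      rw [map_pow, Complex.conj_ofReal]
    have h3 := pow_ne_zero (2 * m) (htC k)
    have h4 := pow_ne_zero (2 * m * s) (htC k)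
    simp only [hR]
    rw [lam_top he, h1, map_div₀, h2]
    field_simp
  have hRlim : Filter.Tendsto (fun k => R k / (t k : ℂ) ^ ((6 * e - 1) * (2 * m))) 𝓤
      (nhds (vp m * υ₀ * (υ₀ / ξ₀) ^ (2 * e - 1))) := by
    have h1 : Filter.Tendsto (fun k => conj (V k (2 * e - 1) / (t k : ℂ) ^ (2 * m * s))) 𝓤
        (nhds ((υ₀ / ξ₀) ^ (2 * e - 1))) := by
      have h2 := (Complex.continuous_conj.tendsto _).comp hV
      simp only [Complex.conj_conj] at h2
      exact h2
    have h3 := (hυ.const_mul (vp m)).mul h1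
    refine h3.congr fun k => ?_
    rw [hRdiv]
  have hRb : ∀ᶠ k in 𝓤, ‖R k‖ ≤
      (‖vp m * υ₀ * (υ₀ / ξ₀) ^ (2 * e - 1)‖ + 1) * (t k ^ (6 * e - 1)) ^ (2 * m) := by
    have h1 : ∀ᶠ k in 𝓤, ‖R k / (t k : ℂ) ^ ((6 * e - 1) * (2 * m))‖ <
        ‖vp m * υ₀ * (υ₀ / ξ₀) ^ (2 * e - 1)‖ + 1 :=
      hRlim.norm.eventually (gt_mem_nhds (lt_add_one _))
    filter_upwards [h1] with k hk
    have htp := hS.tpos k
    rw [norm_div, norm_pow, Complex.norm_real, Real.norm_of_nonneg htp.le,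
      div_lt_iff₀ (pow_pos htp _)] at hk
    rw [← pow_mul]
    exact hk.le
  set CR : ℝ := ‖vp m * υ₀ * (υ₀ / ξ₀) ^ (2 * e - 1)‖ + 1 with hCR
  have hCR0 : 0 ≤ CR := by positivity
  have key := block_bound 𝓤 m (fun k => t k ^ (6 * e - 1)) (fun k => pow_pos (hS.tpos k) _)
    (fun k i j => a k (2 * e * i) (2 * e * j)) (fun i j => hS.a1 _ _)
    (fun k i => U k (2 * e * i)) (fun k i => V k (2 * e * i))
    (fun k => by simpa using hS.U0 k) (fun k => by simpa using hS.V0 k)
    (fun k i hi => hS.Un k _ (hbig i hi)) (fun k i hi => hS.Vn k _ (hbig i hi).le)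
    (|C₂| + CR) (by
      filter_upwards [hC₂, ht1, hRb] with k h2 h3 hRk j hj hj'
      have htp := hS.tpos k
      have h4 := h2 j hj hj'
      set q : ℂ := ∑ i ∈ Finset.range (j + 1), a k (2 * e * i) (2 * e * (j - i)) *
          (U k (2 * e * i) * V k (2 * e * (j - i))) with hq
      have h7 : t k ^ (16 * e * m) ≤ (t k ^ (6 * e - 1)) ^ j := by
        rw [← pow_mul]
        exact pow_le_pow_of_le_one htp.le h3.le ((Nat.le_succ _).trans (hexp j hj'))
      have h8 : ‖(if j = 2 * m then R k else 0 : ℂ)‖ ≤ CR * (t k ^ (6 * e - 1)) ^ j := by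
        split_ifs with hj2
        · rw [hj2]
          exact hRk
        · rw [norm_zero]
          positivity
      show ‖q‖ ≤ (|C₂| + CR) * (t k ^ (6 * e - 1)) ^ j
      set r : ℂ := (if j = 2 * m then R k else 0 : ℂ) with hr
      have h11 : ‖q‖ ≤ ‖q + r‖ + ‖r‖ := by
        have := norm_sub_le (q + r) r
        rwa [add_sub_cancel_right] at this
      have h12 : ‖q + r‖ ≤ |C₂| * (t k ^ (6 * e - 1)) ^ j := by
        refine h4.trans ?_
        calc C₂ * t k ^ (16 * e * m) ≤ |C₂| * t k ^ (16 * e * m) :=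
              mul_le_mul_of_nonneg_right (le_abs_self _) (pow_nonneg htp.le _)
          _ ≤ _ := mul_le_mul_of_nonneg_left h7 (abs_nonneg _)
      rw [add_mul]
      linarith)
  obtain ⟨C', hC'⟩ := key
  have hlimU : ∀ i, ∃ z, Filter.Tendsto (fun k => U k (2 * e * i) / (t k : ℂ) ^ ((6 * e - 1) * i)) 𝓤
      (nhds z) := by
    intro i
    refine ulim 𝓤 _ C' ?_
    filter_upwards [hC'] with k hk
    have htp := hS.tpos k
    have h1 := (hk i).1
    rw [← pow_mul] at h1
    rw [norm_div, norm_pow, Complex.norm_real, Real.norm_of_nonneg htp.le,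
      div_le_iff₀ (pow_pos htp _)]
    exact h1
  have hlimV : ∀ i, ∃ z, Filter.Tendsto (fun k => V k (2 * e * i) / (t k : ℂ) ^ ((6 * e - 1) * i)) 𝓤
      (nhds z) := by
    intro i
    refine ulim 𝓤 _ C' ?_
    filter_upwards [hC'] with k hk
    have htp := hS.tpos k
    have h1 := (hk i).2
    rw [← pow_mul] at h1
    rw [norm_div, norm_pow, Complex.norm_real, Real.norm_of_nonneg htp.le,
      div_le_iff₀ (pow_pos htp _)]
    exact h1
  choose p hp using hlimU
  choose v hv using hlimV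
  refine ⟨p, v, ?_, ?_, ?_, ?_, hp, hv, ?_⟩
  · refine tend_of_eq (hp 0) ?_
    have : (fun k => U k (2 * e * 0) / (t k : ℂ) ^ ((6 * e - 1) * 0)) = fun _ => 1 := by
      funext k
      simp [hS.U0 k]
    rw [this]
    exact tendsto_const_nhds
  · refine tend_of_eq (hv 0) ?_
    have : (fun k => V k (2 * e * 0) / (t k : ℂ) ^ ((6 * e - 1) * 0)) = fun _ => 1 := by
      funext k
      simp [hS.V0 k]
    rw [this]
    exact tendsto_const_nhds
  · intro i hi
    refine tend_of_eq (hp i) ?_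
    have : (fun k => U k (2 * e * i) / (t k : ℂ) ^ ((6 * e - 1) * i)) = fun _ => 0 := by
      funext k
      rw [hS.Un k _ (hbig i hi), zero_div]
    rw [this]
    exact tendsto_const_nhds
  · intro i hi
    refine tend_of_eq (hv i) ?_
    have : (fun k => V k (2 * e * i) / (t k : ℂ) ^ ((6 * e - 1) * i)) = fun _ => 0 := by
      funext k
      rw [hS.Vn k _ (hbig i hi).le, zero_div]
    rw [this]
    exact tendsto_const_nhds
  · intro j hj hj'
    -- the equation divided by `δ ^ j`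
    set r : ℕ → ℂ := fun k => if j = 2 * m then R k else 0 with hr
    have hr' : Filter.Tendsto (fun k => r k / (t k : ℂ) ^ ((6 * e - 1) * j)) 𝓤
        (nhds (if j = 2 * m then vp m * υ₀ * (υ₀ / ξ₀) ^ (2 * e - 1) else 0)) := by
      by_cases hj2 : j = 2 * m
      · simp only [hr, hj2, if_true]
        exact hRlim
      · simp only [hr, hj2, if_false, zero_div]
        exact tendsto_const_nhds
    have hsum : Filter.Tendsto (fun k => ∑ i ∈ Finset.range (j + 1),
        a k (2 * e * i) (2 * e * (j - i)) * ((U k (2 * e * i) / (t k : ℂ) ^ ((6 * e - 1) * i)) *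
          (V k (2 * e * (j - i)) / (t k : ℂ) ^ ((6 * e - 1) * (j - i))))) 𝓤
        (nhds (∑ i ∈ Finset.range (j + 1), 1 * (p i * v (j - i)))) := by
      apply tendsto_finsetSum
      intro i _
      exact (hS.a1 _ _).mul ((hp i).mul (hv (j - i)))
    have heq : ∀ k, ∑ i ∈ Finset.range (j + 1),
        a k (2 * e * i) (2 * e * (j - i)) * ((U k (2 * e * i) / (t k : ℂ) ^ ((6 * e - 1) * i)) *
          (V k (2 * e * (j - i)) / (t k : ℂ) ^ ((6 * e - 1) * (j - i)))) +
        r k / (t k : ℂ) ^ ((6 * e - 1) * j) =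
        (∑ i ∈ Finset.range (j + 1), a k (2 * e * i) (2 * e * (j - i)) *
          (U k (2 * e * i) * V k (2 * e * (j - i))) + r k) / (t k : ℂ) ^ ((6 * e - 1) * j) := by
      intro k
      rw [add_div, Finset.sum_div]
      congr 1
      apply Finset.sum_congr rfl
      intro i hi
      have hi' : i ≤ j := Nat.lt_succ_iff.1 (Finset.mem_range.1 hi)
      have h1 : (t k : ℂ) ^ ((6 * e - 1) * j) =
          (t k : ℂ) ^ ((6 * e - 1) * i) * (t k : ℂ) ^ ((6 * e - 1) * (j - i)) := by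
        rw [← pow_add, ← Nat.mul_add]
        congr 2
        omega
      have h2 := pow_ne_zero ((6 * e - 1) * i) (htC k)
      have h3 := pow_ne_zero ((6 * e - 1) * (j - i)) (htC k)
      rw [h1]
      field_simp
    have hzero : Filter.Tendsto (fun k => (∑ i ∈ Finset.range (j + 1),
        a k (2 * e * i) (2 * e * (j - i)) * (U k (2 * e * i) * V k (2 * e * (j - i))) + r k) /
          (t k : ℂ) ^ ((6 * e - 1) * j)) 𝓤 (nhds 0) := by
      rw [tendsto_zero_iff_norm_tendsto_zero]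
      have h1 : Filter.Tendsto (fun k => |C₂| * t k) 𝓤 (nhds 0) := by
        have := hS.t0.const_mul |C₂|
        simpa using this
      refine tendsto_of_tendsto_of_tendsto_of_le_of_le' tendsto_const_nhds h1
        (Filter.Eventually.of_forall fun k => norm_nonneg _) ?_
      filter_upwards [hC₂, ht1] with k h2 h3
      have htp := hS.tpos k
      have h4 := h2 j hj hj'
      rw [norm_div, norm_pow, Complex.norm_real, Real.norm_of_nonneg htp.le,
        div_le_iff₀ (pow_pos htp _)]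
      refine h4.trans ?_
      have h5 : t k ^ (16 * e * m) ≤ t k * t k ^ ((6 * e - 1) * j) := by
        rw [← pow_succ']
        exact pow_le_pow_of_le_one htp.le h3.le (hexp j hj')
      calc C₂ * t k ^ (16 * e * m) ≤ |C₂| * t k ^ (16 * e * m) :=
            mul_le_mul_of_nonneg_right (le_abs_self _) (pow_nonneg htp.le _)
        _ ≤ |C₂| * (t k * t k ^ ((6 * e - 1) * j)) :=
            mul_le_mul_of_nonneg_left h5 (abs_nonneg _)
        _ = _ := by ring
    have hfinal := tend_of_eq (hsum.add hr') (by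
      refine hzero.congr fun k => ?_
      exact (heq k).symm)
    simp only [one_mul] at hfinal
    split_ifs with hj2
    · rw [if_pos hj2] at hfinal
      exact eq_neg_of_add_eq_zero_left hfinal
    · rw [if_neg hj2, add_zero] at hfinal
      exact hfinal

end Pool.Agent.AD.BL

namespace Pool.Agent.AD

alias block_lim := Pool.Agent.AD.BL.block_lim

end Pool.Agent.AD
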