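import Mathlib
import Pool.Agent.Lib_helper59.AD.Defs

open scoped ComplexConjugate
open Polynomial

namespace Pool.Agent.AD.EX1

open IntermediateField.algebraAdjoinAdjoin in
theorem ex1_mem_acl {T : Set ℂ} {z : ℂ} :
    z ∈ acl T ↔ z ∈ (AlgebraicIndependent.matroid ℚ ℂ).closure T := by
  rw [AlgebraicIndependent.matroid_closure_eq]
  show z ∈ algebraicClosure (IntermediateField.adjoin ℚ T) ℂ ↔ _
  rw [mem_algebraicClosure_iff, SetLike.mem_coe, Subalgebra.mem_algebraicClosure]
  exact (IsFractionRing.isAlgebraic_iff (Algebra.adjoin ℚ T) (IntermediateField.adjoin ℚ T) ℂ).symm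

theorem ex1_acl_eq (T : Set ℂ) :
    (acl T : Set ℂ) = (AlgebraicIndependent.matroid ℚ ℂ).closure T :=
  Set.ext fun _ => ex1_mem_acl

/-- θ algebraically independent, all θ i algebraic over ℚ(T) -/
theorem acl_card {ι : Type} [Fintype ι] (θ : ι → ℂ) (hθ : AlgebraicIndependent ℚ θ) (T : Finset ℂ)
    (h : ∀ i, θ i ∈ acl (T : Set ℂ)) : Fintype.card ι ≤ T.card := by
  have hI : (AlgebraicIndependent.matroid ℚ ℂ).Indep (Set.range θ) := by
    rw [AlgebraicIndependent.matroid_indep_iff]
    exact hθ.to_subtype_range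
  have hsub : Set.range θ ⊆ (AlgebraicIndependent.matroid ℚ ℂ).closure (T : Set ℂ) := by
    rintro _ ⟨i, rfl⟩
    exact ex1_mem_acl.1 (h i)
  have h1 : (Set.range θ).encard ≤ (T : Set ℂ).encard := by
    rw [← hI.eRk_eq_encard]
    calc _ ≤ (AlgebraicIndependent.matroid ℚ ℂ).eRk
          ((AlgebraicIndependent.matroid ℚ ℂ).closure (T : Set ℂ)) :=
          (AlgebraicIndependent.matroid ℚ ℂ).eRk_mono hsub
      _ = (AlgebraicIndependent.matroid ℚ ℂ).eRk (T : Set ℂ) :=
          (AlgebraicIndependent.matroid ℚ ℂ).eRk_closure_eq _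
      _ ≤ _ := (AlgebraicIndependent.matroid ℚ ℂ).eRk_le_encard _
  have h2 : (Set.range θ).encard = (Fintype.card ι : ℕ∞) := by
    rw [← Set.image_univ, hθ.injective.encard_image]
    simp [Set.encard_univ]
  rw [h2, Set.encard_coe_eq_coe_finsetCard] at h1
  exact_mod_cast h1

theorem acl_count {ι : Type} [Fintype ι] [DecidableEq ι] (θ : ι → ℂ)
    (hθ : AlgebraicIndependent ℚ θ) (J : Finset ι) (T : Finset ℂ)
    (h : ∀ j ∈ J, θ j ∈ acl ((T : Set ℂ) ∪ θ '' {i | i ∉ J})) : J.card ≤ T.card := by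
  classical
  have key : Fintype.card ι ≤ (T ∪ (Finset.univ \ J).image θ).card := by
    refine acl_card θ hθ _ fun i => ?_
    have e : ((T ∪ (Finset.univ \ J).image θ : Finset ℂ) : Set ℂ)
        = (T : Set ℂ) ∪ θ '' {i | i ∉ J} := by
      ext z; simp
    rw [e]
    by_cases hi : i ∈ J
    · exact h i hi
    · refine ex1_mem_acl.2 ?_
      refine (AlgebraicIndependent.matroid ℚ ℂ).subset_closure _ (by simp) ?_
      exact Or.inr ⟨i, hi, rfl⟩
  have h1 : (T ∪ (Finset.univ \ J).image θ).card ≤ T.card + (Finset.univ \ J).card :=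
    (Finset.card_union_le _ _).trans (by gcongr; exact Finset.card_image_le)
  have h2 : (Finset.univ \ J).card = Fintype.card ι - J.card := by
    rw [Finset.card_sdiff_of_subset (Finset.subset_univ J), Finset.card_univ]
  have h3 : J.card ≤ Fintype.card ι := Finset.card_le_univ J
  omega

end Pool.Agent.AD.EX1

namespace Pool.Agent.AD

alias acl_card := Pool.Agent.AD.EX1.acl_card

alias acl_count := Pool.Agent.AD.EX1.acl_count

end Pool.Agent.AD
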