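import Mathlib
import Pool.Agent.Lib_helper59.AD.Defs
import Pool.Agent.Lib_helper59.AD.ACLA
import Pool.Agent.Lib_helper59.AD.EX1

open scoped ComplexConjugate
open Polynomial

namespace Pool.Agent.AD.CNT

open Pool.Agent.AD

/-- elements of `acl S` whose conjugate is in `acl S` -/
noncomputable def KK (S : Set ℂ) : Subfield ℂ :=
  (acl S).toSubfield ⊓ (acl S).toSubfield.comap (starRingEnd ℂ)

theorem mem_KK {S : Set ℂ} {z : ℂ} : z ∈ KK S ↔ z ∈ acl S ∧ conj z ∈ acl S := by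
  rw [KK, Subfield.mem_inf, Subfield.mem_comap]; rfl

theorem conj_KK {S : Set ℂ} {z : ℂ} (hz : z ∈ KK S) : conj z ∈ KK S := by
  rw [mem_KK] at hz ⊢
  exact ⟨hz.2, by rw [Complex.conj_conj]; exact hz.1⟩

theorem I_KK (S : Set ℂ) : Complex.I ∈ KK S := by
  have h := (acl_re_im (T := S) (z := 0) (zero_mem _) (by simp)).2.2
  rw [mem_KK]
  refine ⟨h, ?_⟩
  rw [Complex.conj_I]
  exact neg_mem h

theorem real_KK {S : Set ℂ} {r : ℝ} (hr : (r : ℂ) ∈ acl S) : (r : ℂ) ∈ KK S := by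
  rw [mem_KK, Complex.conj_ofReal]
  exact ⟨hr, hr⟩

theorem reim_KK {S : Set ℂ} {z : ℂ} (hz : z ∈ KK S) :
    (z.re : ℂ) ∈ acl S ∧ (z.im : ℂ) ∈ acl S := by
  rw [mem_KK] at hz
  have h := acl_re_im hz.1 hz.2
  exact ⟨h.1, h.2.1⟩

theorem acl_mono {S S' : Set ℂ} (h : S ⊆ S') : acl S ≤ acl S' :=
  acl_le (h.trans (acl_subset S'))

section
open Classical

/-- value multiplying the parameter `(b, i, j)` in the form of weight `w` -/
noncomputable def tm (𝒟 : ℕ → ℕ → Prop) (x y : ℕ → ℂ) (w : ℕ) (b : Bool) (i j : ℕ) : ℂ :=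
  match b with
  | false => cf w x y i j
  | true => if 𝒟 i j then df w x y i j else 0

/-- the weight of the parameter `(b, i, j)` -/
def wt (b : Bool) (i j : ℕ) : ℕ :=
  match b with
  | false => i + j
  | true => (i - j) + (j - i)

theorem wt_of_tm {𝒟 : ℕ → ℕ → Prop} {x y : ℕ → ℂ} {w : ℕ} {b : Bool} {i j : ℕ}
    (h : tm 𝒟 x y w b i j ≠ 0) : wt b i j = w := by
  cases b
  · simp only [tm, cf] at h
    simp only [wt]
    by_contra hne
    exact h (if_neg hne)
  · simp only [tm, df] at h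
    simp only [wt]
    by_contra hne
    apply h
    rw [if_neg (by omega : ¬ (j + w = i)), if_neg (by omega : ¬ (i ≠ 0 ∧ i + w = j))]
    simp

theorem tm_KK {𝒟 : ℕ → ℕ → Prop} {x y : ℕ → ℂ} {S : Set ℂ} (hx : ∀ j, x j ∈ KK S)
    (hy : ∀ j, y j ∈ KK S) (w : ℕ) (b : Bool) (i j : ℕ) : tm 𝒟 x y w b i j ∈ KK S := by
  have hx' : ∀ j, conj (x j) ∈ KK S := fun j => conj_KK (hx j)
  have hy' : ∀ j, conj (y j) ∈ KK S := fun j => conj_KK (hy j)
  cases b
  · simp only [tm, cf]
    split_ifs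
    · exact add_mem (mul_mem (hx _) (hy _)) (mul_mem (hy _) (hx _))
    · exact zero_mem _
  · simp only [tm, df]
    split_ifs
    · exact add_mem (mul_mem (hx _) (hy' _)) (mul_mem (hy _) (hx' _))
    · exact add_mem (mul_mem (hx' _) (hy _)) (mul_mem (hy' _) (hx _))
    · exact zero_mem _
    · exact zero_mem _

theorem oddF_eq {h : ℕ} (θ : PI h → ℝ) (𝒟 : ℕ → ℕ → Prop) (x y : ℕ → ℂ) (w : ℕ) :
    oddF h (par θ false) (fun i j => if 𝒟 i j then par θ true i j else 0) w x y =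
      ∑ t ∈ (((Finset.range (h + 1)).filter Even) ×ˢ ((Finset.range (h + 1)).filter Odd)) ×ˢ
        (Finset.univ : Finset Bool), par θ t.2 t.1.1 t.1.2 * tm 𝒟 x y w t.2 t.1.1 t.1.2 := by
  rw [Finset.sum_product, Finset.sum_product, oddF]
  refine Finset.sum_congr rfl fun i _ => Finset.sum_congr rfl fun j _ => ?_
  rw [Fintype.sum_bool]
  simp only [tm]
  by_cases hd : 𝒟 i j
  · rw [if_pos hd, if_pos hd]; ring
  · rw [if_neg hd, if_neg hd]; ring

theorem core {h : ℕ} (θ : PI h → ℝ)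
    (𝒟 : ℕ → ℕ → Prop) (x y : ℕ → ℂ) (T : Set ℂ)
    (hx : InAcl T x) (hy : InAcl T y) (W : Finset ℕ)
    (hW : ∀ w ∈ W, oddF h (par θ false) (fun i j => if 𝒟 i j then par θ true i j else 0) w x y = 0 ∧
      seen h 𝒟 w x y) :
    ∃ J0 : Finset (Fin (h + 1) × Fin (h + 1) × Bool × Bool), J0.card = 2 * W.card ∧
      ∀ J : Finset (PI h), (∀ q, Sum.inl q ∈ J ↔ q ∈ J0) →
        ∀ q ∈ J0, (θ (Sum.inl q) : ℂ) ∈ acl (T ∪ (fun i => (θ i : ℂ)) '' {i | i ∉ J}) := by
  -- the choice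
  have hch : ∀ w ∈ W, ∃ t : (ℕ × ℕ) × Bool, t.1.1 ≤ h ∧ t.1.2 ≤ h ∧ Even t.1.1 ∧ Odd t.1.2 ∧
      tm 𝒟 x y w t.2 t.1.1 t.1.2 ≠ 0 := by
    intro w hw
    obtain ⟨i, hi, j, hj, hie, hjo, hc | ⟨hd, hc⟩⟩ := (hW w hw).2
    · exact ⟨((i, j), false), hi, hj, hie, hjo, hc⟩
    · refine ⟨((i, j), true), hi, hj, hie, hjo, ?_⟩
      simp only [tm, if_pos hd]
      exact hc
  choose! s hs1 hs2 hs3 hs4 hs5 using hch
  have hwt : ∀ w ∈ W, wt (s w).2 (s w).1.1 (s w).1.2 = w := fun w hw => wt_of_tm (hs5 w hw)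
  have hinj : ∀ w ∈ W, ∀ w' ∈ W, s w = s w' → w = w' := by
    intro w hw w' hw' he
    rw [← hwt w hw, ← hwt w' hw', he]
  -- index of the parameter
  let F : ℕ × Bool → Fin (h + 1) × Fin (h + 1) × Bool × Bool := fun p =>
    (Fin.ofNat (h + 1) (s p.1).1.1, Fin.ofNat (h + 1) (s p.1).1.2, (s p.1).2, p.2)
  have hv : ∀ a : ℕ, a ≤ h → (Fin.ofNat (h + 1) a).val = a := by
    intro a ha
    exact Nat.mod_eq_of_lt (by omega)
  refine ⟨(W ×ˢ (Finset.univ : Finset Bool)).image F, ?_, ?_⟩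
  · rw [Finset.card_image_of_injOn, Finset.card_product]
    · simp [mul_comm]
    · rintro ⟨w, b⟩ hp ⟨w', b'⟩ hp' he
      have hw : w ∈ W := by simpa using hp
      have hw' : w' ∈ W := by simpa using hp'
      simp only [F, Prod.mk.injEq] at he
      obtain ⟨h1, h2, h3, h4⟩ := he
      have h1' : (s w).1.1 = (s w').1.1 := by
        have := congrArg Fin.val h1
        rwa [hv _ (hs1 w hw), hv _ (hs1 w' hw')] at this
      have h2' : (s w).1.2 = (s w').1.2 := by
        have := congrArg Fin.val h2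
        rwa [hv _ (hs2 w hw), hv _ (hs2 w' hw')] at this
      have : s w = s w' := Prod.ext (Prod.ext h1' h2') h3
      rw [Prod.mk.injEq]
      exact ⟨hinj w hw w' hw' this, h4⟩
  · intro J hJ q hq
    obtain ⟨⟨w, b⟩, hp, rfl⟩ := Finset.mem_image.mp hq
    have hw : w ∈ W := by simpa using hp
    set S : Set ℂ := T ∪ (fun i => (θ i : ℂ)) '' {i | i ∉ J} with hSdef
    have hTS : acl T ≤ acl S := acl_mono Set.subset_union_left
    have hxS : ∀ j, x j ∈ KK S := fun j => mem_KK.mpr ⟨hTS (hx j).1, hTS (hx j).2⟩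
    have hyS : ∀ j, y j ∈ KK S := fun j => mem_KK.mpr ⟨hTS (hy j).1, hTS (hy j).2⟩
    have hθS : ∀ i, i ∉ J → (θ i : ℂ) ∈ KK S := fun i hi =>
      real_KK (acl_subset S (Or.inr ⟨i, hi, rfl⟩))
    -- the other parameters
    have hother : ∀ t : (ℕ × ℕ) × Bool, t.1.1 ≤ h → t.1.2 ≤ h → t ≠ s w →
        par θ t.2 t.1.1 t.1.2 * tm 𝒟 x y w t.2 t.1.1 t.1.2 ∈ KK S := by
      rintro ⟨⟨i, j⟩, c⟩ hi hj hne
      simp only at hi hj ⊢
      by_cases h0 : tm 𝒟 x y w c i j = 0
      · rw [h0, mul_zero]; exact zero_mem _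
      · refine mul_mem ?_ (tm_KK hxS hyS w c i j)
        have hnot : ∀ b', (Sum.inl ((⟨i, by omega⟩ : Fin (h + 1)), (⟨j, by omega⟩ : Fin (h + 1)), c, b') : PI h) ∉ J := by
          intro b' hmem
          rw [hJ, Finset.mem_image] at hmem
          obtain ⟨⟨w', b''⟩, hp', he⟩ := hmem
          have hw' : w' ∈ W := by simpa using hp'
          simp only [F, Prod.mk.injEq] at he
          obtain ⟨h1, h2, h3, h4⟩ := he
          have h1' : (s w').1.1 = i := by
            have := congrArg Fin.val h1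
            rwa [hv _ (hs1 w' hw')] at this
          have h2' : (s w').1.2 = j := by
            have := congrArg Fin.val h2
            rwa [hv _ (hs2 w' hw')] at this
          have hsw : s w' = ((i, j), c) := Prod.ext (Prod.ext h1' h2') h3
          have hww : w' = w := by
            rw [← hwt w' hw', hsw]
            exact wt_of_tm h0
          exact hne (by rw [← hsw, hww])
        rw [par, dif_pos (⟨by omega, by omega⟩ : i < h + 1 ∧ j < h + 1)]
        have : (⟨θ (Sum.inl (⟨i, by omega⟩, ⟨j, by omega⟩, c, false)),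
            θ (Sum.inl (⟨i, by omega⟩, ⟨j, by omega⟩, c, true))⟩ : ℂ) =
            (θ (Sum.inl (⟨i, by omega⟩, ⟨j, by omega⟩, c, false)) : ℂ) +
            (θ (Sum.inl (⟨i, by omega⟩, ⟨j, by omega⟩, c, true)) : ℂ) * Complex.I := by
          apply Complex.ext <;> simp
        rw [this]
        exact add_mem (hθS _ (hnot false)) (mul_mem (hθS _ (hnot true)) (I_KK S))
    have hF := (hW w hw).1
    rw [oddF_eq] at hF
    have hmem : s w ∈ (((Finset.range (h + 1)).filter Even) ×ˢ ((Finset.range (h + 1)).filter Odd)) ×ˢ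
        (Finset.univ : Finset Bool) := by
      simp only [Finset.mem_product, Finset.mem_filter, Finset.mem_range, Finset.mem_univ, and_true]
      exact ⟨⟨by have := hs1 w hw; omega, hs3 w hw⟩, ⟨by have := hs2 w hw; omega, hs4 w hw⟩⟩
    rw [← Finset.add_sum_erase _ _ hmem] at hF
    have hsum : ∑ t ∈ ((((Finset.range (h + 1)).filter Even) ×ˢ ((Finset.range (h + 1)).filter Odd)) ×ˢ
        (Finset.univ : Finset Bool)).erase (s w), par θ t.2 t.1.1 t.1.2 * tm 𝒟 x y w t.2 t.1.1 t.1.2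
        ∈ KK S := by
      refine sum_mem fun t ht => ?_
      rw [Finset.mem_erase] at ht
      obtain ⟨hne, hm⟩ := ht
      simp only [Finset.mem_product, Finset.mem_filter, Finset.mem_range, Finset.mem_univ, and_true] at hm
      exact hother t (by omega) (by omega) hne
    have hpar : par θ (s w).2 (s w).1.1 (s w).1.2 ∈ KK S := by
      have hne := hs5 w hw
      have e : par θ (s w).2 (s w).1.1 (s w).1.2 =
          (-(∑ t ∈ ((((Finset.range (h + 1)).filter Even) ×ˢ ((Finset.range (h + 1)).filter Odd)) ×ˢ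
        (Finset.univ : Finset Bool)).erase (s w), par θ t.2 t.1.1 t.1.2 * tm 𝒟 x y w t.2 t.1.1 t.1.2)) /
          tm 𝒟 x y w (s w).2 (s w).1.1 (s w).1.2 := by
        rw [eq_div_iff hne]
        exact eq_neg_of_add_eq_zero_left hF
      rw [e]
      exact div_mem (neg_mem hsum) (tm_KK hxS hyS _ _ _ _)
    have hri := reim_KK hpar
    rw [par, dif_pos (⟨by have := hs1 w hw; omega, by have := hs2 w hw; omega⟩ :
      (s w).1.1 < h + 1 ∧ (s w).1.2 < h + 1)] at hri
    simp only at hri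
    have e1 : Fin.ofNat (h + 1) (s w).1.1 = ⟨(s w).1.1, by have := hs1 w hw; omega⟩ :=
      Fin.ext (hv _ (hs1 w hw))
    have e2 : Fin.ofNat (h + 1) (s w).1.2 = ⟨(s w).1.2, by have := hs2 w hw; omega⟩ :=
      Fin.ext (hv _ (hs2 w hw))
    simp only [F, e1, e2]
    cases b
    · exact hri.1
    · exact hri.2

end

open Classical in
/-- For w ∈ W choose (i_w, j_w, b_w) ... acl_count. -/
theorem count {h : ℕ} (θ : PI h → ℝ) (hθ : AlgebraicIndependent ℚ (fun i => (θ i : ℂ)))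
    (𝒟 : ℕ → ℕ → Prop) (x y : ℕ → ℂ) (T : Finset ℂ)
    (hx : InAcl (T : Set ℂ) x) (hy : InAcl (T : Set ℂ) y) (W : Finset ℕ)
    (hW : ∀ w ∈ W, oddF h (par θ false) (fun i j => if 𝒟 i j then par θ true i j else 0) w x y = 0 ∧
      seen h 𝒟 w x y) : 2 * W.card ≤ T.card := by
  obtain ⟨J0, hc, hJ⟩ := core θ 𝒟 x y (T : Set ℂ) hx hy W hW
  have := acl_count (fun i => (θ i : ℂ)) hθ (J0.map Function.Embedding.inl) T (by
    intro j hj
    rw [Finset.mem_map] at hj
    obtain ⟨q, hq, rfl⟩ := hj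
    exact hJ (J0.map Function.Embedding.inl) (by simp) q hq)
  rw [Finset.card_map, hc] at this
  exact this

/-- As count, with J enlarged by Sum.inr j₀ -/
theorem countD {h : ℕ} (θ : PI h → ℝ) (hθ : AlgebraicIndependent ℚ (fun i => (θ i : ℂ)))
    (x y : ℕ → ℂ) (T : Finset ℂ)
    (hx : InAcl (T : Set ℂ) x) (hy : InAcl (T : Set ℂ) y) (W : Finset ℕ)
    (hW : ∀ w ∈ W, oddF h (par θ false) (par θ true) w x y = 0 ∧ seen h allD w x y)
    (hD : Dform h (parR θ) x y = 0) (hD' : ∃ j ≤ h, Odd j ∧ (x j * conj (y j)).re ≠ 0) :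
    2 * W.card + 1 ≤ T.card := by
  classical
  obtain ⟨J0, hc, hJ⟩ := core θ allD x y (T : Set ℂ) hx hy W (by
    intro w hw
    have := hW w hw
    simpa [allD] using this)
  obtain ⟨j0, hj0, hodd, hne⟩ := hD'
  let J : Finset (PI h) := insert (Sum.inr ⟨j0, by omega⟩) (J0.map Function.Embedding.inl)
  have hnm : (Sum.inr ⟨j0, by omega⟩ : PI h) ∉ J0.map Function.Embedding.inl := by simp
  have := acl_count (fun i => (θ i : ℂ)) hθ J T (by
    intro j hj
    rw [Finset.mem_insert, Finset.mem_map] at hj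
    rcases hj with rfl | ⟨q, hq, rfl⟩
    · set S : Set ℂ := (T : Set ℂ) ∪ (fun i => (θ i : ℂ)) '' {i | i ∉ J} with hSdef
      have hTS : acl (T : Set ℂ) ≤ acl S := acl_mono Set.subset_union_left
      have hxS : ∀ j, x j ∈ KK S := fun j => mem_KK.mpr ⟨hTS (hx j).1, hTS (hx j).2⟩
      have hyS : ∀ j, y j ∈ KK S := fun j => mem_KK.mpr ⟨hTS (hy j).1, hTS (hy j).2⟩
      have hr : ∀ j, (((x j * conj (y j)).re : ℝ) : ℂ) ∈ acl S := fun j =>
        (reim_KK (mul_mem (hxS j) (conj_KK (hyS j)))).1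
      rw [Dform] at hD
      have hmem : j0 ∈ (Finset.range (h + 1)).filter Odd := by
        rw [Finset.mem_filter, Finset.mem_range]; exact ⟨by omega, hodd⟩
      rw [← Finset.add_sum_erase _ _ hmem] at hD
      have hsum : ((∑ j ∈ ((Finset.range (h + 1)).filter Odd).erase j0,
          parR θ j * (x j * conj (y j)).re : ℝ) : ℂ) ∈ acl S := by
        rw [Complex.ofReal_sum]
        refine sum_mem fun j hj => ?_
        rw [Complex.ofReal_mul]
        refine mul_mem ?_ (hr j)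
        rw [Finset.mem_erase, Finset.mem_filter, Finset.mem_range] at hj
        obtain ⟨hjne, hjh, hjo⟩ := hj
        rw [parR, dif_pos hjh]
        refine acl_subset S (Or.inr ⟨Sum.inr ⟨j, hjh⟩, ?_, rfl⟩)
        simp only [Set.mem_ofPred_eq, J, Finset.mem_insert, Finset.mem_map, not_or]
        refine ⟨fun he => hjne ?_, by simp⟩
        simpa using congrArg (fun t => Sum.elim (fun _ => 0) (fun k : Fin (h + 1) => k.val) t) he
      have e : (θ (Sum.inr ⟨j0, by omega⟩) : ℂ) = (-((∑ j ∈ ((Finset.range (h + 1)).filter Odd).erase j0,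
          parR θ j * (x j * conj (y j)).re : ℝ) : ℂ)) / (((x j0 * conj (y j0)).re : ℝ) : ℂ) := by
        rw [eq_div_iff (by exact_mod_cast hne), ← Complex.ofReal_mul, ← Complex.ofReal_neg]
        congr 1
        rw [parR, dif_pos (by omega : j0 < h + 1)] at hD
        exact eq_neg_of_add_eq_zero_left hD
      rw [e]
      exact div_mem (neg_mem hsum) (hr j0)
    · exact hJ J (by intro q; simp [J]) q hq)
  rw [Finset.card_insert_of_notMem hnm, Finset.card_map, hc] at this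
  exact this

end Pool.Agent.AD.CNT

namespace Pool.Agent.AD

alias count := Pool.Agent.AD.CNT.count

end Pool.Agent.AD
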