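import Mathlib
import Pool.Agent.Lib_helper59.AD.Defs
import Pool.Agent.Lib_helper59.AD.CNT

open scoped ComplexConjugate
open Polynomial

namespace Pool.Agent.AD.CND

/-- As count, with J enlarged by Sum.inr j₀ -/
theorem countD {h : ℕ} (θ : PI h → ℝ) (hθ : AlgebraicIndependent ℚ (fun i => (θ i : ℂ)))
    (x y : ℕ → ℂ) (T : Finset ℂ)
    (hx : InAcl (T : Set ℂ) x) (hy : InAcl (T : Set ℂ) y) (W : Finset ℕ)
    (hW : ∀ w ∈ W, oddF h (par θ false) (par θ true) w x y = 0 ∧ seen h allD w x y)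
    (hD : Dform h (parR θ) x y = 0) (hD' : ∃ j ≤ h, Odd j ∧ (x j * conj (y j)).re ≠ 0) :
    2 * W.card + 1 ≤ T.card :=
  CNT.countD θ hθ x y T hx hy W hW hD hD'

end Pool.Agent.AD.CND

namespace Pool.Agent.AD

alias countD := Pool.Agent.AD.CND.countD

end Pool.Agent.AD
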