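import Mathlib
import Pool.Agent.Lib_helper59.AD.Defs
import Pool.Agent.Lib_helper59.AD.AP

open scoped ComplexConjugate
open Polynomial

namespace Pool.Agent.AD.CO

theorem comb (n r q : ℕ) (hn : n = 2 ^ r * q) (hq : Odd q) (hq3 : 3 ≤ q) (A B : Finset ℕ)
    (hA : ∀ a ∈ A, a ≤ n) (hB : ∀ b ∈ B, 1 ≤ b ∧ b ≤ n) (α β : ℕ) (hα : α ∈ A) (hβ : β ∈ B)
    (hαm : ∀ a ∈ A, α ≤ a) (hβm : ∀ b ∈ B, β ≤ b)
    (h1 : α + β < n) (h2 : ¬ (2 * 2 ^ r ∣ α + β)) (h3 : n - (α + β) ∈ A) (h4 : n ∈ B)
    (W : Finset ℕ)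
    (hW : ∀ k, 1 ≤ k → k ≤ 2 * n - 1 → ((∃ a ∈ A, ∃ b ∈ B, a + b = k) ∨
      (k < n ∧ ¬ (2 * 2 ^ r ∣ k) ∧ n - k ∈ A ∧ n ∈ B)) → k ∈ W) :
    (0 ∈ A → A.card + B.card ≤ W.card + 2) ∧ (0 ∉ A → A.card + B.card ≤ W.card + 1) := by
  have hcd : A.card + B.card - 1 ≤ (Finset.image₂ (· + ·) A B).card :=
    cauchy_davenport_add_of_linearOrder_isCancelAdd (s := A) (t := B) ⟨α, hα⟩ ⟨β, hβ⟩
  set S := Finset.image₂ (· + ·) A B with hS
  have hSm : ∀ s, s ∈ S ↔ ∃ a ∈ A, ∃ b ∈ B, a + b = s := fun s => Finset.mem_image₂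
  have hsub : S.erase (2 * n) ⊆ W := by
    intro s hs
    obtain ⟨hs1, hs2⟩ := Finset.mem_erase.1 hs
    obtain ⟨a, ha, b, hb, hab⟩ := (hSm s).1 hs2
    have e1 := hA a ha
    have e2 := hB b hb
    exact hW s (by omega) (by omega) (Or.inl ⟨a, ha, b, hb, hab⟩)
  have hle := Finset.card_le_card hsub
  have hpe := Finset.pred_card_le_card_erase (s := S) (a := 2 * n)
  have hA1 : 1 ≤ A.card := Finset.card_pos.2 ⟨α, hα⟩
  have hB1 : 1 ≤ B.card := Finset.card_pos.2 ⟨β, hβ⟩
  refine ⟨fun _ => by omega, fun h0 => ?_⟩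
  by_cases hnA : n ∈ A
  swap
  · have h5 : 2 * n ∉ S := by
      intro h
      obtain ⟨a, ha, b, hb, hab⟩ := (hSm _).1 h
      have e1 := hA a ha
      have e2 := hB b hb
      have : a = n := by omega
      exact hnA (this ▸ ha)
    rw [Finset.erase_eq_of_notMem h5] at hle
    omega
  by_cases hge : A.card + B.card ≤ S.card
  · omega
  have hSc : S.card + 1 = A.card + B.card := by omega
  have hβ1 := (hB β hβ).1
  have hα1 : α ≠ 0 := fun h => h0 (h ▸ hα)
  have hA2 : 2 ≤ A.card := by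
    have : ({n - (α + β), n} : Finset ℕ) ⊆ A := by
      intro z hz
      rcases Finset.mem_insert.1 hz with rfl | hz
      · exact h3
      · rw [Finset.mem_singleton.1 hz]; exact hnA
    have h5 := Finset.card_le_card this
    rwa [Finset.card_pair (by omega)] at h5
  have hB2 : 2 ≤ B.card := by
    have : ({β, n} : Finset ℕ) ⊆ B := by
      intro z hz
      rcases Finset.mem_insert.1 hz with rfl | hz
      · exact hβ
      · rw [Finset.mem_singleton.1 hz]; exact h4
    have h5 := Finset.card_le_card this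
    rwa [Finset.card_pair (by omega)] at h5
  obtain ⟨d, hd, ⟨a₀, ha₀, had⟩, hdA, hdB⟩ := ap_lemma n A B hA (fun b hb => (hB b hb).2) hnA h4 hA2
    hB2 hSc
  have hdab : d ∣ α + β := by
    have h5 := hdA _ h3
    have h6 : n - (n - (α + β)) = α + β := by omega
    rwa [h6] at h5
  have hnd : ¬ 2 * 2 ^ r ∣ d := fun h => h2 (h.trans hdab)
  by_cases hlt : d < α + β
  · have hdW : d ∈ W := by
      refine hW d hd (by omega) (Or.inr ⟨by omega, hnd, ?_, h4⟩)
      have : n - d = a₀ := by omega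
      rw [this]; exact ha₀
    have hdS : d ∉ S.erase (2 * n) := by
      intro h
      obtain ⟨a, ha, b, hb, hab⟩ := (hSm _).1 (Finset.mem_of_mem_erase h)
      have e1 := hαm a ha
      have e2 := hβm b hb
      omega
    have h5 : insert d (S.erase (2 * n)) ⊆ W := Finset.insert_subset_iff.2 ⟨hdW, hsub⟩
    have h6 := Finset.card_le_card h5
    rw [Finset.card_insert_of_notMem hdS] at h6
    omega
  · exfalso
    have hle' := Nat.le_of_dvd (by omega) hdab
    have hdeq : d = α + β := by omega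
    have h5 := hdA α hα
    have h6 := hdB β hβ
    have e1 : α ≤ n := hA α hα
    have e2 : β ≤ n := (hB β hβ).2
    have hαβ : α = β := by
      rcases le_total α β with h | h
      · have h7 : d ∣ (n - α) - (n - β) := Nat.dvd_sub h5 h6
        have h8 : (n - α) - (n - β) = β - α := by omega
        rw [h8] at h7
        by_contra hne
        have := Nat.le_of_dvd (by omega) h7
        omega
      · have h7 : d ∣ (n - β) - (n - α) := Nat.dvd_sub h6 h5
        have h8 : (n - β) - (n - α) = α - β := by omega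
        rw [h8] at h7
        by_contra hne
        have := Nat.le_of_dvd (by omega) h7
        omega
    obtain ⟨i, hi⟩ := h5
    have hd2 : d = 2 * α := by omega
    have hnα : n = α * (2 * i + 1) := by
      have h7 : n = α + d * i := by omega
      rw [h7, hd2]; ring
    have h8 : 2 ^ r ∣ α * (2 * i + 1) := by
      rw [← hnα, hn]; exact dvd_mul_right _ _
    have h9 : Nat.Coprime (2 ^ r) (2 * i + 1) := by
      apply Nat.Coprime.pow_left
      rw [Nat.coprime_two_left]
      exact ⟨i, rfl⟩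
    have h10 : 2 ^ r ∣ α := h9.dvd_of_dvd_mul_right h8
    apply hnd
    rw [hd2]
    exact Nat.mul_dvd_mul_left 2 h10

end Pool.Agent.AD.CO

namespace Pool.Agent.AD

alias comb := Pool.Agent.AD.CO.comb

end Pool.Agent.AD
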