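import Mathlib
import Pool.Agent.Lib_helper59.AD.Defs

/-!
# Block CONV: the odd forms on the pairs (even, odd) are the pure forms
-/

open scoped ComplexConjugate
open Polynomial

namespace Pool.Agent.AD.CONV

private lemma sumE (n : ℕ) (f : ℕ → ℂ) :
    ∑ i ∈ (Finset.range (2 * n + 1)).filter Even, f i = ∑ i ∈ Finset.range (n + 1), f (2 * i) := by
  symm
  refine Finset.sum_nbij' (fun i => 2 * i) (fun i => i / 2) ?_ ?_ ?_ ?_ ?_
  · intro i hi
    simp only [Finset.mem_range, Finset.mem_filter] at hi ⊢
    exact ⟨by omega, even_two_mul i⟩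
  · intro i hi
    simp only [Finset.mem_range, Finset.mem_filter] at hi ⊢
    omega
  · intro i hi
    simp
  · intro i hi
    simp only [Finset.mem_range, Finset.mem_filter] at hi
    obtain ⟨k, hk⟩ := hi.2
    omega
  · intro i hi
    rfl

private lemma sumO (n : ℕ) (f : ℕ → ℂ) :
    ∑ j ∈ (Finset.range (2 * n + 1)).filter Odd, f j = ∑ j ∈ Finset.Icc 1 n, f (2 * j - 1) := by
  symm
  refine Finset.sum_nbij' (fun i => 2 * i - 1) (fun i => (i + 1) / 2) ?_ ?_ ?_ ?_ ?_
  · intro i hi
    simp only [Finset.mem_Icc, Finset.mem_range, Finset.mem_filter] at hi ⊢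
    exact ⟨by omega, ⟨i - 1, by omega⟩⟩
  · intro i hi
    simp only [Finset.mem_Icc, Finset.mem_range, Finset.mem_filter] at hi ⊢
    obtain ⟨k, hk⟩ := hi.2
    omega
  · intro i hi
    simp only [Finset.mem_Icc] at hi
    omega
  · intro i hi
    simp only [Finset.mem_range, Finset.mem_filter] at hi
    obtain ⟨k, hk⟩ := hi.2
    omega
  · intro i hi
    rfl

/-- Only i even, j odd; y_i = 0, x_j = 0. i = 2i', j = 2j'-1: cf gives i'+j' = k; df: j+w=i gives i' = j'+k-1 (dml nonzero: i' = n: l k; j = 2n-1, i < 2n impossible), i+w=j gives j' = i'+k, i' ≠ 0 (dml nonzero: j' = n, i' = n-k: μ k). -/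
theorem conv (n : ℕ) (hn : 1 ≤ n) (c : ℕ → ℕ → ℂ) (μ l : ℕ → ℂ) (k : ℕ) (hk : 1 ≤ k) (x y : ℕ → ℂ)
    (hx : EvenV x) (hy : OddV y) :
    oddF (2 * n) c (dml n μ l) (2 * k - 1) x y
      = pF n (fun i j => c (2 * i) (2 * j - 1)) (fun k => if k < n then μ k else 0) l k
          (fun i => x (2 * i)) (fun j => y (2 * j - 1)) := by
  have hyE : ∀ i, y (2 * i) = 0 := fun i => hy _ (even_two_mul i)
  have hxO : ∀ j, 1 ≤ j → x (2 * j - 1) = 0 := fun j hj => hx _ ⟨j - 1, by omega⟩
  unfold oddF
  rw [sumE]
  have h1 : ∀ i ∈ Finset.range (n + 1),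
      ∑ j ∈ (Finset.range (2 * n + 1)).filter Odd,
        (c (2 * i) j * cf (2 * k - 1) x y (2 * i) j
          + dml n μ l (2 * i) j * df (2 * k - 1) x y (2 * i) j)
      = (∑ j ∈ Finset.Icc 1 n,
          (if i + j = k then c (2 * i) (2 * j - 1) * (x (2 * i) * y (2 * j - 1)) else 0))
        + ((if i = n - k then (if k < n then μ k * (conj (x (2 * (n - k))) * y (2 * n - 1)) else 0)
            else 0)
          + (if i = n then l k * (x (2 * n) * conj (y (2 * (n + 1 - k) - 1))) else 0)) := by
    intro i hi
    rw [Finset.mem_range] at hi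
    rw [sumO, Finset.sum_add_distrib]
    congr 1
    · refine Finset.sum_congr rfl fun j hj => ?_
      rw [Finset.mem_Icc] at hj
      unfold cf
      rw [hyE, hxO j hj.1]
      by_cases hij : i + j = k
      · rw [if_pos hij, if_pos (by omega)]
        ring
      · rw [if_neg hij, if_neg (by omega), mul_zero]
    · -- difference terms
      have h2 : ∀ j ∈ Finset.Icc 1 n,
          dml n μ l (2 * i) (2 * j - 1) * df (2 * k - 1) x y (2 * i) (2 * j - 1)
            = (if j = n then (if i = n - k then
                (if k < n then μ k * (conj (x (2 * (n - k))) * y (2 * n - 1)) else 0) else 0) else 0)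
              + (if j = n + 1 - k then
                (if i = n then l k * (x (2 * n) * conj (y (2 * (n + 1 - k) - 1))) else 0) else 0) := by
        intro j hj
        rw [Finset.mem_Icc] at hj
        unfold dml df
        rw [hyE, hxO j hj.1]
        simp only [map_zero, mul_zero, add_zero]
        by_cases hin : i = n
        · subst hin
          rw [if_neg (show ¬ (2 * j - 1 = 2 * i - 1 ∧ 2 * i < 2 * i) by omega), if_pos rfl]
          by_cases hjk : j = i + 1 - k
          · rw [if_pos hjk, if_pos rfl, if_pos (show 2 * j - 1 + (2 * k - 1) = 2 * i by omega)]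
            have e1 : (2 * i + 1 - (2 * j - 1)) / 2 = k := by omega
            rw [e1, hjk]
            by_cases hjn : i + 1 - k = i
            · rw [if_pos hjn]
              rw [if_neg (show ¬ (i = i - k) by omega)]
              simp
            · rw [if_neg hjn]
              simp
          · rw [if_neg hjk, if_neg (show ¬ (2 * j - 1 + (2 * k - 1) = 2 * i) by omega),
              if_neg (show ¬ (2 * i ≠ 0 ∧ 2 * i + (2 * k - 1) = 2 * j - 1) by omega)]
            by_cases hjn : j = i
            · rw [if_pos hjn]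
              rw [if_neg (show ¬ (i = i - k) by omega)]
              simp
            · rw [if_neg hjn]
              simp
        · rw [if_neg (show ¬ (2 * i = 2 * n) by omega), if_neg hin]
          have hz : (if j = n + 1 - k then (0 : ℂ) else 0) = 0 := by split_ifs <;> rfl
          rw [hz, add_zero]
          by_cases hjn : j = n
          · rw [if_pos (show 2 * j - 1 = 2 * n - 1 ∧ 2 * i < 2 * n by omega), if_pos hjn]
            rw [if_neg (show ¬ (2 * j - 1 + (2 * k - 1) = 2 * i) by omega)]
            by_cases hik : i = n - k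
            · rw [if_pos hik]
              by_cases hkn : k < n
              · rw [if_pos hkn, if_pos (show 2 * i ≠ 0 ∧ 2 * i + (2 * k - 1) = 2 * j - 1 by omega)]
                have e1 : n - 2 * i / 2 = k := by omega
                rw [e1, hik, hjn]
              · rw [if_neg hkn,
                  if_neg (show ¬ (2 * i ≠ 0 ∧ 2 * i + (2 * k - 1) = 2 * j - 1) by omega), mul_zero]
            · rw [if_neg hik,
                if_neg (show ¬ (2 * i ≠ 0 ∧ 2 * i + (2 * k - 1) = 2 * j - 1) by omega), mul_zero]
          · rw [if_neg hjn, if_neg (show ¬ (2 * j - 1 = 2 * n - 1 ∧ 2 * i < 2 * n) by omega),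
              zero_mul]
      rw [Finset.sum_congr rfl h2, Finset.sum_add_distrib, Finset.sum_ite_eq', Finset.sum_ite_eq',
        if_pos (show n ∈ Finset.Icc 1 n by rw [Finset.mem_Icc]; omega)]
      congr 1
      by_cases hkn : k ≤ n
      · rw [if_pos (show n + 1 - k ∈ Finset.Icc 1 n by rw [Finset.mem_Icc]; omega)]
      · rw [if_neg (show ¬ (n + 1 - k ∈ Finset.Icc 1 n) by rw [Finset.mem_Icc]; omega)]
        have e0 : y (2 * (n + 1 - k) - 1) = 0 := by
          have : 2 * (n + 1 - k) - 1 = 2 * 0 := by omega
          rw [this]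
          exact hyE 0
        rw [e0]
        simp
  rw [Finset.sum_congr rfl h1, Finset.sum_add_distrib, Finset.sum_add_distrib, Finset.sum_ite_eq',
    Finset.sum_ite_eq', if_pos (show n - k ∈ Finset.range (n + 1) by rw [Finset.mem_range]; omega),
    if_pos (show n ∈ Finset.range (n + 1) by rw [Finset.mem_range]; omega)]
  unfold pF
  rw [add_assoc]
  congr 2
  beta_reduce
  by_cases hkn : k < n
  · rw [if_pos hkn, if_pos hkn]
  · rw [if_neg hkn, if_neg hkn, zero_mul]

end Pool.Agent.AD.CONV

namespace Pool.Agent.AD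

alias conv := Pool.Agent.AD.CONV.conv

end Pool.Agent.AD
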