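import Mathlib
import Pool.Agent.Lib_helper59.AD.Defs

open scoped ComplexConjugate
open Polynomial

namespace Pool.Agent.AD.GE

private theorem ge_countable {ι : Type} [Finite ι] (x : ι → ℂ) :
    Countable (Algebra.adjoin ℚ (Set.range x)) := by
  rw [Algebra.adjoin_range_eq_range_aeval]
  have h1 : Countable (MvPolynomial ι ℚ) := by
    rw [← Cardinal.mk_le_aleph0_iff]
    refine (MvPolynomial.cardinalMk_le_max).trans ?_
    simp
  exact Set.Countable.to_subtype (Set.countable_range _)

private theorem ge_exists {ι : Type} [Finite ι] (x : ι → ℂ) (a δ : ℝ) (hδ : 0 < δ) :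
    ∃ r : ℝ, |r - a| < δ ∧ Transcendental (Algebra.adjoin ℚ (Set.range x)) (r : ℂ) := by
  have h0 := ge_countable x
  have h1 : Set.Countable {z : ℂ | IsAlgebraic (Algebra.adjoin ℚ (Set.range x)) z} :=
    Algebraic.countable _ _
  have h2 : Set.Countable ((fun r : ℝ => (r : ℂ)) ⁻¹'
      {z : ℂ | IsAlgebraic (Algebra.adjoin ℚ (Set.range x)) z}) :=
    h1.preimage_of_injOn Complex.ofReal_injective.injOn
  have h3 : ¬ (Set.Ioo (a - δ) (a + δ)).Countable := by
    intro h
    have := Cardinal.mk_Ioo_real (a := a - δ) (b := a + δ) (by linarith)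
    have h4 := Cardinal.le_aleph0_iff_set_countable.2 h
    rw [this] at h4
    exact absurd Cardinal.aleph0_lt_continuum (not_lt.2 h4)
  by_contra hcon
  apply h3
  refine h2.mono fun r hr => ?_
  by_contra hr2
  exact hcon ⟨r, by rw [abs_lt]; constructor <;> [linarith [hr.1]; linarith [hr.2]], hr2⟩

/-- Induction on a finite enumeration of ι (or on Fintype ι): the algebraic closure of a countable field is countable, so every interval contains a number transcendental over ℚ(previous numbers) (`Cardinal`: interval uncountable; `Algebraic.countable`); `algebraicIndependent` of option/insert: `AlgebraicIndependent.option_iff` / `algebraicIndependent_insert`. Real numbers, viewed in ℂ. -/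
theorem exists_generic {ι : Type} [Fintype ι] (θ₀ : ι → ℝ) (δ : ℝ) (hδ : 0 < δ) :
    ∃ θ : ι → ℝ, (∀ i, |θ i - θ₀ i| < δ) ∧ AlgebraicIndependent ℚ (fun i => (θ i : ℂ)) := by
  have key : ∀ (κ : Type) [Finite κ], ∀ θ₁ : κ → ℝ,
      ∃ θ : κ → ℝ, (∀ i, |θ i - θ₁ i| < δ) ∧ AlgebraicIndependent ℚ (fun i => (θ i : ℂ)) := by
    intro κ hκ
    refine Finite.induction_empty_option (P := fun κ => ∀ θ₁ : κ → ℝ,
      ∃ θ : κ → ℝ, (∀ i, |θ i - θ₁ i| < δ) ∧ AlgebraicIndependent ℚ (fun i => (θ i : ℂ)))
      ?_ ?_ ?_ κ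
    · intro α β e h θ₁
      obtain ⟨θ, h1, h2⟩ := h (fun i => θ₁ (e i))
      refine ⟨fun i => θ (e.symm i), fun i => ?_, ?_⟩
      · have := h1 (e.symm i)
        simpa using this
      · exact h2.comp e.symm e.symm.injective
    · intro θ₁
      refine ⟨θ₁, fun i => i.elim, ?_⟩
      rw [algebraicIndependent_empty_type_iff]
      exact (algebraMap ℚ ℂ).injective
    · intro α hα h θ₁
      obtain ⟨θ, h1, h2⟩ := h (fun i => θ₁ (some i))
      obtain ⟨r, h3, h4⟩ := ge_exists (fun i => (θ i : ℂ)) (θ₁ none) δ hδ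
      refine ⟨fun o => o.elim r θ, ?_, ?_⟩
      · rintro (_ | i)
        · exact h3
        · exact h1 i
      · have h5 := (AlgebraicIndependent.option_iff (a := (r : ℂ))).2 ⟨h2, h4⟩
        have h6 : (fun o : Option α => ((o.elim r θ : ℝ) : ℂ)) =
            fun o : Option α => o.elim (r : ℂ) (fun i => (θ i : ℂ)) := by
          funext o
          rcases o with _ | i <;> rfl
        rw [h6]; exact h5
  exact key ι θ₀

end Pool.Agent.AD.GE

namespace Pool.Agent.AD

alias exists_generic := Pool.Agent.AD.GE.exists_generic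

end Pool.Agent.AD
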