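import Mathlib
import Pool.Agent.Lib_helper59.AD.Defs
-- cites stubs: none

open scoped ComplexConjugate
open Polynomial

namespace Pool.Agent.AD.EVN

open Pool.Agent.AD

/-- the coefficient of `P(-X)` -/
private theorem evn_coeff (P : ℂ[X]) (n : ℕ) : (P.comp (-X)).coeff n = (-1) ^ n * P.coeff n := by
  have h1 : P.comp (-X) = P.comp (C (-1) * X) := by
    congr 1
    simp
  rw [h1, Polynomial.comp_C_mul_X_coeff]
  ring

private theorem evn_deg (P : ℂ[X]) : (P.comp (-X)).natDegree = P.natDegree := by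
  rw [Polynomial.natDegree_comp, Polynomial.natDegree_neg, Polynomial.natDegree_X, mul_one]

private theorem evn_coprime (A B : ℂ[X]) (hA : A ≠ 0)
    (h : ∀ ρ : ℂ, A.eval ρ = 0 → B.eval ρ ≠ 0) : IsCoprime A B := by
  rw [← EuclideanDomain.gcd_isUnit_iff]
  by_contra hc
  have hg : EuclideanDomain.gcd A B ≠ 0 := by
    intro h0
    exact hA (EuclideanDomain.gcd_eq_zero_iff.1 h0).1
  have hd : (EuclideanDomain.gcd A B).degree ≠ 0 := by
    intro hd
    exact hc (Polynomial.isUnit_iff_degree_eq_zero.2 hd)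
  obtain ⟨ρ, hρ⟩ := IsAlgClosed.exists_root (EuclideanDomain.gcd A B) hd
  have h1 : A.eval ρ = 0 := by
    obtain ⟨c, hc'⟩ := EuclideanDomain.gcd_dvd_left A B
    rw [hc', eval_mul, hρ, zero_mul]
  have h2 : B.eval ρ = 0 := by
    obtain ⟨c, hc'⟩ := EuclideanDomain.gcd_dvd_right A B
    rw [hc', eval_mul, hρ, zero_mul]
  exact h ρ h1 h2

theorem evn (P Q : ℂ[X]) (hne : P * Q ≠ 0) (hodd : ∀ n, Even n → (P * Q).coeff n = 0)
    (hs : ∀ ρ : ℂ, ρ ≠ 0 → P.eval ρ = 0 → Q.eval (-ρ) ≠ 0) :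
    ∀ i j, P.coeff i ≠ 0 → P.coeff j ≠ 0 → (Even i ↔ Even j) := by
  have hP : P ≠ 0 := left_ne_zero_of_mul hne
  obtain ⟨P1, hP1, hP1n⟩ := Polynomial.exists_eq_pow_rootMultiplicity_mul_and_not_dvd P hP 0
  rw [C_0, sub_zero] at hP1 hP1n
  set k := P.rootMultiplicity 0 with hk
  have hP10 : P1.coeff 0 ≠ 0 := fun hc => hP1n (Polynomial.X_dvd_iff.2 hc)
  have hP1ne : P1 ≠ 0 := fun hc => hP10 (by rw [hc, coeff_zero])
  have hev0 : P1.eval 0 ≠ 0 := by rwa [← Polynomial.coeff_zero_eq_eval_zero]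
  -- the product is odd
  have hR : (P * Q).comp (-X) = -(P * Q) := by
    ext n
    rw [evn_coeff, coeff_neg]
    rcases Nat.even_or_odd n with h | h
    · rw [hodd n h]
      simp
    · rw [h.neg_one_pow]
      ring
  -- P1 divides P1(-X)
  have hd1 : P1 ∣ (P.comp (-X)) * (Q.comp (-X)) := by
    rw [← Polynomial.mul_comp, hR]
    rw [dvd_neg]
    refine Dvd.dvd.mul_right ?_ _
    rw [hP1]
    exact Dvd.intro_left _ rfl
  have hcop1 : IsCoprime P1 (Q.comp (-X)) := by
    refine evn_coprime _ _ hP1ne ?_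
    intro ρ h1
    have hρ : ρ ≠ 0 := by
      intro hc
      rw [hc] at h1
      exact hev0 h1
    rw [Polynomial.eval_comp, eval_neg, eval_X]
    refine hs ρ hρ ?_
    rw [hP1, eval_mul, h1, mul_zero]
  have hd2 : P1 ∣ P.comp (-X) := hcop1.dvd_of_dvd_mul_right hd1
  have hPcomp : P.comp (-X) = (-1) ^ k * X ^ k * P1.comp (-X) := by
    conv_lhs => rw [hP1]
    rw [Polynomial.mul_comp, Polynomial.pow_comp, X_comp, neg_pow]
  have hcop2 : IsCoprime P1 ((-1) ^ k * X ^ k : ℂ[X]) := by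
    refine evn_coprime _ _ hP1ne ?_
    intro ρ h1
    have hρ : ρ ≠ 0 := by
      intro hc
      rw [hc] at h1
      exact hev0 h1
    rw [eval_mul, eval_pow, eval_pow, eval_X, eval_neg, eval_one]
    exact mul_ne_zero (pow_ne_zero _ (by norm_num)) (pow_ne_zero _ hρ)
  have hd3 : P1 ∣ P1.comp (-X) := by
    rw [hPcomp] at hd2
    exact hcop2.dvd_of_dvd_mul_left hd2
  obtain ⟨u, hu⟩ := hd3
  have hcne : P1.comp (-X) ≠ 0 := by
    intro hc
    have := evn_coeff P1 0
    rw [hc, coeff_zero, pow_zero, one_mul] at this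
    exact hP10 this.symm
  have hune : u ≠ 0 := by
    intro hc
    rw [hc, mul_zero] at hu
    exact hcne hu
  have hud : u.natDegree = 0 := by
    have h1 := congrArg Polynomial.natDegree hu
    rw [evn_deg, Polynomial.natDegree_mul hP1ne hune] at h1
    omega
  obtain ⟨c, hc⟩ := Polynomial.natDegree_eq_zero.1 hud
  have hc1 : c = 1 := by
    have h1 := congrArg (fun p => Polynomial.coeff p 0) hu
    rw [evn_coeff, ← hc, Polynomial.coeff_mul_C, pow_zero, one_mul] at h1
    have h2 : P1.coeff 0 * (c - 1) = 0 := by linear_combination -h1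
    have := (mul_eq_zero.1 h2).resolve_left hP10
    linear_combination this
  have hP1e : ∀ n, P1.coeff n ≠ 0 → Even n := by
    intro n hn
    by_contra hne'
    rw [Nat.not_even_iff_odd] at hne'
    have h1 := congrArg (fun p => Polynomial.coeff p n) hu
    rw [evn_coeff, ← hc, Polynomial.coeff_mul_C, hc1, mul_one, hne'.neg_one_pow] at h1
    apply hn
    have h2 : (2 : ℂ) * P1.coeff n = 0 := by linear_combination -h1
    exact (mul_eq_zero.1 h2).resolve_left two_ne_zero
  have hmain : ∀ i, P.coeff i ≠ 0 → (Even i ↔ Even k) := by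
    intro i hi
    rw [hP1, Polynomial.coeff_X_pow_mul'] at hi
    by_cases hki : k ≤ i
    · rw [if_pos hki] at hi
      have h1 := hP1e _ hi
      obtain ⟨m, hm⟩ := h1
      constructor
      · rintro ⟨a, ha⟩
        exact ⟨a - m, by omega⟩
      · rintro ⟨a, ha⟩
        exact ⟨a + m, by omega⟩
    · rw [if_neg hki] at hi
      exact absurd rfl hi
  intro i j hi hj
  rw [hmain i hi, hmain j hj]

end Pool.Agent.AD.EVN

namespace Pool.Agent.AD

alias evn := Pool.Agent.AD.EVN.evn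

end Pool.Agent.AD
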