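import Mathlib
import Pool.Agent.Lib_helper59.AD.Defs

open scoped ComplexConjugate
open Polynomial

namespace Pool.Agent.AD.EX2

open IntermediateField.algebraAdjoinAdjoin in
theorem ex2_mem_acl {T : Set ℂ} {z : ℂ} :
    z ∈ acl T ↔ z ∈ (AlgebraicIndependent.matroid ℚ ℂ).closure T := by
  rw [AlgebraicIndependent.matroid_closure_eq]
  show z ∈ algebraicClosure (IntermediateField.adjoin ℚ T) ℂ ↔ _
  rw [mem_algebraicClosure_iff, SetLike.mem_coe, Subalgebra.mem_algebraicClosure]
  exact (IsFractionRing.isAlgebraic_iff (Algebra.adjoin ℚ T) (IntermediateField.adjoin ℚ T) ℂ).symm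

/-- range z contains a transcendence basis T of ℚ(range z) -/
theorem acl_basis {ι : Type} [Fintype ι] (z : ι → ℂ) (hz : ¬ AlgebraicIndependent ℚ z) :
    ∃ T : Finset ℂ, T.card < Fintype.card ι ∧ (∀ t ∈ T, ∃ i, z i = t) ∧
      ∀ i, z i ∈ acl (T : Set ℂ) := by
  classical
  obtain ⟨B, hB⟩ := (AlgebraicIndependent.matroid ℚ ℂ).exists_isBasis (Set.range z)
  have hfin : B.Finite := (Set.finite_range z).subset hB.subset
  refine ⟨hfin.toFinset, ?_, ?_, ?_⟩
  · have h1 : hfin.toFinset ⊆ Finset.univ.image z := by
      intro t ht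
      have := hB.subset (hfin.mem_toFinset.1 ht)
      simpa using this
    have h2 : (Finset.univ.image z).card ≤ Fintype.card ι := by
      simpa using (Finset.card_image_le (s := Finset.univ) (f := z))
    refine lt_of_le_of_ne ((Finset.card_le_card h1).trans h2) fun hc => hz ?_
    have h3 : (Finset.univ.image z).card = (Finset.univ : Finset ι).card := by
      rw [Finset.card_univ]
      exact le_antisymm h2 (hc ▸ Finset.card_le_card h1)
    have hinj : Function.Injective z := by
      have := Finset.card_image_iff.1 h3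
      simpa using this
    have h4 : hfin.toFinset = Finset.univ.image z := by
      apply Finset.eq_of_subset_of_card_le h1
      rw [hc]; exact h2
    have h5 : B = Set.range z := by
      have := congrArg (fun s : Finset ℂ => (s : Set ℂ)) h4
      simpa using this
    have h6 := hB.indep
    rw [h5, AlgebraicIndependent.matroid_indep_iff] at h6
    exact (algebraicIndependent_subtype_range hinj).1 h6
  · intro t ht
    have := hB.subset (hfin.mem_toFinset.1 ht)
    simpa using this
  · intro i
    rw [ex2_mem_acl, Set.Finite.coe_toFinset, hB.closure_eq_closure]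
    exact (AlgebraicIndependent.matroid ℚ ℂ).subset_closure _ (by simp) ⟨i, rfl⟩

/-- If y were dependent, acl_basis gives T with card T < card ι -/
theorem acl_indep {ι : Type} [Fintype ι] (z y : ι → ℂ) (hz : AlgebraicIndependent ℚ z)
    (h : ∀ i, z i ∈ acl (Set.range y)) : AlgebraicIndependent ℚ y := by
  by_contra hy
  obtain ⟨T, hT, -, hT2⟩ := acl_basis y hy
  have hI : (AlgebraicIndependent.matroid ℚ ℂ).Indep (Set.range z) := by
    rw [AlgebraicIndependent.matroid_indep_iff]
    exact hz.to_subtype_range
  have hy2 : Set.range y ⊆ (AlgebraicIndependent.matroid ℚ ℂ).closure (T : Set ℂ) := by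
    rintro _ ⟨i, rfl⟩
    exact ex2_mem_acl.1 (hT2 i)
  have hsub : Set.range z ⊆ (AlgebraicIndependent.matroid ℚ ℂ).closure (T : Set ℂ) := by
    rintro _ ⟨i, rfl⟩
    exact (AlgebraicIndependent.matroid ℚ ℂ).closure_subset_closure_of_subset_closure hy2
      (ex2_mem_acl.1 (h i))
  have h1 : (Set.range z).encard ≤ (T : Set ℂ).encard := by
    rw [← hI.eRk_eq_encard]
    calc _ ≤ (AlgebraicIndependent.matroid ℚ ℂ).eRk
          ((AlgebraicIndependent.matroid ℚ ℂ).closure (T : Set ℂ)) :=
          (AlgebraicIndependent.matroid ℚ ℂ).eRk_mono hsub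
      _ = (AlgebraicIndependent.matroid ℚ ℂ).eRk (T : Set ℂ) :=
          (AlgebraicIndependent.matroid ℚ ℂ).eRk_closure_eq _
      _ ≤ _ := (AlgebraicIndependent.matroid ℚ ℂ).eRk_le_encard _
  have h2 : (Set.range z).encard = (Fintype.card ι : ℕ∞) := by
    rw [← Set.image_univ, hz.injective.encard_image]
    simp [Set.encard_univ]
  rw [h2, Set.encard_coe_eq_coe_finsetCard] at h1
  have h3 : Fintype.card ι ≤ T.card := by exact_mod_cast h1
  omega

end Pool.Agent.AD.EX2

namespace Pool.Agent.AD

alias acl_basis := Pool.Agent.AD.EX2.acl_basis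

alias acl_indep := Pool.Agent.AD.EX2.acl_indep

end Pool.Agent.AD
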