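import Mathlib
import Pool.Agent.Lib_helper59.AD.Defs

open scoped ComplexConjugate
open Polynomial

namespace Pool.Agent.AD.FL1

private theorem ext_integral {A B : Type} [CommRing A] [CommRing B] [Algebra A B]
    [FaithfulSMul A B] [Algebra.IsIntegral A B] (φ : A →+* ℂ) :
    ∃ ψ : B →+* ℂ, ∀ a, ψ (algebraMap A B a) = φ a := by
  classical
  have hp : (RingHom.ker φ).IsPrime := RingHom.ker_isPrime φ
  obtain ⟨⟨Q, hQp, hQo⟩⟩ := Ideal.nonempty_primesOver (S := B) (RingHom.ker φ)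
  have := hQp
  have := hQo
  let p := RingHom.ker φ
  let φ' : A ⧸ p →+* ℂ := Ideal.Quotient.lift p φ (fun a ha => ha)
  have hinj : Function.Injective φ' := RingHom.kerLift_injective φ
  letI : Algebra (A ⧸ p) ℂ := φ'.toAlgebra
  have : IsDomain (A ⧸ p) := Ideal.Quotient.isDomain p
  have : IsDomain (B ⧸ Q) := Ideal.Quotient.isDomain Q
  have : FaithfulSMul (A ⧸ p) ℂ := (faithfulSMul_iff_algebraMap_injective _ _).mpr hinj
  have : Algebra.IsIntegral (A ⧸ p) (B ⧸ Q) := inferInstance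
  have : FaithfulSMul (A ⧸ p) (B ⧸ Q) := inferInstance
  have : Module.IsTorsionFree (A ⧸ p) (B ⧸ Q) := inferInstance
  have : Module.IsTorsionFree (A ⧸ p) ℂ := inferInstance
  have : Algebra.IsAlgebraic (A ⧸ p) (B ⧸ Q) := inferInstance
  let f : (B ⧸ Q) →ₐ[A ⧸ p] ℂ := IsAlgClosed.lift
  refine ⟨(f : (B ⧸ Q) →+* ℂ).comp (Ideal.Quotient.mk Q), fun a => ?_⟩
  have h1 : (Ideal.Quotient.mk Q) (algebraMap A B a)
      = algebraMap (A ⧸ p) (B ⧸ Q) (Ideal.Quotient.mk p a) := rfl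
  rw [RingHom.comp_apply, h1]
  exact (f.commutes (Ideal.Quotient.mk p a)).trans (Ideal.Quotient.lift_mk p φ _)

/-- A = adjoin ℚ (range y) ≃ MvPolynomial (hy.aevalEquiv), φ : A → ℂ with φ(y i) = v i. B = integral closure. Let p = ker φ (prime), lying over (`Ideal.exists_ideal_over_prime_of_isIntegral`): prime q of B over p; B/q is an integral (algebraic) extension of the domain A/p, and A/p embeds into ℂ by φ; `IsAlgClosed.lift` extends it to B/q → ℂ. ψ = the composition B → B/q → ℂ. -/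
theorem exists_spec {ι : Type} [Fintype ι] (y v : ι → ℂ) (hy : AlgebraicIndependent ℚ y) :
    ∃ ψ : integralClosure (Algebra.adjoin ℚ (Set.range y)) ℂ →+* ℂ,
      ∀ i, ∀ hi : y i ∈ integralClosure (Algebra.adjoin ℚ (Set.range y)) ℂ,
        ψ ⟨y i, hi⟩ = v i := by
  let A := Algebra.adjoin ℚ (Set.range y)
  let φ : A →+* ℂ := ((MvPolynomial.aeval v).comp hy.aevalEquiv.symm.toAlgHom : A →ₐ[ℚ] ℂ)
  have : Algebra.IsIntegral A (integralClosure A ℂ) := inferInstance
  have : FaithfulSMul A (integralClosure A ℂ) := inferInstance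
  obtain ⟨ψ, hψ⟩ := ext_integral (B := integralClosure A ℂ) φ
  refine ⟨ψ, fun i hi => ?_⟩
  have hyi : y i ∈ A := Algebra.subset_adjoin (Set.mem_range_self i)
  have h1 : (⟨y i, hi⟩ : integralClosure A ℂ) = algebraMap A (integralClosure A ℂ) ⟨y i, hyi⟩ := rfl
  rw [h1, hψ]
  have h2 : hy.aevalEquiv (MvPolynomial.X i) = (⟨y i, hyi⟩ : A) := by
    apply Subtype.ext
    simp
  show (MvPolynomial.aeval v) (hy.aevalEquiv.symm ⟨y i, hyi⟩) = v i
  rw [← h2, AlgEquiv.symm_apply_apply, MvPolynomial.aeval_X]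

end Pool.Agent.AD.FL1

namespace Pool.Agent.AD

alias exists_spec := Pool.Agent.AD.FL1.exists_spec

end Pool.Agent.AD
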