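import Mathlib
import Pool.Agent.Lib_helper59.AD.Defs

open scoped ComplexConjugate
open Polynomial

namespace Pool.Agent.AD.FL2p

/-- coefficients of a monic factor are integral -/
theorem coeff_integral (A : Subalgebra ℚ ℂ) (P Q : ℂ[X]) (hP : P.Monic) (hPQ : (P * Q).Monic)
    (hc : ∀ n, (P * Q).coeff n ∈ A) (n : ℕ) : P.coeff n ∈ integralClosure A ℂ := by
  have hl : P * Q ∈ Polynomial.lifts (algebraMap A ℂ) := by
    rw [Polynomial.lifts_iff_coeff_lifts]
    intro n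
    exact ⟨⟨(P * Q).coeff n, hc n⟩, rfl⟩
  obtain ⟨q, hq, -, hqm⟩ := Polynomial.lifts_and_degree_eq_and_monic hl hPQ
  have hroot : ∀ ρ ∈ P.roots, ρ ∈ integralClosure A ℂ := by
    intro ρ hρ
    refine ⟨q, hqm, ?_⟩
    rw [← Polynomial.eval_map, hq, Polynomial.eval_mul,
      (Polynomial.isRoot_of_mem_roots hρ : P.eval ρ = 0), zero_mul]
  have hlP : P ∈ Polynomial.lifts (algebraMap (integralClosure A ℂ) ℂ) := by
    rw [(IsAlgClosed.splits P).eq_prod_roots_of_monic hP]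
    refine Subsemiring.multiset_prod_mem _ _ ?_
    intro f hf
    obtain ⟨ρ, hρ, rfl⟩ := Multiset.mem_map.1 hf
    rw [Polynomial.mem_lifts]
    refine ⟨X - C ⟨ρ, hroot ρ hρ⟩, ?_⟩
    simp
  obtain ⟨r, hr⟩ := (Polynomial.mem_lifts P).1 hlP
  rw [← hr, Polynomial.coeff_map]
  exact (r.coeff n).2

end Pool.Agent.AD.FL2p

namespace Pool.Agent.AD

alias coeff_integral := Pool.Agent.AD.FL2p.coeff_integral

end Pool.Agent.AD
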