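import Mathlib

/-! # The special polynomials -/

open Polynomial

namespace Pool.Agent.AD

/-- the special polynomials -/
noncomputable def spR (N w : ℕ) (s : ℂ) : ℂ[X] :=
  if w + 2 = N then X ^ N - C (s ^ 2) * X ^ w
  else X ^ N - X ^ (w + 2) + C (s ^ 2 - s ^ (N - w)) * X ^ w

end Pool.Agent.AD
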