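import Mathlib
import Pool.Agent.Lib_helper59.AD.Defs
import Pool.Agent.Lib_helper59.AD.SpR

open scoped ComplexConjugate
open Polynomial

namespace Pool.Agent.AD.FL3

theorem lemG (P Q S : ℂ[X]) (w : ℕ) (s : ℂ) (hP : P.Monic)
    (hPQ : P * Q = X ^ w * (X ^ 2 - C (s ^ 2)) * S) (hS : S ≠ 0) (h1 : P.eval s = 0)
    (h2 : Q.eval (-s) = 0) : ∃ M : Multiset ℂ, P.coeff (P.natDegree - 1) = -(s + M.sum) ∧
      (∀ ρ ∈ M, ρ = 0 ∨ S.eval ρ = 0) ∧ M.card ≤ (X ^ w * S).natDegree := by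
  obtain ⟨P1, rfl⟩ := dvd_iff_isRoot.mpr h1
  obtain ⟨Q1, rfl⟩ := dvd_iff_isRoot.mpr h2
  have hP1 : P1.Monic := (monic_X_sub_C s).of_mul_monic_left hP
  have hne : (X ^ 2 - C (s ^ 2) : ℂ[X]) ≠ 0 := X_pow_sub_C_ne_zero (by norm_num) _
  have hmul : P1 * Q1 = X ^ w * S := by
    apply mul_left_cancel₀ hne
    have e : (X ^ 2 - C (s ^ 2) : ℂ[X]) = (X - C s) * (X - C (-s)) := by
      rw [C_neg, C_pow]; ring
    calc (X ^ 2 - C (s ^ 2)) * (P1 * Q1) = (X - C s) * P1 * ((X - C (-s)) * Q1) := by rw [e]; ring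
      _ = (X ^ 2 - C (s ^ 2)) * (X ^ w * S) := by rw [hPQ]; ring
  have hne2 : (X ^ w * S : ℂ[X]) ≠ 0 := mul_ne_zero (pow_ne_zero _ X_ne_zero) hS
  refine ⟨P1.roots, ?_, ?_, ?_⟩
  · have e1 : P1 = (P1.roots.map fun a => X - C a).prod :=
      (IsAlgClosed.splits P1).eq_prod_roots_of_monic hP1
    have e2 : (X - C s) * P1 = (((s ::ₘ P1.roots)).map fun a => X - C a).prod := by
      rw [Multiset.map_cons, Multiset.prod_cons, ← e1]
    rw [e2, natDegree_multiset_prod_X_sub_C_eq_card, multiset_prod_X_sub_C_coeff_card_pred _ (by simp),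
      Multiset.sum_cons]
  · intro ρ hρ
    have h0 : P1.eval ρ = 0 := (mem_roots hP1.ne_zero).mp hρ
    have : (X ^ w * S).eval ρ = 0 := by rw [← hmul, eval_mul, h0, zero_mul]
    rw [eval_mul, eval_pow, eval_X] at this
    rcases mul_eq_zero.mp this with h | h
    · exact Or.inl (by by_contra hne; exact pow_ne_zero w hne h)
    · exact Or.inr h
  · refine (card_roots' P1).trans ?_
    exact natDegree_le_of_dvd ⟨Q1, hmul.symm⟩ hne2

/-- the cofactor -/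
noncomputable def SS (m : ℕ) (s : ℂ) : ℂ[X] :=
  (∑ i ∈ Finset.range m, (X ^ 2) ^ i * (C (s ^ 2)) ^ (m - 1 - i)) - 1

theorem SS_mul (m : ℕ) (s : ℂ) :
    (X ^ 2 - C (s ^ 2)) * SS m s = X ^ (2 * m) - C (s ^ (2 * m)) - X ^ 2 + C (s ^ 2) := by
  have h := (Commute.all (X ^ 2 : ℂ[X]) (C (s ^ 2))).geom_sum₂_mul m
  rw [SS, mul_sub, mul_comm (X ^ 2 - C (s ^ 2) : ℂ[X]) (∑ i ∈ _, _), h, ← pow_mul, ← C_pow, ← pow_mul]
  ring

theorem SS_root (m : ℕ) (hm : 2 ≤ m) (s : ℝ) (hs : 0 < s) (hs1 : s ^ 2 * (m - 1 : ℝ) ≤ 1 / 2)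
    (hs2 : s ≤ 1) (ρ : ℂ) (h : (SS m s).eval ρ = 0) :
    ‖ρ ^ (2 * (m - 1)) - 1‖ ≤ 2 * (m - 1) * s ^ 2 := by
  obtain ⟨n, rfl⟩ : ∃ n, m = n + 1 := ⟨m - 1, by omega⟩
  have hn : (((n + 1 : ℕ) : ℝ) - 1) = n := by push_cast; ring
  rw [hn] at hs1 ⊢
  simp only [SS, eval_sub, eval_finsetSum, eval_mul, eval_pow, eval_X, eval_C, eval_one] at h
  rw [Finset.sum_range_succ] at h
  simp only [Nat.add_sub_cancel, Nat.sub_self, pow_zero, mul_one] at h ⊢
  set r : ℝ := ‖ρ‖ ^ 2 with hr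
  have hr0 : 0 ≤ r := by positivity
  have hσ : s ^ 2 ≤ 1 := by nlinarith
  have hb : ∀ B : ℝ, (∀ i < n, r ^ i ≤ B) →
      ‖∑ i ∈ Finset.range n, (ρ ^ 2) ^ i * ((s : ℂ) ^ 2) ^ (n - i)‖ ≤ n * (B * s ^ 2) := by
    intro B hB
    refine (norm_sum_le _ _).trans ?_
    have : ∑ i ∈ Finset.range n, ‖(ρ ^ 2) ^ i * ((s : ℂ) ^ 2) ^ (n - i)‖ ≤
        ∑ i ∈ Finset.range n, B * s ^ 2 := by
      refine Finset.sum_le_sum fun i hi => ?_
      rw [Finset.mem_range] at hi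
      rw [norm_mul, norm_pow, norm_pow, norm_pow, norm_pow, Complex.norm_real, Real.norm_eq_abs,
        abs_of_pos hs]
      have h1 : (s ^ 2) ^ (n - i) ≤ s ^ 2 := by
        calc (s ^ 2) ^ (n - i) ≤ (s ^ 2) ^ 1 := pow_le_pow_of_le_one (by positivity) hσ (by omega)
          _ = s ^ 2 := pow_one _
      exact mul_le_mul (hB i hi) h1 (by positivity) ((by positivity : (0:ℝ) ≤ r ^ i).trans (hB i hi))
    refine this.trans ?_
    rw [Finset.sum_const, Finset.card_range, nsmul_eq_mul]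
  have hρ : ρ ^ (2 * n) - 1 = -∑ i ∈ Finset.range n, (ρ ^ 2) ^ i * ((s : ℂ) ^ 2) ^ (n - i) := by
    rw [pow_mul]
    linear_combination h
  have key : ∀ i ≤ n, r ^ i ≤ 2 := by
    rcases le_or_gt r 1 with hr1 | hr1
    · intro i _
      exact (pow_le_one₀ hr0 hr1).trans (by norm_num)
    · have h1 := hb (r ^ n) (fun i hi => pow_le_pow_right₀ hr1.le hi.le)
      have h2 : r ^ n ≤ 1 + n * (r ^ n * s ^ 2) := by
        have : r ^ n = ‖ρ ^ (2 * n)‖ := by rw [norm_pow, hr, pow_mul]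
        rw [this]
        calc ‖ρ ^ (2 * n)‖ = ‖(ρ ^ (2 * n) - 1) + 1‖ := by ring_nf
          _ ≤ ‖ρ ^ (2 * n) - 1‖ + ‖(1 : ℂ)‖ := norm_add_le _ _
          _ ≤ n * (r ^ n * s ^ 2) + 1 := by
              rw [hρ, norm_neg, norm_one]; gcongr
          _ = _ := by rw [this]; ring
      have h3 : r ^ n ≤ 2 := by
        have : (n : ℝ) * (r ^ n * s ^ 2) = r ^ n * (s ^ 2 * n) := by ring
        rw [this] at h2
        have h4 : r ^ n * (s ^ 2 * n) ≤ r ^ n * (1 / 2) :=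
          mul_le_mul_of_nonneg_left hs1 (by positivity)
        linarith
      intro i hi
      exact (pow_le_pow_right₀ hr1.le hi).trans h3
  have h5 := hb 2 (fun i hi => key i hi.le)
  rw [hρ, norm_neg]
  calc _ ≤ (n : ℝ) * (2 * s ^ 2) := h5
    _ = 2 * n * s ^ 2 := by ring

/-- nearest root of unity -/
theorem near_root (n : ℕ) (hn : 0 < n) : ∃ K : ℝ, 0 ≤ K ∧ ∀ ρ : ℂ, ∃ ζ : ℂ, ζ ^ n = 1 ∧
    ‖ρ - ζ‖ ≤ K * ‖ρ ^ n - 1‖ := by
  classical
  set μ : Finset ℂ := nthRootsFinset n (1 : ℂ) with hμ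
  have hmem : ∀ ζ, ζ ∈ μ ↔ ζ ^ n = 1 := fun ζ => mem_nthRootsFinset hn (1 : ℂ)
  have h1 : (1 : ℂ) ∈ μ := (hmem 1).mpr (one_pow n)
  -- separation
  obtain ⟨D, hD0, hD⟩ : ∃ D : ℝ, 0 < D ∧ ∀ ζ ∈ μ, ∀ ζ' ∈ μ, ζ ≠ ζ' → D ≤ ‖ζ - ζ'‖ := by
    by_cases hne : ((μ ×ˢ μ).filter fun p => p.1 ≠ p.2).Nonempty
    · obtain ⟨p, hp, hmin⟩ := Finset.exists_min_image _ (fun p : ℂ × ℂ => ‖p.1 - p.2‖) hne
      refine ⟨‖p.1 - p.2‖, ?_, ?_⟩
      · rw [norm_pos_iff, sub_ne_zero]; exact (Finset.mem_filter.mp hp).2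
      · intro ζ hζ ζ' hζ' hh
        exact hmin (ζ, ζ') (Finset.mem_filter.mpr ⟨Finset.mem_product.mpr ⟨hζ, hζ'⟩, hh⟩)
    · refine ⟨1, one_pos, fun ζ hζ ζ' hζ' hh => ?_⟩
      exact absurd ⟨(ζ, ζ'), Finset.mem_filter.mpr ⟨Finset.mem_product.mpr ⟨hζ, hζ'⟩, hh⟩⟩ hne
  refine ⟨((D / 2) ^ (n - 1))⁻¹, by positivity, fun ρ => ?_⟩
  obtain ⟨ζ, hζ, hmin⟩ := Finset.exists_min_image μ (fun ζ => ‖ρ - ζ‖) ⟨1, h1⟩
  refine ⟨ζ, (hmem ζ).mp hζ, ?_⟩
  have hprod : ρ ^ n - 1 = ∏ z ∈ μ, (ρ - z) := by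
    have := X_pow_sub_one_eq_prod hn (Complex.isPrimitiveRoot_exp n hn.ne')
    have := congrArg (eval ρ) this
    simpa [eval_prod] using this
  have hcard : μ.card = n := (Complex.isPrimitiveRoot_exp n hn.ne').card_nthRootsFinset
  rw [hprod, norm_prod, ← Finset.mul_prod_erase μ _ hζ]
  have hge : (D / 2) ^ (n - 1) ≤ ∏ z ∈ μ.erase ζ, ‖ρ - z‖ := by
    have : (D / 2) ^ (n - 1) = ∏ z ∈ μ.erase ζ, (D / 2) := by
      rw [Finset.prod_const, Finset.card_erase_of_mem hζ, hcard]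
    rw [this]
    refine Finset.prod_le_prod (fun _ _ => by positivity) fun z hz => ?_
    rw [Finset.mem_erase] at hz
    have h3 := hD ζ hζ z hz.2 (Ne.symm hz.1)
    have h4 := hmin z hz.2
    have h5 : ‖ζ - z‖ ≤ ‖ρ - ζ‖ + ‖ρ - z‖ := by
      calc ‖ζ - z‖ = ‖(ρ - z) - (ρ - ζ)‖ := by ring_nf
        _ ≤ ‖ρ - z‖ + ‖ρ - ζ‖ := norm_sub_le _ _
        _ = _ := add_comm _ _
    linarith
  rw [← div_eq_inv_mul, le_div_iff₀ (by positivity)]
  exact mul_le_mul_of_nonneg_left hge (norm_nonneg _)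

/-- sums of multisets -/
theorem min_sum (μ : Finset ℂ) (N : ℕ) : ∃ D : ℝ, 0 < D ∧ ∀ M : Multiset ℂ, M.card ≤ N →
    (∀ z ∈ M, z ∈ μ) → M.sum ≠ 0 → D ≤ ‖M.sum‖ := by
  classical
  set F : Finset ℂ := (((N • μ.val).powerset.map Multiset.sum).toFinset).filter (· ≠ 0) with hF
  have hmem : ∀ M : Multiset ℂ, M.card ≤ N → (∀ z ∈ M, z ∈ μ) → M.sum ≠ 0 → M.sum ∈ F := by
    intro M h1 h2 h3
    rw [hF, Finset.mem_filter, Multiset.mem_toFinset, Multiset.mem_map]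
    refine ⟨⟨M, ?_, rfl⟩, h3⟩
    rw [Multiset.mem_powerset, Multiset.le_iff_count]
    intro a
    rw [Multiset.count_nsmul]
    by_cases ha : a ∈ M
    · have h4 : 1 ≤ μ.val.count a := Multiset.one_le_count_iff_mem.mpr (h2 a ha)
      calc M.count a ≤ M.card := Multiset.count_le_card _ _
        _ ≤ N := h1
        _ = N * 1 := (mul_one _).symm
        _ ≤ N * μ.val.count a := Nat.mul_le_mul_left _ h4
    · rw [Multiset.count_eq_zero_of_notMem ha]; exact Nat.zero_le _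
  by_cases hne : F.Nonempty
  · obtain ⟨z, hz, hmin⟩ := Finset.exists_min_image F (fun z => ‖z‖) hne
    refine ⟨‖z‖, ?_, fun M h1 h2 h3 => hmin _ (hmem M h1 h2 h3)⟩
    rw [norm_pos_iff]
    exact (Finset.mem_filter.mp hz).2
  · exact ⟨1, one_pos, fun M h1 h2 h3 => absurd ⟨_, hmem M h1 h2 h3⟩ hne⟩

theorem special_roots (N w : ℕ) (hw : w + 2 ≤ N) (hpar : Even (N - w)) :
    ∃ s : ℂ, s ≠ 0 ∧ ∀ P Q : ℂ[X], P.Monic → P * Q = spR N w s → P.eval s = 0 → Q.eval (-s) = 0 →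
      P.coeff (P.natDegree - 1) ≠ 0 := by
  classical
  by_cases hN : w + 2 = N
  · refine ⟨1, one_ne_zero, fun P Q hP hPQ h1 h2 => ?_⟩
    rw [spR, if_pos hN] at hPQ
    obtain ⟨M, e1, e2, -⟩ := lemG P Q 1 w 1 hP (by rw [hPQ, ← hN]; ring) one_ne_zero h1 h2
    have h0 : M.sum = 0 := Multiset.sum_eq_zero fun x hx => by
      rcases e2 x hx with h | h
      · exact h
      · simp at h
    rw [e1, h0]; norm_num
  · obtain ⟨m, hm⟩ := hpar
    have hm2 : 2 ≤ m := by omega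
    have hNw : N = w + 2 * m := by omega
    obtain ⟨K, hK0, hK⟩ := near_root (2 * (m - 1)) (by omega)
    set μ : Finset ℂ := insert 0 (nthRootsFinset (2 * (m - 1)) (1 : ℂ)) with hμ
    obtain ⟨D, hD0, hD⟩ := min_sum μ N
    have hm1 : (1 : ℝ) ≤ (m : ℝ) - 1 := by
      have : (2 : ℝ) ≤ m := by exact_mod_cast hm2
      linarith
    -- constants
    set B : ℝ := K * (2 * ((m : ℝ) - 1)) with hB
    have hB0 : 0 ≤ B := by positivity
    set s : ℝ := min (1 / (2 * ((m : ℝ) - 1))) (min (1 / (2 * (N * B + 1))) (D / 4)) with hs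
    have hs0 : 0 < s := by positivity
    have hsa : s ≤ 1 / (2 * ((m : ℝ) - 1)) := min_le_left _ _
    have hsb : s ≤ 1 / (2 * (N * B + 1)) := (min_le_right _ _).trans (min_le_left _ _)
    have hsc : s ≤ D / 4 := (min_le_right _ _).trans (min_le_right _ _)
    have hs1 : s ≤ 1 := hsa.trans (by
      rw [div_le_one (by positivity)]; linarith)
    have hsa' : s ^ 2 * ((m : ℝ) - 1) ≤ 1 / 2 := by
      rw [le_div_iff₀ (by positivity)] at hsa
      nlinarith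
    have hsb' : N * B * s ≤ 1 / 2 := by
      rw [le_div_iff₀ (by positivity)] at hsb
      nlinarith
    have hS0 : SS m s ≠ 0 := by
      intro h0
      have h1 := SS_mul m s
      rw [h0, mul_zero] at h1
      have h2 := congrArg (fun p => coeff p (2 * m)) h1
      simp only [coeff_zero, coeff_add, coeff_sub, coeff_X_pow, coeff_C, if_true] at h2
      rw [if_neg (by omega), if_neg (by omega)] at h2
      norm_num at h2
      rw [if_neg (by omega)] at h2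
      norm_num at h2
    refine ⟨(s : ℂ), by exact_mod_cast hs0.ne', fun P Q hP hPQ h1 h2 => ?_⟩
    rw [spR, if_neg hN] at hPQ
    obtain ⟨M, e1, e2, e3⟩ := lemG P Q (SS m s) w s hP (by
      rw [hPQ, mul_assoc, SS_mul, hNw]
      have : w + 2 * m - w = 2 * m := by omega
      rw [this, C_sub]
      ring) hS0 h1 h2
    have hcard : M.card ≤ N := by
      refine e3.trans ?_
      have h3 : (X ^ 2 - C ((s : ℂ) ^ 2) : ℂ[X]).natDegree = 2 := natDegree_X_pow_sub_C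
      have h4 : (X ^ 2 - C ((s : ℂ) ^ 2) : ℂ[X]) ≠ 0 := X_pow_sub_C_ne_zero (by norm_num) _
      have h5 : ((X ^ 2 - C ((s : ℂ) ^ 2)) * (X ^ w * SS m s) : ℂ[X]).natDegree ≤ N := by
        have : ((X ^ 2 - C ((s : ℂ) ^ 2)) * (X ^ w * SS m s) : ℂ[X]) =
            X ^ w * (X ^ (2 * m) - C ((s : ℂ) ^ (2 * m)) - X ^ 2 + C ((s : ℂ) ^ 2)) := by
          rw [← SS_mul]; ring
        rw [this, hNw]
        refine natDegree_mul_le.trans ?_
        rw [natDegree_X_pow]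
        have : (X ^ (2 * m) - C ((s : ℂ) ^ (2 * m)) - X ^ 2 + C ((s : ℂ) ^ 2) : ℂ[X]).natDegree ≤ 2 * m := by
          compute_degree
          omega
        omega
      rw [natDegree_mul h4 (mul_ne_zero (pow_ne_zero _ X_ne_zero) hS0), h3] at h5
      omega
    rw [e1]
    intro h0
    have hsum : (s : ℂ) + M.sum = 0 := neg_eq_zero.mp h0
    -- approximations
    have hf : ∀ ρ : ℂ, ∃ ζ : ℂ, (ρ = 0 ∨ (SS m s).eval ρ = 0) → ζ ∈ μ ∧ ‖ρ - ζ‖ ≤ B * s ^ 2 := by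
      intro ρ
      by_cases h : ρ = 0 ∨ (SS m s).eval ρ = 0
      · rcases h with h | h
        · exact ⟨0, fun _ => ⟨by rw [hμ]; exact Finset.mem_insert_self _ _, by
            rw [h, sub_zero, norm_zero]; positivity⟩⟩
        · obtain ⟨ζ, hζ1, hζ2⟩ := hK ρ
          refine ⟨ζ, fun _ => ⟨?_, ?_⟩⟩
          · rw [hμ]; exact Finset.mem_insert_of_mem ((mem_nthRootsFinset (by omega) _).mpr hζ1)
          · refine hζ2.trans ?_
            rw [hB, mul_assoc]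
            exact mul_le_mul_of_nonneg_left (SS_root m hm2 s hs0 hsa' hs1 ρ h) hK0
      · exact ⟨0, fun h' => absurd h' h⟩
    choose f hf' using hf
    set M' := M.map f with hM'
    have hM1 : M'.card ≤ N := by rw [hM', Multiset.card_map]; exact hcard
    have hM2 : ∀ z ∈ M', z ∈ μ := by
      intro z hz
      rw [hM', Multiset.mem_map] at hz
      obtain ⟨ρ, hρ, rfl⟩ := hz
      exact (hf' ρ (e2 ρ hρ)).1
    have hdiff : ‖M.sum - M'.sum‖ ≤ N * (B * s ^ 2) := by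
      have : ∀ L : Multiset ℂ, (∀ ρ ∈ L, ρ = 0 ∨ (SS m s).eval ρ = 0) →
          ‖L.sum - (L.map f).sum‖ ≤ L.card * (B * s ^ 2) := by
        intro L
        induction L using Multiset.induction_on with
        | empty => intro _; simp
        | cons a L ih =>
          intro hL
          rw [Multiset.sum_cons, Multiset.map_cons, Multiset.sum_cons, Multiset.card_cons]
          have h3 := ih (fun ρ hρ => hL ρ (Multiset.mem_cons_of_mem hρ))
          have h4 := (hf' a (hL a (Multiset.mem_cons_self _ _))).2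
          have e : a + L.sum - (f a + (L.map f).sum) = (a - f a) + (L.sum - (L.map f).sum) := by ring
          rw [e]
          refine (norm_add_le _ _).trans ?_
          push_cast
          linarith
      refine (this M e2).trans ?_
      have : (M.card : ℝ) ≤ N := by exact_mod_cast hcard
      exact mul_le_mul_of_nonneg_right this (by positivity)
    have hNs : N * (B * s ^ 2) ≤ s / 2 := by nlinarith
    have hMs : M.sum = -(s : ℂ) := by linear_combination hsum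
    have hnorm : ‖M.sum‖ = s := by
      rw [hMs, norm_neg, Complex.norm_real, Real.norm_eq_abs, abs_of_pos hs0]
    by_cases hz : M'.sum = 0
    · rw [hz, sub_zero, hnorm] at hdiff
      linarith
    · have h6 := hD M' hM1 hM2 hz
      have h7 : ‖M'.sum‖ ≤ ‖M.sum‖ + ‖M.sum - M'.sum‖ := by
        calc ‖M'.sum‖ = ‖M.sum - (M.sum - M'.sum)‖ := by ring_nf
          _ ≤ _ := norm_sub_le _ _
      rw [hnorm] at h7
      linarith

end Pool.Agent.AD.FL3

namespace Pool.Agent.AD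

alias special_roots := Pool.Agent.AD.FL3.special_roots

end Pool.Agent.AD
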