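import Mathlib
import Pool.Agent.Lib_helper59.AD.Defs
import Pool.Agent.Lib_helper59.AD.ACLA
import Pool.Agent.Lib_helper59.AD.EX2
import Pool.Agent.Lib_helper59.AD.FL1
import Pool.Agent.Lib_helper59.AD.FL2
import Pool.Agent.Lib_helper59.AD.FL3
import Pool.Agent.Lib_helper59.AD.SpR

open scoped ComplexConjugate
open Polynomial

namespace Pool.Agent.AD.FL4

private theorem coeffR (S' : Finset ℕ) (N : ℕ) (hS : ∀ s ∈ S', s < N) (r : ℕ → ℂ) (n : ℕ) :
    (X ^ N + ∑ s ∈ S', C (r s) * X ^ s : ℂ[X]).coeff n =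
      if n = N then 1 else if n ∈ S' then r n else 0 := by
  rw [coeff_add, coeff_X_pow, finsetSum_coeff]
  simp only [coeff_C_mul, coeff_X_pow, mul_ite, mul_one, mul_zero]
  by_cases hn : n = N
  · subst hn
    rw [if_pos rfl, if_pos rfl, Finset.sum_eq_zero, add_zero]
    intro s hs
    rw [if_neg (by have := hS s hs; omega)]
  · rw [if_neg hn, if_neg hn, zero_add, Finset.sum_ite_eq]

private theorem coeffSp (N w : ℕ) (s : ℂ) (n : ℕ) (h1 : n ≠ w) (h2 : n ≠ w + 2 ∨ w + 2 = N) :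
    (spR N w s).coeff n = if n = N then 1 else 0 := by
  unfold spR
  by_cases h : w + 2 = N
  · rw [if_pos h, coeff_sub, coeff_X_pow, coeff_C_mul, coeff_X_pow, if_neg h1, mul_zero, sub_zero]
  · rw [if_neg h, coeff_add, coeff_sub, coeff_X_pow, coeff_X_pow, coeff_C_mul, coeff_X_pow,
      if_neg h1, mul_zero, add_zero, if_neg (h2.resolve_right h), sub_zero]

private theorem evalSp (N w : ℕ) (hw : w + 2 ≤ N) (s : ℂ) : (spR N w s).eval s = 0 := by
  unfold spR
  by_cases h : w + 2 = N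
  · rw [if_pos h]
    simp only [eval_sub, eval_pow, eval_X, eval_mul, eval_C]
    rw [← h]; ring
  · rw [if_neg h]
    simp only [eval_add, eval_sub, eval_pow, eval_X, eval_mul, eval_C]
    have : s ^ N = s ^ (N - w) * s ^ w := by rw [← pow_add]; congr 1; omega
    rw [this]; ring

theorem flip (S' : Finset ℕ) (N w : ℕ) (hS : ∀ s ∈ S', Odd s ∧ s < N) (hN : Odd N) (hw : w ∈ S')
    (hw2 : w + 2 ∈ S' ∨ w + 2 = N) (r : ℕ → ℂ) (hr : AlgebraicIndependent ℚ (fun s : S' => r s))
    (P Q : ℂ[X]) (hP : P.Monic) (hPQ : P * Q = X ^ N + ∑ s ∈ S', C (r s) * X ^ s)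
    (ρ : ℂ) (hρ : ρ ≠ 0) (h1 : P.eval ρ = 0) (h2 : Q.eval (-ρ) = 0)
    (hc : P.coeff (P.natDegree - 1) = 0) : False := by
  classical
  have hS2 : ∀ s ∈ S', s < N := fun s hs => (hS s hs).2
  have hwN : w + 2 ≤ N := by
    rcases hw2 with h | h
    · exact (hS2 _ h).le
    · exact h.le
  have hpar : Even (N - w) := by
    have h3 := (hS w hw).1
    rcases hN with ⟨a, ha⟩
    rcases h3 with ⟨b, hb⟩
    exact ⟨a - b, by omega⟩
  obtain ⟨σ, hσ0, hσ⟩ := special_roots N w hwN hpar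
  -- the minimum
  set s0 := S'.min' ⟨w, hw⟩ with hs0
  have hs0m : s0 ∈ S' := Finset.min'_mem _ _
  have hs0le : ∀ s ∈ S', s0 ≤ s := fun s hs => Finset.min'_le _ _ hs
  let y : S' → ℂ := fun s => if (s : ℕ) = s0 then ρ else r s
  have hy1 : ∀ s : S', (s : ℕ) ≠ s0 → y s = r s := fun s hs => if_neg hs
  have hy0 : y ⟨s0, hs0m⟩ = ρ := if_pos rfl
  -- the formula for `r s0`
  have hform : r s0 = -(ρ ^ (N - s0) + ∑ s ∈ S'.erase s0, r s * ρ ^ (s - s0)) := by
    have h3 : (P * Q).eval ρ = 0 := by rw [eval_mul, h1, zero_mul]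
    rw [hPQ, eval_add, eval_pow, eval_X, eval_finsetSum] at h3
    simp only [eval_mul, eval_C, eval_pow, eval_X] at h3
    rw [← Finset.add_sum_erase _ _ hs0m] at h3
    have h4 : ρ ^ N = ρ ^ (N - s0) * ρ ^ s0 := by
      rw [← pow_add]; congr 1
      have := hS2 _ hs0m; omega
    have h5 : ∑ s ∈ S'.erase s0, r s * ρ ^ s = (∑ s ∈ S'.erase s0, r s * ρ ^ (s - s0)) * ρ ^ s0 := by
      rw [Finset.sum_mul]
      refine Finset.sum_congr rfl fun s hs => ?_
      have h6 := hs0le s (Finset.mem_of_mem_erase hs)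
      rw [mul_assoc, ← pow_add]
      congr 2
      omega
    rw [h4, h5] at h3
    have h6 : (ρ ^ (N - s0) + (r s0 + ∑ s ∈ S'.erase s0, r s * ρ ^ (s - s0))) * ρ ^ s0 = 0 := by
      rw [← h3]; ring
    rcases mul_eq_zero.1 h6 with h7 | h7
    · linear_combination h7
    · exact absurd h7 (pow_ne_zero _ hρ)
  set A : Subalgebra ℚ ℂ := Algebra.adjoin ℚ (Set.range y) with hA
  have hyA : ∀ s, y s ∈ A := fun s => Algebra.subset_adjoin ⟨s, rfl⟩
  have hρA : ρ ∈ A := hy0 ▸ hyA ⟨s0, hs0m⟩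
  have hrA : ∀ s ∈ S', r s ∈ A := by
    intro s hs
    by_cases h : s = s0
    · rw [h, hform]
      refine neg_mem (add_mem (pow_mem hρA _) (sum_mem fun t ht => mul_mem ?_ (pow_mem hρA _)))
      have ht' := Finset.mem_erase.1 ht
      have := hyA ⟨t, ht'.2⟩
      rwa [hy1 ⟨t, ht'.2⟩ ht'.1] at this
    · have := hyA ⟨s, hs⟩
      rwa [hy1 ⟨s, hs⟩ h] at this
  -- `y` is independent
  have hAacl : ∀ z ∈ A, z ∈ acl (Set.range y) := by
    intro z hz
    have h3 : A ≤ (acl (Set.range y)).toSubalgebra := by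
      rw [hA, Algebra.adjoin_le_iff]
      exact acl_subset _
    exact h3 hz
  have hyind : AlgebraicIndependent ℚ y :=
    acl_indep (fun s : S' => r s) y hr (fun s => hAacl _ (hrA s s.2))
  -- the specialisation
  let T := spR N w σ
  let v : S' → ℂ := fun s => if (s : ℕ) = s0 then σ else T.coeff s
  obtain ⟨ψ, hψ⟩ := exists_spec y v hyind
  have hRc : ∀ n, (P * Q).coeff n = if n = N then 1 else if n ∈ S' then r n else 0 := by
    intro n
    rw [hPQ, coeffR S' N hS2]
  have hRm : (P * Q).Monic := by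
    have hdeg : (P * Q).natDegree ≤ N := by
      rw [natDegree_le_iff_coeff_eq_zero]
      intro n hn
      rw [hRc, if_neg (by omega), if_neg (fun h => by have := hS2 n h; omega)]
    have hcN : (P * Q).coeff N = 1 := by rw [hRc, if_pos rfl]
    exact monic_of_natDegree_le_of_coeff_eq_one N hdeg hcN
  have hQm : Q.Monic := hP.of_mul_monic_left hRm
  have hRA : ∀ n, (P * Q).coeff n ∈ A := by
    intro n
    rw [hRc]
    by_cases hn : n = N
    · rw [if_pos hn]; exact one_mem _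
    · rw [if_neg hn]
      by_cases hn' : n ∈ S'
      · rw [if_pos hn']; exact hrA n hn'
      · rw [if_neg hn']; exact zero_mem _
  have hPB := coeff_integral A P Q hP hRm hRA
  have hQB := coeff_integral A Q P hQm (by rw [mul_comm]; exact hRm)
    (by rw [mul_comm]; exact hRA)
  let f : integralClosure A ℂ →+* ℂ := algebraMap _ _
  have hfinj : Function.Injective f := fun a b h => Subtype.ext h
  obtain ⟨PB, hPBm⟩ : ∃ PB : (integralClosure A ℂ)[X], PB.map f = P := by
    rw [← mem_lifts, lifts_iff_coeff_lifts]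
    intro n
    exact ⟨⟨P.coeff n, hPB n⟩, rfl⟩
  obtain ⟨QB, hQBm⟩ : ∃ QB : (integralClosure A ℂ)[X], QB.map f = Q := by
    rw [← mem_lifts, lifts_iff_coeff_lifts]
    intro n
    exact ⟨⟨Q.coeff n, hQB n⟩, rfl⟩
  have hPBmon : PB.Monic := by
    have : (PB.map f).Monic := by rw [hPBm]; exact hP
    exact Polynomial.monic_of_injective hfinj this
  have hcoeff : ∀ n, f ((PB * QB).coeff n) = (P * Q).coeff n := by
    intro n
    rw [← coeff_map, Polynomial.map_mul, hPBm, hQBm]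
  have hρB : ρ ∈ integralClosure A ℂ := Subalgebra.algebraMap_mem _ (⟨ρ, hρA⟩ : A)
  have hψρ : ψ ⟨ρ, hρB⟩ = σ := by
    have h3 := hψ ⟨s0, hs0m⟩ (by rw [hy0]; exact hρB)
    have h4 : (⟨y ⟨s0, hs0m⟩, by rw [hy0]; exact hρB⟩ : integralClosure A ℂ) = ⟨ρ, hρB⟩ :=
      Subtype.ext hy0
    rw [← h4, h3]
    exact if_pos rfl
  have hev : ∀ (F : (integralClosure A ℂ)[X]) (z : integralClosure A ℂ),
      (F.map f).eval (z : ℂ) = 0 → (F.map ψ).eval (ψ z) = 0 := by
    intro F z hz
    have h3 : f (F.eval z) = 0 := by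
      rw [eval_map] at hz
      exact (eval₂_hom f z).symm.trans hz
    have h4 : F.eval z = 0 := hfinj (by rw [h3, map_zero])
    rw [eval_map, eval₂_hom, h4, map_zero]
  have e1 : (PB.map ψ).eval σ = 0 := by
    rw [← hψρ]
    exact hev PB ⟨ρ, hρB⟩ (by rw [hPBm]; exact h1)
  have e2 : (QB.map ψ).eval (-σ) = 0 := by
    rw [← hψρ, ← map_neg]
    exact hev QB (-⟨ρ, hρB⟩) (by rw [hQBm]; exact h2)
  -- the product
  have hprod : PB.map ψ * QB.map ψ = T := by
    have hdiff : ∀ n, n ≠ s0 → (PB.map ψ * QB.map ψ).coeff n = T.coeff n := by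
      intro n hn
      rw [← Polynomial.map_mul, coeff_map]
      have h3 := hcoeff n
      rw [hRc] at h3
      by_cases hnN : n = N
      · rw [if_pos hnN] at h3
        have h4 : (PB * QB).coeff n = 1 := hfinj (by rw [h3, map_one])
        rw [h4, map_one, coeffSp N w σ n (by omega) (by omega), if_pos hnN]
      · rw [if_neg hnN] at h3
        by_cases hnS : n ∈ S'
        · rw [if_pos hnS] at h3
          have hy3 : y ⟨n, hnS⟩ = r n := hy1 ⟨n, hnS⟩ hn
          have hi : y ⟨n, hnS⟩ ∈ integralClosure A ℂ :=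
            Subalgebra.algebraMap_mem _ (⟨_, hyA ⟨n, hnS⟩⟩ : A)
          have h4 : (PB * QB).coeff n = ⟨y ⟨n, hnS⟩, hi⟩ := hfinj (by rw [h3]; exact hy3.symm)
          rw [h4, hψ ⟨n, hnS⟩ hi]
          exact if_neg hn
        · rw [if_neg hnS] at h3
          have h4 : (PB * QB).coeff n = 0 := hfinj (by rw [h3, map_zero])
          rw [h4, map_zero, coeffSp N w σ n (fun h => hnS (h ▸ hw)) ?_, if_neg hnN]
          rcases hw2 with h5 | h5
          · left
            intro h6
            exact hnS (h6 ▸ h5)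
          · right; exact h5
    have h3 : PB.map ψ * QB.map ψ - T = C ((PB.map ψ * QB.map ψ - T).coeff s0) * X ^ s0 := by
      ext n
      rw [coeff_C_mul, coeff_X_pow]
      by_cases hn : n = s0
      · rw [if_pos hn, mul_one, hn]
      · rw [if_neg hn, mul_zero, coeff_sub, hdiff n hn, sub_self]
    have h4 := congrArg (eval σ) h3
    rw [eval_sub, eval_mul, e1, zero_mul, evalSp N w hwN, sub_zero, eval_mul, eval_C, eval_pow,
      eval_X] at h4
    have h5 : (PB.map ψ * QB.map ψ - T).coeff s0 = 0 := by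
      rcases mul_eq_zero.1 h4.symm with h | h
      · exact h
      · exact absurd h (pow_ne_zero _ hσ0)
    rw [h5, C_0, zero_mul] at h3
    exact sub_eq_zero.1 h3
  have hnd : (PB.map ψ).natDegree = P.natDegree := by
    rw [hPBmon.natDegree_map, ← hPBm, hPBmon.natDegree_map]
  have h9 := hσ (PB.map ψ) (QB.map ψ) (hPBmon.map _) hprod e1 e2
  apply h9
  rw [hnd, coeff_map]
  have h10 : f (PB.coeff (P.natDegree - 1)) = 0 := by
    rw [← coeff_map, hPBm, hc]
  have h11 : PB.coeff (P.natDegree - 1) = 0 := hfinj (by rw [h10, map_zero])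
  rw [h11, map_zero]

end Pool.Agent.AD.FL4

namespace Pool.Agent.AD

alias flip := Pool.Agent.AD.FL4.flip

end Pool.Agent.AD
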