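import Mathlib
import Pool.Agent.Lib_helper59.AD.Defs
-- cites stubs: none

open scoped ComplexConjugate
open Polynomial

namespace Pool.Agent.AD.ROTB

open Pool.Agent.AD

theorem pc_symm (w : ℕ) (x y : ℕ → ℂ) : pc w x y = pc w y x := by
  unfold pc
  rw [← Finset.Nat.sum_antidiagonal_swap]
  refine Finset.sum_congr rfl fun a _ => ?_
  rw [Prod.fst_swap, Prod.snd_swap, mul_comm]

theorem pc_rot (w : ℕ) (x y : ℕ → ℂ) (u : ℂ) :
    pc w (fun j => u ^ j * x j) (fun j => u ^ j * y j) = u ^ w * pc w x y := by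
  unfold pc
  rw [Finset.mul_sum]
  refine Finset.sum_congr rfl fun a ha => ?_
  rw [Finset.HasAntidiagonal.mem_antidiagonal] at ha
  rw [← ha, pow_add]
  ring

theorem pc_smul (w : ℕ) (x y : ℕ → ℂ) (s t : ℂ) :
    pc w (fun j => s * x j) (fun j => t * y j) = s * t * pc w x y := by
  unfold pc
  rw [Finset.mul_sum]
  refine Finset.sum_congr rfl fun a _ => ?_
  ring

theorem Dform_symm (h : ℕ) (D : ℕ → ℝ) (x y : ℕ → ℂ) : Dform h D x y = Dform h D y x := by
  unfold Dform
  refine Finset.sum_congr rfl fun j _ => ?_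
  rw [Complex.mul_re, Complex.mul_re, Complex.conj_re, Complex.conj_im, Complex.conj_re,
    Complex.conj_im]
  ring

theorem Dform_rot (h : ℕ) (D : ℕ → ℝ) (x y : ℕ → ℂ) (u : ℂ) (hu : ‖u‖ = 1) :
    Dform h D (fun j => u ^ j * x j) (fun j => u ^ j * y j) = Dform h D x y := by
  unfold Dform
  refine Finset.sum_congr rfl fun j _ => ?_
  have h1 : u ^ j * x j * conj (u ^ j * y j) = x j * conj (y j) := by
    have h2 : u ^ j * conj (u ^ j) = 1 := by
      rw [Complex.mul_conj, Complex.normSq_eq_norm_sq, norm_pow, hu]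
      simp
    rw [map_mul]
    linear_combination (x j * conj (y j)) * h2
  rw [h1]

theorem Dform_smul (h : ℕ) (D : ℕ → ℝ) (x y : ℕ → ℂ) (s t : ℝ) :
    Dform h D (fun j => (s : ℂ) * x j) (fun j => (t : ℂ) * y j) = s * t * Dform h D x y := by
  unfold Dform
  rw [Finset.mul_sum]
  refine Finset.sum_congr rfl fun j _ => ?_
  have h1 : (s : ℂ) * x j * conj ((t : ℂ) * y j) = ((s * t : ℝ) : ℂ) * (x j * conj (y j)) := by
    rw [map_mul, Complex.conj_ofReal]
    push_cast
    ring
  rw [h1, Complex.re_ofReal_mul]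
  ring

theorem pol_coeff (h : ℕ) (x : ℕ → ℂ) (hx : ∀ j, h < j → x j = 0) (j : ℕ) :
    (pol h x).coeff j = x j := by
  unfold pol
  rw [Polynomial.finsetSum_coeff]
  simp only [Polynomial.coeff_C_mul, Polynomial.coeff_X_pow, mul_ite, mul_one, mul_zero]
  by_cases hj : j < h + 1
  · rw [Finset.sum_ite_eq, if_pos (Finset.mem_range.2 hj)]
  · rw [Finset.sum_ite_eq, if_neg (fun hh => hj (Finset.mem_range.1 hh)), hx j (by omega)]

theorem pol_mul_coeff (h : ℕ) (x y : ℕ → ℂ) (hx : ∀ j, h < j → x j = 0)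
    (hy : ∀ j, h < j → y j = 0) (w : ℕ) : (pol h x * pol h y).coeff w = pc w x y := by
  rw [Polynomial.coeff_mul]
  unfold pc
  refine Finset.sum_congr rfl fun a _ => ?_
  rw [pol_coeff h x hx, pol_coeff h y hy]

theorem seen_of_pc (h : ℕ) (𝒟 : ℕ → ℕ → Prop) (w : ℕ) (hw : Odd w) (x y : ℕ → ℂ)
    (hx : ∀ j, h < j → x j = 0) (hy : ∀ j, h < j → y j = 0) (hne : pc w x y ≠ 0) :
    seen h 𝒟 w x y := by
  classical
  by_contra hs
  have hcf : ∀ i j, Even i → Odd j → i + j = w → x i * y j + y i * x j = 0 := by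
    intro i j hi hj hij
    by_contra hc
    apply hs
    have hih : i ≤ h := by
      by_contra hh
      exact hc (by rw [hx i (by omega), hy i (by omega)]; simp)
    have hjh : j ≤ h := by
      by_contra hh
      exact hc (by rw [hx j (by omega), hy j (by omega)]; simp)
    exact ⟨i, hih, j, hjh, hi, hj, Or.inl (by rw [cf, if_pos hij]; exact hc)⟩
  apply hne
  have h2 : (2 : ℂ) * pc w x y = 0 := by
    have h3 : (2 : ℂ) * pc w x y = ∑ a ∈ Finset.HasAntidiagonal.antidiagonal w,
        (x a.1 * y a.2 + x a.2 * y a.1) := by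
      rw [Finset.sum_add_distrib, two_mul]
      congr 1
      exact (Finset.Nat.sum_antidiagonal_swap (f := fun a : ℕ × ℕ => x a.1 * y a.2)).symm
    rw [h3]
    refine Finset.sum_eq_zero fun a ha => ?_
    rw [Finset.HasAntidiagonal.mem_antidiagonal] at ha
    rcases Nat.even_or_odd a.1 with h4 | h4
    · have h5 : Odd a.2 := by
        rw [← ha] at hw
        exact (Nat.odd_add'.1 hw).2 h4
      have := hcf a.1 a.2 h4 h5 ha
      linear_combination this
    · have h5 : Even a.2 := by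
        rw [← ha] at hw
        exact (Nat.odd_add.1 hw).1 h4
      have := hcf a.2 a.1 h5 h4 (by omega)
      linear_combination this
  exact (mul_eq_zero.1 h2).resolve_left two_ne_zero

end Pool.Agent.AD.ROTB

namespace Pool.Agent.AD

alias pc_symm := Pool.Agent.AD.ROTB.pc_symm

alias pc_rot := Pool.Agent.AD.ROTB.pc_rot

alias pc_smul := Pool.Agent.AD.ROTB.pc_smul

alias Dform_symm := Pool.Agent.AD.ROTB.Dform_symm

alias Dform_rot := Pool.Agent.AD.ROTB.Dform_rot

alias Dform_smul := Pool.Agent.AD.ROTB.Dform_smul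

alias pol_coeff := Pool.Agent.AD.ROTB.pol_coeff

alias pol_mul_coeff := Pool.Agent.AD.ROTB.pol_mul_coeff

alias seen_of_pc := Pool.Agent.AD.ROTB.seen_of_pc

end Pool.Agent.AD
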