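import Mathlib
import Pool.Agent.Lib_helper59.AD.Defs
import Pool.Agent.Lib_helper59.AD.ROTB

open scoped ComplexConjugate
open Polynomial

namespace Pool.Agent.AD.STR

private lemma coeff_cn (p : ℂ[X]) (n : ℕ) : (p.comp (-X)).coeff n = (-1) ^ n * p.coeff n := by
  have : (-X : ℂ[X]) = C (-1) * X := by rw [C_neg, C_1]; ring
  rw [this, comp_C_mul_X_coeff, mul_comm]

theorem str (h : ℕ) (he : Even h) (h4 : 4 ≤ h) (x y : ℕ → ℂ) (dx : ∀ j, h < j → x j = 0)
    (dy : ∀ j, h - 1 < j → y j = 0) (hxh : x h ≠ 0) (hyh : y (h - 1) ≠ 0) (hy0 : y 0 ≠ 0)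
    (hye : ∀ i, Even i → i ≠ 0 → y i = 0) (hev : ∀ l ≤ h, pc (2 * l) x y = 0) :
    ∃ κ : ℂ, κ ≠ 0 ∧ x 0 = 0 ∧ ∀ j, x (j + 1) = κ * (-1) ^ j * y j := by
  have dy' : ∀ j, h < j → y j = 0 := fun j hj => dy j (by omega)
  set P := pol h x with hP
  set Q := pol h y with hQ
  have cP : ∀ j, P.coeff j = x j := fun j => pol_coeff h x dx j
  have cQ : ∀ j, Q.coeff j = y j := fun j => pol_coeff h y dy' j
  have cPQ : ∀ w, (P * Q).coeff w = pc w x y := fun w => pol_mul_coeff h x y dx dy' w
  -- the product is odd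
  have hpc0 : ∀ w, Even w → pc w x y = 0 := by
    intro w hw
    obtain ⟨l, hl⟩ := hw
    by_cases hlh : l ≤ h
    · have := hev l hlh
      rw [show 2 * l = w by omega] at this
      exact this
    · unfold pc
      apply Finset.sum_eq_zero
      intro a ha
      rw [Finset.HasAntidiagonal.mem_antidiagonal] at ha
      rcases Nat.lt_or_ge h a.1 with h1 | h1
      · rw [dx _ h1, zero_mul]
      · rw [dy' a.2 (by omega), mul_zero]
  have hodd : (P * Q).comp (-X) = -(P * Q) := by
    ext w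
    rw [coeff_cn, coeff_neg, cPQ]
    rcases Nat.even_or_odd w with hw | hw
    · rw [hpc0 w hw]; simp
    · rw [hw.neg_one_pow]; ring
  rw [mul_comp] at hodd
  -- `Q(-X)` and `Q` are coprime
  have hQn : Q.comp (-X) = C (2 * y 0) - Q := by
    ext w
    rw [coeff_cn, coeff_sub, cQ, coeff_C]
    rcases Nat.even_or_odd w with hw | hw
    · by_cases hw0 : w = 0
      · subst hw0; simp; ring
      · rw [hye w hw hw0]; simp [hw0]
    · have hw0 : w ≠ 0 := by rintro rfl; exact (by decide : ¬ Odd 0) hw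
      rw [hw.neg_one_pow, if_neg hw0]; ring
  have h2y : (2 * y 0) ≠ 0 := mul_ne_zero two_ne_zero hy0
  have hcop : IsCoprime (Q.comp (-X)) Q := by
    refine ⟨C (2 * y 0)⁻¹, C (2 * y 0)⁻¹, ?_⟩
    rw [hQn, ← mul_add, sub_add_cancel, ← C_mul, inv_mul_cancel₀ h2y, C_1]
  have hdvd : Q.comp (-X) ∣ P := by
    apply hcop.dvd_of_dvd_mul_right
    refine ⟨-(P.comp (-X)), ?_⟩
    have : P * Q = -(P.comp (-X) * Q.comp (-X)) := by rw [hodd, neg_neg]
    rw [this]; ring
  obtain ⟨R, hR⟩ := hdvd
  have hQ0 : Q ≠ 0 := by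
    intro h0
    have := cQ 0
    rw [h0, coeff_zero] at this
    exact hy0 this.symm
  have hQc0 : Q.comp (-X) ≠ 0 := by rw [Ne, comp_neg_X_eq_zero_iff]; exact hQ0
  have hP0 : P ≠ 0 := by
    intro h0
    have := cP h
    rw [h0, coeff_zero] at this
    exact hxh this.symm
  have hR0 : R ≠ 0 := by
    rintro rfl
    rw [mul_zero] at hR
    exact hP0 hR
  -- `R` is odd
  have hRodd : R.comp (-X) = -R := by
    have e1 : P.comp (-X) = Q * R.comp (-X) := by
      rw [hR, mul_comp, comp_neg_X_comp_neg_X]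
    rw [e1, hR] at hodd
    have e2 : (Q * Q.comp (-X)) * R.comp (-X) = (Q * Q.comp (-X)) * (-R) := by
      calc (Q * Q.comp (-X)) * R.comp (-X) = Q * R.comp (-X) * Q.comp (-X) := by ring
        _ = -(Q.comp (-X) * R * Q) := hodd
        _ = _ := by ring
    exact mul_left_cancel₀ (mul_ne_zero hQ0 hQc0) e2
  -- degrees
  have dP : P.natDegree = h := by
    apply le_antisymm
    · rw [natDegree_le_iff_coeff_eq_zero]
      intro N hN
      rw [cP]; exact dx N hN
    · apply le_natDegree_of_ne_zero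
      rw [cP]; exact hxh
  have dQ : Q.natDegree = h - 1 := by
    apply le_antisymm
    · rw [natDegree_le_iff_coeff_eq_zero]
      intro N hN
      rw [cQ]; exact dy N hN
    · apply le_natDegree_of_ne_zero
      rw [cQ]; exact hyh
  have dQc : (Q.comp (-X)).natDegree = h - 1 := by
    rw [natDegree_comp, dQ, natDegree_neg, natDegree_X, mul_one]
  have dR : R.natDegree = 1 := by
    have := natDegree_mul hQc0 hR0
    rw [← hR, dP, dQc] at this
    omega
  have hRe : ∀ n, R.coeff n = if n = 1 then R.coeff 1 else 0 := by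
    intro n
    by_cases h1 : n = 1
    · simp [h1]
    · rw [if_neg h1]
      rcases Nat.lt_or_ge 1 n with h2 | h2
      · exact coeff_eq_zero_of_natDegree_lt (by omega)
      · have hn0 : n = 0 := by omega
        subst hn0
        have := congrArg (fun p => p.coeff 0) hRodd
        simp only [coeff_cn, coeff_neg, pow_zero, one_mul] at this
        have h3 : R.coeff 0 + R.coeff 0 = 0 := by
          nth_rewrite 1 [this]; ring
        exact add_self_eq_zero.mp h3
  have hRX : R = C (R.coeff 1) * X := by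
    ext n
    rw [hRe n, coeff_C_mul, coeff_X]
    by_cases h1 : n = 1
    · simp [h1]
    · rw [if_neg h1, if_neg (Ne.symm h1), mul_zero]
  have hκ : R.coeff 1 ≠ 0 := by
    intro h0
    rw [h0, C_0, zero_mul] at hRX
    exact hR0 hRX
  refine ⟨R.coeff 1, hκ, ?_, ?_⟩
  · rw [← cP 0, hR, hRX, mul_coeff_zero]
    simp
  · intro j
    have e : P = C (R.coeff 1) * (Q.comp (-X)) * X := by
      rw [hR]; nth_rewrite 1 [hRX]; ring
    rw [← cP (j + 1), e, coeff_mul_X, coeff_C_mul, coeff_cn, cQ]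
    ring

end Pool.Agent.AD.STR

namespace Pool.Agent.AD

alias str := Pool.Agent.AD.STR.str

end Pool.Agent.AD
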