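import Mathlib
import Pool.Agent.Lib_helper59.AD.Defs
import Pool.Agent.Lib_helper59.AD.STR
-- cites stubs: str

open scoped ComplexConjugate
open Polynomial

namespace Pool.Agent.AD.GAP

open Pool.Agent.AD

private theorem gap_pc0 (x y : ℕ → ℂ) : pc 0 x y = x 0 * y 0 := by
  unfold pc
  simp

private theorem gap_pc1 (x y : ℕ → ℂ) : pc 1 x y = x 0 * y 1 + x 1 * y 0 := by
  unfold pc
  rw [Finset.Nat.antidiagonal_succ]
  simp

private theorem gap_conj_ne {z : ℂ} (hz : z ≠ 0) : conj z ≠ 0 :=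
  fun h => hz ((map_eq_zero _).1 h)

theorem gap (h : ℕ) (he : Even h) (h4 : 4 ≤ h) (x y : ℕ → ℂ) (hx : Vec h x) (hy : Vec h y)
    (hxh : x h ≠ 0) (hyh : y (h - 1) ≠ 0) (dy : ∀ j, h - 1 < j → y j = 0)
    (h0 : x 0 ≠ 0 ∨ y 0 ≠ 0) (hodd : ∀ j, Odd j → x j = 0 ∨ y j = 0)
    (hev : ∀ l ≤ h, pc (2 * l) x y = 0)
    (hQ : ∀ w, Odd w → w ≤ 2 * h - 3 → seen h allD w x y → pc w x y ≠ 0) :
    x (h - 1) = 0 ∧
      ((∃ w, Odd w ∧ w + 2 ≤ 2 * h - 1 ∧ pc w x y ≠ 0 ∧ pc (w + 2) x y ≠ 0) ∨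
        (y 0 ≠ 0 ∧ x 1 ≠ 0 ∧ (∀ j, j ≠ 1 → j ≠ h → x j = 0) ∧
          (∀ j, j ≠ 0 → j ≠ h - 1 → y j = 0))) := by
  have hh1 : Odd (h - 1) := by
    obtain ⟨m, hm⟩ := he
    exact ⟨m - 1, by omega⟩
  have hyh0 : y h = 0 := dy h (by omega)
  have hxh1 : x (h - 1) = 0 := (hodd (h - 1) hh1).resolve_right hyh
  refine ⟨hxh1, ?_⟩
  -- the coefficient of weight one
  have hp1 : pc 1 x y ≠ 0 := by
    refine hQ 1 odd_one (by omega) ⟨h, le_refl _, h - 1, by omega, he, hh1, Or.inr ⟨trivial, ?_⟩⟩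
    rw [df, if_pos (by omega), hyh0, zero_mul, add_zero]
    exact mul_ne_zero hxh (gap_conj_ne hyh)
  have hp0 : x 0 * y 0 = 0 := by
    have := hev 0 (Nat.zero_le _)
    rwa [mul_zero, gap_pc0] at this
  by_cases hx0 : x 0 = 0
  · have hy0 : y 0 ≠ 0 := h0.resolve_left (fun hc => hc hx0)
    have hx1 : x 1 ≠ 0 := by
      intro hc
      apply hp1
      rw [gap_pc1, hx0, hc]
      ring
    have hy1 : y 1 = 0 := (hodd 1 odd_one).resolve_left hx1
    by_cases hye : ∀ i, Even i → i ≠ 0 → y i = 0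
    · obtain ⟨κ, hκ, hx0', hxy⟩ := str h he h4 x y hx.1 dy hxh hyh hy0 hye hev
      by_cases hyo : ∀ j, Odd j → j < h - 1 → y j = 0
      · right
        have sy : ∀ j, j ≠ 0 → j ≠ h - 1 → y j = 0 := by
          intro j hj0 hj1
          rcases Nat.even_or_odd j with hj | hj
          · exact hye j hj hj0
          · rcases lt_trichotomy j (h - 1) with hlt | heq | hgt
            · exact hyo j hj hlt
            · exact absurd heq hj1
            · exact dy j hgt
        refine ⟨hy0, hx1, ?_, sy⟩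
        intro j hj1 hjh
        rcases j with _ | j
        · exact hx0
        · rw [hxy j, sy j (by omega) (by omega), mul_zero]
      · left
        push Not at hyo
        obtain ⟨j, hjo, hjlt, hyj⟩ := hyo
        have hj1 : j ≠ 1 := fun hc => hyj (hc ▸ hy1)
        obtain ⟨m, hm⟩ := he
        obtain ⟨k, hk⟩ := hjo
        have hwo : Odd (h - 2 - j) := ⟨m - k - 2, by omega⟩
        refine ⟨h - 2 - j, hwo, by omega, ?_, ?_⟩
        · refine hQ (h - 2 - j) hwo (by omega) ⟨j + 1, by omega, h - 1, by omega,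
            ⟨k + 1, by omega⟩, hh1, Or.inr ⟨trivial, ?_⟩⟩
          rw [df, if_neg (by omega), if_pos (by omega), hxh1, mul_zero, add_zero]
          refine mul_ne_zero (gap_conj_ne ?_) hyh
          rw [hxy j]
          exact mul_ne_zero (mul_ne_zero hκ (pow_ne_zero _ (by norm_num))) hyj
        · have hwo' : Odd (h - 2 - j + 2) := ⟨m - k - 1, by omega⟩
          refine hQ (h - 2 - j + 2) hwo' (by omega) ⟨h, le_refl _, j, by omega,
            ⟨m, by omega⟩, ⟨k, by omega⟩, Or.inr ⟨trivial, ?_⟩⟩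
          rw [df, if_pos (by omega), hyh0, zero_mul, add_zero]
          exact mul_ne_zero hxh (gap_conj_ne hyj)
    · left
      push Not at hye
      obtain ⟨i, hie, hi0, hyi⟩ := hye
      have hile : i < h := by
        by_contra hc
        exact hyi (dy i (by omega))
      obtain ⟨k, hk⟩ := hie
      obtain ⟨m, hm⟩ := he
      have hwo : Odd (i - 1) := ⟨k - 1, by omega⟩
      refine ⟨i - 1, hwo, by omega, ?_, ?_⟩
      · refine hQ (i - 1) hwo (by omega) ⟨i, by omega, 1, by omega, ⟨k, hk⟩, odd_one,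
          Or.inr ⟨trivial, ?_⟩⟩
        rw [df, if_pos (by omega), hy1, map_zero, mul_zero, zero_add]
        exact mul_ne_zero hyi (gap_conj_ne hx1)
      · have hwo' : Odd (i - 1 + 2) := ⟨k, by omega⟩
        refine hQ (i - 1 + 2) hwo' (by omega) ⟨i, by omega, 1, by omega, ⟨k, hk⟩, odd_one,
          Or.inl ?_⟩
        rw [cf, if_pos (by omega), hy1, mul_zero, zero_add]
        exact mul_ne_zero hyi hx1
  · left
    have hy0 : y 0 = 0 := (mul_eq_zero.1 hp0).resolve_left hx0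
    have hy1 : y 1 ≠ 0 := by
      intro hc
      apply hp1
      rw [gap_pc1, hy0, hc]
      ring
    have hx1 : x 1 = 0 := (hodd 1 odd_one).resolve_right hy1
    obtain ⟨m, hm⟩ := he
    refine ⟨h - 1, hh1, by omega, ?_, ?_⟩
    · refine hQ (h - 1) hh1 (by omega) ⟨0, by omega, h - 1, by omega, ⟨0, rfl⟩, hh1, Or.inl ?_⟩
      rw [cf, if_pos (by omega), hy0, zero_mul, add_zero]
      exact mul_ne_zero hx0 hyh
    · have hwo' : Odd (h - 1 + 2) := ⟨m, by omega⟩
      refine hQ (h - 1 + 2) hwo' (by omega) ⟨h, le_refl _, 1, by omega, ⟨m, hm⟩, odd_one,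
        Or.inl ?_⟩
      rw [cf, if_pos (by omega), hx1, mul_zero, add_zero]
      exact mul_ne_zero hxh hy1

end Pool.Agent.AD.GAP

namespace Pool.Agent.AD

alias gap := Pool.Agent.AD.GAP.gap

end Pool.Agent.AD
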