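import Mathlib
import Pool.Agent.Lib_helper59.AD.Defs
import Pool.Agent.Lib_helper59.AD.ACLA
import Pool.Agent.Lib_helper59.AD.ACLB
import Pool.Agent.Lib_helper59.AD.ROTB

open scoped ComplexConjugate
open Polynomial

namespace Pool.Agent.AD.TSA

theorem ts_pc_top (h p q : ℕ) (x y : ℕ → ℂ) (hN : Nrm h p q x y) : pc (p + q) x y = x p * y q := by
  unfold pc
  rw [Finset.sum_eq_single (p, q)]
  · rintro ⟨a, b⟩ hab hne
    rw [Finset.HasAntidiagonal.mem_antidiagonal] at hab
    simp only at hab ⊢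
    rcases lt_trichotomy a p with h1 | h1 | h1
    · rw [hN.dq b (by omega), mul_zero]
    · exfalso; apply hne; subst h1; congr 1; omega
    · rw [hN.dp a h1, zero_mul]
  · intro h1
    have h2 : ((p, q) : ℕ × ℕ) ∈ Finset.HasAntidiagonal.antidiagonal (p + q) := by
      rw [Finset.HasAntidiagonal.mem_antidiagonal]
    exact absurd h2 h1

theorem ts_pc_big (h p q : ℕ) (x y : ℕ → ℂ) (hN : Nrm h p q x y) (w : ℕ) (hw : p + q < w) :
    pc w x y = 0 := by
  unfold pc
  apply Finset.sum_eq_zero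
  rintro ⟨a, b⟩ hab
  rw [Finset.HasAntidiagonal.mem_antidiagonal] at hab
  simp only at hab ⊢
  rcases le_or_gt a p with h1 | h1
  · rw [hN.dq b (by omega), mul_zero]
  · rw [hN.dp a h1, zero_mul]

theorem ts_xp (h p q : ℕ) (x y : ℕ → ℂ) (hN : Nrm h p q x y) : x p ≠ 0 := by
  intro h0
  have := hN.np
  rw [h0, norm_zero] at this
  exact zero_ne_one this

theorem ts_yq (h p q : ℕ) (x y : ℕ → ℂ) (hN : Nrm h p q x y) : y q ≠ 0 := by
  intro h0
  have := hN.nq
  rw [h0, norm_zero] at this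
  exact zero_ne_one this

theorem ts_rr_cases (h p q : ℕ) (x y : ℕ → ℂ) (hN : Nrm h p q x y) (w : ℕ) :
    w ∈ SS' p q x y ∨ rr p q x y w = 1 ∨ rr p q x y w = 0 := by
  rcases lt_trichotomy w (p + q) with h1 | h1 | h1
  · by_cases h2 : pc w x y = 0
    · right; right; unfold rr; rw [h2, zero_div]
    · left; unfold SS'; rw [Finset.mem_filter, Finset.mem_range]; exact ⟨h1, h2⟩
  · right; left; unfold rr; rw [h1, ts_pc_top h p q x y hN]
    exact div_self (mul_ne_zero (ts_xp h p q x y hN) (ts_yq h p q x y hN))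
  · right; right; unfold rr; rw [ts_pc_big h p q x y hN w h1, zero_div]

theorem ts_card (h p q : ℕ) (x y : ℕ → ℂ) (hN : Nrm h p q x y) :
    (SS p q x y).card = (SS' p q x y).card + 1 := by
  have h1 : pc (p + q) x y ≠ 0 := by
    rw [ts_pc_top h p q x y hN]
    exact mul_ne_zero (ts_xp h p q x y hN) (ts_yq h p q x y hN)
  unfold SS SS'
  rw [Finset.range_add_one, Finset.filter_insert, if_pos h1, Finset.card_insert_of_notMem]
  simp

theorem ts_pc_conj (w : ℕ) (x y : ℕ → ℂ) :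
    pc w (fun j => conj (x j)) (fun j => conj (y j)) = conj (pc w x y) := by
  unfold pc
  rw [map_sum]
  apply Finset.sum_congr rfl
  intro a _
  rw [map_mul]

theorem ts_fac (h p q : ℕ) (x y : ℕ → ℂ) (ph : p ≤ h) (qh : q ≤ h) (xp : x p = 1) (yq : y q = 1)
    (dp : ∀ j, p < j → x j = 0) (dq : ∀ j, q < j → y j = 0) (T : Set ℂ)
    (hc : ∀ w, pc w x y ∈ acl T) (j : ℕ) : x j ∈ acl T := by
  have hx : ∀ j, h < j → x j = 0 := fun j hj => dp j (by omega)
  have hy : ∀ j, h < j → y j = 0 := fun j hj => dq j (by omega)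
  have hP : (pol h x).Monic := by
    apply monic_of_natDegree_le_of_coeff_eq_one p
    · rw [natDegree_le_iff_coeff_eq_zero]
      intro N hN
      rw [pol_coeff h x hx, dp N hN]
    · rw [pol_coeff h x hx, xp]
  have hQ : pol h y ≠ 0 := by
    intro h0
    have h1 := pol_coeff h y hy q
    rw [h0, coeff_zero, yq] at h1
    exact zero_ne_one h1
  have h2 := acl_factor (T := T) (pol h x) (pol h y) hP hQ
    (fun n => by rw [pol_mul_coeff h x y hx hy]; exact hc n) j
  rwa [pol_coeff h x hx] at h2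

theorem ts_core (h p q : ℕ) (x y : ℕ → ℂ) (hN : Nrm h p q x y) (T : Set ℂ)
    (hr : ∀ w, rr p q x y w ∈ acl T) (hrc : ∀ w, conj (rr p q x y w) ∈ acl T) (j : ℕ) :
    ((x p)⁻¹ * x j ∈ acl T ∧ conj ((x p)⁻¹ * x j) ∈ acl T) ∧
      ((y q)⁻¹ * y j ∈ acl T ∧ conj ((y q)⁻¹ * y j) ∈ acl T) := by
  have hxp := ts_xp h p q x y hN
  have hyq := ts_yq h p q x y hN
  have e1 : ∀ w, pc w (fun j => (x p)⁻¹ * x j) (fun j => (y q)⁻¹ * y j) = rr p q x y w := by
    intro w
    rw [pc_smul]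
    unfold rr
    field_simp
  have e2 : ∀ w, pc w (fun j => (y q)⁻¹ * y j) (fun j => (x p)⁻¹ * x j) = rr p q x y w := by
    intro w
    rw [pc_symm, e1]
  have a1 : (fun j => (x p)⁻¹ * x j) p = 1 := inv_mul_cancel₀ hxp
  have b1 : (fun j => (y q)⁻¹ * y j) q = 1 := inv_mul_cancel₀ hyq
  have a2 : ∀ j, p < j → (fun j => (x p)⁻¹ * x j) j = 0 := by
    intro j hj; simp only; rw [hN.dp j hj, mul_zero]
  have b2 : ∀ j, q < j → (fun j => (y q)⁻¹ * y j) j = 0 := by
    intro j hj; simp only; rw [hN.dq j hj, mul_zero]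
  have a1' : (fun j => conj ((fun j => (x p)⁻¹ * x j) j)) p = 1 := by
    show conj ((x p)⁻¹ * x p) = 1
    rw [inv_mul_cancel₀ hxp, map_one]
  have b1' : (fun j => conj ((fun j => (y q)⁻¹ * y j) j)) q = 1 := by
    show conj ((y q)⁻¹ * y q) = 1
    rw [inv_mul_cancel₀ hyq, map_one]
  have a2' : ∀ j, p < j → (fun j => conj ((fun j => (x p)⁻¹ * x j) j)) j = 0 := by
    intro j hj
    show conj ((x p)⁻¹ * x j) = 0
    rw [hN.dp j hj, mul_zero, map_zero]
  have b2' : ∀ j, q < j → (fun j => conj ((fun j => (y q)⁻¹ * y j) j)) j = 0 := by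
    intro j hj
    show conj ((y q)⁻¹ * y j) = 0
    rw [hN.dq j hj, mul_zero, map_zero]
  refine ⟨⟨?_, ?_⟩, ⟨?_, ?_⟩⟩
  · exact ts_fac h p q (fun j => (x p)⁻¹ * x j) (fun j => (y q)⁻¹ * y j) hN.ph hN.qh a1 b1 a2 b2 T
      (fun w => by rw [e1]; exact hr w) j
  · exact ts_fac h p q (fun j => conj ((fun j => (x p)⁻¹ * x j) j))
      (fun j => conj ((fun j => (y q)⁻¹ * y j) j)) hN.ph hN.qh a1' b1' a2' b2' T
      (fun w => by rw [ts_pc_conj, e1]; exact hrc w) j
  · exact ts_fac h q p (fun j => (y q)⁻¹ * y j) (fun j => (x p)⁻¹ * x j) hN.qh hN.ph b1 a1 b2 a2 T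
      (fun w => by rw [e2]; exact hr w) j
  · exact ts_fac h q p (fun j => conj ((fun j => (y q)⁻¹ * y j) j))
      (fun j => conj ((fun j => (x p)⁻¹ * x j) j)) hN.qh hN.ph b1' a1' b2' a2' T
      (fun w => by rw [ts_pc_conj, e2]; exact hrc w) j

theorem ts_inAcl (T : Set ℂ) (x : ℕ → ℂ) (p : ℕ) (hp : ‖x p‖ = 1)
    (hx : ∀ j, (x p)⁻¹ * x j ∈ acl T ∧ conj ((x p)⁻¹ * x j) ∈ acl T) (hxp : x p ∈ acl T) :
    InAcl T x := by
  have h0 : x p ≠ 0 := by
    intro h0
    rw [h0, norm_zero] at hp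
    exact zero_ne_one hp
  have h1 : conj (x p) = (x p)⁻¹ := (Complex.inv_eq_conj hp).symm
  intro j
  refine ⟨?_, ?_⟩
  · have h2 := mul_mem hxp (hx j).1
    rwa [← mul_assoc, mul_inv_cancel₀ h0, one_mul] at h2
  · have h2 := mul_mem (inv_mem hxp) (hx j).2
    have h3 : (x p)⁻¹ * conj ((x p)⁻¹ * x j) = conj (x j) := by
      have h4 : (x p)⁻¹ * conj ((x p)⁻¹ * x j) = conj (x p) * conj ((x p)⁻¹ * x j) := by rw [h1]
      rw [h4, ← map_mul, ← mul_assoc, mul_inv_cancel₀ h0, one_mul]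
    rwa [h3] at h2

/-- numbers needed for all coefficients of the product -/
noncomputable def tsR (p q : ℕ) (x y : ℕ → ℂ) (w : ℕ) : Finset ℂ := by
  classical
  exact (SS' p q x y).image (rr p q x y) ∪
    ((SS' p q x y).erase w).image (fun s => conj (rr p q x y s))

theorem ts_w (h p q : ℕ) (x y : ℕ → ℂ) (hN : Nrm h p q x y) :
    ∃ w ∈ SS' p q x y, conj (rr p q x y w) = rr p q x y w := by
  obtain ⟨w, hw, h1, h2⟩ := hN.re
  refine ⟨w, ?_, h2⟩
  unfold SS'
  rw [Finset.mem_filter, Finset.mem_range]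
  refine ⟨hw, ?_⟩
  intro h3
  apply h1
  unfold rr
  rw [h3, zero_div]

theorem tsR_card (p q : ℕ) (x y : ℕ → ℂ) (w : ℕ) (hw : w ∈ SS' p q x y) :
    (tsR p q x y w).card + 1 ≤ 2 * (SS' p q x y).card := by
  classical
  unfold tsR
  have h1 : ((SS' p q x y).image (rr p q x y)).card ≤ (SS' p q x y).card := Finset.card_image_le
  have h2 : (((SS' p q x y).erase w).image (fun s => conj (rr p q x y s))).card
      ≤ ((SS' p q x y).erase w).card := Finset.card_image_le
  have h3 : ((SS' p q x y).erase w).card + 1 = (SS' p q x y).card := Finset.card_erase_add_one hw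
  have h4 := Finset.card_union_le ((SS' p q x y).image (rr p q x y))
    (((SS' p q x y).erase w).image (fun s => conj (rr p q x y s)))
  have h5 : ∀ (i : DecidableEq ℂ), (@Union.union (Finset ℂ) (@Finset.instUnion ℂ i)
    (@Finset.image ℕ ℂ i (rr p q x y) (SS' p q x y))
    (@Finset.image ℕ ℂ i (fun s => conj (rr p q x y s)) ((SS' p q x y).erase w))).card + 1
      ≤ 2 * (SS' p q x y).card := by
    intro i
    have g1 : (@Finset.image ℕ ℂ i (rr p q x y) (SS' p q x y)).card ≤ (SS' p q x y).card :=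
      Finset.card_image_le
    have g2 : (@Finset.image ℕ ℂ i (fun s => conj (rr p q x y s)) ((SS' p q x y).erase w)).card
      ≤ ((SS' p q x y).erase w).card := Finset.card_image_le
    have g4 := @Finset.card_union_le ℂ i (@Finset.image ℕ ℂ i (rr p q x y) (SS' p q x y))
      (@Finset.image ℕ ℂ i (fun s => conj (rr p q x y s)) ((SS' p q x y).erase w))
    omega
  exact h5 _

theorem tsR_mem (h p q : ℕ) (x y : ℕ → ℂ) (hN : Nrm h p q x y) (w : ℕ)
    (hw' : conj (rr p q x y w) = rr p q x y w) (T : Set ℂ)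
    (hT : ∀ z ∈ tsR p q x y w, z ∈ acl T) :
    (∀ v, rr p q x y v ∈ acl T) ∧ ∀ v, conj (rr p q x y v) ∈ acl T := by
  classical
  have key : ∀ v ∈ SS' p q x y, rr p q x y v ∈ acl T := by
    intro v hv
    apply hT
    unfold tsR
    rw [Finset.mem_union]
    left
    exact Finset.mem_image_of_mem _ hv
  constructor
  · intro v
    rcases ts_rr_cases h p q x y hN v with h1 | h1 | h1
    · exact key v h1
    · rw [h1]; exact one_mem _
    · rw [h1]; exact zero_mem _
  · intro v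
    rcases ts_rr_cases h p q x y hN v with h1 | h1 | h1
    · by_cases h2 : v = w
      · rw [h2, hw', ← h2]; exact key v h1
      · apply hT
        unfold tsR
        rw [Finset.mem_union]
        right
        rw [Finset.mem_image]
        exact ⟨v, Finset.mem_erase.mpr ⟨h2, h1⟩, rfl⟩
    · rw [h1, map_one]; exact one_mem _
    · rw [h1, map_zero]; exact zero_mem _

/-- if the coordinate number 0 is real and not zero, the leading coefficient is algebraic -/
theorem ts_lead (T : Set ℂ) (x : ℕ → ℂ) (p : ℕ) (hp : ‖x p‖ = 1) (h0 : x 0 ≠ 0)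
    (him : (x 0).im = 0)
    (hx : (x p)⁻¹ * x 0 ∈ acl T ∧ conj ((x p)⁻¹ * x 0) ∈ acl T) : x p ∈ acl T := by
  have hp0 : x p ≠ 0 := by
    intro h0
    rw [h0, norm_zero] at hp
    exact zero_ne_one hp
  have h1 : conj (x p) = (x p)⁻¹ := (Complex.inv_eq_conj hp).symm
  have h2 : conj (x 0) = x 0 := Complex.conj_eq_iff_im.mpr him
  have h3 : conj ((x p)⁻¹ * x 0) = x p * x 0 := by
    rw [map_mul, map_inv₀, h1, inv_inv, h2]
  rw [h3] at hx
  have h4 : x p ^ 2 = (x p * x 0) / ((x p)⁻¹ * x 0) := by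
    field_simp
  apply acl_root (X ^ 2 - C ((x p * x 0) / ((x p)⁻¹ * x 0)))
  · exact X_pow_sub_C_ne_zero (by norm_num) _
  · intro n
    rw [coeff_sub, coeff_X_pow, coeff_C]
    apply sub_mem
    · split_ifs
      · exact one_mem _
      · exact zero_mem _
    · split_ifs
      · exact div_mem hx.2 hx.1
      · exact zero_mem _
  · rw [eval_sub, eval_pow, eval_X, eval_C, h4, sub_self]

/-- ρ = card SS, top weight p+q ∈ SS. P = pol h x / x_p, Q = pol h y / y_q are monic, (P*Q).coeff w = rr w. T = {rr s : s ∈ SS'} ∪ {conj (rr s) : s ∈ SS', s ≠ w1} ∪ {x p, y q}, card ≤ 2(ρ-1) - 1 + 2 = 2ρ-1. acl_factor: coefficients of P, Q are in acl of {rr s}, their conjugates in acl of {conj (rr s)} (acl_conj), conj (rr w1) = rr w1. x_j = x_p P_j, conj(x_p) = 1/x_p. -/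
theorem ts1 (h p q : ℕ) (x y : ℕ → ℂ) (hN : Nrm h p q x y) :
    ∃ T : Finset ℂ, T.card + 1 ≤ 2 * (SS p q x y).card ∧ InAcl (T : Set ℂ) x ∧
      InAcl (T : Set ℂ) y := by
  classical
  obtain ⟨w, hw, hw'⟩ := ts_w h p q x y hN
  let T : Finset ℂ := insert (x p) (insert (y q) (tsR p q x y w))
  have hsub : ∀ z ∈ T, z ∈ acl (T : Set ℂ) := fun z hz => acl_subset _ (Finset.mem_coe.mpr hz)
  obtain ⟨hr, hrc⟩ := tsR_mem h p q x y hN w hw' (T : Set ℂ)
    (fun z hz => hsub z (Finset.mem_insert_of_mem (Finset.mem_insert_of_mem hz)))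
  have hc := ts_core h p q x y hN (T : Set ℂ) hr hrc
  refine ⟨T, ?_, ?_, ?_⟩
  · have h1 := ts_card h p q x y hN
    have h2 := tsR_card p q x y w hw
    have h3 : T.card ≤ (insert (y q) (tsR p q x y w)).card + 1 := Finset.card_insert_le _ _
    have h4 : (insert (y q) (tsR p q x y w)).card ≤ (tsR p q x y w).card + 1 :=
      Finset.card_insert_le _ _
    omega
  · exact ts_inAcl _ x p hN.np (fun j => (hc j).1) (hsub _ (Finset.mem_insert_self _ _))
  · exact ts_inAcl _ y q hN.nq (fun j => (hc j).2)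
      (hsub _ (Finset.mem_insert_of_mem (Finset.mem_insert_self _ _)))

/-- As ts1 without x p if x 0 ≠ 0: x 0 real gives x_p P_0 = conj(P_0)/x_p, so x_p^2 = conj(P_0)/P_0 and x_p ∈ acl of the rest (acl_root). Same for y. -/
theorem ts2 (h p q : ℕ) (x y : ℕ → ℂ) (hN : Nrm h p q x y) (h0 : x 0 ≠ 0 ∨ y 0 ≠ 0) :
    ∃ T : Finset ℂ, T.card + 2 ≤ 2 * (SS p q x y).card ∧ InAcl (T : Set ℂ) x ∧
      InAcl (T : Set ℂ) y := by
  classical
  obtain ⟨w, hw, hw'⟩ := ts_w h p q x y hN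
  have h1 := ts_card h p q x y hN
  have h2 := tsR_card p q x y w hw
  rcases h0 with h0 | h0
  · let T : Finset ℂ := insert (y q) (tsR p q x y w)
    have hsub : ∀ z ∈ T, z ∈ acl (T : Set ℂ) := fun z hz => acl_subset _ (Finset.mem_coe.mpr hz)
    obtain ⟨hr, hrc⟩ := tsR_mem h p q x y hN w hw' (T : Set ℂ)
      (fun z hz => hsub z (Finset.mem_insert_of_mem hz))
    have hc := ts_core h p q x y hN (T : Set ℂ) hr hrc
    refine ⟨T, ?_, ?_, ?_⟩
    · have h4 : T.card ≤ (tsR p q x y w).card + 1 := Finset.card_insert_le _ _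
      omega
    · exact ts_inAcl _ x p hN.np (fun j => (hc j).1)
        (ts_lead _ x p hN.np h0 hN.vx.2 (hc 0).1)
    · exact ts_inAcl _ y q hN.nq (fun j => (hc j).2) (hsub _ (Finset.mem_insert_self _ _))
  · let T : Finset ℂ := insert (x p) (tsR p q x y w)
    have hsub : ∀ z ∈ T, z ∈ acl (T : Set ℂ) := fun z hz => acl_subset _ (Finset.mem_coe.mpr hz)
    obtain ⟨hr, hrc⟩ := tsR_mem h p q x y hN w hw' (T : Set ℂ)
      (fun z hz => hsub z (Finset.mem_insert_of_mem hz))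
    have hc := ts_core h p q x y hN (T : Set ℂ) hr hrc
    refine ⟨T, ?_, ?_, ?_⟩
    · have h4 : T.card ≤ (tsR p q x y w).card + 1 := Finset.card_insert_le _ _
      omega
    · exact ts_inAcl _ x p hN.np (fun j => (hc j).1) (hsub _ (Finset.mem_insert_self _ _))
    · exact ts_inAcl _ y q hN.nq (fun j => (hc j).2)
        (ts_lead _ y q hN.nq h0 hN.vy.2 (hc 0).2)

end Pool.Agent.AD.TSA

namespace Pool.Agent.AD

alias ts1 := Pool.Agent.AD.TSA.ts1

alias ts2 := Pool.Agent.AD.TSA.ts2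

end Pool.Agent.AD
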