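import Mathlib
import Pool.Agent.Lib_helper59.AD.Defs
import Pool.Agent.Lib_helper59.AD.ACLA
import Pool.Agent.Lib_helper59.AD.ACLB
import Pool.Agent.Lib_helper59.AD.EX2
import Pool.Agent.Lib_helper59.AD.TSA

open scoped ComplexConjugate
open Polynomial

namespace Pool.Agent.AD.TSB

open Pool.Agent.AD.TSA

/-- the second leading coefficient is algebraic too -/
theorem ts_lead2 (T : Set ℂ) (x y : ℕ → ℂ) (q j : ℕ) (hq : ‖y q‖ = 1) (hxj : x j ≠ 0)
    (hyj : y j ≠ 0) (hre : (x j * conj (y j)).re = 0) (hx : InAcl T x)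
    (hy : (y q)⁻¹ * y j ∈ acl T ∧ conj ((y q)⁻¹ * y j) ∈ acl T) : y q ∈ acl T := by
  have hq0 : y q ≠ 0 := by
    intro h0
    rw [h0, norm_zero] at hq
    exact zero_ne_one hq
  have h1 : conj (y q) = (y q)⁻¹ := (Complex.inv_eq_conj hq).symm
  have h3 : conj ((y q)⁻¹ * y j) = y q * conj (y j) := by
    rw [map_mul, map_inv₀, h1, inv_inv]
  have hcx : conj (x j) ≠ 0 := (_root_.map_ne_zero _).mpr hxj
  have hcy : conj (y j) ≠ 0 := (_root_.map_ne_zero _).mpr hyj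
  have h5 : x j * conj (y j) + conj (x j) * y j = 0 := by
    have h6 : conj (x j) * y j = conj (x j * conj (y j)) := by
      rw [map_mul, Complex.conj_conj]
    rw [h6, Complex.add_conj, hre]
    simp
  have h4 : y q ^ 2 = -(x j * conj ((y q)⁻¹ * y j)) / (conj (x j) * ((y q)⁻¹ * y j)) := by
    rw [h3, eq_div_iff (mul_ne_zero hcx (mul_ne_zero (inv_ne_zero hq0) hyj))]
    have h7 : y q ^ 2 * (conj (x j) * ((y q)⁻¹ * y j)) = y q * (conj (x j) * y j) := by
      field_simp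
    rw [h7]
    linear_combination (y q) * h5
  apply acl_root (X ^ 2 - C (-(x j * conj ((y q)⁻¹ * y j)) / (conj (x j) * ((y q)⁻¹ * y j))))
  · exact X_pow_sub_C_ne_zero (by norm_num) _
  · intro n
    rw [coeff_sub, coeff_X_pow, coeff_C]
    apply sub_mem
    · split_ifs
      · exact one_mem _
      · exact zero_mem _
    · split_ifs
      · exact div_mem (neg_mem (mul_mem (hx j).1 hy.2)) (mul_mem (hx j).2 hy.1)
      · exact zero_mem _
  · rw [eval_sub, eval_pow, eval_X, eval_C, h4, sub_self]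

/-- As ts2; say x 0 ≠ 0, so x_p ∈ acl. x_j conj(y_j) + conj(x_j) y_j = 0 with y_j = y_q Q_j, conj(y_j) = conj(Q_j)/y_q gives y_q^2 = - x_j conj(Q_j) / (conj(x_j) Q_j), so y_q is in acl too: T = {rr s} ∪ {conj rr s, s ≠ w1}, card ≤ 2ρ-3. -/
theorem ts3 (h p q : ℕ) (x y : ℕ → ℂ) (hN : Nrm h p q x y) (h0 : x 0 ≠ 0 ∨ y 0 ≠ 0)
    (hj : ∃ j, x j ≠ 0 ∧ y j ≠ 0 ∧ (x j * conj (y j)).re = 0) :
    ∃ T : Finset ℂ, T.card + 3 ≤ 2 * (SS p q x y).card ∧ InAcl (T : Set ℂ) x ∧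
      InAcl (T : Set ℂ) y := by
  classical
  obtain ⟨j, hxj, hyj, hre⟩ := hj
  obtain ⟨w, hw, hw'⟩ := ts_w h p q x y hN
  have h1 := ts_card h p q x y hN
  have h2 := tsR_card p q x y w hw
  obtain ⟨hr, hrc⟩ := tsR_mem h p q x y hN w hw' (tsR p q x y w : Set ℂ)
    (fun z hz => acl_subset _ (Finset.mem_coe.mpr hz))
  have hc := ts_core h p q x y hN (tsR p q x y w : Set ℂ) hr hrc
  refine ⟨tsR p q x y w, by omega, ?_⟩
  rcases h0 with h0 | h0
  · have hx : InAcl (tsR p q x y w : Set ℂ) x :=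
      ts_inAcl _ x p hN.np (fun j => (hc j).1) (ts_lead _ x p hN.np h0 hN.vx.2 (hc 0).1)
    refine ⟨hx, ?_⟩
    exact ts_inAcl _ y q hN.nq (fun j => (hc j).2)
      (ts_lead2 _ x y q j hN.nq hxj hyj hre hx (hc j).2)
  · have hy : InAcl (tsR p q x y w : Set ℂ) y :=
      ts_inAcl _ y q hN.nq (fun j => (hc j).2) (ts_lead _ y q hN.nq h0 hN.vy.2 (hc 0).2)
    refine ⟨?_, hy⟩
    have hre' : (y j * conj (x j)).re = 0 := by
      have h3 : y j * conj (x j) = conj (x j * conj (y j)) := by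
        rw [map_mul, Complex.conj_conj, mul_comm]
      rw [h3, Complex.conj_re, hre]
    exact ts_inAcl _ x p hN.np (fun j => (hc j).1)
      (ts_lead2 _ y x p j hN.np hyj hxj hre' hy (hc j).1)

/-- acl_basis: T0 ⊂ {rr s}, card T0 ≤ ρ-2, all rr s ∈ acl T0. T = T0 ∪ conj T0 ∪ {y q} if x 0 ≠ 0 ({x p} if y 0 ≠ 0), card ≤ 2ρ-3. -/
theorem ts4 (h p q : ℕ) (x y : ℕ → ℂ) (hN : Nrm h p q x y) (h0 : x 0 ≠ 0 ∨ y 0 ≠ 0)
    (hd : ¬ AlgebraicIndependent ℚ (fun s : SS' p q x y => rr p q x y s)) :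
    ∃ T : Finset ℂ, T.card + 3 ≤ 2 * (SS p q x y).card ∧ InAcl (T : Set ℂ) x ∧
      InAcl (T : Set ℂ) y := by
  classical
  have h1 := ts_card h p q x y hN
  obtain ⟨T₀, hT₀, -, hz⟩ := acl_basis _ hd
  rw [Fintype.card_coe] at hT₀
  have key : ∀ z₀ : ℂ, (∀ T : Finset ℂ, T = insert z₀ (T₀ ∪ T₀.image (fun w => conj w)) →
      T.card + 3 ≤ 2 * (SS p q x y).card ∧ z₀ ∈ acl (T : Set ℂ) ∧
      (∀ v, rr p q x y v ∈ acl (T : Set ℂ)) ∧ ∀ v, conj (rr p q x y v) ∈ acl (T : Set ℂ)) := by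
    intro z₀ T hT
    have hsub : ∀ z ∈ T, z ∈ acl (T : Set ℂ) := fun z hz => acl_subset _ (Finset.mem_coe.mpr hz)
    have hcard : T.card ≤ 2 * T₀.card + 1 := by
      rw [hT]
      have g1 := Finset.card_insert_le z₀ (T₀ ∪ T₀.image (fun w => conj w))
      have g2 := Finset.card_union_le T₀ (T₀.image (fun w => conj w))
      have g3 : (T₀.image (fun w => conj w)).card ≤ T₀.card := Finset.card_image_le
      omega
    have hle : acl (T₀ : Set ℂ) ≤ acl (T : Set ℂ) := by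
      apply acl_le
      intro z hz
      apply hsub
      rw [hT]
      exact Finset.mem_insert_of_mem (Finset.mem_union_left _ (Finset.mem_coe.mp hz))
    have hle' : acl ((fun w => conj w) '' (T₀ : Set ℂ)) ≤ acl (T : Set ℂ) := by
      apply acl_le
      rintro _ ⟨z, hz, rfl⟩
      apply hsub
      rw [hT]
      exact Finset.mem_insert_of_mem (Finset.mem_union_right _
        (Finset.mem_image_of_mem _ (Finset.mem_coe.mp hz)))
    refine ⟨by omega, hsub _ (by rw [hT]; exact Finset.mem_insert_self _ _), ?_, ?_⟩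
    · intro v
      rcases ts_rr_cases h p q x y hN v with h2 | h2 | h2
      · exact hle (hz ⟨v, h2⟩)
      · rw [h2]; exact one_mem _
      · rw [h2]; exact zero_mem _
    · intro v
      rcases ts_rr_cases h p q x y hN v with h2 | h2 | h2
      · exact hle' (acl_conj (hz ⟨v, h2⟩))
      · rw [h2, map_one]; exact one_mem _
      · rw [h2, map_zero]; exact zero_mem _
  rcases h0 with h0 | h0
  · obtain ⟨k1, k2, k3, k4⟩ := key (y q) _ rfl
    have hc := ts_core h p q x y hN _ k3 k4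
    exact ⟨_, k1, ts_inAcl _ x p hN.np (fun j => (hc j).1)
        (ts_lead _ x p hN.np h0 hN.vx.2 (hc 0).1),
      ts_inAcl _ y q hN.nq (fun j => (hc j).2) k2⟩
  · obtain ⟨k1, k2, k3, k4⟩ := key (x p) _ rfl
    have hc := ts_core h p q x y hN _ k3 k4
    exact ⟨_, k1, ts_inAcl _ x p hN.np (fun j => (hc j).1) k2,
      ts_inAcl _ y q hN.nq (fun j => (hc j).2)
        (ts_lead _ y q hN.nq h0 hN.vy.2 (hc 0).2)⟩

end Pool.Agent.AD.TSB

namespace Pool.Agent.AD

alias ts3 := Pool.Agent.AD.TSB.ts3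

alias ts4 := Pool.Agent.AD.TSB.ts4

end Pool.Agent.AD
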