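import Mathlib
import Pool.Agent.Lib_helper59.AD.Defs
import Pool.Agent.Lib_helper59.AD.CND
import Pool.Agent.Lib_helper59.AD.CNT
import Pool.Agent.Lib_helper59.AD.ROTB
import Pool.Agent.Lib_helper59.AD.TSA
import Pool.Agent.Lib_helper59.AD.TSB
-- cites stubs: seen_of_pc, count, countD, ts1, ts2, ts3, ts4

open scoped ComplexConjugate
open Polynomial

namespace Pool.Agent.AD.MC

open Pool.Agent.AD

private theorem mc_top (p q : ℕ) (x y : ℕ → ℂ) (dp : ∀ j, p < j → x j = 0)
    (dq : ∀ j, q < j → y j = 0) : pc (p + q) x y = x p * y q := by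
  unfold pc
  rw [Finset.sum_eq_single (p, q)]
  · rintro ⟨a, b⟩ hab hne
    rw [Finset.HasAntidiagonal.mem_antidiagonal] at hab
    simp only at hab ⊢
    rcases lt_trichotomy a p with h | h | h
    · rw [dq b (by omega), mul_zero]
    · exfalso; apply hne; rw [Prod.mk.injEq]; omega
    · rw [dp a h, zero_mul]
  · intro h
    exact absurd (Finset.HasAntidiagonal.mem_antidiagonal.2 (rfl : (p, q).1 + (p, q).2 = p + q)) h

private theorem mc_one (x y : ℕ → ℂ) : pc 1 x y = x 0 * y 1 + x 1 * y 0 := by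
  unfold pc
  rw [Finset.Nat.antidiagonal_succ]
  simp

theorem main_count (h : ℕ) (he : Even h) (h4 : 4 ≤ h) (θ : PI h → ℝ)
    (hθ : AlgebraicIndependent ℚ (fun i => (θ i : ℂ))) (p q : ℕ) (x y : ℕ → ℂ)
    (hN : Nrm h p q x y) (hS : Sys h (par θ false) (par θ true) (parR θ) x y) :
    p + q = 2 * h - 1 ∧ (x 0 ≠ 0 ∨ y 0 ≠ 0) ∧ (∀ j, Odd j → x j = 0 ∨ y j = 0) ∧
      AlgebraicIndependent ℚ (fun s : SS' p q x y => rr p q x y s) ∧
      (∀ w, Odd w → w ≤ 2 * h - 3 → seen h allD w x y → pc w x y ≠ 0) := by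
  have hxp : x p ≠ 0 := by
    intro h0; have := hN.np; rw [h0, norm_zero] at this; exact zero_ne_one this
  have hyq : y q ≠ 0 := by
    intro h0; have := hN.nq; rw [h0, norm_zero] at this; exact zero_ne_one this
  have hph := hN.ph
  have hqh := hN.qh
  have hodd : ∀ w, w ≤ p + q → pc w x y ≠ 0 → Odd w := by
    intro w hw hne
    by_contra hc
    rw [Nat.not_odd_iff_even] at hc
    obtain ⟨l, hl⟩ := hc
    apply hne
    rw [show w = 2 * l by omega]
    exact hS.1 l (by omega)
  have htop : pc (p + q) x y ≠ 0 := by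
    rw [mc_top p q x y hN.dp hN.dq]; exact mul_ne_zero hxp hyq
  have hto : Odd (p + q) := hodd _ le_rfl htop
  have hseen : ∀ w, w ≤ p + q → pc w x y ≠ 0 → seen h allD w x y := fun w hw hne =>
    seen_of_pc h allD w (hodd w hw hne) x y hN.vx.1 hN.vy.1 hne
  have hcount : ∀ (T : Finset ℂ), InAcl (T : Set ℂ) x → InAcl (T : Set ℂ) y → ∀ W : Finset ℕ,
      (∀ w ∈ W, Odd w ∧ w ≤ 2 * h - 3 ∧ seen h allD w x y) → 2 * W.card ≤ T.card := by
    intro T hTx hTy W hW
    apply count θ hθ allD x y T hTx hTy W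
    intro w hw
    obtain ⟨h1, h2, h3⟩ := hW w hw
    refine ⟨?_, h3⟩
    have := hS.2.2 w h1 h2
    rw [← this]
    simp only [allD, if_true]
  have hcard : (SS p q x y).card = (SS' p q x y).card + 1 := by
    have : SS p q x y = insert (p + q) (SS' p q x y) := by
      ext w
      unfold SS SS'
      simp only [Finset.mem_filter, Finset.mem_range, Finset.mem_insert]
      constructor
      · rintro ⟨h1, h2⟩
        rcases Nat.lt_or_ge w (p + q) with h3 | h3
        · exact Or.inr ⟨h3, h2⟩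
        · exact Or.inl (by omega)
      · rintro (rfl | ⟨h1, h2⟩)
        · exact ⟨by omega, htop⟩
        · exact ⟨by omega, h2⟩
    rw [this, Finset.card_insert_of_notMem]
    unfold SS'
    simp
  -- (1)
  have hpq : p + q = 2 * h - 1 := by
    by_contra hc
    have hle : p + q ≤ 2 * h - 3 := by
      obtain ⟨k, hk⟩ := hto
      omega
    obtain ⟨T, hT, hTx, hTy⟩ := ts1 h p q x y hN
    have := hcount T hTx hTy (SS p q x y) (by
      intro w hw
      unfold SS at hw
      rw [Finset.mem_filter, Finset.mem_range] at hw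
      exact ⟨hodd w (by omega) hw.2, by omega, hseen w (by omega) hw.2⟩)
    omega
  have hSS' : ∀ w ∈ SS' p q x y, Odd w ∧ w ≤ 2 * h - 3 ∧ seen h allD w x y := by
    intro w hw
    unfold SS' at hw
    rw [Finset.mem_filter, Finset.mem_range] at hw
    have h1 := hodd w (by omega) hw.2
    refine ⟨h1, ?_, hseen w (by omega) hw.2⟩
    obtain ⟨k, hk⟩ := h1
    omega
  -- (2)
  have hQ : ∀ w, Odd w → w ≤ 2 * h - 3 → seen h allD w x y → pc w x y ≠ 0 := by
    intro w hw hw2 hws h0
    obtain ⟨T, hT, hTx, hTy⟩ := ts1 h p q x y hN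
    have hnot : w ∉ SS' p q x y := by
      unfold SS'
      rw [Finset.mem_filter]
      exact fun h => h.2 h0
    have := hcount T hTx hTy (insert w (SS' p q x y)) (by
      intro v hv
      rcases Finset.mem_insert.1 hv with rfl | hv
      · exact ⟨hw, hw2, hws⟩
      · exact hSS' v hv)
    rw [Finset.card_insert_of_notMem hnot] at this
    omega
  -- (3)
  have h0 : x 0 ≠ 0 ∨ y 0 ≠ 0 := by
    by_contra hc
    push Not at hc
    have h1 : pc 1 x y = 0 := by rw [mc_one, hc.1, hc.2]; ring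
    refine hQ 1 odd_one (by omega) ?_ h1
    have hodd' : Odd (h - 1) := by
      obtain ⟨k, hk⟩ := he
      exact ⟨k - 1, by omega⟩
    refine ⟨h, le_rfl, h - 1, by omega, he, hodd', Or.inr ⟨trivial, ?_⟩⟩
    unfold df
    rw [if_pos (by omega : h - 1 + 1 = h)]
    rcases Nat.lt_or_ge p h with hp | hp
    · have hq' : q = h := by omega
      have hp' : p = h - 1 := by omega
      have e1 : y h ≠ 0 := by rw [← hq']; exact hyq
      have e2 : x (h - 1) ≠ 0 := by rw [← hp']; exact hxp
      rw [hN.dp h hp, zero_mul, zero_add]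
      exact mul_ne_zero e1 ((_root_.map_ne_zero _).2 e2)
    · have hp' : p = h := by omega
      have hq' : q = h - 1 := by omega
      have e1 : x h ≠ 0 := by rw [← hp']; exact hxp
      have e2 : y (h - 1) ≠ 0 := by rw [← hq']; exact hyq
      rw [hN.dq h (by omega), zero_mul, add_zero]
      exact mul_ne_zero e1 ((_root_.map_ne_zero _).2 e2)
  refine ⟨hpq, h0, ?_, ?_, hQ⟩
  · -- (4)
    intro j hj
    by_contra hc
    push Not at hc
    obtain ⟨hxj, hyj⟩ := hc
    have hjh : j ≤ h := by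
      by_contra hjh
      exact hxj (hN.vx.1 j (by omega))
    by_cases hre : (x j * conj (y j)).re = 0
    · obtain ⟨T, hT, hTx, hTy⟩ := ts3 h p q x y hN h0 ⟨j, hxj, hyj, hre⟩
      have := hcount T hTx hTy (SS' p q x y) hSS'
      omega
    · obtain ⟨T, hT, hTx, hTy⟩ := ts2 h p q x y hN h0
      have := countD θ hθ x y T hTx hTy (SS' p q x y)
        (fun w hw => ⟨hS.2.2 w (hSS' w hw).1 (hSS' w hw).2.1, (hSS' w hw).2.2⟩) hS.2.1
        ⟨j, hjh, hj, hre⟩
      omega
  · -- (5)
    by_contra hd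
    obtain ⟨T, hT, hTx, hTy⟩ := ts4 h p q x y hN h0 hd
    have := hcount T hTx hTy (SS' p q x y) hSS'
    omega

end Pool.Agent.AD.MC

namespace Pool.Agent.AD

alias main_count := Pool.Agent.AD.MC.main_count

end Pool.Agent.AD
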