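import Mathlib
import Pool.Agent.Lib_helper59.AD.Defs

open scoped ComplexConjugate
open Polynomial

namespace Pool.Agent.AD.MONO

theorem mono (p q : ℕ) (x y : ℕ → ℂ) (hxp : x p ≠ 0) (hyq : y q ≠ 0) (dp : ∀ j, p < j → x j = 0)
    (dq : ∀ j, q < j → y j = 0) (hz : ∀ w, w < p + q → pc w x y = 0) :
    (∀ j, j ≠ p → x j = 0) ∧ (∀ j, j ≠ q → y j = 0) := by
  classical
  have ex : ∃ i, x i ≠ 0 := ⟨p, hxp⟩
  have ey : ∃ j, y j ≠ 0 := ⟨q, hyq⟩
  set i0 := Nat.find ex with hi0
  set j0 := Nat.find ey with hj0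
  have h1 : x i0 ≠ 0 := Nat.find_spec ex
  have h2 : y j0 ≠ 0 := Nat.find_spec ey
  have m1 : ∀ i, i < i0 → x i = 0 := fun i hi => not_not.1 (Nat.find_min ex hi)
  have m2 : ∀ j, j < j0 → y j = 0 := fun j hj => not_not.1 (Nat.find_min ey hj)
  have l1 : i0 ≤ p := Nat.find_min' ex hxp
  have l2 : j0 ≤ q := Nat.find_min' ey hyq
  have key : pc (i0 + j0) x y = x i0 * y j0 := by
    rw [pc, Finset.sum_eq_single (i0, j0)]
    · rintro ⟨a, b⟩ hab hne
      rw [Finset.HasAntidiagonal.mem_antidiagonal] at hab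
      rcases lt_trichotomy a i0 with h | h | h
      · rw [m1 a h, zero_mul]
      · exfalso
        apply hne
        have : b = j0 := by simp only at hab; omega
        rw [h, this]
      · rw [m2 b (by simp only at hab; omega), mul_zero]
    · intro h
      exact (h (Finset.HasAntidiagonal.mem_antidiagonal.2 rfl)).elim
  have h3 : ¬ (i0 + j0 < p + q) := by
    intro h
    have := hz _ h
    rw [key] at this
    exact (mul_ne_zero h1 h2) this
  have e1 : i0 = p := by omega
  have e2 : j0 = q := by omega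
  constructor
  · intro j hj
    rcases lt_or_gt_of_ne hj with h | h
    · exact m1 j (by rw [e1]; exact h)
    · exact dp j h
  · intro j hj
    rcases lt_or_gt_of_ne hj with h | h
    · exact m2 j (by rw [e2]; exact h)
    · exact dq j h

end Pool.Agent.AD.MONO

namespace Pool.Agent.AD

alias mono := Pool.Agent.AD.MONO.mono

end Pool.Agent.AD
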