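import Mathlib
import Pool.Agent.Lib_helper59.AD.Defs

open scoped ComplexConjugate
open Polynomial

namespace Pool.Agent.AD.ROTA

private theorem rota_lift (h : ℕ) (c d : ℕ → ℕ → ℂ) (w : ℕ) (x y x' y' : ℕ → ℂ) (s : ℂ)
    (h1 : ∀ i j, cf w x' y' i j = s * cf w x y i j)
    (h2 : ∀ i j, df w x' y' i j = s * df w x y i j) :
    oddF h c d w x' y' = s * oddF h c d w x y := by
  rw [oddF, oddF, Finset.mul_sum]
  refine Finset.sum_congr rfl fun i _ => ?_
  rw [Finset.mul_sum]
  refine Finset.sum_congr rfl fun j _ => ?_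
  rw [h1, h2]
  ring

/-- Termwise: cf and df are symmetric in (x,y). -/
theorem oddF_symm (h : ℕ) (c d : ℕ → ℕ → ℂ) (w : ℕ) (x y : ℕ → ℂ) :
    oddF h c d w x y = oddF h c d w y x := by
  have := rota_lift h c d w y x x y 1 (fun i j => ?_) (fun i j => ?_)
  · rw [this, one_mul]
  · rw [cf, cf]
    split_ifs <;> ring
  · rw [df, df]
    split_ifs <;> ring

/-- |u| = 1: conj u^j = u^{-j}; every nonzero term has weight w. -/
theorem oddF_rot (h : ℕ) (c d : ℕ → ℕ → ℂ) (w : ℕ) (x y : ℕ → ℂ) (u : ℂ) (hu : ‖u‖ = 1) :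
    oddF h c d w (fun j => u ^ j * x j) (fun j => u ^ j * y j) = u ^ w * oddF h c d w x y := by
  have hc : u * conj u = 1 := by
    rw [Complex.mul_conj, Complex.normSq_eq_norm_sq, hu]
    simp
  have key : ∀ i j, j + w = i → u ^ i * (conj u) ^ j = u ^ w := by
    intro i j hij
    rw [← hij, pow_add, mul_comm (u ^ j), mul_assoc, ← mul_pow, hc, one_pow, mul_one]
  refine rota_lift h c d w x y _ _ _ (fun i j => ?_) (fun i j => ?_)
  · rw [cf, cf]
    split_ifs with h1
    · rw [← h1, pow_add]; ring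
    · ring
  · rw [df, df]
    split_ifs with h1 h2
    · simp only [map_mul, map_pow]
      rw [← key i j h1]; ring
    · simp only [map_mul, map_pow]
      rw [← key j i h2.2]; ring
    · ring

/-- Termwise (s, t real). -/
theorem oddF_smul (h : ℕ) (c d : ℕ → ℕ → ℂ) (w : ℕ) (x y : ℕ → ℂ) (s t : ℝ) :
    oddF h c d w (fun j => (s : ℂ) * x j) (fun j => (t : ℂ) * y j)
      = (s : ℂ) * t * oddF h c d w x y := by
  refine rota_lift h c d w x y _ _ _ (fun i j => ?_) (fun i j => ?_)
  · rw [cf, cf]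
    split_ifs <;> ring
  · rw [df, df]
    split_ifs
    · simp only [map_mul, Complex.conj_ofReal]; ring
    · simp only [map_mul, Complex.conj_ofReal]; ring
    · ring

end Pool.Agent.AD.ROTA

namespace Pool.Agent.AD

alias oddF_symm := Pool.Agent.AD.ROTA.oddF_symm

alias oddF_rot := Pool.Agent.AD.ROTA.oddF_rot

alias oddF_smul := Pool.Agent.AD.ROTA.oddF_smul

end Pool.Agent.AD
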