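import Mathlib
import Pool.Agent.Lib_helper59.AD.Defs
import Pool.Agent.Lib_helper59.AD.MONO
import Pool.Agent.Lib_helper59.AD.ROTA
import Pool.Agent.Lib_helper59.AD.ROTB

open scoped ComplexConjugate
open Polynomial

namespace Pool.Agent.AD.NRM

private lemma top_index (h : ℕ) (x : ℕ → ℂ) (hx : ∀ j, h < j → x j = 0) (hx0 : ∃ j, x j ≠ 0) :
    ∃ p, p ≤ h ∧ x p ≠ 0 ∧ ∀ j, p < j → x j = 0 := by
  classical
  obtain ⟨j0, hj0⟩ := hx0
  have hj0h : j0 ≤ h := by
    by_contra hc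
    exact hj0 (hx j0 (by omega))
  obtain ⟨S, hS⟩ : ∃ S : Finset ℕ, ∀ j, j ∈ S ↔ (j ≤ h ∧ x j ≠ 0) :=
    ⟨(Finset.range (h + 1)).filter (fun j => x j ≠ 0), fun j => by simp⟩
  have hne : S.Nonempty := ⟨j0, (hS j0).mpr ⟨hj0h, hj0⟩⟩
  obtain ⟨h1, h2⟩ := (hS _).mp (Finset.max'_mem S hne)
  refine ⟨S.max' hne, h1, h2, ?_⟩
  intro j hj
  by_contra hc
  have hjh : j ≤ h := by
    by_contra h1
    exact hc (hx j (by omega))
  have := Finset.le_max' S j ((hS j).mpr ⟨hjh, hc⟩)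
  omega

private lemma pc_top (p q : ℕ) (x y : ℕ → ℂ) (dp : ∀ j, p < j → x j = 0)
    (dq : ∀ j, q < j → y j = 0) : pc (p + q) x y = x p * y q := by
  unfold pc
  rw [Finset.sum_eq_single (p, q)]
  · rintro ⟨a, b⟩ hab hne
    rw [Finset.HasAntidiagonal.mem_antidiagonal] at hab
    simp only at hab
    rcases Nat.lt_trichotomy a p with h1 | h1 | h1
    · show x a * y b = 0
      rw [dq b (by omega), mul_zero]
    · exfalso
      apply hne
      have : b = q := by omega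
      rw [h1, this]
    · show x a * y b = 0
      rw [dp a h1, zero_mul]
  · intro hc
    exfalso
    apply hc
    rw [Finset.HasAntidiagonal.mem_antidiagonal]

theorem normalize (h : ℕ) (c d : ℕ → ℕ → ℂ) (D : ℕ → ℝ) (x y : ℕ → ℂ) (hx : Vec h x)
    (hy : Vec h y) (hx0 : ∃ j, x j ≠ 0) (hy0 : ∃ j, y j ≠ 0) (hS : Sys h c d D x y)
    (hnp : NonPure x y) :
    ∃ (p q : ℕ) (x' y' : ℕ → ℂ), Nrm h p q x' y' ∧ Sys h c d D x' y' ∧ NonPure x' y' := by
  obtain ⟨p, hph, hxp, dp⟩ := top_index h x hx.1 hx0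
  obtain ⟨q, hqh, hyq, dq⟩ := top_index h y hy.1 hy0
  have htop := pc_top p q x y dp dq
  have hodd : Odd (p + q) := by
    by_contra hc
    rw [Nat.not_odd_iff_even] at hc
    obtain ⟨l, hl⟩ := hc
    have := hS.1 l (by omega)
    rw [show 2 * l = p + q by omega, htop] at this
    exact mul_ne_zero hxp hyq this
  have hw1 : ∃ w, w < p + q ∧ pc w x y ≠ 0 := by
    by_contra hc
    push Not at hc
    obtain ⟨h1, h2⟩ := mono p q x y hxp hyq dp dq hc
    rcases Nat.even_or_odd p with hp | hp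
    · have hq : Odd q := by
        by_contra h3
        rw [Nat.not_odd_iff_even] at h3
        exact (Nat.not_odd_iff_even.mpr (hp.add h3)) hodd
      apply hnp.1
      refine ⟨fun j hj => h1 j ?_, fun j hj => h2 j ?_⟩
      · rintro rfl; exact (Nat.not_odd_iff_even.mpr hp) hj
      · rintro rfl; exact (Nat.not_odd_iff_even.mpr hj) hq
    · have hq : Even q := by
        by_contra h3
        rw [Nat.not_even_iff_odd] at h3
        exact (Nat.not_even_iff_odd.mpr hodd) (hp.add_odd h3)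
      apply hnp.2
      refine ⟨fun j hj => h1 j ?_, fun j hj => h2 j ?_⟩
      · rintro rfl; exact (Nat.not_odd_iff_even.mpr hj) hp
      · rintro rfl; exact (Nat.not_odd_iff_even.mpr hq) hj
  obtain ⟨w1, hw1, hne⟩ := hw1
  set r := rr p q x y w1 with hr
  have hr0 : r ≠ 0 := div_ne_zero hne (mul_ne_zero hxp hyq)
  have hrn : (‖r‖ : ℂ) ≠ 0 := by exact_mod_cast norm_ne_zero_iff.mpr hr0
  obtain ⟨u, hu⟩ := IsAlgClosed.exists_pow_nat_eq (r / ‖r‖) (n := p + q - w1) (by omega)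
  have hun : ‖u‖ = 1 := by
    have h1 : ‖u‖ ^ (p + q - w1) = 1 := by
      rw [← norm_pow, hu, norm_div, Complex.norm_real, norm_norm, div_self]
      exact norm_ne_zero_iff.mpr hr0
    exact (pow_eq_one_iff_of_nonneg (norm_nonneg _) (by omega)).mp h1
  have hu0 : u ≠ 0 := by
    rintro rfl
    simp at hun
  set s : ℝ := ‖x p‖⁻¹ with hs
  set t : ℝ := ‖y q‖⁻¹ with ht
  have hs0 : s ≠ 0 := inv_ne_zero (norm_ne_zero_iff.mpr hxp)
  have ht0 : t ≠ 0 := inv_ne_zero (norm_ne_zero_iff.mpr hyq)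
  have hsC : (s : ℂ) ≠ 0 := by exact_mod_cast hs0
  have htC : (t : ℂ) ≠ 0 := by exact_mod_cast ht0
  set x' : ℕ → ℂ := fun j => (s : ℂ) * (u ^ j * x j) with hx'
  set y' : ℕ → ℂ := fun j => (t : ℂ) * (u ^ j * y j) with hy'
  have hx'0 : ∀ j, x' j = 0 ↔ x j = 0 := by
    intro j
    show (s : ℂ) * (u ^ j * x j) = 0 ↔ x j = 0
    simp [hs0, hu0]
  have hy'0 : ∀ j, y' j = 0 ↔ y j = 0 := by
    intro j
    show (t : ℂ) * (u ^ j * y j) = 0 ↔ y j = 0
    simp [ht0, hu0]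
  have hpc : ∀ w, pc w x' y' = (s : ℂ) * t * (u ^ w * pc w x y) := by
    intro w
    rw [hx', hy', pc_smul w (fun j => u ^ j * x j) (fun j => u ^ j * y j), pc_rot]
  have hvx : Vec h x' := by
    refine ⟨fun j hj => (hx'0 j).mpr (hx.1 j hj), ?_⟩
    show ((s : ℂ) * (u ^ 0 * x 0)).im = 0
    rw [pow_zero, one_mul, Complex.im_ofReal_mul, hx.2, mul_zero]
  have hvy : Vec h y' := by
    refine ⟨fun j hj => (hy'0 j).mpr (hy.1 j hj), ?_⟩
    show ((t : ℂ) * (u ^ 0 * y 0)).im = 0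
    rw [pow_zero, one_mul, Complex.im_ofReal_mul, hy.2, mul_zero]
  refine ⟨p, q, x', y', ?_, ?_, ?_⟩
  · refine ⟨hvx, hvy, hph, hqh, ?_, ?_, fun j hj => (hx'0 j).mpr (dp j hj),
      fun j hj => (hy'0 j).mpr (dq j hj), w1, hw1, ?_⟩
    · show ‖(s : ℂ) * (u ^ p * x p)‖ = 1
      rw [norm_mul, norm_mul, norm_pow, hun, one_pow, one_mul, Complex.norm_real, hs, norm_inv,
        norm_norm, inv_mul_cancel₀ (norm_ne_zero_iff.mpr hxp)]
    · show ‖(t : ℂ) * (u ^ q * y q)‖ = 1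
      rw [norm_mul, norm_mul, norm_pow, hun, one_pow, one_mul, Complex.norm_real, ht, norm_inv,
        norm_norm, inv_mul_cancel₀ (norm_ne_zero_iff.mpr hyq)]
    · have hrr : rr p q x' y' w1 = (‖r‖ : ℂ) := by
        unfold rr
        rw [hpc]
        show (s : ℂ) * t * (u ^ w1 * pc w1 x y) / ((s : ℂ) * (u ^ p * x p) * ((t : ℂ) * (u ^ q * y q)))
          = (‖r‖ : ℂ)
        have e1 : u ^ p * u ^ q = u ^ w1 * (r / ‖r‖) := by
          rw [← hu, ← pow_add, ← pow_add]; congr 1; omega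
        have e2 : pc w1 x y = r * (x p * y q) := by
          rw [hr, rr, div_mul_cancel₀ _ (mul_ne_zero hxp hyq)]
        have e3 : (s : ℂ) * (u ^ p * x p) * ((t : ℂ) * (u ^ q * y q)) =
            (s : ℂ) * t * (u ^ p * u ^ q) * (x p * y q) := by ring
        rw [e3, e1, e2]
        have hw : u ^ w1 ≠ 0 := pow_ne_zero _ hu0
        have hxy : x p * y q ≠ 0 := mul_ne_zero hxp hyq
        field_simp
      refine ⟨?_, ?_⟩
      · rw [hrr]; exact hrn
      · rw [hrr, Complex.conj_ofReal]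
  · refine ⟨?_, ?_, ?_⟩
    · intro l hl
      rw [hpc, hS.1 l hl]; ring
    · rw [hx', hy', Dform_smul, Dform_rot h D x y u hun, hS.2.1, mul_zero]
    · intro w hw hwh
      rw [hx', hy', oddF_smul, oddF_rot h c d w x y u hun, hS.2.2 w hw hwh, mul_zero, mul_zero]
  · refine ⟨?_, ?_⟩
    · rintro ⟨h1, h2⟩
      exact hnp.1 ⟨fun j hj => (hx'0 j).mp (h1 j hj), fun j hj => (hy'0 j).mp (h2 j hj)⟩
    · rintro ⟨h1, h2⟩
      exact hnp.2 ⟨fun j hj => (hx'0 j).mp (h1 j hj), fun j hj => (hy'0 j).mp (h2 j hj)⟩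

end Pool.Agent.AD.NRM

namespace Pool.Agent.AD

alias normalize := Pool.Agent.AD.NRM.normalize

end Pool.Agent.AD
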