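import Mathlib
import Pool.Agent.Lib_helper59.AD.Defs

open scoped ComplexConjugate
open Polynomial

namespace Pool.Agent.AD.SPC

private theorem det_ne {ι : Type} [DecidableEq ι] (θ : ι → ℝ)
    (hθ : AlgebraicIndependent ℚ (fun i => (θ i : ℂ))) (a b c d : ι) (hab : a ≠ b)
    (hbd : b ≠ d) (h : θ a * θ d - θ b * θ c = 0) : False := by
  rw [algebraicIndependent_iff] at hθ
  have h1 := hθ (MvPolynomial.X a * MvPolynomial.X d - MvPolynomial.X b * MvPolynomial.X c) (by
    simp only [map_sub, map_mul, MvPolynomial.aeval_X]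
    exact_mod_cast h)
  have h2 := congrArg (MvPolynomial.aeval (fun i => if i = a ∨ i = d then (1 : ℚ) else 0)) h1
  simp only [map_sub, map_mul, MvPolynomial.aeval_X, map_zero] at h2
  have hb' : ¬ (b = a ∨ b = d) := by rintro (h | h); exacts [hab h.symm, hbd h]
  simp [hb'] at h2

theorem special (h : ℕ) (he : Even h) (h4 : 4 ≤ h) (θ : PI h → ℝ)
    (hθ : AlgebraicIndependent ℚ (fun i => (θ i : ℂ))) (x y : ℕ → ℂ) (hy : Vec h y)
    (hxh : x h ≠ 0) (hyh : y (h - 1) ≠ 0) (hy0 : y 0 ≠ 0)
    (sx : ∀ j, j ≠ 1 → j ≠ h → x j = 0) (sy : ∀ j, j ≠ 0 → j ≠ h - 1 → y j = 0)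
    (hev : pc h x y = 0) (hF : oddF h (par θ false) (par θ true) 1 x y = 0) : False := by
  have e1 : pc h x y = x 1 * y (h - 1) + x h * y 0 := by
    unfold pc
    rw [← Finset.sum_subset (s₁ := {(1, h - 1), (h, 0)})]
    · rw [Finset.sum_pair]
      intro h0
      have := congrArg Prod.fst h0
      simp only at this
      omega
    · intro a ha
      simp only [Finset.mem_insert, Finset.mem_singleton] at ha
      rw [Finset.HasAntidiagonal.mem_antidiagonal]
      rcases ha with rfl | rfl
      · simp only; omega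
      · simp
    · intro a ha hna
      rw [Finset.HasAntidiagonal.mem_antidiagonal] at ha
      simp only [Finset.mem_insert, Finset.mem_singleton, not_or] at hna
      by_cases h1 : a.1 = 1
      · exfalso
        apply hna.1
        ext
        · exact h1
        · simp only; omega
      by_cases h2 : a.1 = h
      · exfalso
        apply hna.2
        ext
        · exact h2
        · simp only; omega
      rw [sx _ h1 h2, zero_mul]
  have hterm : ∀ i ∈ (Finset.range (h + 1)).filter Even, ∀ j ∈ (Finset.range (h + 1)).filter Odd,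
      par θ false i j * cf 1 x y i j + par θ true i j * df 1 x y i j =
        (if i = 0 ∧ j = 1 then par θ false 0 1 * (y 0 * x 1) else 0) +
        (if i = h ∧ j = h - 1 then par θ true h (h - 1) * (x h * conj (y (h - 1))) else 0) := by
    intro i hi j hj
    rw [Finset.mem_filter, Finset.mem_range] at hi hj
    obtain ⟨hi1, hi2⟩ := hi
    obtain ⟨hj1, hj2⟩ := hj
    have hi3 : i ≠ 1 := by rintro rfl; exact absurd hi2 (by decide)
    have hj3 : j ≠ 0 := by rintro rfl; exact absurd hj2 (by decide)
    have hj4 : j ≠ h := by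
      rintro rfl
      exact (Nat.not_even_iff_odd.2 hj2) he
    have hi4 : i ≠ h - 1 := by
      rintro rfl
      rcases he with ⟨a, ha⟩
      rcases hi2 with ⟨b, hb⟩
      omega
    have hc : cf 1 x y i j = if i = 0 ∧ j = 1 then y 0 * x 1 else 0 := by
      unfold cf
      by_cases h1 : i + j = 1
      · have h2 : i = 0 := by omega
        have h3 : j = 1 := by omega
        subst h2; subst h3
        rw [if_pos rfl, if_pos ⟨rfl, rfl⟩, sx 0 (by omega) (by omega)]
        ring
      · rw [if_neg h1, if_neg (by rintro ⟨rfl, rfl⟩; exact h1 rfl)]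
    have hd : df 1 x y i j = if i = h ∧ j = h - 1 then x h * conj (y (h - 1)) else 0 := by
      unfold df
      by_cases h1 : j + 1 = i
      · rw [if_pos h1]
        have hyi : y i = 0 := sy i (by omega) hi4
        by_cases h2 : i = h
        · subst h2
          have h3 : j = i - 1 := by omega
          subst h3
          rw [if_pos ⟨rfl, rfl⟩, hyi, zero_mul, add_zero]
        · rw [if_neg (fun h => h2 h.1), sx i hi3 h2, hyi, zero_mul, zero_mul, add_zero]
      · have hr : (if i = h ∧ j = h - 1 then x h * conj (y (h - 1)) else 0) = 0 :=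
          if_neg (by rintro ⟨h5, h6⟩; omega)
        rw [hr, if_neg h1]
        by_cases h2 : i ≠ 0 ∧ i + 1 = j
        · rw [if_pos h2, sx i hi3 (by omega), sy i h2.1 hi4, map_zero, zero_mul, zero_mul, add_zero]
        · rw [if_neg h2]
    rw [hc, hd, mul_ite, mul_ite, mul_zero, mul_zero]
    congr 1
    · by_cases h1 : i = 0 ∧ j = 1
      · rw [if_pos h1, if_pos h1, h1.1, h1.2]
      · rw [if_neg h1, if_neg h1]
    · by_cases h1 : i = h ∧ j = h - 1
      · rw [if_pos h1, if_pos h1, h1.1, h1.2]
      · rw [if_neg h1, if_neg h1]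
  have e2 : oddF h (par θ false) (par θ true) 1 x y =
      par θ false 0 1 * (y 0 * x 1) + par θ true h (h - 1) * (x h * conj (y (h - 1))) := by
    unfold oddF
    rw [Finset.sum_congr rfl (fun i hi => Finset.sum_congr rfl (hterm i hi))]
    simp only [Finset.sum_add_distrib]
    congr 1
    · rw [Finset.sum_eq_single 0]
      · rw [Finset.sum_eq_single 1]
        · rw [if_pos ⟨rfl, rfl⟩]
        · intro j _ hj
          rw [if_neg (fun h => hj h.2)]
        · intro h1
          exact absurd (Finset.mem_filter.2 ⟨Finset.mem_range.2 (by omega), by decide⟩) h1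
      · intro i _ hi
        exact Finset.sum_eq_zero fun j _ => if_neg (fun h => hi h.1)
      · intro h1
        exact absurd (Finset.mem_filter.2 ⟨Finset.mem_range.2 (by omega), by decide⟩) h1
    · rw [Finset.sum_eq_single h]
      · rw [Finset.sum_eq_single (h - 1)]
        · rw [if_pos ⟨rfl, rfl⟩]
        · intro j _ hj
          rw [if_neg (fun h => hj h.2)]
        · intro h1
          refine absurd (Finset.mem_filter.2 ⟨Finset.mem_range.2 (by omega), ?_⟩) h1
          rcases he with ⟨a, ha⟩
          exact ⟨a - 1, by omega⟩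
      · intro i _ hi
        exact Finset.sum_eq_zero fun j _ => if_neg (fun h => hi h.1)
      · intro h1
        exact absurd (Finset.mem_filter.2 ⟨Finset.mem_range.2 (by omega), he⟩) h1
  rw [e1] at hev
  rw [e2] at hF
  -- `d |y_{h-1}|² = c y_0²`
  set c := par θ false 0 1 with hcdef
  set d := par θ true h (h - 1) with hddef
  have hyre : y 0 = ((y 0).re : ℂ) := by
    apply Complex.ext
    · simp
    · simp [hy.2]
  have e3 : d * (Complex.normSq (y (h - 1)) : ℂ) = c * ((y 0).re : ℂ) ^ 2 := by
    rw [← hyre, ← Complex.mul_conj]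
    have h5 : x h * (d * (y (h - 1) * conj (y (h - 1))) - c * y 0 ^ 2) = 0 := by
      linear_combination (y (h - 1)) * hF - c * y 0 * hev
    rcases mul_eq_zero.1 h5 with h6 | h6
    · exact absurd h6 hxh
    · exact sub_eq_zero.1 h6
  have hre := congrArg Complex.re e3
  have him := congrArg Complex.im e3
  have hsq : ((y 0).re : ℂ) ^ 2 = (((y 0).re ^ 2 : ℝ) : ℂ) := by push_cast; rfl
  rw [hsq] at hre him
  rw [Complex.re_mul_ofReal, Complex.re_mul_ofReal] at hre
  rw [Complex.im_mul_ofReal, Complex.im_mul_ofReal] at him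
  have hN : 0 < Complex.normSq (y (h - 1)) := Complex.normSq_pos.2 hyh
  have hS : 0 < (y 0).re ^ 2 := by
    have : (y 0).re ≠ 0 := by
      intro h0
      rw [h0] at hyre
      exact hy0 (by rw [hyre]; simp)
    positivity
  have hdet : c.re * d.im - c.im * d.re = 0 := by
    have h5 : (c.re * d.im - c.im * d.re) * (Complex.normSq (y (h - 1))) = 0 := by
      linear_combination c.re * him - c.im * hre
    rcases mul_eq_zero.1 h5 with h6 | h6
    · exact h6
    · exact absurd h6 hN.ne'
  have h01 : 0 < h + 1 ∧ 1 < h + 1 := ⟨by omega, by omega⟩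
  have hh1 : h < h + 1 ∧ h - 1 < h + 1 := ⟨by omega, by omega⟩
  have hc2 : c = ⟨θ (Sum.inl (⟨0, h01.1⟩, ⟨1, h01.2⟩, false, false)),
      θ (Sum.inl (⟨0, h01.1⟩, ⟨1, h01.2⟩, false, true))⟩ := by
    rw [hcdef, par, dif_pos h01]
  have hd2 : d = ⟨θ (Sum.inl (⟨h, hh1.1⟩, ⟨h - 1, hh1.2⟩, true, false)),
      θ (Sum.inl (⟨h, hh1.1⟩, ⟨h - 1, hh1.2⟩, true, true))⟩ := by
    rw [hddef, par, dif_pos hh1]
  rw [hc2, hd2] at hdet
  simp only at hdet
  classical
  exact det_ne θ hθ _ _ _ _ (by simp) (by simp) hdet

end Pool.Agent.AD.SPC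

namespace Pool.Agent.AD

alias special := Pool.Agent.AD.SPC.special

end Pool.Agent.AD
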