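import Mathlib
import Pool.Agent.Lib_helper59.AD.Defs
import Pool.Agent.Lib_helper59.AD.EVN
import Pool.Agent.Lib_helper59.AD.FL4
import Pool.Agent.Lib_helper59.AD.GAP
import Pool.Agent.Lib_helper59.AD.MC
import Pool.Agent.Lib_helper59.AD.NRM
import Pool.Agent.Lib_helper59.AD.ROTA
import Pool.Agent.Lib_helper59.AD.ROTB
import Pool.Agent.Lib_helper59.AD.SPC
-- cites stubs: pol_coeff, pol_mul_coeff, pc_symm, Dform_symm, oddF_symm, normalize, main_count, gap, special, flip, evn

open scoped ComplexConjugate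
open Polynomial

namespace Pool.Agent.AD.MIX

open Pool.Agent.AD

private theorem mix_top (p q : ℕ) (x y : ℕ → ℂ) (dp : ∀ j, p < j → x j = 0)
    (dq : ∀ j, q < j → y j = 0) : pc (p + q) x y = x p * y q := by
  unfold pc
  rw [Finset.sum_eq_single (p, q)]
  · rintro ⟨a, b⟩ hab hne
    rw [Finset.HasAntidiagonal.mem_antidiagonal] at hab
    simp only at hab ⊢
    rcases lt_trichotomy a p with h | h | h
    · rw [dq b (by omega), mul_zero]
    · exfalso; apply hne; rw [Prod.mk.injEq]; omega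
    · rw [dp a h, zero_mul]
  · intro h
    exact absurd (Finset.HasAntidiagonal.mem_antidiagonal.2 (rfl : (p, q).1 + (p, q).2 = p + q)) h

private theorem mix_gt (p q n : ℕ) (x y : ℕ → ℂ) (dp : ∀ j, p < j → x j = 0)
    (dq : ∀ j, q < j → y j = 0) (hn : p + q < n) : pc n x y = 0 := by
  unfold pc
  refine Finset.sum_eq_zero ?_
  rintro ⟨a, b⟩ hab
  rw [Finset.HasAntidiagonal.mem_antidiagonal] at hab
  simp only at hab ⊢
  by_cases ha : p < a
  · rw [dp a ha, zero_mul]
  · rw [dq b (by omega), mul_zero]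

private theorem mix_rr_symm (p q : ℕ) (x y : ℕ → ℂ) (w : ℕ) : rr p q x y w = rr q p y x w := by
  rw [rr, rr, pc_symm, mul_comm (x p)]

private theorem mix_nrm_symm {h p q : ℕ} {x y : ℕ → ℂ} (hN : Nrm h p q x y) : Nrm h q p y x where
  vx := hN.vy
  vy := hN.vx
  ph := hN.qh
  qh := hN.ph
  np := hN.nq
  nq := hN.np
  dp := hN.dq
  dq := hN.dp
  re := by
    obtain ⟨w, hw, h1, h2⟩ := hN.re
    refine ⟨w, by omega, ?_, ?_⟩
    · rwa [← mix_rr_symm]
    · rwa [← mix_rr_symm]

private theorem mix_sys_symm {h : ℕ} {c d : ℕ → ℕ → ℂ} {D : ℕ → ℝ} {x y : ℕ → ℂ}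
    (hS : Sys h c d D x y) : Sys h c d D y x :=
  ⟨fun l hl => by rw [pc_symm]; exact hS.1 l hl, by rw [Dform_symm]; exact hS.2.1,
    fun w hw hw' => by rw [oddF_symm]; exact hS.2.2 w hw hw'⟩

private theorem mix_np_symm {x y : ℕ → ℂ} (hn : NonPure x y) : NonPure y x :=
  ⟨fun h => hn.2 ⟨h.2, h.1⟩, fun h => hn.1 ⟨h.2, h.1⟩⟩

private theorem mix_ne {z : ℂ} (hz : ‖z‖ = 1) : z ≠ 0 := by
  intro h
  rw [h, norm_zero] at hz
  exact zero_ne_one hz

/-- if `x` is even then `y` is odd -/
private theorem mix_odd (h : ℕ) (x y : ℕ → ℂ) (hx : ∀ j, h < j → x j = 0)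
    (hy : ∀ j, h < j → y j = 0) (hx0 : ∃ j, x j ≠ 0) (hev : ∀ l ≤ h, pc (2 * l) x y = 0)
    (hE : EvenV x) : OddV y := by
  classical
  by_contra hO
  have hO' : ∃ i, Even i ∧ y i ≠ 0 := by
    unfold OddV at hO
    push Not at hO
    exact hO
  set i0 := Nat.find hO' with hi0
  obtain ⟨hi0e, hyi0⟩ := Nat.find_spec hO'
  rw [← hi0] at hi0e hyi0
  have hmin : ∀ b, b < i0 → ¬ (Even b ∧ y b ≠ 0) := fun b hb => Nat.find_min hO' hb
  set a0 := Nat.find hx0 with ha0
  have hxa0 : x a0 ≠ 0 := Nat.find_spec hx0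
  have hamin : ∀ a, a < a0 → x a = 0 := fun a ha => not_not.1 (Nat.find_min hx0 ha)
  have ha0e : Even a0 := by
    by_contra hc
    exact hxa0 (hE a0 (Nat.not_even_iff_odd.1 hc))
  have ha0h : a0 ≤ h := by
    by_contra hc
    exact hxa0 (hx a0 (by omega))
  have hi0h : i0 ≤ h := by
    by_contra hc
    exact hyi0 (hy i0 (by omega))
  have h1 : pc (a0 + i0) x y = x a0 * y i0 := by
    unfold pc
    rw [Finset.sum_eq_single (a0, i0)]
    · rintro ⟨a, b⟩ hab hne
      rw [Finset.HasAntidiagonal.mem_antidiagonal] at hab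
      simp only at hab ⊢
      by_cases hxa : x a = 0
      · rw [hxa, zero_mul]
      · have hae : Even a := by
          by_contra hc
          exact hxa (hE a (Nat.not_even_iff_odd.1 hc))
        have haa : a0 ≤ a := by
          by_contra hc
          exact hxa (hamin a (by omega))
        have hbe : Even b := by
          obtain ⟨k1, hk1⟩ := hae
          obtain ⟨k2, hk2⟩ := ha0e
          obtain ⟨k3, hk3⟩ := hi0e
          exact ⟨k2 + k3 - k1, by omega⟩
        have hbi : b < i0 := by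
          rcases Nat.lt_or_ge b i0 with hlt | hge
          · exact hlt
          · exfalso; apply hne; rw [Prod.mk.injEq]; omega
        have h2 : y b = 0 := by
          by_contra hc
          exact hmin b hbi ⟨hbe, hc⟩
        rw [h2, mul_zero]
    · intro hc
      exact absurd (Finset.HasAntidiagonal.mem_antidiagonal.2
        (rfl : (a0, i0).1 + (a0, i0).2 = a0 + i0)) hc
  obtain ⟨k1, hk1⟩ := ha0e
  obtain ⟨k2, hk2⟩ := hi0e
  have h2 := hev (k1 + k2) (by omega)
  rw [show 2 * (k1 + k2) = a0 + i0 by omega, h1] at h2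
  exact mul_ne_zero hxa0 hyi0 h2

private theorem mix_aux (h : ℕ) (he : Even h) (h4 : 4 ≤ h) (θ : PI h → ℝ)
    (hθ : AlgebraicIndependent ℚ (fun i => (θ i : ℂ))) (x y : ℕ → ℂ)
    (hN : Nrm h h (h - 1) x y) (hS : Sys h (par θ false) (par θ true) (parR θ) x y)
    (hn : NonPure x y) : False := by
  classical
  obtain ⟨-, h0, hodd, hr, hQ⟩ := main_count h he h4 θ hθ h (h - 1) x y hN hS
  have hxh : x h ≠ 0 := mix_ne hN.np
  have hyh : y (h - 1) ≠ 0 := mix_ne hN.nq
  have hev : ∀ l ≤ h, pc (2 * l) x y = 0 := hS.1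
  obtain ⟨hxh1, hA⟩ := gap h he h4 x y hN.vx hN.vy hxh hyh hN.dq h0 hodd hev hQ
  rcases hA with ⟨w, hwo, hw2, hpw, hpw2⟩ | ⟨hy0, hx1, sx, sy⟩
  · set N := 2 * h - 1 with hNdef
    have hNe : h + (h - 1) = N := by omega
    set P : ℂ[X] := C (x h)⁻¹ * pol h x with hP
    set Q : ℂ[X] := C (y (h - 1))⁻¹ * pol h y with hQdef
    have hPc : ∀ j, P.coeff j = (x h)⁻¹ * x j := fun j => by
      rw [hP, coeff_C_mul, pol_coeff h x hN.vx.1]
    have hQc : ∀ j, Q.coeff j = (y (h - 1))⁻¹ * y j := fun j => by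
      rw [hQdef, coeff_C_mul, pol_coeff h y hN.vy.1]
    have hPdeg : P.natDegree ≤ h := by
      rw [Polynomial.natDegree_le_iff_coeff_eq_zero]
      intro n hn'
      rw [hPc, hN.vx.1 n hn', mul_zero]
    have hPh : P.coeff h = 1 := by rw [hPc, inv_mul_cancel₀ hxh]
    have hPm : P.Monic := Polynomial.monic_of_natDegree_le_of_coeff_eq_one h hPdeg hPh
    have hPn : P.natDegree = h := by
      refine le_antisymm hPdeg ?_
      apply Polynomial.le_natDegree_of_ne_zero
      rw [hPh]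
      exact one_ne_zero
    have hPQc : ∀ n, (P * Q).coeff n = rr h (h - 1) x y n := by
      intro n
      have h1 : P * Q = C ((x h)⁻¹ * (y (h - 1))⁻¹) * (pol h x * pol h y) := by
        rw [hP, hQdef, C_mul]
        ring
      rw [h1, coeff_C_mul, pol_mul_coeff h x y hN.vx.1 hN.vy.1, rr, ← mul_inv, div_eq_inv_mul]
    have hPQ : P * Q = X ^ N + ∑ s ∈ SS' h (h - 1) x y, C (rr h (h - 1) x y s) * X ^ s := by
      ext n
      rw [hPQc, coeff_add, Polynomial.finsetSum_coeff]
      simp only [Polynomial.coeff_C_mul, Polynomial.coeff_X_pow, mul_ite, mul_one, mul_zero]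
      rw [Finset.sum_ite_eq]
      by_cases h1 : n ∈ SS' h (h - 1) x y
      · rw [if_pos h1]
        have h2 : n < h + (h - 1) := by
          have := (Finset.mem_filter.1 h1).1
          exact Finset.mem_range.1 this
        rw [if_neg (by omega), zero_add]
      · rw [if_neg h1, add_zero]
        by_cases h2 : n = N
        · rw [if_pos h2, rr, h2, ← hNe, mix_top h (h - 1) x y hN.dp hN.dq,
            div_self (mul_ne_zero hxh hyh)]
        · rw [if_neg h2, rr]
          have h3 : pc n x y = 0 := by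
            rcases Nat.lt_or_ge n (h + (h - 1)) with hlt | hge
            · by_contra hc
              exact h1 (Finset.mem_filter.2 ⟨Finset.mem_range.2 hlt, hc⟩)
            · exact mix_gt h (h - 1) n x y hN.dp hN.dq (by omega)
          rw [h3, zero_div]
    have hSodd : ∀ s, pc s x y ≠ 0 → Odd s := by
      intro s hs
      by_contra hc
      rw [Nat.not_odd_iff_even] at hc
      obtain ⟨k, hk⟩ := hc
      rcases Nat.lt_or_ge (h + (h - 1)) s with hlt | hge
      · exact hs (mix_gt h (h - 1) s x y hN.dp hN.dq hlt)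
      · have := hev k (by omega)
        rw [show 2 * k = s by omega] at this
        exact hs this
    have hflip : ∀ ρ : ℂ, ρ ≠ 0 → P.eval ρ = 0 → Q.eval (-ρ) ≠ 0 := by
      intro ρ hρ hP0 hQ0
      refine flip (SS' h (h - 1) x y) N w ?_ ?_ ?_ ?_ (rr h (h - 1) x y) hr P Q hPm hPQ ρ hρ
        hP0 hQ0 ?_
      · intro s hs
        rw [SS', Finset.mem_filter, Finset.mem_range] at hs
        exact ⟨hSodd s hs.2, by omega⟩
      · exact ⟨h - 1, by omega⟩
      · rw [SS', Finset.mem_filter, Finset.mem_range]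
        exact ⟨by omega, hpw⟩
      · rcases Nat.lt_or_ge (w + 2) (h + (h - 1)) with hlt | hge
        · left
          rw [SS', Finset.mem_filter, Finset.mem_range]
          exact ⟨hlt, hpw2⟩
        · right
          omega
      · rw [hPn, hPc, hxh1, mul_zero]
    have hrrne : ∀ n, (P * Q).coeff n ≠ 0 → Odd n := by
      intro n hn'
      rw [hPQc, rr] at hn'
      exact hSodd n (fun hc => hn' (by rw [hc, zero_div]))
    have hPQne : P * Q ≠ 0 := by
      intro hc
      have h1 : (P * Q).coeff N = 1 := by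
        rw [hPQc, rr, ← hNe, mix_top h (h - 1) x y hN.dp hN.dq, div_self (mul_ne_zero hxh hyh)]
      rw [hc, coeff_zero] at h1
      exact zero_ne_one h1
    have hE : EvenV x := by
      intro j hj
      by_contra hxj
      have h1 := evn P Q hPQne (fun n hn' => by
        by_contra hc
        exact (Nat.not_even_iff_odd.2 (hrrne n hc)) hn') hflip h j (by rw [hPh]; exact one_ne_zero)
        (by rw [hPc]; exact mul_ne_zero (inv_ne_zero hxh) hxj)
      exact (Nat.not_even_iff_odd.2 hj) (h1.1 he)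
    exact hn.1 ⟨hE, mix_odd h x y hN.vx.1 hN.vy.1 ⟨h, hxh⟩ hev hE⟩
  · refine special h he h4 θ hθ x y hN.vy hxh hyh hy0 sx sy ?_ ?_
    · obtain ⟨k, hk⟩ := he
      have := hev k (by omega)
      rwa [show 2 * k = h by omega] at this
    · exact hS.2.2 1 odd_one (by omega)

theorem mixed (h : ℕ) (he : Even h) (h4 : 4 ≤ h) (θ : PI h → ℝ)
    (hθ : AlgebraicIndependent ℚ (fun i => (θ i : ℂ))) (x y : ℕ → ℂ) (hx : Vec h x) (hy : Vec h y)
    (hx0 : ∃ j, x j ≠ 0) (hy0 : ∃ j, y j ≠ 0)
    (hS : Sys h (par θ false) (par θ true) (parR θ) x y) :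
    (EvenV x ∧ OddV y) ∨ (OddV x ∧ EvenV y) := by
  by_contra hcon
  rw [not_or] at hcon
  obtain ⟨p, q, x', y', hN, hS', hn⟩ := normalize h _ _ _ x y hx hy hx0 hy0 hS hcon
  have hpq := (main_count h he h4 θ hθ p q x' y' hN hS').1
  have hp := hN.ph
  have hq := hN.qh
  rcases (by omega : (p = h ∧ q = h - 1) ∨ (q = h ∧ p = h - 1)) with ⟨h1, h2⟩ | ⟨h1, h2⟩
  · subst h1 h2
    exact mix_aux p he h4 θ hθ x' y' hN hS' hn
  · subst h1 h2
    exact mix_aux q he h4 θ hθ y' x' (mix_nrm_symm hN) (mix_sys_symm hS') (mix_np_symm hn)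

end Pool.Agent.AD.MIX

namespace Pool.Agent.AD

alias mixed := Pool.Agent.AD.MIX.mixed

end Pool.Agent.AD
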