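import Mathlib
import Pool.Agent.Lib_helper59.AD.Defs

/-! helper41, AD block LOC: `loc`. -/

open scoped ComplexConjugate
open Polynomial

namespace Pool.Agent.AD.LOC

/-- extension by zero -/
private noncomputable def ex {h : ℕ} (x : Fin (h + 1) → ℂ) (j : ℕ) : ℂ :=
  if hj : j < h + 1 then x ⟨j, hj⟩ else 0

private theorem ex_cont (h j : ℕ) : Continuous (fun x : Fin (h + 1) → ℂ => ex x j) := by
  unfold ex
  split_ifs with hj
  · exact continuous_apply _
  · exact continuous_const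

private theorem ex_restrict {h : ℕ} (x : ℕ → ℂ) (hx : ∀ j, h < j → x j = 0) (s : ℂ) (j : ℕ) :
    ex (h := h) (fun i => s * x i) j = s * x j := by
  unfold ex
  split_ifs with hj
  · rfl
  · rw [hx j (by omega), mul_zero]

private theorem lam_cont (e m k : ℕ) : Continuous (fun t : ℝ => lam e m t k) := by
  unfold lam
  split_ifs
  · exact (Complex.continuous_ofReal).pow _
  · exact (Complex.continuous_ofReal).pow _
  · exact ((Complex.continuous_ofReal).pow _).mul continuous_const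
  · exact continuous_const

private theorem lam_zero (e m : ℕ) (he : 1 ≤ e) (hm : 1 ≤ m) : lam e m 0 = 0 := by
  funext k
  have h1 : 8 * e * m ≠ 0 := by positivity
  have h2 : 2 * m ≠ 0 := by positivity
  unfold lam
  split_ifs <;> simp [h1, h2]

private theorem pF_cont (n e m : ℕ) (a : ℕ → ℕ → ℂ) (μ : ℕ → ℂ) (k : ℕ) :
    Continuous (fun z : ℝ × ((Fin (n + 1) → ℂ) × (Fin (n + 1) → ℂ)) =>
      pF n a μ (lam e m z.1) k (ex z.2.1) (ex z.2.2)) := by
  have hx : ∀ j, Continuous (fun z : ℝ × ((Fin (n + 1) → ℂ) × (Fin (n + 1) → ℂ)) =>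
      ex z.2.1 j) := fun j => (ex_cont n j).comp (continuous_fst.comp continuous_snd)
  have hy : ∀ j, Continuous (fun z : ℝ × ((Fin (n + 1) → ℂ) × (Fin (n + 1) → ℂ)) =>
      ex z.2.2 j) := fun j => (ex_cont n j).comp (continuous_snd.comp continuous_snd)
  have hl : Continuous (fun z : ℝ × ((Fin (n + 1) → ℂ) × (Fin (n + 1) → ℂ)) => lam e m z.1 k) :=
    (lam_cont e m k).comp continuous_fst
  unfold pF
  refine ((continuous_finsetSum _ fun i _ => continuous_finsetSum _ fun j _ => ?_).add ?_).add ?_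
  · split_ifs
    · exact continuous_const.mul ((hx i).mul (hy j))
    · exact continuous_const
  · exact continuous_const.mul ((Complex.continuous_conj.comp (hx _)).mul (hy _))
  · exact hl.mul ((hx _).mul (Complex.continuous_conj.comp (hy _)))

private theorem pF_sm (n : ℕ) (a : ℕ → ℕ → ℂ) (μ l : ℕ → ℂ) (k : ℕ) (x y : ℕ → ℂ) (s t : ℝ) :
    pF n a μ l k (fun j => (s : ℂ) * x j) (fun j => (t : ℂ) * y j)
      = (s : ℂ) * t * pF n a μ l k x y := by
  unfold pF
  simp only [mul_add, Finset.mul_sum, map_mul, Complex.conj_ofReal]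
  congr 1
  · congr 1
    · refine Finset.sum_congr rfl fun i _ => Finset.sum_congr rfl fun j _ => ?_
      split_ifs <;> ring
    · ring
  · ring

private theorem closed_all2 {X ι : Type*} [TopologicalSpace X] {p p' : ι → Prop} {f : ι → X → ℂ}
    (hf : ∀ i, Continuous (f i)) : IsClosed {q | ∀ i, p i → p' i → f i q = 0} := by
  have : {q | ∀ i, p i → p' i → f i q = 0} = ⋂ i, ⋂ _ : p i, ⋂ _ : p' i, {q | f i q = 0} := by
    ext; simp
  rw [this]
  exact isClosed_iInter fun j => isClosed_iInter fun _ => isClosed_iInter fun _ =>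
    isClosed_eq (hf j) continuous_const

theorem loc (n e m : ℕ) (he : 1 ≤ e) (hm : 1 ≤ m) (a : ℕ → ℕ → ℂ) (μ : ℕ → ℂ)
    (hu : ∀ x y, XV n x → YV n y → (∃ i, x i ≠ 0) → (∃ j, y j ≠ 0) →
      (∀ k, 1 ≤ k → k ≤ 2 * n - 1 → pF n a μ 0 k x y = 0) →
      (∀ i, i < n → x i = 0) ∧ (∀ j, j < n → y j = 0)) (δ : ℝ) (hδ : 0 < δ) :
    ∃ t₀ : ℝ, 0 < t₀ ∧ ∀ t, 0 < t → t < t₀ → ∀ x y, XV n x → YV n y → (∃ i, x i ≠ 0) →
      (∃ j, y j ≠ 0) → (∀ k, 1 ≤ k → k ≤ 2 * n - 1 → pF n a μ (lam e m t) k x y = 0) →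
      x n ≠ 0 ∧ y n ≠ 0 ∧ (∀ i < n, ‖x i‖ ≤ δ * ‖x n‖) ∧ (∀ j < n, ‖y j‖ ≤ δ * ‖y n‖) := by
  let V := Fin (n + 1) → ℂ
  let Zr : ℝ → (V × V) → Prop := fun t z =>
    (ex z.1 0).im = 0 ∧ ex z.2 0 = 0 ∧
      ∀ k, 1 ≤ k → k ≤ 2 * n - 1 → pF n a μ (lam e m t) k (ex z.1) (ex z.2) = 0
  let Gd : (V × V) → Prop := fun z => ex z.1 n ≠ 0 ∧ ex z.2 n ≠ 0 ∧
    (∀ i : Fin n, ‖ex z.1 i‖ < δ * ‖ex z.1 n‖) ∧ (∀ i : Fin n, ‖ex z.2 i‖ < δ * ‖ex z.2 n‖)
  have hx : ∀ j, Continuous (fun q : ℝ × (V × V) => ex q.2.1 j) :=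
    fun j => (ex_cont n j).comp (continuous_fst.comp continuous_snd)
  have hy : ∀ j, Continuous (fun q : ℝ × (V × V) => ex q.2.2 j) :=
    fun j => (ex_cont n j).comp (continuous_snd.comp continuous_snd)
  have hclosed : IsClosed {q : ℝ × (V × V) | Zr q.1 q.2} := by
    refine IsClosed.inter ?_ (IsClosed.inter ?_ ?_)
    · exact isClosed_eq (Complex.continuous_im.comp (hx 0)) continuous_const
    · exact isClosed_eq (hy 0) continuous_const
    · exact closed_all2 (p := fun k => 1 ≤ k) (p' := fun k => k ≤ 2 * n - 1)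
        (fun k => pF_cont n e m a μ k)
  have hopen : IsOpen {q : ℝ × (V × V) | Gd q.2} := by
    refine IsOpen.inter ?_ (IsOpen.inter ?_ (IsOpen.inter ?_ ?_))
    · exact isOpen_ne_fun (hx n) continuous_const
    · exact isOpen_ne_fun (hy n) continuous_const
    · have : {q : ℝ × (V × V) | ∀ i : Fin n, ‖ex q.2.1 i‖ < δ * ‖ex q.2.1 n‖} =
          ⋂ i : Fin n, {q : ℝ × (V × V) | ‖ex q.2.1 i‖ < δ * ‖ex q.2.1 n‖} := by ext; simp
      have h2 : IsOpen {q : ℝ × (V × V) | ∀ i : Fin n, ‖ex q.2.1 i‖ < δ * ‖ex q.2.1 n‖} := by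
        rw [this]
        exact isOpen_iInter_of_finite fun i => isOpen_lt (hx i).norm
          (continuous_const.mul (hx n).norm)
      exact h2
    · have : {q : ℝ × (V × V) | ∀ i : Fin n, ‖ex q.2.2 i‖ < δ * ‖ex q.2.2 n‖} =
          ⋂ i : Fin n, {q : ℝ × (V × V) | ‖ex q.2.2 i‖ < δ * ‖ex q.2.2 n‖} := by ext; simp
      have h2 : IsOpen {q : ℝ × (V × V) | ∀ i : Fin n, ‖ex q.2.2 i‖ < δ * ‖ex q.2.2 n‖} := by
        rw [this]
        exact isOpen_iInter_of_finite fun i => isOpen_lt (hy i).norm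
          (continuous_const.mul (hy n).norm)
      exact h2
  have hcomp : IsCompact ((Metric.sphere (0 : V) 1) ×ˢ (Metric.sphere (0 : V) 1)) :=
    (isCompact_sphere _ _).prod (isCompact_sphere _ _)
  have hev := hcomp.eventually_forall_of_forall_eventually (x₀ := (0 : ℝ))
    (P := fun t z => ¬ Zr t z ∨ Gd z) (by
      intro z hz
      have h1 : ((0 : ℝ), z) ∈ {q : ℝ × (V × V) | Zr q.1 q.2}ᶜ ∪ {q : ℝ × (V × V) | Gd q.2} := by
        by_cases hZ : Zr 0 z
        · right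
          obtain ⟨h4, h5, h6⟩ := hZ
          obtain ⟨hz1, hz2⟩ := hz
          rw [mem_sphere_zero_iff_norm] at hz1 hz2
          have hne : ∀ v : V, ‖v‖ = 1 → ∃ j, ex v j ≠ 0 := by
            intro v hv
            by_contra hcon
            push Not at hcon
            have : v = 0 := by
              funext i
              have := hcon i
              simp only [ex] at this
              rw [dif_pos i.2] at this
              exact this
            rw [this] at hv; simp at hv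
          obtain ⟨jx, hjx⟩ := hne _ hz1
          obtain ⟨jy, hjy⟩ := hne _ hz2
          have hbig : ∀ (v : V) (j : ℕ), n < j → ex v j = 0 := by
            intro v j hj
            simp only [ex]
            rw [dif_neg (by omega)]
          rw [lam_zero e m he hm] at h6
          obtain ⟨h7, h8⟩ := hu (ex z.1) (ex z.2) ⟨hbig _, h4⟩ ⟨hbig _, h5⟩ ⟨jx, hjx⟩
            ⟨jy, hjy⟩ h6
          have h9 : ex z.1 n ≠ 0 := by
            intro h10
            apply hjx
            rcases lt_trichotomy jx n with h | h | h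
            · exact h7 _ h
            · rw [h]; exact h10
            · exact hbig _ _ h
          have h10 : ex z.2 n ≠ 0 := by
            intro h10
            apply hjy
            rcases lt_trichotomy jy n with h | h | h
            · exact h8 _ h
            · rw [h]; exact h10
            · exact hbig _ _ h
          refine ⟨h9, h10, fun i => ?_, fun i => ?_⟩
          · change ‖ex z.1 (i : ℕ)‖ < _
            rw [h7 i i.2, norm_zero]
            exact mul_pos hδ (norm_pos_iff.2 h9)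
          · change ‖ex z.2 (i : ℕ)‖ < _
            rw [h8 i i.2, norm_zero]
            exact mul_pos hδ (norm_pos_iff.2 h10)
        · left; exact hZ
      exact (hclosed.isOpen_compl.union hopen).mem_nhds h1)
  obtain ⟨t₀, ht₀, hball⟩ := Metric.eventually_nhds_iff.1 hev
  refine ⟨t₀, ht₀, fun t ht htt x y hxv hyv hxne hyne hF => ?_⟩
  obtain ⟨jx, hjx⟩ := hxne
  obtain ⟨jy, hjy⟩ := hyne
  let x' : V := fun i => x i
  let y' : V := fun i => y i
  have hx'0 : x' ≠ 0 := by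
    intro h0
    apply hjx
    by_cases hj : jx < n + 1
    · exact congrFun h0 ⟨jx, hj⟩
    · exact hxv.1 jx (by omega)
  have hy'0 : y' ≠ 0 := by
    intro h0
    apply hjy
    by_cases hj : jy < n + 1
    · exact congrFun h0 ⟨jy, hj⟩
    · exact hyv.1 jy (by omega)
  have hkey := hball (y := t) (by rw [Real.dist_eq, sub_zero, abs_of_pos ht]; exact htt)
    (‖x'‖⁻¹ • x', ‖y'‖⁻¹ • y') (by
    constructor
    · rw [mem_sphere_zero_iff_norm, norm_smul, norm_inv, norm_norm,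
        inv_mul_cancel₀ (norm_ne_zero_iff.2 hx'0)]
    · rw [mem_sphere_zero_iff_norm, norm_smul, norm_inv, norm_norm,
        inv_mul_cancel₀ (norm_ne_zero_iff.2 hy'0)])
  have hex : ∀ j, ex (‖x'‖⁻¹ • x') j = ((‖x'‖⁻¹ : ℝ) : ℂ) * x j := by
    intro j
    rw [← ex_restrict x hxv.1]
    rfl
  have hey : ∀ j, ex (‖y'‖⁻¹ • y') j = ((‖y'‖⁻¹ : ℝ) : ℂ) * y j := by
    intro j
    rw [← ex_restrict y hyv.1]
    rfl
  have hZ : Zr t (‖x'‖⁻¹ • x', ‖y'‖⁻¹ • y') := by
    refine ⟨?_, ?_, fun k hk hk' => ?_⟩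
    · rw [hex, Complex.im_ofReal_mul, hxv.2, mul_zero]
    · rw [hey, hyv.2, mul_zero]
    · have h1 : ex (‖x'‖⁻¹ • x') = fun j => ((‖x'‖⁻¹ : ℝ) : ℂ) * x j := funext hex
      have h2 : ex (‖y'‖⁻¹ • y') = fun j => ((‖y'‖⁻¹ : ℝ) : ℂ) * y j := funext hey
      simp only
      rw [h1, h2, pF_sm, hF k hk hk', mul_zero]
  rcases hkey with h | h
  · exact absurd hZ h
  obtain ⟨h1, h2, h3, h4⟩ := h
  have hxp : 0 < ‖x'‖⁻¹ := inv_pos.2 (norm_pos_iff.2 hx'0)
  have hyp : 0 < ‖y'‖⁻¹ := inv_pos.2 (norm_pos_iff.2 hy'0)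
  simp only [hex, hey] at h1 h2 h3 h4
  refine ⟨right_ne_zero_of_mul h1, right_ne_zero_of_mul h2, fun i hi => ?_, fun i hi => ?_⟩
  · have := h3 ⟨i, hi⟩
    simp only [norm_mul, Complex.norm_real, Real.norm_eq_abs, abs_of_pos hxp] at this
    have h5 : ‖x'‖⁻¹ * ‖x i‖ < ‖x'‖⁻¹ * (δ * ‖x n‖) := by linarith
    exact (lt_of_mul_lt_mul_left h5 hxp.le).le
  · have := h4 ⟨i, hi⟩
    simp only [norm_mul, Complex.norm_real, Real.norm_eq_abs, abs_of_pos hyp] at this
    have h5 : ‖y'‖⁻¹ * ‖y i‖ < ‖y'‖⁻¹ * (δ * ‖y n‖) := by linarith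
    exact (lt_of_mul_lt_mul_left h5 hyp.le).le

end Pool.Agent.AD.LOC

namespace Pool.Agent.AD

alias loc := Pool.Agent.AD.LOC.loc

end Pool.Agent.AD
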