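import Mathlib
import Pool.Agent.Lib_helper59.AD.Defs

open scoped ComplexConjugate
open Polynomial

namespace Pool.Agent.AD.GA

theorem ga_coeff (m : ℕ) (v : ℕ → ℂ) (hv : ∀ i, m < i → v i = 0) (j : ℕ) :
    (∑ i ∈ Finset.range (m + 1), C (v i) * X ^ i : ℂ[X]).coeff j = v j := by
  rw [finsetSum_coeff]
  simp only [coeff_C_mul_X_pow]
  rw [Finset.sum_ite_eq]
  split_ifs with h
  · rfl
  · rw [Finset.mem_range, not_lt] at h
    exact (hv j (by omega)).symm

theorem ga_rev1 (a : ℂ) : (X - C a : ℂ[X]).reverse = 1 - C a * X := by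
  ext n
  rw [coeff_reverse, natDegree_X_sub_C]
  match n with
  | 0 => rw [revAt_le (by omega)]; simp [coeff_X, coeff_C]
  | 1 => rw [revAt_le (by omega)]; simp [coeff_X, coeff_C, coeff_one]
  | (n + 2) =>
    rw [revAt_eq_self_of_lt (by omega)]
    simp only [coeff_sub, coeff_X, coeff_C, coeff_one, coeff_C_mul]
    simp

theorem ga_rev (s : Multiset ℂ) (hs : ∀ z ∈ s, ‖z‖ = 1) :
    (((s.map (fun z => (X - C z : ℂ[X]))).prod).map (starRingEnd ℂ)).reverse
      = C ((s.map (fun z => -conj z)).prod) * (s.map (fun z => (X - C z : ℂ[X]))).prod := by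
  induction s using Multiset.induction_on with
  | empty =>
    rw [Multiset.map_zero, Multiset.map_zero, Multiset.prod_zero, Multiset.prod_zero,
      Polynomial.map_one, C_1, one_mul]
    exact reverse_C 1
  | cons a s ih =>
    have h1 := hs a (Multiset.mem_cons_self a s)
    have h2 := ih (fun z hz => hs z (Multiset.mem_cons_of_mem hz))
    rw [Multiset.map_cons, Multiset.map_cons, Multiset.prod_cons, Multiset.prod_cons,
      Polynomial.map_mul, reverse_mul_of_domain, h2, Polynomial.map_sub, map_X, map_C, ga_rev1,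
      C_mul]
    have h3 : conj a * a = 1 := by
      rw [mul_comm, Complex.mul_conj, Complex.normSq_eq_norm_sq, h1]; simp
    have h4 : (C (conj a) : ℂ[X]) * C a = 1 := by rw [← C_mul, h3, C_1]
    rw [C_neg]
    linear_combination (C ((s.map (fun z => -conj z)).prod) *
      (s.map (fun z => (X - C z : ℂ[X]))).prod) * (-h4)

/-- the polynomial facts -/
theorem ga_poly (m : ℕ) (hm : 1 ≤ m) (P V : ℂ[X]) (η : ℂ) (hη : ‖η‖ = 1)
    (hPV : P * V = 1 - C η * X ^ (2 * m)) (hP : P.natDegree ≤ m) (hV : V.natDegree ≤ m)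
    (v0 : V.coeff 0 = 1) :
    (∀ i, i ≤ m → V.coeff (m - i) = V.coeff m * conj (V.coeff i)) ∧ ‖V.coeff m‖ = 1 ∧
      V.coeff m ^ (2 * m) = η ^ m := by
  have hη0 : η ≠ 0 := by intro h; rw [h, norm_zero] at hη; exact zero_ne_one hη
  have hdeg : (P * V).natDegree = 2 * m := by
    rw [hPV]
    have h1 : (1 - C η * X ^ (2 * m) : ℂ[X]) = -(C η * X ^ (2 * m) - C 1) := by rw [C_1]; ring
    rw [h1, natDegree_neg, natDegree_sub_C, natDegree_C_mul_X_pow _ _ hη0]
  have hne : P * V ≠ 0 := by
    intro h; rw [h, natDegree_zero] at hdeg; omega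
  have hP0 : P ≠ 0 := left_ne_zero_of_mul hne
  have hV0 : V ≠ 0 := right_ne_zero_of_mul hne
  rw [natDegree_mul hP0 hV0] at hdeg
  have hVm : V.natDegree = m := by omega
  have hroot : ∀ z ∈ V.roots, η * z ^ (2 * m) = 1 := by
    intro z hz
    rw [mem_roots hV0] at hz
    have h1 : (P * V).eval z = 0 := by rw [eval_mul, hz.eq_zero, mul_zero]
    rw [hPV] at h1
    simp only [eval_sub, eval_one, eval_mul, eval_C, eval_pow, eval_X] at h1
    linear_combination -h1
  have hnorm : ∀ z ∈ V.roots, ‖z‖ = 1 := by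
    intro z hz
    have h1 := congrArg norm (hroot z hz)
    rw [norm_mul, norm_pow, hη, one_mul, norm_one] at h1
    exact (pow_eq_one_iff_of_nonneg (norm_nonneg z) (by omega)).1 h1
  have hsp : V = C V.leadingCoeff * (V.roots.map (fun z => (X - C z : ℂ[X]))).prod :=
    (IsAlgClosed.splits V).eq_prod_roots
  have hlead : V.leadingCoeff = V.coeff m := by rw [leadingCoeff, hVm]
  have hcard : Multiset.card V.roots = m := by
    rw [← hVm]; exact (splits_iff_card_roots.1 (IsAlgClosed.splits V))
  have hlc0 : V.coeff m ≠ 0 := by rw [← hlead]; exact leadingCoeff_ne_zero.2 hV0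
  -- the value at zero
  have hv0 : V.coeff m * (V.roots.map (fun z => -z)).prod = 1 := by
    have h1 := congrArg (fun p => Polynomial.eval 0 p) hsp
    simp only [eval_mul, eval_C, eval_multiset_prod, Multiset.map_map, Function.comp_def,
      eval_sub, eval_X, zero_sub] at h1
    rw [← coeff_zero_eq_eval_zero, v0, hlead] at h1
    exact h1.symm
  have hprodn : ‖(V.roots.map (fun z => -z)).prod‖ = 1 := by
    have h1 : ∀ s : Multiset ℂ, (∀ z ∈ s, ‖z‖ = 1) → ‖(s.map (fun z => -z)).prod‖ = 1 := by
      intro s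
      induction s using Multiset.induction_on with
      | empty => intro _; simp
      | cons a s ih =>
        intro hs
        rw [Multiset.map_cons, Multiset.prod_cons, norm_mul, norm_neg,
          hs a (Multiset.mem_cons_self a s), one_mul]
        exact ih (fun z hz => hs z (Multiset.mem_cons_of_mem hz))
    exact h1 _ hnorm
  have hvm : ‖V.coeff m‖ = 1 := by
    have h1 := congrArg norm hv0
    rw [norm_mul, hprodn, mul_one, norm_one] at h1
    exact h1
  have hvv : V.coeff m * conj (V.coeff m) = 1 := by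
    rw [Complex.mul_conj, Complex.normSq_eq_norm_sq, hvm]; simp
  have hconj : (V.roots.map (fun z => -conj z)).prod = conj ((V.roots.map (fun z => -z)).prod) := by
    rw [map_multiset_prod, Multiset.map_map]
    simp
  refine ⟨?_, hvm, ?_⟩
  · -- reversal
    have hrev : (V.map (starRingEnd ℂ)).reverse = C (conj (V.coeff m)) * V := by
      have h1 : (V.map (starRingEnd ℂ)).reverse
          = C (conj (V.coeff m)) * (C ((V.roots.map (fun z => -conj z)).prod) *
            (V.roots.map (fun z => (X - C z : ℂ[X]))).prod) := by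
        conv_lhs => rw [hsp]
        rw [Polynomial.map_mul, map_C, reverse_mul_of_domain, reverse_C, ga_rev _ hnorm, hlead]
      rw [h1, hconj]
      have h2 : conj (V.coeff m) * conj ((V.roots.map (fun z => -z)).prod) = 1 := by
        rw [← map_mul, hv0, map_one]
      have h3 : (C (conj (V.coeff m)) : ℂ[X]) * C (conj ((V.roots.map (fun z => -z)).prod)) = 1 := by
        rw [← C_mul, h2, C_1]
      have h4 : (C (conj (V.coeff m)) : ℂ[X]) * C (V.coeff m) = 1 := by
        rw [← C_mul, mul_comm, hvv, C_1]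
      have h5 : V = C (V.coeff m) * (V.roots.map (fun z => (X - C z : ℂ[X]))).prod := by
        rw [← hlead]; exact hsp
      linear_combination ((V.roots.map (fun z => (X - C z : ℂ[X]))).prod) * (h3 - h4) -
        C (conj (V.coeff m)) * h5
    intro i hi
    have h1 := congrArg (fun p => p.coeff (m - i)) hrev
    simp only [coeff_reverse, coeff_C_mul] at h1
    have hnd : (V.map (starRingEnd ℂ)).natDegree = m := by
      rw [natDegree_map_eq_of_injective (RingHom.injective _), hVm]
    rw [hnd, revAt_le (by omega), coeff_map] at h1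
    have h2 : m - (m - i) = i := by omega
    rw [h2] at h1
    linear_combination (V.coeff m) * (-h1) - (V.coeff (m - i)) * hvv
  · -- the power
    have h1 : ∀ s : Multiset ℂ, (∀ z ∈ s, η * z ^ (2 * m) = 1) →
        η ^ (Multiset.card s) * ((s.map (fun z => -z)).prod) ^ (2 * m) = 1 := by
      intro s
      induction s using Multiset.induction_on with
      | empty => intro _; simp
      | cons a s ih =>
        intro hs
        have h2 := ih (fun z hz => hs z (Multiset.mem_cons_of_mem hz))
        have h3 := hs a (Multiset.mem_cons_self a s)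
        rw [Multiset.map_cons, Multiset.prod_cons, Multiset.card_cons, pow_succ, mul_pow,
          (even_two_mul m).neg_pow]
        linear_combination h3 * η ^ (Multiset.card s) * ((s.map (fun z => -z)).prod) ^ (2 * m) + h2
    have h2 := h1 _ hroot
    rw [hcard] at h2
    have h3 := congrArg (fun z => z ^ (2 * m)) hv0
    simp only [mul_pow, one_pow] at h3
    have h4 : ((V.roots.map (fun z => -z)).prod) ^ (2 * m) ≠ 0 := by
      intro h; rw [h, mul_zero] at h3; exact zero_ne_one h3
    apply mul_right_cancel₀ h4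
    rw [h3, h2]

theorem galg (m : ℕ) (hm : 1 ≤ m) (p v G : ℕ → ℂ) (p0 : p 0 = 1) (v0 : v 0 = 1)
    (pm : ∀ i, m < i → p i = 0) (vm : ∀ i, m < i → v i = 0) (η : ℂ) (hη : ‖η‖ = 1)
    (hpv : ∀ j, 1 ≤ j → j ≤ 2 * m → ∑ i ∈ Finset.range (j + 1), p i * v (j - i)
        = if j = 2 * m then -η else 0)
    (hG : ∀ j, j ≤ m → ∑ i ∈ Finset.range (j + 1), p i * G (j - i) = v j) :
    ∃ (s : ℝ) (ζ : ℂ), 0 < s ∧ ζ ^ m = 1 ∧ G m ^ 2 = η * ζ * s := by
  have hη0 : η ≠ 0 := by intro h; rw [h, norm_zero] at hη; exact zero_ne_one hη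
  set P : ℂ[X] := ∑ i ∈ Finset.range (m + 1), C (p i) * X ^ i with hPdef
  set V : ℂ[X] := ∑ i ∈ Finset.range (m + 1), C (v i) * X ^ i with hVdef
  have hPc : ∀ j, P.coeff j = p j := ga_coeff m p pm
  have hVc : ∀ j, V.coeff j = v j := ga_coeff m v vm
  have hPd : P.natDegree ≤ m := by
    rw [natDegree_le_iff_coeff_eq_zero]; intro N hN; rw [hPc]; exact pm N hN
  have hVd : V.natDegree ≤ m := by
    rw [natDegree_le_iff_coeff_eq_zero]; intro N hN; rw [hVc]; exact vm N hN
  have hPV : P * V = 1 - C η * X ^ (2 * m) := by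
    ext j
    have h1 : (P * V).coeff j = ∑ i ∈ Finset.range (j + 1), p i * v (j - i) := by
      rw [coeff_mul, Finset.Nat.sum_antidiagonal_eq_sum_range_succ_mk]
      exact Finset.sum_congr rfl (fun i _ => by rw [hPc, hVc])
    rw [coeff_sub, coeff_C_mul_X_pow, coeff_one]
    rcases Nat.eq_zero_or_pos j with h | h
    · subst h
      rw [h1, if_pos (rfl : (0 : ℕ) = 0), if_neg (show ¬ (0 : ℕ) = 2 * m by omega)]
      simp [p0, v0]
    · rcases Nat.lt_or_ge (2 * m) j with h' | h'
      · rw [if_neg (by omega), if_neg (by omega), sub_zero]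
        apply coeff_eq_zero_of_natDegree_lt
        have h2 := natDegree_mul_le (p := P) (q := V)
        omega
      · rw [h1, hpv j h h', if_neg (show ¬ j = 0 by omega)]
        split_ifs <;> simp
  obtain ⟨hr, hn, hpw⟩ := ga_poly m hm P V η hη hPV hPd hVd (by rw [hVc, v0])
  simp only [hVc] at hr hn hpw
  -- G m
  have hGm : G m = ∑ i ∈ Finset.range (m + 1), v i * v (m - i) := by
    have e1 : PowerSeries.coeff m ((PowerSeries.mk v) * ((PowerSeries.mk p) * (PowerSeries.mk G)))
        = ∑ i ∈ Finset.range (m + 1), v i * v (m - i) := by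
      rw [PowerSeries.coeff_mul, Finset.Nat.sum_antidiagonal_eq_sum_range_succ_mk]
      refine Finset.sum_congr rfl (fun i hi => ?_)
      rw [Finset.mem_range] at hi
      rw [PowerSeries.coeff_mk, PowerSeries.coeff_mul,
        Finset.Nat.sum_antidiagonal_eq_sum_range_succ_mk]
      simp only [PowerSeries.coeff_mk]
      rw [hG (m - i) (by omega)]
    have e2 : PowerSeries.coeff m ((PowerSeries.mk G) * ((PowerSeries.mk p) * (PowerSeries.mk v)))
        = G m := by
      rw [PowerSeries.coeff_mul, Finset.Nat.sum_antidiagonal_eq_sum_range_succ_mk]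
      rw [Finset.sum_eq_single m]
      · rw [PowerSeries.coeff_mk, PowerSeries.coeff_mul,
          Finset.Nat.sum_antidiagonal_eq_sum_range_succ_mk]
        simp [p0, v0]
      · intro i hi hne
        rw [Finset.mem_range] at hi
        rw [PowerSeries.coeff_mul (m - i),
          Finset.Nat.sum_antidiagonal_eq_sum_range_succ_mk]
        simp only [PowerSeries.coeff_mk]
        rw [hpv (m - i) (by omega) (by omega), if_neg (by omega), mul_zero]
      · intro h; exact absurd (Finset.mem_range.2 (Nat.lt_succ_self m)) h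
    rw [← e2, ← e1]
    congr 1
    ring
  have hS : G m = v m * ((∑ i ∈ Finset.range (m + 1), Complex.normSq (v i) : ℝ) : ℂ) := by
    rw [hGm, Complex.ofReal_sum, Finset.mul_sum]
    refine Finset.sum_congr rfl (fun i hi => ?_)
    rw [Finset.mem_range] at hi
    rw [hr i (by omega), ← Complex.mul_conj]
    ring
  have hpos : 0 < ∑ i ∈ Finset.range (m + 1), Complex.normSq (v i) := by
    apply Finset.sum_pos'
    · intro i _; exact Complex.normSq_nonneg _
    · exact ⟨0, Finset.mem_range.2 (Nat.succ_pos m), by rw [v0]; simp⟩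
  refine ⟨(∑ i ∈ Finset.range (m + 1), Complex.normSq (v i)) ^ 2, v m ^ 2 / η, by positivity, ?_, ?_⟩
  · rw [div_pow, ← pow_mul, hpw, div_self (pow_ne_zero _ hη0)]
  · rw [hS, mul_pow, mul_div_cancel₀ _ hη0, Complex.ofReal_pow]

end Pool.Agent.AD.GA

namespace Pool.Agent.AD

alias galg := Pool.Agent.AD.GA.galg

end Pool.Agent.AD
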