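import Mathlib
import Pool.Agent.Lib_helper59.AD.Defs
import Pool.Agent.Lib_helper59.AD.RAW

/-! Project AD (MP_f4c587_an), block RB: the coefficients with index congruent to `e` modulo `2e`. Cites `raw`. -/

set_option autoImplicit false

open scoped ComplexConjugate
open Polynomial

namespace Pool.Agent.AD.RB

open Filter Asymptotics

private theorem RB_pw {𝓤 : Ultrafilter ℕ} {t : ℕ → ℝ} (tpos : ∀ k, 0 < t k)
    (t0 : Tendsto t 𝓤 (nhds 0)) {p q : ℕ} (h : q ≤ p) :
    (fun k => t k ^ p) =O[(𝓤 : Filter ℕ)] fun k => t k ^ q := by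
  have h1 : ∀ᶠ k in (𝓤 : Filter ℕ), t k < 1 := t0.eventually (gt_mem_nhds one_pos)
  refine IsBigO.of_bound 1 ?_
  filter_upwards [h1] with k hk
  rw [one_mul, Real.norm_of_nonneg (pow_nonneg (tpos k).le _),
    Real.norm_of_nonneg (pow_nonneg (tpos k).le _)]
  exact pow_le_pow_of_le_one (tpos k).le hk.le h

/-- a factor tending to one can be removed -/
private theorem RB_unit {𝓤 : Ultrafilter ℕ} {b f : ℕ → ℂ} (hb : Tendsto b 𝓤 (nhds 1)) :
    f =O[(𝓤 : Filter ℕ)] fun k => b k * f k := by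
  have h1 : Tendsto (fun k => ‖b k‖) 𝓤 (nhds ‖(1 : ℂ)‖) := hb.norm
  rw [norm_one] at h1
  have h2 : ∀ᶠ k in (𝓤 : Filter ℕ), (1 : ℝ) / 2 < ‖b k‖ :=
    h1.eventually (lt_mem_nhds (by norm_num))
  refine IsBigO.of_bound 2 ?_
  filter_upwards [h2] with k hk
  rw [norm_mul]
  have := norm_nonneg (f k)
  nlinarith

private theorem RB_const {𝓤 : Ultrafilter ℕ} {b f : ℕ → ℂ} {g : ℕ → ℝ}
    (hb : Tendsto b 𝓤 (nhds 1)) (hf : f =O[(𝓤 : Filter ℕ)] g) :
    (fun k => b k * f k) =O[(𝓤 : Filter ℕ)] g := by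
  have h1 : b =O[(𝓤 : Filter ℕ)] fun _ => (1 : ℝ) := hb.isBigO_one ℝ
  have h2 := h1.mul hf
  simpa only [one_mul] using h2

/-- a product of two indices whose sum is congruent to `e` modulo `2e` -/
private theorem RB_term {𝓤 : Ultrafilter ℕ} {t : ℕ → ℝ} {e m : ℕ} (he : 1 ≤ e) {U V : ℕ → ℕ → ℂ}
    (rU : ∀ i, ¬ (2 * e ∣ i) → (fun k => U k i) =O[(𝓤 : Filter ℕ)] fun k => t k ^ (8 * e * m))
    (rV : ∀ i, ¬ (2 * e ∣ i) → (fun k => V k i) =O[(𝓤 : Filter ℕ)] fun k => t k ^ (8 * e * m))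
    {b : ℕ → ℂ} (hb : Tendsto b 𝓤 (nhds 1)) {G : ℕ → ℝ} {α β M : ℕ} (hN : α + β = 2 * e * M + e)
    (h1 : ∀ α' β', α = 2 * e * α' → β = 2 * e * β' + e → α' + β' = M →
      (fun k => U k α * V k β) =O[(𝓤 : Filter ℕ)] G)
    (h2 : ∀ α' β', α = 2 * e * α' + e → β = 2 * e * β' → α' + β' = M →
      (fun k => U k α * V k β) =O[(𝓤 : Filter ℕ)] G)
    (h3 : (fun k => t k ^ (16 * e * m)) =O[(𝓤 : Filter ℕ)] G) :
    (fun k => b k * (U k α * V k β)) =O[(𝓤 : Filter ℕ)] G := by
  refine RB_const hb ?_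
  by_cases hα : 2 * e ∣ α
  · obtain ⟨α', rfl⟩ := hα
    have hle : α' ≤ M := by
      by_contra hlt
      have h4 : M + 1 ≤ α' := by omega
      have h5 : 2 * e * (M + 1) ≤ 2 * e * α' := Nat.mul_le_mul_left _ h4
      have h6 : 2 * e * (M + 1) = 2 * e * M + 2 * e := by ring
      omega
    obtain ⟨β', rfl⟩ := Nat.exists_eq_add_of_le hle
    have h4 : 2 * e * (α' + β') = 2 * e * α' + 2 * e * β' := by ring
    exact h1 α' β' rfl (by omega) rfl
  · by_cases hβ : 2 * e ∣ β
    · obtain ⟨β', rfl⟩ := hβ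
      have hle : β' ≤ M := by
        by_contra hlt
        have h4 : M + 1 ≤ β' := by omega
        have h5 : 2 * e * (M + 1) ≤ 2 * e * β' := Nat.mul_le_mul_left _ h4
        have h6 : 2 * e * (M + 1) = 2 * e * M + 2 * e := by ring
        omega
      obtain ⟨α', rfl⟩ := Nat.exists_eq_add_of_le' hle
      have h4 : 2 * e * (α' + β') = 2 * e * α' + 2 * e * β' := by ring
      exact h2 α' β' (by omega) rfl rfl
    · refine IsBigO.trans ?_ h3
      have h4 := (rU α hα).mul (rV β hβ)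
      refine h4.congr_right fun k => ?_
      rw [← pow_add]
      congr 1
      ring

/-- the bound is bootstrapped -/
private theorem RB_boot {𝓤 : Ultrafilter ℕ} {t ν : ℕ → ℝ} (tpos : ∀ k, 0 < t k)
    (t0 : Tendsto t 𝓤 (nhds 0)) (hν : ∀ k, 0 ≤ ν k)
    (h : ν =O[(𝓤 : Filter ℕ)] fun k => 1 + t k * (1 + ν k)) :
    ν =O[(𝓤 : Filter ℕ)] fun _ => (1 : ℝ) := by
  obtain ⟨C, hC, hb⟩ := h.exists_pos
  rw [isBigOWith_iff] at hb
  have h1 : ∀ᶠ k in (𝓤 : Filter ℕ), t k < min 1 (1 / (2 * C)) :=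
    t0.eventually (gt_mem_nhds (lt_min one_pos (by positivity)))
  refine IsBigO.of_bound (4 * C) ?_
  filter_upwards [hb, h1] with k hk hk1
  rw [norm_one, mul_one, Real.norm_of_nonneg (hν k)]
  have h2 : 0 ≤ 1 + t k * (1 + ν k) := by
    have := mul_nonneg (tpos k).le (add_nonneg zero_le_one (hν k))
    linarith
  rw [Real.norm_of_nonneg (hν k), Real.norm_of_nonneg h2] at hk
  have h3 : t k ≤ 1 := (hk1.trans_le (min_le_left _ _)).le
  have h4 : t k * (2 * C) ≤ 1 := by
    have := (hk1.trans_le (min_le_right _ _)).le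
    rwa [le_div_iff₀ (by positivity)] at this
  have h5 := hν k
  have h6 : C * (t k * ν k) ≤ ν k / 2 := by nlinarith
  have h7 : C * (1 + t k * (1 + ν k)) = C + C * t k + C * (t k * ν k) := by ring
  have h8 : C * t k ≤ C := by nlinarith
  linarith

theorem res_bound {𝓤 : Ultrafilter ℕ} {n e m : ℕ} {t : ℕ → ℝ} {a : ℕ → ℕ → ℕ → ℂ}
    {μ : ℕ → ℕ → ℂ} {ξ υ : ℕ → ℂ} {U V : ℕ → ℕ → ℂ} (hS : NearSeq 𝓤 n e m t a μ ξ υ U V)
    (C₀ : ℝ) (hB : ∀ᶠ k in 𝓤, ∀ i, ‖U k (2 * e * i)‖ ≤ C₀ * t k ^ ((6 * e - 1) * i) ∧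
      ‖V k (2 * e * i)‖ ≤ C₀ * t k ^ ((6 * e - 1) * i))
    (hU : ∀ᶠ k in 𝓤, ‖U k e‖ ≤ C₀ * t k ^ (2 * m * (5 * e - 1))) :
    ∃ C : ℝ, ∀ᶠ k in 𝓤, (∀ i, i < m →
        ‖V k (2 * e * i + e)‖ ≤ C * t k ^ ((6 * e - 1) * i + 2 * m * (5 * e - 1))) ∧
      (∀ i, 1 ≤ i → i < m →
        ‖U k (2 * e * i + e)‖ ≤ C * t k ^ ((6 * e - 1) * i + 2 * m * (5 * e - 1) + 1)) ∧
      ‖U k n‖ ≤ C * t k ^ ((6 * e - 1) * m + 2 * m * (5 * e - 1)) := by
  have he := hS.he
  have hm := hS.hm
  have tpos := hS.tpos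
  have t0 := hS.t0
  have hn : n = 2 * e * m + e := by rw [hS.hn]; ring
  obtain ⟨d, hd⟩ : ∃ d, d = 6 * e - 1 := ⟨_, rfl⟩
  obtain ⟨s, hs⟩ : ∃ s, s = 2 * m * (5 * e - 1) := ⟨_, rfl⟩
  rw [← hd, ← hs]
  rw [← hd] at hB
  rw [← hs] at hU
  have hd5 : 5 ≤ d := by omega
  have hexp : ∀ i, i ≤ m → d * i + s + 1 ≤ 16 * e * m := by
    intro i hi
    obtain ⟨f, rfl⟩ := Nat.exists_eq_add_of_le' he
    have h1 : d = 6 * f + 5 := by omega
    have h2 : s = 2 * m * (5 * f + 4) := by
      rw [hs]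
      congr 1
    rw [h1, h2]
    have h3 : (6 * f + 5) * i ≤ (6 * f + 5) * m := Nat.mul_le_mul_left _ hi
    nlinarith
  obtain ⟨Cr, hraw⟩ := raw hS
  have rU : ∀ i, ¬ (2 * e ∣ i) → (fun k => U k i) =O[(𝓤 : Filter ℕ)] fun k => t k ^ (8 * e * m) := by
    intro i hi
    refine IsBigO.of_bound Cr ?_
    filter_upwards [hraw] with k hk
    rw [Real.norm_of_nonneg (pow_nonneg (tpos k).le _)]
    exact (hk i hi).1
  have rV : ∀ i, ¬ (2 * e ∣ i) → (fun k => V k i) =O[(𝓤 : Filter ℕ)] fun k => t k ^ (8 * e * m) := by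
    intro i hi
    refine IsBigO.of_bound Cr ?_
    filter_upwards [hraw] with k hk
    rw [Real.norm_of_nonneg (pow_nonneg (tpos k).le _)]
    exact (hk i hi).2
  have bU : ∀ i, (fun k => U k (2 * e * i)) =O[(𝓤 : Filter ℕ)] fun k => t k ^ (d * i) := by
    intro i
    refine IsBigO.of_bound C₀ ?_
    filter_upwards [hB] with k hk
    rw [Real.norm_of_nonneg (pow_nonneg (tpos k).le _)]
    exact (hk i).1
  have bV : ∀ i, (fun k => V k (2 * e * i)) =O[(𝓤 : Filter ℕ)] fun k => t k ^ (d * i) := by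
    intro i
    refine IsBigO.of_bound C₀ ?_
    filter_upwards [hB] with k hk
    rw [Real.norm_of_nonneg (pow_nonneg (tpos k).le _)]
    exact (hk i).2
  have ue : (fun k => U k e) =O[(𝓤 : Filter ℕ)] fun k => t k ^ s := by
    refine IsBigO.of_bound C₀ ?_
    filter_upwards [hU] with k hk
    rw [Real.norm_of_nonneg (pow_nonneg (tpos k).le _)]
    exact hk
  -- the size
  obtain ⟨ν, hνd⟩ : ∃ ν : ℕ → ℝ, ν = fun k => ∑ i ∈ Finset.range m,
      (‖V k (2 * e * i + e)‖ / t k ^ (d * i + s) + ‖U k (2 * e * i + e)‖ / t k ^ (d * i + s)) +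
        ‖U k n‖ / t k ^ (d * m + s) := ⟨_, rfl⟩
  have hq : ∀ (k i : ℕ) (z : ℂ), 0 ≤ ‖z‖ / t k ^ i := fun k i z =>
    div_nonneg (norm_nonneg _) (pow_nonneg (tpos k).le _)
  have hν0 : ∀ k, 0 ≤ ν k := by
    intro k
    rw [hνd]
    exact add_nonneg (Finset.sum_nonneg fun i _ => add_nonneg (hq _ _ _) (hq _ _ _)) (hq _ _ _)
  have hle : ∀ k i, i < m → ‖V k (2 * e * i + e)‖ / t k ^ (d * i + s) +
      ‖U k (2 * e * i + e)‖ / t k ^ (d * i + s) ≤ ν k := by
    intro k i hi
    rw [hνd]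
    have h1 := Finset.single_le_sum (f := fun i => ‖V k (2 * e * i + e)‖ / t k ^ (d * i + s) +
      ‖U k (2 * e * i + e)‖ / t k ^ (d * i + s))
      (fun i _ => add_nonneg (hq _ _ _) (hq _ _ _)) (Finset.mem_range.2 hi)
    have h2 := hq k (d * m + s) (U k n)
    show _ ≤ ∑ i ∈ Finset.range m, _ + _
    linarith
  have hlen : ∀ k, ‖U k n‖ / t k ^ (d * m + s) ≤ ν k := by
    intro k
    rw [hνd]
    have h1 : 0 ≤ ∑ i ∈ Finset.range m, (‖V k (2 * e * i + e)‖ / t k ^ (d * i + s) +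
      ‖U k (2 * e * i + e)‖ / t k ^ (d * i + s)) :=
      Finset.sum_nonneg fun i _ => add_nonneg (hq _ _ _) (hq _ _ _)
    show _ ≤ ∑ i ∈ Finset.range m, _ + _
    linarith
  have hcv : ∀ (f : ℕ → ℂ) (p : ℕ), (∀ k, ‖f k‖ / t k ^ p ≤ ν k) →
      f =O[(𝓤 : Filter ℕ)] fun k => t k ^ p * ν k := by
    intro f p hf
    refine IsBigO.of_bound 1 (Eventually.of_forall fun k => ?_)
    have h1 := hf k
    rw [div_le_iff₀ (pow_pos (tpos k) p)] at h1
    rw [one_mul, Real.norm_of_nonneg (mul_nonneg (pow_nonneg (tpos k).le _) (hν0 k))]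
    linarith
  have vν : ∀ i, i < m → (fun k => V k (2 * e * i + e)) =O[(𝓤 : Filter ℕ)]
      fun k => t k ^ (d * i + s) * ν k := by
    intro i hi
    refine hcv _ _ fun k => ?_
    have h1 := hle k i hi
    have h2 := hq k (d * i + s) (U k (2 * e * i + e))
    linarith
  have uν : ∀ i, i ≤ m → (fun k => U k (2 * e * i + e)) =O[(𝓤 : Filter ℕ)]
      fun k => t k ^ (d * i + s) * ν k := by
    intro i hi
    refine hcv _ _ fun k => ?_
    rcases lt_or_eq_of_le hi with hi | rfl
    · have h1 := hle k i hi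
      have h2 := hq k (d * i + s) (V k (2 * e * i + e))
      linarith
    · rw [← hn]
      exact hlen k
  -- the coefficients tend to one
  have ha : ∀ i j, Tendsto (fun k => a k i j) 𝓤 (nhds 1) := hS.a1
  -- (1)
  have hh0 : ∀ k, 0 ≤ t k * (1 + ν k) := fun k =>
    mul_nonneg (tpos k).le (add_nonneg zero_le_one (hν0 k))
  have rawG : ∀ i, i ≤ m → (fun k => t k ^ (16 * e * m)) =O[(𝓤 : Filter ℕ)]
      fun k => t k ^ (d * i + s) * (t k * (1 + ν k)) := by
    intro i hi
    refine (RB_pw tpos t0 (hexp i hi)).trans ?_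
    refine IsBigO.of_bound 1 (Eventually.of_forall fun k => ?_)
    rw [one_mul, Real.norm_of_nonneg (pow_nonneg (tpos k).le _),
      Real.norm_of_nonneg (mul_nonneg (pow_nonneg (tpos k).le _) (hh0 k)), pow_succ]
    refine mul_le_mul_of_nonneg_left ?_ (pow_nonneg (tpos k).le _)
    have h1 := mul_nonneg (tpos k).le (hν0 k)
    nlinarith
  have u1 : ∀ i, 1 ≤ i → i < m → (fun k => U k (2 * e * i + e)) =O[(𝓤 : Filter ℕ)]
      fun k => t k ^ (d * i + s) * (t k * (1 + ν k)) := by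
    intro i hi1 him
    obtain ⟨c, hc⟩ : ∃ c, c = 2 * e * i + e := ⟨_, rfl⟩
    have hei : 2 * e * i + 2 * e ≤ 2 * e * m := by
      have h1 : 2 * e * (i + 1) ≤ 2 * e * m := Nat.mul_le_mul_left _ him
      linarith
    have hei1 : 2 * e ≤ 2 * e * i := by
      have h1 : 2 * e * 1 ≤ 2 * e * i := Nat.mul_le_mul_left _ hi1
      linarith
    have hcn : c < n := by omega
    have hcd : ¬ (2 * e ∣ c) := by
      rintro ⟨q, hq⟩
      rw [hc] at hq
      have h1 : e = 2 * e * (q - i) := by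
        rw [Nat.mul_sub]
        omega
      rcases Nat.eq_zero_or_pos (q - i) with h2 | h2
      · rw [h2, mul_zero] at h1
        omega
      · have h3 : 2 * e * 1 ≤ 2 * e * (q - i) := Nat.mul_le_mul_left _ h2
        omega
    have hlam : ∀ k, lam e m (t k) c = 0 := by
      intro k
      unfold lam
      rw [if_neg (by omega), if_neg (by omega), if_neg (by omega)]
    have hN : 2 * n - c = 2 * e * (2 * m - i) + e := by
      have h1 : 2 * e * (2 * m - i) = 2 * (2 * e * m) - 2 * e * i := by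
        rw [Nat.mul_sub]
        congr 1
        ring
      omega
    have hE := fun k => hS.E1 k c (by omega) hcn
    have hsum : (fun k => ∑ i ∈ Finset.range (2 * n - c + 1),
        a k i (2 * n - c - i) * (U k i * V k (2 * n - c - i))) =O[(𝓤 : Filter ℕ)]
        fun k => t k ^ (d * i + s) * (t k * (1 + ν k)) := by
      refine IsBigO.fun_sum fun α hα => ?_
      have hα' : α ≤ 2 * n - c := by
        have := Finset.mem_range.1 hα
        omega
      have hνG : ∀ α' β', α' + β' = 2 * m - i → (fun k => t k ^ (d * α') * (t k ^ (d * β' + s) * ν k))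
          =O[(𝓤 : Filter ℕ)] fun k => t k ^ (d * i + s) * (t k * (1 + ν k)) := by
        intro α' β' hab
        have h1 : d * i + s + 1 ≤ d * α' + (d * β' + s) := by
          have h2 : d * (i + 1) ≤ d * (α' + β') := Nat.mul_le_mul_left _ (by omega)
          have h3 : d * (i + 1) = d * i + d := by ring
          have h4 : d * (α' + β') = d * α' + d * β' := by ring
          omega
        have h5 := (RB_pw tpos t0 h1).mul (isBigO_refl ν (𝓤 : Filter ℕ))
        refine (h5.congr_left (f₂ := fun k => t k ^ (d * α') * (t k ^ (d * β' + s) * ν k))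
          fun k => ?_).trans ?_
        · rw [pow_add]
          ring
        · refine IsBigO.of_bound 1 (Eventually.of_forall fun k => ?_)
          rw [one_mul, Real.norm_of_nonneg (mul_nonneg (pow_nonneg (tpos k).le _) (hν0 k)),
            Real.norm_of_nonneg (mul_nonneg (pow_nonneg (tpos k).le _) (hh0 k)), pow_succ,
            mul_assoc]
          refine mul_le_mul_of_nonneg_left ?_ (pow_nonneg (tpos k).le _)
          have := (tpos k).le
          nlinarith
      refine RB_term he rU rV (ha α (2 * n - c - α)) (M := 2 * m - i) (by omega) ?_ ?_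
        (rawG i him.le)
      · intro α' β' h1 h2 h3
        by_cases hβ : β' < m
        · have h4 := (bU α').mul (vν β' hβ)
          rw [h2]
          rw [h1]
          exact h4.trans (hνG α' β' h3)
        · have h4 : ∀ k, V k (2 * n - c - α) = 0 := by
            intro k
            apply hS.Vn
            rw [h2, hn]
            have h5 : 2 * e * m ≤ 2 * e * β' := Nat.mul_le_mul_left _ (not_lt.1 hβ)
            omega
          simp only [h4, mul_zero]
          exact isBigO_zero _ _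
      · intro α' β' h1 h2 h3
        by_cases hα2 : α' ≤ m
        · have h4 := (uν α' hα2).mul (bV β')
          rw [h2]
          rw [h1]
          refine h4.trans ?_
          refine ((hνG β' α' (by omega)).congr_left fun k => ?_)
          ring
        · have h4 : ∀ k, U k α = 0 := by
            intro k
            apply hS.Un
            rw [h1, hn]
            have h5 : 2 * e * (m + 1) ≤ 2 * e * α' := Nat.mul_le_mul_left _ (by omega)
            have h6 : 2 * e * (m + 1) = 2 * e * m + 2 * e := by ring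
            omega
          simp only [h4, zero_mul]
          exact isBigO_zero _ _
    have h1 : (fun k => μ k c * (ξ k * conj (U k c))) =O[(𝓤 : Filter ℕ)]
        fun k => t k ^ (d * i + s) * (t k * (1 + ν k)) := by
      refine (hsum.neg_left).congr_left fun k => ?_
      have h2 := hE k
      rw [if_neg hcd, hlam k, zero_mul, add_zero] at h2
      exact neg_eq_of_add_eq_zero_right h2
    have h2 : (fun k => ξ k * conj (U k c)) =O[(𝓤 : Filter ℕ)]
        fun k => t k ^ (d * i + s) * (t k * (1 + ν k)) := (RB_unit (hS.μ1 c)).trans h1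
    rw [← hc]
    refine (IsBigO.of_bound 1 (Eventually.of_forall fun k => ?_)).trans h2
    rw [one_mul, norm_mul, hS.nξ k, one_mul, RCLike.norm_conj]
  -- the functions `F i`
  have hF0 : ∀ k, 0 ≤ 1 + t k * (1 + ν k) := fun k => add_nonneg zero_le_one (hh0 k)
  have hGF : ∀ i, (fun k => t k ^ (d * i + s) * (t k * (1 + ν k))) =O[(𝓤 : Filter ℕ)]
      fun k => t k ^ (d * i + s) * (1 + t k * (1 + ν k)) := by
    intro i
    refine IsBigO.of_bound 1 (Eventually.of_forall fun k => ?_)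
    rw [one_mul, Real.norm_of_nonneg (mul_nonneg (pow_nonneg (tpos k).le _) (hh0 k)),
      Real.norm_of_nonneg (mul_nonneg (pow_nonneg (tpos k).le _) (hF0 k))]
    exact mul_le_mul_of_nonneg_left (by linarith) (pow_nonneg (tpos k).le _)
  have u2 : ∀ i, i < m → (fun k => U k (2 * e * i + e)) =O[(𝓤 : Filter ℕ)]
      fun k => t k ^ (d * i + s) * (1 + t k * (1 + ν k)) := by
    intro i him
    rcases Nat.eq_zero_or_pos i with rfl | hi
    · have h1 : (fun k => t k ^ s) =O[(𝓤 : Filter ℕ)]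
          fun k => t k ^ (d * 0 + s) * (1 + t k * (1 + ν k)) := by
        refine IsBigO.of_bound 1 (Eventually.of_forall fun k => ?_)
        rw [one_mul, Real.norm_of_nonneg (pow_nonneg (tpos k).le _),
          Real.norm_of_nonneg (mul_nonneg (pow_nonneg (tpos k).le _) (hF0 k)), mul_zero, zero_add]
        have h2 := pow_nonneg (tpos k).le s
        have h3 := hh0 k
        nlinarith
      have h2 : 2 * e * 0 + e = e := by ring
      rw [h2]
      exact ue.trans h1
    · exact (u1 i hi him).trans (hGF i)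
  -- the terms of the equation number `2ei+e`
  have hterm : ∀ i, i ≤ m → (∀ i', i' < i → (fun k => V k (2 * e * i' + e)) =O[(𝓤 : Filter ℕ)]
      fun k => t k ^ (d * i' + s) * (1 + t k * (1 + ν k))) →
      ∀ α β, α + β = 2 * e * i + e → 1 ≤ α → (α < n) →
      (fun k => a k α β * (U k α * V k β)) =O[(𝓤 : Filter ℕ)]
        fun k => t k ^ (d * i + s) * (1 + t k * (1 + ν k)) := by
    intro i him IH α β hab hα1 hαn
    refine RB_term he rU rV (ha α β) hab ?_ ?_ ((rawG i him).trans (hGF i))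
    · intro α' β' h1 h2 h3
      have hα' : 1 ≤ α' := by
        rcases Nat.eq_zero_or_pos α' with h4 | h4
        · rw [h4, mul_zero] at h1
          omega
        · exact h4
      rw [h1, h2]
      refine ((bU α').mul (IH β' (by omega))).congr_right fun k => ?_
      rw [← mul_assoc, ← pow_add, ← h3]
      congr 2
      ring
    · intro α' β' h1 h2 h3
      have hα' : α' < m := by
        by_contra h4
        have h5 : 2 * e * m ≤ 2 * e * α' := Nat.mul_le_mul_left _ (not_lt.1 h4)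
        omega
      rw [h1, h2]
      refine ((u2 α' hα').mul (bV β')).congr_right fun k => ?_
      rw [mul_right_comm, ← pow_add, ← h3]
      congr 2
      ring
  -- (2)
  have v2 : ∀ i, i < m → (fun k => V k (2 * e * i + e)) =O[(𝓤 : Filter ℕ)]
      fun k => t k ^ (d * i + s) * (1 + t k * (1 + ν k)) := by
    intro i
    induction i using Nat.strong_induction_on with
    | _ i IH =>
      intro him
      obtain ⟨K, hK⟩ : ∃ K, K = 2 * e * i + e := ⟨_, rfl⟩
      have hei : 2 * e * i + 2 * e ≤ 2 * e * m := by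
        have h1 : 2 * e * (i + 1) ≤ 2 * e * m := Nat.mul_le_mul_left _ him
        linarith
      have hsum : (fun k => ∑ α ∈ Finset.range K,
          a k (α + 1) (K - (α + 1)) * (U k (α + 1) * V k (K - (α + 1)))) =O[(𝓤 : Filter ℕ)]
          fun k => t k ^ (d * i + s) * (1 + t k * (1 + ν k)) := by
        refine IsBigO.fun_sum fun α hα => ?_
        have hα' := Finset.mem_range.1 hα
        exact hterm i him.le (fun i' hi' => IH i' hi' (by omega)) (α + 1) (K - (α + 1)) (by omega)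
          (by omega) (by omega)
      have h1 : (fun k => a k 0 K * V k K) =O[(𝓤 : Filter ℕ)]
          fun k => t k ^ (d * i + s) * (1 + t k * (1 + ν k)) := by
        refine (hsum.neg_left).congr_left fun k => ?_
        have h2 := hS.E2 k K (by omega) (by omega)
        rw [Finset.sum_range_succ', hS.U0 k, one_mul, Nat.sub_zero] at h2
        exact neg_eq_of_add_eq_zero_right h2
      rw [← hK]
      exact (RB_unit (ha 0 K)).trans h1
  -- (3)
  have u3 : (fun k => U k n) =O[(𝓤 : Filter ℕ)]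
      fun k => t k ^ (d * m + s) * (1 + t k * (1 + ν k)) := by
    have hsum : (fun k => ∑ α ∈ Finset.range n, a k α (n - α) * (U k α * V k (n - α)))
        =O[(𝓤 : Filter ℕ)] fun k => t k ^ (d * m + s) * (1 + t k * (1 + ν k)) := by
      refine IsBigO.fun_sum fun α hα => ?_
      have hα' := Finset.mem_range.1 hα
      rcases Nat.eq_zero_or_pos α with rfl | hα1
      · have h1 : ∀ k, V k (n - 0) = 0 := fun k => hS.Vn k _ (by omega)
        simp only [h1, mul_zero]
        exact isBigO_zero _ _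
      · exact hterm m le_rfl v2 α (n - α) (by omega) hα1 hα'
    have h1 : (fun k => a k n 0 * U k n) =O[(𝓤 : Filter ℕ)]
        fun k => t k ^ (d * m + s) * (1 + t k * (1 + ν k)) := by
      refine (hsum.neg_left).congr_left fun k => ?_
      have h2 := hS.E2 k n (by omega) le_rfl
      rw [Finset.sum_range_succ, Nat.sub_self, hS.V0 k, mul_one] at h2
      exact neg_eq_of_add_eq_zero_right h2
    exact (RB_unit (ha n 0)).trans h1
  -- (4), (5)
  have hquot : ∀ (f : ℕ → ℂ) (p : ℕ), f =O[(𝓤 : Filter ℕ)]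
      (fun k => t k ^ p * (1 + t k * (1 + ν k))) →
      (fun k => ‖f k‖ / t k ^ p) =O[(𝓤 : Filter ℕ)] fun k => 1 + t k * (1 + ν k) := by
    intro f p hf
    have h1 := hf.norm_left.mul (isBigO_refl (fun k => (t k ^ p)⁻¹) (𝓤 : Filter ℕ))
    refine h1.congr (fun k => ?_) fun k => ?_
    · rw [div_eq_mul_inv]
    · have h2 : t k ^ p ≠ 0 := (pow_pos (tpos k) p).ne'
      field_simp
  have hνO : ν =O[(𝓤 : Filter ℕ)] fun _ => (1 : ℝ) := by
    refine RB_boot tpos t0 hν0 ?_
    rw [hνd]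
    rw [← hνd]
    have h1 : (fun k => ∑ i ∈ Finset.range m,
        (‖V k (2 * e * i + e)‖ / t k ^ (d * i + s) + ‖U k (2 * e * i + e)‖ / t k ^ (d * i + s)) +
        ‖U k n‖ / t k ^ (d * m + s)) =O[(𝓤 : Filter ℕ)] fun k => 1 + t k * (1 + ν k) := by
      refine IsBigO.add (IsBigO.fun_sum fun i hi => ?_) (hquot _ _ u3)
      exact IsBigO.add (hquot _ _ (v2 i (Finset.mem_range.1 hi)))
        (hquot _ _ (u2 i (Finset.mem_range.1 hi)))
    refine h1.congr_left fun k => ?_
    rw [hνd]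
  have ht1 : t =O[(𝓤 : Filter ℕ)] fun _ => (1 : ℝ) := by
    have h1 := RB_pw tpos t0 (p := 1) (q := 0) (by omega)
    simpa only [pow_one, pow_zero] using h1
  have h1O : (fun k => 1 + ν k) =O[(𝓤 : Filter ℕ)] fun _ => (1 : ℝ) :=
    (isBigO_refl (fun _ => (1 : ℝ)) _).add hνO
  have hhO : (fun k => t k * (1 + ν k)) =O[(𝓤 : Filter ℕ)] t := by
    have h1 := (isBigO_refl t (𝓤 : Filter ℕ)).mul h1O
    simpa only [mul_one] using h1
  have hFO : (fun k => 1 + t k * (1 + ν k)) =O[(𝓤 : Filter ℕ)] fun _ => (1 : ℝ) :=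
    (isBigO_refl (fun _ => (1 : ℝ)) _).add (hhO.trans ht1)
  -- (6)
  have v4 : ∀ i, i < m → (fun k => V k (2 * e * i + e)) =O[(𝓤 : Filter ℕ)]
      fun k => t k ^ (d * i + s) := by
    intro i hi
    have h1 := (isBigO_refl (fun k => t k ^ (d * i + s)) (𝓤 : Filter ℕ)).mul hFO
    simp only [mul_one] at h1
    exact (v2 i hi).trans h1
  have u4 : ∀ i, 1 ≤ i → i < m → (fun k => U k (2 * e * i + e)) =O[(𝓤 : Filter ℕ)]
      fun k => t k ^ (d * i + s + 1) := by
    intro i hi1 hi
    have h1 := (isBigO_refl (fun k => t k ^ (d * i + s)) (𝓤 : Filter ℕ)).mul hhO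
    refine ((u1 i hi1 hi).trans h1).congr_right fun k => ?_
    rw [pow_succ]
  have u5 : (fun k => U k n) =O[(𝓤 : Filter ℕ)] fun k => t k ^ (d * m + s) := by
    have h1 := (isBigO_refl (fun k => t k ^ (d * m + s)) (𝓤 : Filter ℕ)).mul hFO
    simp only [mul_one] at h1
    exact u3.trans h1
  have w1 : ∀ i, ∃ C : ℝ, 0 ≤ C ∧ ∀ᶠ k in 𝓤, (i < m → ‖V k (2 * e * i + e)‖ ≤
      C * t k ^ (d * i + s)) ∧ (1 ≤ i → i < m → ‖U k (2 * e * i + e)‖ ≤
      C * t k ^ (d * i + s + 1)) := by
    intro i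
    by_cases hi : i < m
    · obtain ⟨c1, hc1, hb1⟩ := (v4 i hi).exists_nonneg
      rw [isBigOWith_iff] at hb1
      by_cases hi1 : 1 ≤ i
      · obtain ⟨c2, hc2, hb2⟩ := (u4 i hi1 hi).exists_nonneg
        rw [isBigOWith_iff] at hb2
        refine ⟨c1 + c2, add_nonneg hc1 hc2, ?_⟩
        filter_upwards [hb1, hb2] with k hk1 hk2
        rw [Real.norm_of_nonneg (pow_nonneg (tpos k).le _)] at hk1 hk2
        have h1 := mul_nonneg hc1 (pow_nonneg (tpos k).le (d * i + s + 1))
        have h2 := mul_nonneg hc2 (pow_nonneg (tpos k).le (d * i + s))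
        constructor
        · intro _
          rw [add_mul]
          linarith
        · intro _ _
          rw [add_mul]
          linarith
      · refine ⟨c1, hc1, ?_⟩
        filter_upwards [hb1] with k hk1
        rw [Real.norm_of_nonneg (pow_nonneg (tpos k).le _)] at hk1
        exact ⟨fun _ => hk1, fun h => absurd h hi1⟩
    · exact ⟨0, le_refl _, Eventually.of_forall fun k => ⟨fun h => absurd h hi,
        fun _ h => absurd h hi⟩⟩
  choose Cw hCw0 hCw using w1
  obtain ⟨c3, hc3, hb3⟩ := u5.exists_nonneg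
  rw [isBigOWith_iff] at hb3
  have hall : ∀ᶠ k in (𝓤 : Filter ℕ), ∀ i ∈ Finset.range m,
      (i < m → ‖V k (2 * e * i + e)‖ ≤ Cw i * t k ^ (d * i + s)) ∧
        (1 ≤ i → i < m → ‖U k (2 * e * i + e)‖ ≤ Cw i * t k ^ (d * i + s + 1)) :=
    (Filter.eventually_all_finset _).2 fun i _ => hCw i
  have hCsum : ∀ i, i < m → Cw i ≤ ∑ i ∈ Finset.range m, Cw i + c3 := by
    intro i hi
    have h1 := Finset.single_le_sum (f := Cw) (fun i _ => hCw0 i) (Finset.mem_range.2 hi)
    linarith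
  have hC3 : c3 ≤ ∑ i ∈ Finset.range m, Cw i + c3 := by
    have h1 : 0 ≤ ∑ i ∈ Finset.range m, Cw i := Finset.sum_nonneg fun i _ => hCw0 i
    linarith
  refine ⟨∑ i ∈ Finset.range m, Cw i + c3, ?_⟩
  filter_upwards [hall, hb3] with k hk hk3
  rw [Real.norm_of_nonneg (pow_nonneg (tpos k).le _)] at hk3
  refine ⟨fun i hi => ?_, fun i hi1 hi => ?_, ?_⟩
  · exact ((hk i (Finset.mem_range.2 hi)).1 hi).trans
      (mul_le_mul_of_nonneg_right (hCsum i hi) (pow_nonneg (tpos k).le _))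
  · exact ((hk i (Finset.mem_range.2 hi)).2 hi1 hi).trans
      (mul_le_mul_of_nonneg_right (hCsum i hi) (pow_nonneg (tpos k).le _))
  · exact hk3.trans (mul_le_mul_of_nonneg_right hC3 (pow_nonneg (tpos k).le _))

end Pool.Agent.AD.RB

namespace Pool.Agent.AD

alias res_bound := Pool.Agent.AD.RB.res_bound

end Pool.Agent.AD
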