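import Mathlib
import Pool.Agent.Lib_helper59.AD.Defs
import Pool.Agent.Lib_helper59.AD.RAW
import Pool.Agent.Lib_helper59.AD.RB

open scoped ComplexConjugate
open Polynomial

namespace Pool.Agent.AD.RL

private theorem RL_small {𝓤 : Ultrafilter ℕ} {t : ℕ → ℝ} (tpos : ∀ k, 0 < t k)
    (t0 : Filter.Tendsto t 𝓤 (nhds 0)) {f : ℕ → ℂ} {C : ℝ} {p R : ℕ} (h : R < p)
    (hf : ∀ᶠ k in 𝓤, ‖f k‖ ≤ C * t k ^ p) :
    Filter.Tendsto (fun k => f k / (t k : ℂ) ^ R) 𝓤 (nhds 0) := by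
  have h1 : Filter.Tendsto (fun k => C * t k ^ (p - R)) 𝓤 (nhds 0) := by
    have := (t0.pow (p - R)).const_mul C
    rwa [zero_pow (by omega), mul_zero] at this
  refine squeeze_zero_norm' ?_ h1
  filter_upwards [hf] with k hk
  have hpos := tpos k
  rw [norm_div, norm_pow, Complex.norm_real, Real.norm_eq_abs, abs_of_pos hpos,
    div_le_iff₀ (pow_pos hpos R), mul_assoc, ← pow_add, Nat.sub_add_cancel h.le]
  exact hk

private theorem RL_term {𝓤 : Ultrafilter ℕ} {t : ℕ → ℝ} (tpos : ∀ k, 0 < t k)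
    (t0 : Filter.Tendsto t 𝓤 (nhds 0)) {a f : ℕ → ℂ} (ha : Filter.Tendsto a 𝓤 (nhds 1))
    {C : ℝ} {p R : ℕ} (h : R < p) (hf : ∀ᶠ k in 𝓤, ‖f k‖ ≤ C * t k ^ p) :
    Filter.Tendsto (fun k => a k * f k / (t k : ℂ) ^ R) 𝓤 (nhds 0) := by
  have := ha.mul (RL_small tpos t0 h hf)
  rw [mul_zero] at this
  refine this.congr fun k => ?_
  rw [mul_div_assoc]

private theorem RL_div {𝓤 : Ultrafilter ℕ} {a f : ℕ → ℂ} {L : ℂ}
    (ha : Filter.Tendsto a 𝓤 (nhds 1)) (hf : Filter.Tendsto (fun k => a k * f k) 𝓤 (nhds L)) :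
    Filter.Tendsto f 𝓤 (nhds L) := by
  have h := hf.div ha one_ne_zero
  rw [div_one] at h
  refine h.congr' ?_
  filter_upwards [ha.eventually_ne one_ne_zero] with k hk
  simp only [Pi.div_apply]
  rw [mul_comm, mul_div_assoc, div_self hk, mul_one]

private theorem RL_re1 (e : ℕ) (he : 1 ≤ e) (N : ℕ) (f : ℕ → ℂ) :
    ∑ α ∈ Finset.range (e * N + 1), (if e ∣ α then f α else 0)
      = ∑ l ∈ Finset.range (N + 1), f (e * l) := by
  induction N with
  | zero => simp
  | succ N ih =>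
    have h1 : e * (N + 1) + 1 = (e * N + 1) + e := by ring
    rw [h1, Finset.sum_range_add, ih, Finset.sum_range_succ _ (N + 1)]
    congr 1
    rw [Finset.sum_eq_single (e - 1)]
    · have h2 : e * N + 1 + (e - 1) = e * (N + 1) := by
        rw [Nat.mul_succ]; omega
      rw [h2, if_pos (dvd_mul_right _ _)]
    · intro x hx hne
      have hx := Finset.mem_range.1 hx
      rw [if_neg]
      intro hd
      rw [add_assoc] at hd
      have h3 : e ∣ 1 + x := (Nat.dvd_add_right (dvd_mul_right e N)).1 hd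
      have := Nat.le_of_dvd (by omega) h3
      omega
    · intro h
      exact absurd (Finset.mem_range.2 (by omega)) h

private theorem RL_re2 (i : ℕ) (g : ℕ → ℂ) :
    ∑ l ∈ Finset.range (2 * i + 1 + 1), g l
      = ∑ j ∈ Finset.range (i + 1), (g (2 * j) + g (2 * j + 1)) := by
  induction i with
  | zero => simp [Finset.sum_range_succ]
  | succ i ih =>
    have h1 : 2 * (i + 1) + 1 + 1 = (2 * i + 1 + 1) + 1 + 1 := by ring
    rw [h1, Finset.sum_range_succ, Finset.sum_range_succ, ih, Finset.sum_range_succ _ (i + 1)]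
    have h2 : 2 * (i + 1) = 2 * i + 1 + 1 := by ring
    rw [h2]
    ring

private theorem RL_re (e : ℕ) (he : 1 ≤ e) (i : ℕ) (f : ℕ → ℂ) :
    ∑ α ∈ Finset.range (2 * e * i + e + 1), (if e ∣ α then f α else 0)
      = ∑ j ∈ Finset.range (i + 1), (f (2 * e * j) + f (2 * e * j + e)) := by
  have h1 : 2 * e * i + e + 1 = e * (2 * i + 1) + 1 := by ring
  rw [h1, RL_re1 e he, RL_re2]
  refine Finset.sum_congr rfl fun j _ => ?_
  congr 2 <;> ring

private theorem RL_exG (p v : ℕ → ℂ) (p0 : p 0 = 1) :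
    ∃ G : ℕ → ℂ, ∀ j, ∑ i ∈ Finset.range (j + 1), p i * G (j - i) = v j := by
  refine ⟨fun j => PowerSeries.coeff j (PowerSeries.mk v * (PowerSeries.mk p)⁻¹), fun j => ?_⟩
  have h0 : PowerSeries.constantCoeff (PowerSeries.mk p) ≠ 0 := by
    rw [← PowerSeries.coeff_zero_eq_constantCoeff_apply, PowerSeries.coeff_mk, p0]
    exact one_ne_zero
  have h1 : PowerSeries.mk p * (PowerSeries.mk v * (PowerSeries.mk p)⁻¹) = PowerSeries.mk v := by
    rw [mul_left_comm, PowerSeries.mul_inv_cancel _ h0, mul_one]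
  have h2 := congrArg (PowerSeries.coeff j) h1
  rw [PowerSeries.coeff_mul, Finset.Nat.sum_antidiagonal_eq_sum_range_succ_mk,
    PowerSeries.coeff_mk] at h2
  rw [← h2]
  refine Finset.sum_congr rfl fun i _ => ?_
  simp only [PowerSeries.coeff_mk]

section

variable {𝓤 : Ultrafilter ℕ} {n e m : ℕ} {t : ℕ → ℝ} {a : ℕ → ℕ → ℕ → ℂ} {μ : ℕ → ℕ → ℂ}
    {ξ υ : ℕ → ℂ} {U V : ℕ → ℕ → ℂ}

/-- the equation number `2ei+e`, divided by the right power of `t` -/
private theorem RL_E2 (hS : NearSeq 𝓤 n e m t a μ ξ υ U V) (i : ℕ) (hi : i ≤ m) :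
    Filter.Tendsto (fun k => ∑ j ∈ Finset.range (i + 1),
      (a k (2 * e * j) (2 * e * (i - j) + e) * ((U k (2 * e * j) / (t k : ℂ) ^ ((6 * e - 1) * j)) *
          (V k (2 * e * (i - j) + e) / (t k : ℂ) ^ ((6 * e - 1) * (i - j) + 2 * m * (5 * e - 1))))
        + a k (2 * e * j + e) (2 * e * (i - j)) *
          ((U k (2 * e * j + e) / (t k : ℂ) ^ ((6 * e - 1) * j + 2 * m * (5 * e - 1))) *
          (V k (2 * e * (i - j)) / (t k : ℂ) ^ ((6 * e - 1) * (i - j)))))) 𝓤 (nhds 0) := by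
  have hm := hS.hm
  have he := hS.he
  have hn := hS.hn
  have hn3 : n = 2 * e * m + e := by rw [hn]; ring
  obtain ⟨C, hC⟩ := raw hS
  have hK : 2 * e * i ≤ 2 * e * m := Nat.mul_le_mul_left _ hi
  set K := 2 * e * i + e with hKdef
  set E := (6 * e - 1) * i + 2 * m * (5 * e - 1) with hEdef
  have hE : E < 8 * e * m + 8 * e * m := by
    have h1 : (6 * e - 1) * i ≤ (6 * e - 1) * m := Nat.mul_le_mul_left _ hi
    have h2 : (6 * e - 1) * m + 2 * m * (5 * e - 1) = (6 * e - 1 + 2 * (5 * e - 1)) * m := by ring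
    have h3 : 6 * e - 1 + 2 * (5 * e - 1) = 16 * e - 3 := by omega
    have h4 : (16 * e - 3) * m < 16 * e * m := Nat.mul_lt_mul_of_pos_right (by omega) (by omega)
    have h5 : 16 * e * m = 8 * e * m + 8 * e * m := by ring
    rw [h3] at h2
    omega
  have hsmall : Filter.Tendsto (fun k => ∑ α ∈ Finset.range (K + 1),
      (if e ∣ α then 0 else a k α (K - α) * (U k α * V k (K - α)) / (t k : ℂ) ^ E)) 𝓤
      (nhds (∑ α ∈ Finset.range (K + 1), (0 : ℂ))) := by
    refine tendsto_finsetSum _ fun α hα => ?_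
    have hα := Finset.mem_range.1 hα
    by_cases hd : e ∣ α
    · simp only [if_pos hd]; exact tendsto_const_nhds
    simp only [if_neg hd]
    refine RL_term (a := fun k => a k α (K - α)) (f := fun k => U k α * V k (K - α))
      hS.tpos hS.t0 (hS.a1 _ _) (C := C * C) hE ?_
    filter_upwards [hC] with k hk
    have hd1 : ¬ (2 * e ∣ α) := fun h => hd ((dvd_mul_left e 2).trans h)
    have hd2 : ¬ (2 * e ∣ K - α) := by
      intro h
      have h1 : e ∣ K - α := (dvd_mul_left e 2).trans h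
      have h2 : e ∣ K := by
        rw [hKdef]
        exact dvd_add ((dvd_mul_left e 2).mul_right i) dvd_rfl
      have h3 : e ∣ K - (K - α) := Nat.dvd_sub h2 h1
      rw [show K - (K - α) = α by omega] at h3
      exact hd h3
    have h1 := (hk α hd1).1
    have h2 := (hk (K - α) hd2).2
    rw [norm_mul, pow_add]
    calc ‖U k α‖ * ‖V k (K - α)‖ ≤ (C * t k ^ (8 * e * m)) * (C * t k ^ (8 * e * m)) :=
          mul_le_mul h1 h2 (norm_nonneg _) ((norm_nonneg _).trans h1)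
      _ = C * C * (t k ^ (8 * e * m) * t k ^ (8 * e * m)) := by ring
  rw [Finset.sum_const_zero] at hsmall
  have h := hsmall.neg
  rw [neg_zero] at h
  refine h.congr fun k => ?_
  have ht : (t k : ℂ) ≠ 0 := by exact_mod_cast (hS.tpos k).ne'
  have h1 := hS.E2 k K (by omega) (by omega)
  have h2 : ∑ α ∈ Finset.range (K + 1), (if e ∣ α then
      a k α (K - α) * (U k α * V k (K - α)) / (t k : ℂ) ^ E else 0) +
      ∑ α ∈ Finset.range (K + 1),
      (if e ∣ α then 0 else a k α (K - α) * (U k α * V k (K - α)) / (t k : ℂ) ^ E) = 0 := by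
    rw [← Finset.sum_add_distrib]
    have h3 : ∀ α ∈ Finset.range (K + 1), ((if e ∣ α then
      a k α (K - α) * (U k α * V k (K - α)) / (t k : ℂ) ^ E else 0) +
      (if e ∣ α then 0 else a k α (K - α) * (U k α * V k (K - α)) / (t k : ℂ) ^ E))
      = a k α (K - α) * (U k α * V k (K - α)) / (t k : ℂ) ^ E := by
      intro α _
      split_ifs <;> ring
    rw [Finset.sum_congr rfl h3, ← Finset.sum_div, h1, zero_div]
  have h3 := RL_re e he i (fun α => a k α (K - α) * (U k α * V k (K - α)) / (t k : ℂ) ^ E)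
  rw [← hKdef] at h3
  rw [h3] at h2
  rw [← eq_neg_iff_add_eq_zero] at h2
  rw [← h2]
  refine Finset.sum_congr rfl fun j hj => ?_
  have hj := Finset.mem_range.1 hj
  have hji : 2 * e * j + 2 * e * (i - j) = 2 * e * i := by
    rw [← mul_add, Nat.add_sub_cancel' (by omega)]
  have h4 : K - 2 * e * j = 2 * e * (i - j) + e := by omega
  have h5 : K - (2 * e * j + e) = 2 * e * (i - j) := by omega
  have h6 : (6 * e - 1) * j + (6 * e - 1) * (i - j) = (6 * e - 1) * i := by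
    rw [← mul_add, Nat.add_sub_cancel' (by omega)]
  have h7 : (t k : ℂ) ^ E = (t k : ℂ) ^ ((6 * e - 1) * j) *
      (t k : ℂ) ^ ((6 * e - 1) * (i - j) + 2 * m * (5 * e - 1)) := by
    rw [← pow_add, hEdef]; congr 1; omega
  have h8 : (t k : ℂ) ^ E = (t k : ℂ) ^ ((6 * e - 1) * j + 2 * m * (5 * e - 1)) *
      (t k : ℂ) ^ ((6 * e - 1) * (i - j)) := by
    rw [← pow_add, hEdef]; congr 1; omega
  simp only [h4, h5]
  congr 1
  · rw [h7]; field_simp
  · rw [h8]; field_simp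

end

theorem res_lim {𝓤 : Ultrafilter ℕ} {n e m : ℕ} {t : ℕ → ℝ} {a : ℕ → ℕ → ℕ → ℂ}
    {μ : ℕ → ℕ → ℂ} {ξ υ : ℕ → ℂ} {U V : ℕ → ℕ → ℂ} (hS : NearSeq 𝓤 n e m t a μ ξ υ U V)
    (p v : ℕ → ℂ) (p0 : p 0 = 1) (pm : ∀ i, m < i → p i = 0) (vm : ∀ i, m < i → v i = 0)
    (hp : ∀ i, Filter.Tendsto (fun k => U k (2 * e * i) / (t k : ℂ) ^ ((6 * e - 1) * i)) 𝓤
        (nhds (p i)))
    (hv : ∀ i, Filter.Tendsto (fun k => V k (2 * e * i) / (t k : ℂ) ^ ((6 * e - 1) * i)) 𝓤
        (nhds (v i)))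
    (u : ℂ) (hu : Filter.Tendsto (fun k => U k e / (t k : ℂ) ^ (2 * m * (5 * e - 1))) 𝓤
        (nhds u)) :
    ∃ G : ℕ → ℂ, (∀ j, j ≤ m → ∑ i ∈ Finset.range (j + 1), p i * G (j - i) = v j) ∧
      Filter.Tendsto (fun k => U k n / (t k : ℂ) ^ ((6 * e - 1) * m + 2 * m * (5 * e - 1))) 𝓤
        (nhds (-u * G m)) := by
  have hm := hS.hm
  have he := hS.he
  have hn := hS.hn
  have hn3 : n = 2 * e * m + e := by rw [hn]; ring
  -- bounds from the limits
  have bd : ∀ (f : ℕ → ℂ) (L : ℂ) (R : ℕ),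
      Filter.Tendsto (fun k => f k / (t k : ℂ) ^ R) 𝓤 (nhds L) →
      ∀ᶠ k in 𝓤, ‖f k‖ ≤ (‖L‖ + 1) * t k ^ R := by
    intro f L R h
    have h1 := h.norm.eventually (gt_mem_nhds (lt_add_one ‖L‖))
    filter_upwards [h1] with k hk
    have hpos := hS.tpos k
    rw [norm_div, norm_pow, Complex.norm_real, Real.norm_eq_abs, abs_of_pos hpos,
      div_lt_iff₀ (pow_pos hpos R)] at hk
    exact hk.le
  set C₀ : ℝ := ∑ i ∈ Finset.range (m + 1), ((‖p i‖ + 1) + (‖v i‖ + 1)) + (‖u‖ + 1) with hC₀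
  have hnn : ∀ i ∈ Finset.range (m + 1), 0 ≤ (‖p i‖ + 1) + (‖v i‖ + 1) := fun i _ => by positivity
  have hle : ∀ i ≤ m, ‖p i‖ + 1 ≤ C₀ ∧ ‖v i‖ + 1 ≤ C₀ := by
    intro i hi
    have h1 := Finset.single_le_sum hnn (Finset.mem_range.2 (Nat.lt_succ_of_le hi))
    have h2 := norm_nonneg (p i)
    have h3 := norm_nonneg (v i)
    have h4 := norm_nonneg u
    constructor <;> linarith
  have hC₀u : ‖u‖ + 1 ≤ C₀ := by
    have := Finset.sum_nonneg hnn
    linarith
  have hC₀0 : 0 ≤ C₀ := (by positivity : (0 : ℝ) ≤ ‖u‖ + 1).trans hC₀u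
  have hB : ∀ᶠ k in 𝓤, ∀ i, ‖U k (2 * e * i)‖ ≤ C₀ * t k ^ ((6 * e - 1) * i) ∧
      ‖V k (2 * e * i)‖ ≤ C₀ * t k ^ ((6 * e - 1) * i) := by
    have h1 : ∀ᶠ k in 𝓤, ∀ i ∈ Finset.range (m + 1),
        ‖U k (2 * e * i)‖ ≤ (‖p i‖ + 1) * t k ^ ((6 * e - 1) * i) ∧
        ‖V k (2 * e * i)‖ ≤ (‖v i‖ + 1) * t k ^ ((6 * e - 1) * i) := by
      rw [Filter.eventually_all_finset]
      intro i _
      exact (bd _ _ _ (hp i)).and (bd _ _ _ (hv i))
    filter_upwards [h1] with k hk i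
    have hpos := hS.tpos k
    have ht : 0 ≤ t k ^ ((6 * e - 1) * i) := by positivity
    by_cases hi : i ≤ m
    · have h2 := hk i (Finset.mem_range.2 (Nat.lt_succ_of_le hi))
      exact ⟨h2.1.trans (mul_le_mul_of_nonneg_right (hle i hi).1 ht),
        h2.2.trans (mul_le_mul_of_nonneg_right (hle i hi).2 ht)⟩
    · have h3 : 2 * e * (m + 1) ≤ 2 * e * i := Nat.mul_le_mul_left _ (by omega)
      have h4 : 2 * e * (m + 1) = 2 * e * m + 2 * e := by ring
      rw [hS.Un k _ (by omega), hS.Vn k _ (by omega), norm_zero]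
      exact ⟨mul_nonneg hC₀0 ht, mul_nonneg hC₀0 ht⟩
  have hU : ∀ᶠ k in 𝓤, ‖U k e‖ ≤ C₀ * t k ^ (2 * m * (5 * e - 1)) := by
    filter_upwards [bd _ _ _ hu] with k hk
    have hpos := hS.tpos k
    exact hk.trans (mul_le_mul_of_nonneg_right hC₀u (by positivity))
  obtain ⟨C, hC⟩ := res_bound hS C₀ hB hU
  obtain ⟨G, hG⟩ := RL_exG p v p0
  refine ⟨G, fun j _ => hG j, ?_⟩
  -- U_{2ej+e}
  have hU0 : Filter.Tendsto (fun k => U k (2 * e * 0 + e) /
      (t k : ℂ) ^ ((6 * e - 1) * 0 + 2 * m * (5 * e - 1))) 𝓤 (nhds u) := by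
    simpa only [mul_zero, zero_add] using hu
  have hUj : ∀ j, 1 ≤ j → j < m → Filter.Tendsto (fun k => U k (2 * e * j + e) /
      (t k : ℂ) ^ ((6 * e - 1) * j + 2 * m * (5 * e - 1))) 𝓤 (nhds 0) := by
    intro j hj hj'
    refine RL_small hS.tpos hS.t0 (C := C)
      (p := (6 * e - 1) * j + 2 * m * (5 * e - 1) + 1) (by omega) ?_
    filter_upwards [hC] with k hk using hk.2.1 j hj hj'
  have hUall : ∀ j, j < m → Filter.Tendsto (fun k => U k (2 * e * j + e) /
      (t k : ℂ) ^ ((6 * e - 1) * j + 2 * m * (5 * e - 1))) 𝓤 (nhds (if j = 0 then u else 0)) := by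
    intro j hj
    by_cases h0 : j = 0
    · subst h0; rw [if_pos rfl]; exact hU0
    · rw [if_neg h0]; exact hUj j (by omega) hj
  -- algebra
  have halg : ∀ i, -(∑ j ∈ Finset.range i, p (j + 1) * (-u * G (i - (j + 1))) + u * v i)
      = -u * G i := by
    intro i
    have h1 := hG i
    rw [Finset.sum_range_succ', p0, one_mul, Nat.sub_zero] at h1
    have h2 : ∑ j ∈ Finset.range i, p (j + 1) * (-u * G (i - (j + 1)))
        = -u * ∑ j ∈ Finset.range i, p (j + 1) * G (i - (j + 1)) := by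
      rw [Finset.mul_sum]
      exact Finset.sum_congr rfl fun j _ => by ring
    rw [h2]
    linear_combination u * h1
  -- V_{2ei+e}
  have hV : ∀ i, i < m → Filter.Tendsto (fun k => V k (2 * e * i + e) /
      (t k : ℂ) ^ ((6 * e - 1) * i + 2 * m * (5 * e - 1))) 𝓤 (nhds (-u * G i)) := by
    intro i
    induction i using Nat.strong_induction_on with
    | _ i ih =>
      intro hi
      have h1 := RL_E2 hS i hi.le
      have h2 : Filter.Tendsto (fun k => ∑ j ∈ Finset.range i,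
        (a k (2 * e * (j + 1)) (2 * e * (i - (j + 1)) + e) *
          ((U k (2 * e * (j + 1)) / (t k : ℂ) ^ ((6 * e - 1) * (j + 1))) *
          (V k (2 * e * (i - (j + 1)) + e) /
            (t k : ℂ) ^ ((6 * e - 1) * (i - (j + 1)) + 2 * m * (5 * e - 1))))
        + a k (2 * e * (j + 1) + e) (2 * e * (i - (j + 1))) *
          ((U k (2 * e * (j + 1) + e) /
            (t k : ℂ) ^ ((6 * e - 1) * (j + 1) + 2 * m * (5 * e - 1))) *
          (V k (2 * e * (i - (j + 1))) / (t k : ℂ) ^ ((6 * e - 1) * (i - (j + 1))))))) 𝓤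
          (nhds (∑ j ∈ Finset.range i, p (j + 1) * (-u * G (i - (j + 1))))) := by
        refine tendsto_finsetSum _ fun j hj => ?_
        have hj := Finset.mem_range.1 hj
        have h3 := (hS.a1 (2 * e * (j + 1)) (2 * e * (i - (j + 1)) + e)).mul
          ((hp (j + 1)).mul (ih (i - (j + 1)) (by omega) (by omega)))
        have h4 := (hS.a1 (2 * e * (j + 1) + e) (2 * e * (i - (j + 1)))).mul
          ((hUj (j + 1) (by omega) (by omega)).mul (hv (i - (j + 1))))
        have h5 := h3.add h4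
        rwa [zero_mul, mul_zero, add_zero, one_mul] at h5
      have h3 := (hS.a1 (2 * e * 0 + e) (2 * e * (i - 0))).mul (hU0.mul (hv (i - 0)))
      have h4 := h1.sub (h2.add h3)
      rw [zero_sub, one_mul, Nat.sub_zero, halg] at h4
      have h5 : Filter.Tendsto (fun k => a k (2 * e * 0) (2 * e * (i - 0) + e) *
          (V k (2 * e * i + e) / (t k : ℂ) ^ ((6 * e - 1) * i + 2 * m * (5 * e - 1)))) 𝓤
          (nhds (-u * G i)) := by
        refine h4.congr fun k => ?_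
        rw [Finset.sum_range_succ']
        simp only [Nat.sub_zero, mul_zero, pow_zero, div_one, hS.U0 k, one_mul, zero_add]
        ring
      exact RL_div (hS.a1 _ _) h5
  -- the last equation
  have h1 := RL_E2 hS m le_rfl
  have hA : Filter.Tendsto (fun k => ∑ j ∈ Finset.range m,
        a k (2 * e * (j + 1)) (2 * e * (m - (j + 1)) + e) *
          ((U k (2 * e * (j + 1)) / (t k : ℂ) ^ ((6 * e - 1) * (j + 1))) *
          (V k (2 * e * (m - (j + 1)) + e) /
            (t k : ℂ) ^ ((6 * e - 1) * (m - (j + 1)) + 2 * m * (5 * e - 1))))) 𝓤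
          (nhds (∑ j ∈ Finset.range m, p (j + 1) * (-u * G (m - (j + 1))))) := by
    refine tendsto_finsetSum _ fun j hj => ?_
    have hj := Finset.mem_range.1 hj
    have h3 := (hS.a1 (2 * e * (j + 1)) (2 * e * (m - (j + 1)) + e)).mul
      ((hp (j + 1)).mul (hV (m - (j + 1)) (by omega)))
    rwa [one_mul] at h3
  have hBs : Filter.Tendsto (fun k => ∑ j ∈ Finset.range m,
        a k (2 * e * j + e) (2 * e * (m - j)) *
          ((U k (2 * e * j + e) / (t k : ℂ) ^ ((6 * e - 1) * j + 2 * m * (5 * e - 1))) *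
          (V k (2 * e * (m - j)) / (t k : ℂ) ^ ((6 * e - 1) * (m - j))))) 𝓤
          (nhds (∑ j ∈ Finset.range m, (if j = 0 then u else 0) * v (m - j))) := by
    refine tendsto_finsetSum _ fun j hj => ?_
    have hj := Finset.mem_range.1 hj
    have h3 := (hS.a1 (2 * e * j + e) (2 * e * (m - j))).mul
      ((hUall j hj).mul (hv (m - j)))
    rwa [one_mul] at h3
  have hBs' : ∑ j ∈ Finset.range m, (if j = 0 then u else 0) * v (m - j) = u * v m := by
    rw [Finset.sum_eq_single 0]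
    · rw [if_pos rfl, Nat.sub_zero]
    · intro j _ h0; rw [if_neg h0, zero_mul]
    · intro h; exact absurd (Finset.mem_range.2 (by omega)) h
  rw [hBs'] at hBs
  have h4 := h1.sub (hA.add hBs)
  rw [zero_sub, halg] at h4
  have h5 : Filter.Tendsto (fun k => a k (2 * e * m + e) (2 * e * (m - m)) *
      (U k n / (t k : ℂ) ^ ((6 * e - 1) * m + 2 * m * (5 * e - 1)))) 𝓤 (nhds (-u * G m)) := by
    refine h4.congr fun k => ?_
    rw [Finset.sum_add_distrib, Finset.sum_range_succ' (fun j =>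
      a k (2 * e * j) (2 * e * (m - j) + e) * ((U k (2 * e * j) / (t k : ℂ) ^ ((6 * e - 1) * j)) *
          (V k (2 * e * (m - j) + e) / (t k : ℂ) ^ ((6 * e - 1) * (m - j) + 2 * m * (5 * e - 1)))))
      m, Finset.sum_range_succ (fun j => a k (2 * e * j + e) (2 * e * (m - j)) *
          ((U k (2 * e * j + e) / (t k : ℂ) ^ ((6 * e - 1) * j + 2 * m * (5 * e - 1))) *
          (V k (2 * e * (m - j)) / (t k : ℂ) ^ ((6 * e - 1) * (m - j))))) m]
    have h6 : V k (2 * e * (m - 0) + e) = 0 := hS.Vn k _ (by rw [Nat.sub_zero]; omega)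
    rw [h6, Nat.sub_self, mul_zero, mul_zero, hS.V0 k, pow_zero, ← hn3]
    ring
  exact RL_div (hS.a1 _ _) h5

end Pool.Agent.AD.RL

namespace Pool.Agent.AD

alias res_lim := Pool.Agent.AD.RL.res_lim

end Pool.Agent.AD
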