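import Mathlib
import Pool.Agent.Lib_helper59.AD.Defs
import Pool.Agent.Lib_helper59.AD.BL
import Pool.Agent.Lib_helper59.AD.CH
import Pool.Agent.Lib_helper59.AD.GA
import Pool.Agent.Lib_helper59.AD.RL
import Pool.Agent.Lib_helper59.AD.UL

open scoped ComplexConjugate
open Polynomial

namespace Pool.Agent.AD.NF

private theorem nf_norm_lim {𝓤 : Ultrafilter ℕ} {ξ : ℕ → ℂ} (h : ∀ k, ‖ξ k‖ = 1) :
    ∃ ξ₀ : ℂ, Filter.Tendsto ξ 𝓤 (nhds ξ₀) ∧ ‖ξ₀‖ = 1 := by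
  obtain ⟨z, hz⟩ := ulim 𝓤 ξ 1 (Filter.Eventually.of_forall fun k => (h k).le)
  refine ⟨z, hz, ?_⟩
  have h1 : Filter.Tendsto (fun k => ‖ξ k‖) 𝓤 (nhds ‖z‖) := hz.norm
  have h2 : Filter.Tendsto (fun k => ‖ξ k‖) 𝓤 (nhds 1) := by
    simp only [h]
    exact tendsto_const_nhds
  exact tendsto_nhds_unique h1 h2

private theorem nf_vp_pow (m : ℕ) (hm : 1 ≤ m) : vp m ^ m = -1 := by
  have hm0 : (m : ℂ) ≠ 0 := by exact_mod_cast (by omega : m ≠ 0)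
  rw [vp, ← Complex.exp_nat_mul]
  rw [show (m : ℂ) * (Real.pi * Complex.I / m) = Real.pi * Complex.I by field_simp]
  exact Complex.exp_pi_mul_I

private theorem nf_norm_of_pow {z w : ℂ} {m : ℕ} (hm : 1 ≤ m) (h : z ^ m = w) (hw : ‖w‖ = 1) :
    ‖z‖ = 1 := by
  have h1 : ‖z‖ ^ m = 1 := by rw [← norm_pow, h, hw]
  exact (pow_eq_one_iff_of_nonneg (norm_nonneg z) (by omega)).1 h1

/-- ξ, υ have limits ξ₀, υ₀ of norm 1 (ulim). block_lim: p, v. chain i = e < 2e: U_e/t^{2m(5e-1)} → u = -conj(ϱ^e), ϱ = υ₀/ξ₀. res_lim: U_n/(δ^m σ) → conj(ϱ^e) G_m. real: (U_n)² conj ξ ≥ 0, divide by the positive (δ^m σ)². -/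
theorem near_false {𝓤 : Ultrafilter ℕ} {n e m : ℕ} {t : ℕ → ℝ} {a : ℕ → ℕ → ℕ → ℂ}
    {μ : ℕ → ℕ → ℂ} {ξ υ : ℕ → ℂ} {U V : ℕ → ℕ → ℂ} (hS : NearSeq 𝓤 n e m t a μ ξ υ U V) :
    False := by
  obtain ⟨ξ₀, hξ, nξ⟩ := nf_norm_lim (𝓤 := 𝓤) hS.nξ
  obtain ⟨υ₀, hυ, nυ⟩ := nf_norm_lim (𝓤 := 𝓤) hS.nυ
  have he := hS.he
  have hm := hS.hm
  obtain ⟨p, v, p0, v0, pm, vm, hp, hv, hpv⟩ := block_lim hS ξ₀ υ₀ hξ hυ
  have hξ0 : ξ₀ ≠ 0 := by
    intro h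
    rw [h, norm_zero] at nξ
    exact zero_ne_one nξ
  have hυ0 : υ₀ ≠ 0 := by
    intro h
    rw [h, norm_zero] at nυ
    exact zero_ne_one nυ
  set ϱ : ℂ := υ₀ / ξ₀ with hϱ
  have nϱ : ‖ϱ‖ = 1 := by rw [hϱ, norm_div, nξ, nυ, div_one]
  have hϱ0 : ϱ ≠ 0 := div_ne_zero hυ0 hξ0
  have hch := (chain hS ξ₀ υ₀ hξ hυ e he (by omega)).1
  rw [show 4 * e + e - 1 = 5 * e - 1 by omega] at hch
  obtain ⟨G, hG, hlim⟩ := res_lim hS p v p0 pm vm hp hv _ hch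
  set u : ℂ := -conj (ϱ ^ e) with hu
  set E : ℕ := (6 * e - 1) * m + 2 * m * (5 * e - 1) with hE
  -- the limit is real and nonnegative
  have hconj : Filter.Tendsto (fun k => conj (ξ k)) 𝓤 (nhds (conj ξ₀)) :=
    (Complex.continuous_conj.tendsto ξ₀).comp hξ
  have hL : Filter.Tendsto (fun k => (U k n / (t k : ℂ) ^ E) ^ 2 * conj (ξ k)) 𝓤
      (nhds ((-u * G m) ^ 2 * conj ξ₀)) := (hlim.pow 2).mul hconj
  have hpos : ∀ k, ∃ s : ℝ, 0 ≤ s ∧ (U k n / (t k : ℂ) ^ E) ^ 2 * conj (ξ k) = s := by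
    intro k
    obtain ⟨s, hs, h⟩ := hS.real k
    have htk := hS.tpos k
    refine ⟨s / (t k ^ E) ^ 2, by positivity, ?_⟩
    rw [div_pow, div_mul_eq_mul_div, h]
    push_cast
    rfl
  have him : ((-u * G m) ^ 2 * conj ξ₀).im = 0 := by
    have h1 := (Complex.continuous_im.tendsto _).comp hL
    have h2 : (Complex.im ∘ fun k => (U k n / (t k : ℂ) ^ E) ^ 2 * conj (ξ k)) = fun _ => 0 := by
      funext k
      obtain ⟨s, -, h⟩ := hpos k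
      simp only [Function.comp]
      rw [h, Complex.ofReal_im]
    rw [h2] at h1
    exact tendsto_nhds_unique h1 tendsto_const_nhds
  have hre : 0 ≤ ((-u * G m) ^ 2 * conj ξ₀).re := by
    have h1 := (Complex.continuous_re.tendsto _).comp hL
    refine ge_of_tendsto h1 (Filter.Eventually.of_forall fun k => ?_)
    obtain ⟨s, hs, h⟩ := hpos k
    simp only [Function.comp]
    rw [h, Complex.ofReal_re]
    exact hs
  -- the value of the limit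
  have nvp : ‖vp m‖ = 1 := nf_norm_of_pow hm (nf_vp_pow m hm) (by simp)
  have nη : ‖vp m * υ₀ * ϱ ^ (2 * e - 1)‖ = 1 := by
    rw [norm_mul, norm_mul, norm_pow, nvp, nυ, nϱ]; simp
  have hpv' : ∀ j, 1 ≤ j → j ≤ 2 * m → ∑ i ∈ Finset.range (j + 1), p i * v (j - i)
        = if j = 2 * m then -(vp m * υ₀ * ϱ ^ (2 * e - 1)) else 0 := hpv
  obtain ⟨s, ζ, hs, hζ, hGm⟩ := galg m hm p v G p0 v0 pm vm _ nη hpv' hG
  have hcξ : ξ₀ * conj ξ₀ = 1 := by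
    rw [Complex.mul_conj, Complex.normSq_eq_norm_sq, nξ]; simp
  have hcϱ : ϱ * conj ϱ = 1 := by
    rw [Complex.mul_conj, Complex.normSq_eq_norm_sq, nϱ]; simp
  have hval : (-u * G m) ^ 2 * conj ξ₀ = vp m * ζ * s := by
    have h1 : (-u * G m) ^ 2 = conj ϱ ^ (2 * e) * G m ^ 2 := by
      rw [hu, neg_neg, mul_pow, map_pow, ← pow_mul, mul_comm e 2]
    have h2 : conj ϱ ^ (2 * e) * ϱ ^ (2 * e - 1) = conj ϱ := by
      have h3 : conj ϱ ^ (2 * e) = conj ϱ ^ (2 * e - 1) * conj ϱ := by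
        rw [← pow_succ, show 2 * e - 1 + 1 = 2 * e by omega]
      rw [h3, mul_right_comm, ← mul_pow, mul_comm (conj ϱ) ϱ, hcϱ, one_pow, one_mul]
    have h4 : conj ϱ * υ₀ = ξ₀ := by
      have h5 : υ₀ = ϱ * ξ₀ := by rw [hϱ, div_mul_cancel₀ _ hξ0]
      rw [h5, ← mul_assoc, mul_comm (conj ϱ) ϱ, hcϱ, one_mul]
    rw [h1, hGm]
    calc conj ϱ ^ (2 * e) * (vp m * υ₀ * ϱ ^ (2 * e - 1) * ζ * s) * conj ξ₀
        = (conj ϱ ^ (2 * e) * ϱ ^ (2 * e - 1)) * υ₀ * conj ξ₀ * (vp m * ζ * s) := by ring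
      _ = (conj ϱ * υ₀) * conj ξ₀ * (vp m * ζ * s) := by rw [h2]
      _ = vp m * ζ * s := by rw [h4, hcξ, one_mul]
  rw [hval] at him hre
  have nζ : ‖ζ‖ = 1 := nf_norm_of_pow hm hζ (by simp)
  have nz : ‖vp m * ζ‖ = 1 := by rw [norm_mul, nvp, nζ, one_mul]
  have him' : (vp m * ζ).im = 0 := by
    rw [Complex.im_mul_ofReal] at him
    exact (mul_eq_zero.1 him).resolve_right hs.ne'
  have hre' : 0 ≤ (vp m * ζ).re := by
    rw [Complex.re_mul_ofReal] at hre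
    exact nonneg_of_mul_nonneg_left hre hs
  have hz1 : vp m * ζ = 1 := by
    have h1 : ((vp m * ζ).re : ℂ) = vp m * ζ := by
      apply Complex.ext
      · simp
      · rw [Complex.ofReal_im, him']
    have h2 : |(vp m * ζ).re| = 1 := by
      rw [← h1, Complex.norm_real, Real.norm_eq_abs] at nz
      exact nz
    rw [abs_of_nonneg hre'] at h2
    rw [← h1, h2, Complex.ofReal_one]
  have h2 : (vp m * ζ) ^ m = -1 := by rw [mul_pow, nf_vp_pow m hm, hζ, mul_one]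
  rw [hz1, one_pow] at h2
  norm_num at h2

end Pool.Agent.AD.NF

namespace Pool.Agent.AD

alias near_false := Pool.Agent.AD.NF.near_false

end Pool.Agent.AD
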