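import Mathlib
import Pool.Agent.Lib_helper59.AD.Defs
import Pool.Agent.Lib_helper59.AD.NF

open scoped ComplexConjugate
open Polynomial

namespace Pool.Agent.AD.NR

/-- the double sum of `pF` reindexed from the top -/
private theorem nr_sum (n c : ℕ) (a : ℕ → ℕ → ℂ) (x y : ℕ → ℂ) (xn yn : ℂ)
    (hxn : xn ≠ 0) (hyn : yn ≠ 0) (hc : c ≤ 2 * n) :
    ∑ i ∈ Finset.range (2 * n - c + 1), a (n - i) (n - (2 * n - c - i)) *
        ((if i ≤ n then x (n - i) / xn else 0) *
          (if (2 * n - c - i) < n then y (n - (2 * n - c - i)) / yn else 0))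
      = (∑ i ∈ Finset.range (n + 1), ∑ j ∈ Finset.Icc 1 n,
          (if i + j = c then a i j * (x i * y j) else 0)) / (xn * yn) := by
  have h1 : (∑ i ∈ Finset.range (n + 1), ∑ j ∈ Finset.Icc 1 n,
          (if i + j = c then a i j * (x i * y j) else 0))
      = ∑ i ∈ Finset.range (n + 1), (if i ≤ c ∧ 1 ≤ c - i ∧ c - i ≤ n then
          a i (c - i) * (x i * y (c - i)) else 0) := by
    refine Finset.sum_congr rfl fun i hi => ?_
    by_cases h : i ≤ c ∧ 1 ≤ c - i ∧ c - i ≤ n
    · rw [if_pos h, Finset.sum_eq_single_of_mem (c - i) (Finset.mem_Icc.2 h.2)]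
      · rw [if_pos (by omega)]
      · intro j _ hj
        rw [if_neg (by omega)]
    · rw [if_neg h]
      refine Finset.sum_eq_zero fun j hj => ?_
      rw [Finset.mem_Icc] at hj
      rw [if_neg]
      intro h'
      exact h ⟨by omega, by omega, by omega⟩
  rw [h1, Finset.sum_div]
  conv_rhs => rw [← Finset.sum_range_reflect]
  refine Finset.sum_congr_of_eq_on_inter ?_ ?_ ?_
  · intro i _ hi
    rw [Finset.mem_range] at hi
    rw [if_neg (by omega)]; ring
  · intro i hi hi'
    rw [Finset.mem_range] at hi hi'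
    rw [if_neg (by omega)]; ring
  · intro i hi hi'
    rw [Finset.mem_range] at hi hi'
    have e1 : n + 1 - 1 - i = n - i := by omega
    rw [e1, if_pos (by omega : i ≤ n)]
    by_cases h : 2 * n - c - i < n
    · have e2 : n - (2 * n - c - i) = c - (n - i) := by omega
      rw [if_pos h, if_pos ⟨by omega, by omega, by omega⟩, e2]
      field_simp
    · rw [if_neg h, if_neg (by omega)]; ring

theorem near (n e m : ℕ) (he : 1 ≤ e) (hm : 1 ≤ m) (hn : n = e * (2 * m + 1)) :
    ∃ δ : ℝ, 0 < δ ∧ ∀ (a : ℕ → ℕ → ℂ) (μ : ℕ → ℂ) (t : ℝ),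
      (∀ i ≤ n, ∀ j ≤ n, ‖a i j - 1‖ < δ) → (∀ i ≤ n, ‖μ i - 1‖ < δ) → 0 < t → t < δ →
      ∀ x y, XV n x → YV n y → x n ≠ 0 → y n ≠ 0 → (∀ i < n, ‖x i‖ ≤ δ * ‖x n‖) →
        (∀ j < n, ‖y j‖ ≤ δ * ‖y n‖) →
        (∀ k, 1 ≤ k → k ≤ 2 * n - 1 → pF n a (muM n e μ) (lam e m t) k x y = 0) → False := by
  by_contra hcon
  push Not at hcon
  have hδ : ∀ k : ℕ, (0 : ℝ) < 1 / ((k : ℝ) + 1) := fun k => by positivity
  choose a μ t ha hμ ht0 htd x y hx hy hxn hyn hxs hys hF using fun k : ℕ => hcon _ (hδ k)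
  have hn3 : 3 * e ≤ n := by rw [hn]; nlinarith
  have hn1 : 1 ≤ n := by omega
  have hlim : Filter.Tendsto (fun k : ℕ => (1 : ℝ) / ((k : ℝ) + 1)) (Filter.hyperfilter ℕ : Filter ℕ)
      (nhds 0) := tendsto_one_div_add_atTop_nhds_zero_nat.mono_left Nat.hyperfilter_le_atTop
  have hlimn : ∀ (f : ℕ → ℂ), (∀ k, ‖f k‖ ≤ 1 / ((k : ℝ) + 1)) →
      Filter.Tendsto f (Filter.hyperfilter ℕ : Filter ℕ) (nhds 0) := fun f hf =>
    squeeze_zero_norm hf hlim
  have hlim1 : ∀ (f : ℕ → ℂ), (∀ k, ‖f k - 1‖ ≤ 1 / ((k : ℝ) + 1)) →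
      Filter.Tendsto f (Filter.hyperfilter ℕ : Filter ℕ) (nhds 1) := fun f hf => by
    have := hlimn (fun k => f k - 1) hf
    simpa using this.add_const 1
  have hcx : ∀ k, conj (x k n) ≠ 0 := fun k => by simpa using hxn k
  have hcy : ∀ k, conj (y k n) ≠ 0 := fun k => by simpa using hyn k
  have key : ∀ k c, 1 ≤ c → c ≤ 2 * n - 1 →
      ∑ i ∈ Finset.range (2 * n - c + 1), a k (n - i) (n - (2 * n - c - i)) *
        ((if i ≤ n then x k (n - i) / x k n else 0) *
          (if (2 * n - c - i) < n then y k (n - (2 * n - c - i)) / y k n else 0))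
      + (muM n e (μ k) c * (conj (x k (n - c)) * y k n)
        + lam e m (t k) c * (x k n * conj (y k (n + 1 - c)))) / (x k n * y k n) = 0 := by
    intro k c h1 h2
    rw [nr_sum n c (a k) (x k) (y k) (x k n) (y k n) (hxn k) (hyn k) (by omega), ← add_div]
    have := (hF k).1 c h1 h2
    unfold pF at this
    rw [← add_assoc, this, zero_div]
  refine near_false (𝓤 := Filter.hyperfilter ℕ) (n := n) (e := e) (m := m) (t := t)
    (a := fun k i j => a k (n - i) (n - j)) (μ := fun k i => if i ≤ n then μ k i else 1)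
    (ξ := fun k => conj (x k n) / x k n) (υ := fun k => conj (y k n) / y k n)
    (U := fun k i => if i ≤ n then x k (n - i) / x k n else 0)
    (V := fun k i => if i < n then y k (n - i) / y k n else 0)
    { he := he, hm := hm, hn := hn, tpos := ht0, t0 := ?_, a1 := ?_, μ1 := ?_, nξ := ?_, nυ := ?_,
      U0 := ?_, V0 := ?_, Un := ?_, Vn := ?_, Us := ?_, Vs := ?_, E2 := ?_, E1 := ?_, real := ?_ }
  · refine squeeze_zero_norm (fun k => ?_) hlim
    rw [Real.norm_eq_abs, abs_of_pos (ht0 k)]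
    exact (htd k).le
  · intro i j
    exact hlim1 _ fun k => (ha k _ (by omega) _ (by omega)).le
  · intro i
    refine hlim1 _ fun k => ?_
    split_ifs with h
    · exact (hμ k i h).le
    · simpa using (hδ k).le
  · intro k
    rw [norm_div, RCLike.norm_conj, div_self (norm_ne_zero_iff.2 (hxn k))]
  · intro k
    rw [norm_div, RCLike.norm_conj, div_self (norm_ne_zero_iff.2 (hyn k))]
  · intro k
    simp [hxn k]
  · intro k
    simp [hyn k, show 0 < n by omega]
  · intro k i hi
    rw [if_neg (by omega)]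
  · intro k i hi
    rw [if_neg (by omega)]
  · intro i hi
    refine hlimn _ fun k => ?_
    split_ifs with h
    · rw [norm_div, div_le_iff₀ (norm_pos_iff.2 (hxn k))]
      exact hxs k (n - i) (by omega)
    · simpa using (hδ k).le
  · intro i hi
    refine hlimn _ fun k => ?_
    split_ifs with h
    · rw [norm_div, div_le_iff₀ (norm_pos_iff.2 (hyn k))]
      exact hys k (n - i) (by omega)
    · simpa using (hδ k).le
  · intro k K h1 h2
    have := key k (2 * n - K) (by omega) (by omega)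
    rw [show 2 * n - (2 * n - K) = K by omega] at this
    have hmu : muM n e (μ k) (2 * n - K) = 0 := by
      unfold muM; rw [if_neg]; rintro ⟨_, h, _⟩; omega
    have hlam : lam e m (t k) (2 * n - K) = 0 := by
      unfold lam
      rw [if_neg (by omega), if_neg (by omega), if_neg (by omega)]
    rw [hmu, hlam] at this
    simpa using this
  · intro k c h1 h2
    have := key k c h1 (by omega)
    refine Eq.trans ?_ this
    rw [add_assoc]
    congr 1
    rw [if_pos (by omega : c ≤ n), if_pos (by omega : c ≤ n), if_pos (by omega : c - 1 < n),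
      show n - (c - 1) = n + 1 - c by omega]
    have hmu : muM n e (μ k) c = if 2 * e ∣ c then 0 else μ k c := by
      unfold muM
      by_cases h : 2 * e ∣ c
      · rw [if_pos h, if_neg (fun h' => h'.2.2 h)]
      · rw [if_neg h, if_pos ⟨h1, h2, h⟩]
    rw [hmu, map_div₀, map_div₀]
    have hx1 := hxn k
    have hy1 := hyn k
    have hx2 := hcx k
    have hy2 := hcy k
    split_ifs <;> (field_simp; try ring)
  · intro k
    rw [if_pos le_rfl, Nat.sub_self]
    obtain ⟨_, h0⟩ := hx k
    refine ⟨(x k 0).re ^ 2 / ‖x k n‖ ^ 2, by positivity, ?_⟩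
    have h00 : x k 0 = ((x k 0).re : ℂ) := by
      apply Complex.ext <;> simp [h0]
    have hnn : (x k n) * conj (x k n) = (‖x k n‖ : ℂ) ^ 2 := by
      rw [Complex.mul_conj, Complex.normSq_eq_norm_sq]; push_cast; ring
    have hnn0 : (‖x k n‖ : ℂ) ≠ 0 := by
      simpa using hxn k
    rw [map_div₀, Complex.conj_conj]
    push_cast
    rw [← h00, ← hnn]
    have hx1 := hxn k
    have hx2 := hcx k
    field_simp

end Pool.Agent.AD.NR

namespace Pool.Agent.AD

alias near := Pool.Agent.AD.NR.near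

end Pool.Agent.AD
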