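import Mathlib
import Pool.Agent.Lib_helper59.AD.Defs
import Pool.Agent.Lib_helper59.AD.ACLA
import Pool.Agent.Lib_helper59.AD.CNT
import Pool.Agent.Lib_helper59.AD.CO
import Pool.Agent.Lib_helper59.AD.CONV

open scoped ComplexConjugate
open Polynomial

namespace Pool.Agent.AD.SA

/-- even vector with coordinates `x` -/
private noncomputable def tx (x : ℕ → ℂ) (m : ℕ) : ℂ := if Even m then x (m / 2) else 0

/-- odd vector with coordinates `y` -/
private noncomputable def ty (y : ℕ → ℂ) (m : ℕ) : ℂ := if Odd m then y ((m + 1) / 2) else 0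

private theorem tx_even (x : ℕ → ℂ) : EvenV (tx x) := by
  intro j hj
  simp [tx, Nat.not_even_iff_odd.2 hj]

private theorem ty_odd (y : ℕ → ℂ) : OddV (ty y) := by
  intro j hj
  simp [ty, Nat.not_odd_iff_even.2 hj]

private theorem tx_two (x : ℕ → ℂ) (i : ℕ) : tx x (2 * i) = x i := by
  simp [tx]

private theorem ty_two (y : ℕ → ℂ) (h0 : y 0 = 0) (j : ℕ) : ty y (2 * j - 1) = y j := by
  rcases Nat.eq_zero_or_pos j with rfl | hj
  · simp [ty, h0]
  · have h1 : Odd (2 * j - 1) := ⟨j - 1, by omega⟩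
    have h2 : (2 * j - 1 + 1) / 2 = j := by omega
    simp [ty, h1, h2]

private theorem oddF_congr_d (h : ℕ) (c d d' : ℕ → ℕ → ℂ) (w : ℕ) (x y : ℕ → ℂ)
    (hd : ∀ i j, Even i → i ≤ h → Odd j → d i j = d' i j) :
    oddF h c d w x y = oddF h c d' w x y := by
  unfold oddF
  refine Finset.sum_congr rfl fun i hi => Finset.sum_congr rfl fun j hj => ?_
  rw [Finset.mem_filter, Finset.mem_range] at hi hj
  rw [hd i j hi.2 (by omega) hj.2]

open Classical in
private theorem mask_eq (n e : ℕ) (hn : 1 ≤ n) (θ : PI (2 * n) → ℝ) (i j : ℕ) (hi : Even i)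
    (hin : i ≤ 2 * n) :
    (if maskD n e i j then par θ true i j else 0)
      = dml n (muM n e (fun k => par θ true (2 * (n - k)) (2 * n - 1))) 0 i j := by
  obtain ⟨i', rfl⟩ := hi
  unfold dml maskD muM
  by_cases hj : j = 2 * n - 1
  · by_cases h2 : i' + i' < 2 * n
    · rw [if_pos (show j = 2 * n - 1 ∧ i' + i' < 2 * n from ⟨hj, h2⟩)]
      have e1 : (i' + i') / 2 = i' := by omega
      rw [e1]
      by_cases h3 : 1 ≤ n - i' ∧ n - i' < n ∧ ¬ (2 * e ∣ n - i')
      · rw [if_pos h3, if_pos ⟨hj, n - i', h3.1, h3.2.1, h3.2.2, by omega⟩]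
        have e2 : 2 * (n - (n - i')) = i' + i' := by omega
        show _ = par θ true (2 * (n - (n - i'))) (2 * n - 1)
        rw [e2, hj]
      · rw [if_neg h3, if_neg]
        rintro ⟨-, k, hk1, hk2, hk3, hk4⟩
        apply h3
        have : n - i' = k := by omega
        rw [this]
        exact ⟨hk1, hk2, hk3⟩
    · rw [if_neg (show ¬ (j = 2 * n - 1 ∧ i' + i' < 2 * n) from fun hh => h2 hh.2), if_neg]
      · simp
      · rintro ⟨-, k, hk1, hk2, hk3, hk4⟩
        omega
  · rw [if_neg (show ¬ (j = 2 * n - 1 ∧ i' + i' < 2 * n) from fun hh => hj hh.1), if_neg]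
    · simp
    · rintro ⟨h4, -⟩
      exact hj h4

open Classical in
/-- the odd form with the mask is the pure form -/
private theorem oddF_mask (n r : ℕ) (hn : 1 ≤ n) (θ : PI (2 * n) → ℝ) (k : ℕ) (hk : 1 ≤ k)
    (x y : ℕ → ℂ) (hy0 : y 0 = 0) :
    oddF (2 * n) (par θ false)
        (fun i j => if maskD n (2 ^ r) i j then par θ true i j else 0) (2 * k - 1) (tx x) (ty y)
      = pF n (fun i j => par θ false (2 * i) (2 * j - 1))
        (muM n (2 ^ r) (fun k => par θ true (2 * (n - k)) (2 * n - 1))) 0 k x y := by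
  rw [oddF_congr_d (2 * n) _ _
    (dml n (muM n (2 ^ r) (fun k => par θ true (2 * (n - k)) (2 * n - 1))) 0) _ _ _
    (fun i j hi hin _ => mask_eq n (2 ^ r) hn θ i j hi hin)]
  rw [conv n hn (par θ false) _ 0 k hk (tx x) (ty y) (tx_even x) (ty_odd y)]
  have e1 : (fun i => tx x (2 * i)) = x := funext (tx_two x)
  have e2 : (fun j => ty y (2 * j - 1)) = y := funext (ty_two y hy0)
  rw [e1, e2]
  congr 1
  funext k
  unfold muM
  by_cases hk : k < n
  · simp [hk]
  · simp [hk]

/-- scaling and rotation of the pure forms without `l` -/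
private theorem pF_scale (n e : ℕ) (a : ℕ → ℕ → ℂ) (μ : ℕ → ℂ) (k : ℕ) (hk : 1 ≤ k)
    (x y : ℕ → ℂ) (s : ℝ) (u z : ℂ) (hu : u * conj u = 1) (hn : 1 ≤ n) :
    pF n a (muM n e μ) 0 k (fun i => (s : ℂ) * (u ^ (2 * i) * x i))
        (fun j => z * (u ^ (2 * j - 1) * y j))
      = s * z * u ^ (2 * k - 1) * pF n a (muM n e μ) 0 k x y := by
  unfold pF
  simp only [Pi.zero_apply, zero_mul, add_zero]
  rw [mul_add, Finset.mul_sum]
  congr 1
  · refine Finset.sum_congr rfl fun i _ => ?_
    rw [Finset.mul_sum]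
    refine Finset.sum_congr rfl fun j hj => ?_
    rw [Finset.mem_Icc] at hj
    split_ifs with hij
    · have e1 : 2 * k - 1 = 2 * i + (2 * j - 1) := by omega
      rw [e1, pow_add]
      ring
    · simp
  · unfold muM
    split_ifs with h3
    · have e1 : 2 * n - 1 = 2 * (n - k) + (2 * k - 1) := by omega
      have e2 : conj u ^ (2 * (n - k)) * u ^ (2 * (n - k)) = 1 := by
        rw [← mul_pow, mul_comm (conj u) u, hu, one_pow]
      rw [map_mul, map_mul, map_pow, Complex.conj_ofReal, e1, pow_add]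
      calc μ k * ((s : ℂ) * (conj u ^ (2 * (n - k)) * conj (x (n - k))) *
            (z * (u ^ (2 * (n - k)) * u ^ (2 * k - 1) * y n)))
          = (conj u ^ (2 * (n - k)) * u ^ (2 * (n - k))) *
            (s * z * u ^ (2 * k - 1) * (μ k * (conj (x (n - k)) * y n))) := by ring
        _ = _ := by rw [e2, one_mul]
    · simp

private theorem par_ne (h : ℕ) (θ : PI h → ℝ)
    (hθ : AlgebraicIndependent ℚ (fun i => (θ i : ℂ))) (b : Bool) (i j : ℕ) (hi : i ≤ h)
    (hj : j ≤ h) : par θ b i j ≠ 0 := by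
  unfold par
  rw [dif_pos ⟨by omega, by omega⟩]
  intro h0
  have h1 := congrArg Complex.re h0
  simp only [Complex.zero_re] at h1
  have h2 := hθ.ne_zero (Sum.inl (⟨i, by omega⟩, ⟨j, by omega⟩, b, false))
  exact h2 (by simpa using h1)

/-- a unit `u` with `u^(2a) x = |x|` -/
private theorem exists_rot (a : ℕ) (ha : 1 ≤ a) (x : ℂ) (hx : x ≠ 0) :
    ∃ u : ℂ, u * conj u = 1 ∧ u ^ (2 * a) * x = ‖x‖ := by
  obtain ⟨u, hu⟩ := IsAlgClosed.exists_pow_nat_eq (conj x / ‖x‖) (show 0 < 2 * a by omega)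
  have hn : ‖x‖ ≠ 0 := norm_ne_zero_iff.2 hx
  have h1 : ‖u‖ ^ (2 * a) = 1 := by
    rw [← norm_pow, hu, norm_div, RCLike.norm_conj]
    simp [hn]
  have h2 : ‖u‖ = 1 := (pow_eq_one_iff_of_nonneg (norm_nonneg u) (by omega)).1 h1
  refine ⟨u, ?_, ?_⟩
  · rw [Complex.mul_conj, Complex.normSq_eq_norm_sq, h2]; simp
  · rw [hu]
    have h3 : (‖x‖ : ℂ) ≠ 0 := by exact_mod_cast hn
    field_simp
    rw [mul_comm, Complex.mul_conj, Complex.normSq_eq_norm_sq]
    push_cast
    ring

/-- zeros of the generic pure forms at `λ = 0` -/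
theorem base_unique (n r q : ℕ) (hn : n = 2 ^ r * q) (hq : Odd q) (hq3 : 3 ≤ q)
    (θ : PI (2 * n) → ℝ) (hθ : AlgebraicIndependent ℚ (fun i => (θ i : ℂ))) (x y : ℕ → ℂ)
    (hx : XV n x) (hy : YV n y) (hx0 : ∃ i, x i ≠ 0) (hy0 : ∃ j, y j ≠ 0)
    (hF : ∀ k, 1 ≤ k → k ≤ 2 * n - 1 →
      pF n (fun i j => par θ false (2 * i) (2 * j - 1))
        (muM n (2 ^ r) (fun k => par θ true (2 * (n - k)) (2 * n - 1))) 0 k x y = 0) :
    (∀ i, i < n → x i = 0) ∧ (∀ j, j < n → y j = 0) := by
  classical
  by_contra hcon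
  have hn1 : 1 ≤ n := by
    rw [hn]; exact Nat.mul_pos (by positivity) (by omega)
  -- supports
  set A : Finset ℕ := (Finset.range (n + 1)).filter (fun i => x i ≠ 0) with hA
  set B : Finset ℕ := (Finset.range (n + 1)).filter (fun j => y j ≠ 0) with hB
  have memA : ∀ i, i ∈ A ↔ x i ≠ 0 := by
    intro i
    rw [hA, Finset.mem_filter, Finset.mem_range]
    refine ⟨fun h => h.2, fun h => ⟨?_, h⟩⟩
    by_contra hi
    exact h (hx.1 i (by omega))
  have memB : ∀ j, j ∈ B ↔ y j ≠ 0 := by
    intro j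
    rw [hB, Finset.mem_filter, Finset.mem_range]
    refine ⟨fun h => h.2, fun h => ⟨?_, h⟩⟩
    by_contra hi
    exact h (hy.1 j (by omega))
  have hAn : ∀ a ∈ A, a ≤ n := by
    intro a ha
    rw [hA, Finset.mem_filter, Finset.mem_range] at ha
    omega
  have hBn : ∀ b ∈ B, 1 ≤ b ∧ b ≤ n := by
    intro b hb
    have h1 : b ≤ n := by
      rw [hB, Finset.mem_filter, Finset.mem_range] at hb
      omega
    refine ⟨?_, h1⟩
    by_contra h2
    have : b = 0 := by omega
    rw [this] at hb
    exact (memB 0).1 hb hy.2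
  have hAne : A.Nonempty := by
    obtain ⟨i, hi⟩ := hx0
    exact ⟨i, (memA i).2 hi⟩
  have hBne : B.Nonempty := by
    obtain ⟨i, hi⟩ := hy0
    exact ⟨i, (memB i).2 hi⟩
  obtain ⟨α, hαA, hαm⟩ : ∃ α ∈ A, ∀ a ∈ A, α ≤ a :=
    ⟨A.min' hAne, A.min'_mem hAne, fun a ha => A.min'_le a ha⟩
  obtain ⟨β, hβB, hβm⟩ : ∃ β ∈ B, ∀ b ∈ B, β ≤ b :=
    ⟨B.min' hBne, B.min'_mem hBne, fun b hb => B.min'_le b hb⟩
  have hαn := hAn α hαA
  have hβn := hBn β hβB
  -- not both equal to `n`
  have hk2 : α + β ≤ 2 * n - 1 := by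
    by_contra h1
    have hα : α = n := by omega
    have hβ : β = n := by omega
    apply hcon
    refine ⟨fun i hi => ?_, fun j hj => ?_⟩
    · by_contra h2
      have := hαm i ((memA i).2 h2)
      omega
    · by_contra h2
      have := hβm j ((memB j).2 h2)
      omega
  have hk1 : 1 ≤ α + β := by omega
  -- the lowest equation
  have hE := hF (α + β) hk1 hk2
  have hsum : ∑ i ∈ Finset.range (n + 1), ∑ j ∈ Finset.Icc 1 n,
      (if i + j = α + β then par θ false (2 * i) (2 * j - 1) * (x i * y j) else 0)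
        = par θ false (2 * α) (2 * β - 1) * (x α * y β) := by
    rw [Finset.sum_eq_single_of_mem α (Finset.mem_range.2 (by omega))]
    · rw [Finset.sum_eq_single_of_mem β (Finset.mem_Icc.2 ⟨by omega, by omega⟩)]
      · simp
      · intro j _ hj
        rw [if_neg (by omega)]
    · intro i _ hi
      refine Finset.sum_eq_zero fun j _ => ?_
      split_ifs with hij
      · rcases lt_or_ge i α with h1 | h1
        · have : x i = 0 := by
            by_contra h2
            have := hαm i ((memA i).2 h2)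
            omega
          rw [this]; ring
        · have : y j = 0 := by
            by_contra h2
            have := hβm j ((memB j).2 h2)
            omega
          rw [this]; ring
      · rfl
  have hne : par θ false (2 * α) (2 * β - 1) * (x α * y β) ≠ 0 :=
    mul_ne_zero (par_ne _ θ hθ false _ _ (by omega) (by omega))
      (mul_ne_zero ((memA α).1 hαA) ((memB β).1 hβB))
  unfold pF at hE
  rw [hsum] at hE
  simp only [Pi.zero_apply, zero_mul, add_zero] at hE
  have hmu : muM n (2 ^ r) (fun k => par θ true (2 * (n - k)) (2 * n - 1)) (α + β) *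
      (conj (x (n - (α + β))) * y n) ≠ 0 := by
    intro h0
    rw [h0, add_zero] at hE
    exact hne hE
  have hmu1 := left_ne_zero_of_mul hmu
  have hmu2 := right_ne_zero_of_mul hmu
  have hyn : y n ≠ 0 := right_ne_zero_of_mul hmu2
  have hxk : x (n - (α + β)) ≠ 0 := by
    intro h0
    exact left_ne_zero_of_mul hmu2 (by rw [h0]; simp)
  have hcond : 1 ≤ α + β ∧ α + β < n ∧ ¬ (2 * 2 ^ r ∣ α + β) := by
    by_contra h0
    apply hmu1
    unfold muM
    rw [if_neg h0]
  obtain ⟨-, hkn, hkd⟩ := hcond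
  -- the set of weights
  set W : Finset ℕ := (Finset.Icc 1 (2 * n - 1)).filter (fun k =>
    (∃ a ∈ A, ∃ b ∈ B, a + b = k) ∨ (k < n ∧ ¬ (2 * 2 ^ r ∣ k) ∧ n - k ∈ A ∧ n ∈ B)) with hW
  have hcomb := comb n r q hn hq hq3 A B hAn hBn α β hαA hβB hαm hβm hkn hkd
    ((memA _).2 hxk) ((memB _).2 hyn) W (by
      intro k h1 h2 h3
      rw [hW, Finset.mem_filter, Finset.mem_Icc]
      exact ⟨⟨h1, h2⟩, h3⟩)
  -- normalisation
  set a0 : ℕ := n - (α + β) with ha0
  have ha01 : 1 ≤ a0 := by omega
  obtain ⟨u, hu, hux⟩ := exists_rot a0 ha01 (x a0) hxk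
  have hune : u ≠ 0 := by
    intro h0
    rw [h0] at hu
    simp at hu
  have hnx : (‖x a0‖ : ℂ) ≠ 0 := by
    exact_mod_cast norm_ne_zero_iff.2 hxk
  set s : ℝ := ‖x a0‖⁻¹ with hs
  have hsne : (s : ℂ) ≠ 0 := by
    rw [hs]; push_cast; exact inv_ne_zero hnx
  set z : ℂ := (u ^ (2 * n - 1) * y n)⁻¹ with hz
  have hzne : z ≠ 0 := inv_ne_zero (mul_ne_zero (pow_ne_zero _ hune) hyn)
  set x' : ℕ → ℂ := fun i => (s : ℂ) * (u ^ (2 * i) * x i) with hx'
  set y' : ℕ → ℂ := fun j => z * (u ^ (2 * j - 1) * y j) with hy'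
  have hx'a : x' a0 = 1 := by
    show (s : ℂ) * (u ^ (2 * a0) * x a0) = 1
    rw [hux, hs]
    push_cast
    exact inv_mul_cancel₀ hnx
  have hy'n : y' n = 1 := by
    show z * (u ^ (2 * n - 1) * y n) = 1
    exact inv_mul_cancel₀ (mul_ne_zero (pow_ne_zero _ hune) hyn)
  have hx'0 : ∀ i, x' i = 0 ↔ x i = 0 := by
    intro i
    show (s : ℂ) * (u ^ (2 * i) * x i) = 0 ↔ _
    simp [hsne, hune]
  have hy'0 : ∀ j, y' j = 0 ↔ y j = 0 := by
    intro i
    show z * (u ^ (2 * i - 1) * y i) = 0 ↔ _
    simp [hzne, hune]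
  have hx'r : conj (x' 0) = x' 0 := by
    show conj ((s : ℂ) * (u ^ (2 * 0) * x 0)) = (s : ℂ) * (u ^ (2 * 0) * x 0)
    have : conj (x 0) = x 0 := Complex.conj_eq_iff_im.2 hx.2
    simp [this]
  -- the set `T`
  set A' : Finset ℕ := (A.erase a0).erase 0 with hA'
  set T : Finset ℂ := ((A'.image x' ∪ A'.image (fun i => conj (x' i))) ∪
    (A.filter (fun i => i = 0)).image x') ∪
    ((B.erase n).image y' ∪ (B.erase n).image (fun i => conj (y' i))) with hT
  have ha0A : a0 ∈ A := (memA _).2 hxk
  have hnB : n ∈ B := (memB _).2 hyn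
  have hcardT : (0 ∈ A → T.card + 5 ≤ 2 * A.card + 2 * B.card) ∧
      (0 ∉ A → T.card + 4 ≤ 2 * A.card + 2 * B.card) := by
    have c1 : (A.erase a0).card + 1 = A.card := Finset.card_erase_add_one ha0A
    have c2 : (B.erase n).card + 1 = B.card := Finset.card_erase_add_one hnB
    have c3 : T.card ≤ ((A'.card + A'.card) + (A.filter (fun i => i = 0)).card) +
        ((B.erase n).card + (B.erase n).card) := by
      rw [hT]
      refine (Finset.card_union_le _ _).trans ?_
      refine Nat.add_le_add ((Finset.card_union_le _ _).trans ?_)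
        ((Finset.card_union_le _ _).trans (Nat.add_le_add Finset.card_image_le
          Finset.card_image_le))
      exact Nat.add_le_add ((Finset.card_union_le _ _).trans (Nat.add_le_add
        Finset.card_image_le Finset.card_image_le)) Finset.card_image_le
    constructor
    · intro h0
      have h0' : 0 ∈ A.erase a0 := Finset.mem_erase.2 ⟨by omega, h0⟩
      have c4 : A'.card + 1 = (A.erase a0).card := Finset.card_erase_add_one h0'
      have c5 : (A.filter (fun i => i = 0)).card ≤ 1 := by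
        refine Finset.card_le_one.2 fun a ha b hb => ?_
        rw [Finset.mem_filter] at ha hb
        rw [ha.2, hb.2]
      omega
    · intro h0
      have c4 : A'.card = (A.erase a0).card := by
        rw [hA', Finset.erase_eq_of_notMem]
        intro h1
        exact h0 (Finset.mem_of_mem_erase h1)
      have c5 : A.filter (fun i => i = 0) = ∅ := by
        refine Finset.filter_eq_empty_iff.2 fun a ha h1 => ?_
        rw [h1] at ha
        exact h0 ha
      rw [c5] at c3
      simp only [Finset.card_empty] at c3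
      omega
  have hTacl : ∀ t ∈ T, t ∈ acl (T : Set ℂ) := fun t ht => acl_subset _ ht
  have hInx : InAcl (T : Set ℂ) (tx x') := by
    intro m
    by_cases hm : Even m
    · have e1 : tx x' m = x' (m / 2) := by simp [tx, hm]
      rw [e1]
      by_cases h1 : m / 2 ∈ A
      · by_cases h2 : m / 2 = a0
        · rw [h2, hx'a]
          simp only [map_one]
          exact ⟨one_mem _, one_mem _⟩
        · by_cases h3 : m / 2 = 0
          · rw [h3, hx'r]
            have h4 : x' 0 ∈ T := by
              rw [hT]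
              simp only [Finset.mem_union, Finset.mem_image]
              refine Or.inl (Or.inr ⟨0, ?_, rfl⟩)
              rw [Finset.mem_filter]
              exact ⟨h3 ▸ h1, rfl⟩
            exact ⟨hTacl _ h4, hTacl _ h4⟩
          · have h4 : m / 2 ∈ A' := by
              rw [hA']
              exact Finset.mem_erase.2 ⟨h3, Finset.mem_erase.2 ⟨h2, h1⟩⟩
            refine ⟨hTacl _ ?_, hTacl _ ?_⟩
            · rw [hT]
              simp only [Finset.mem_union, Finset.mem_image]
              exact Or.inl (Or.inl (Or.inl ⟨m / 2, h4, rfl⟩))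
            · rw [hT]
              simp only [Finset.mem_union, Finset.mem_image]
              exact Or.inl (Or.inl (Or.inr ⟨m / 2, h4, rfl⟩))
      · have h2 : x' (m / 2) = 0 := by
          rw [hx'0]
          by_contra h3
          exact h1 ((memA _).2 h3)
        rw [h2]
        simp only [map_zero]
        exact ⟨zero_mem _, zero_mem _⟩
    · have e1 : tx x' m = 0 := by simp [tx, hm]
      rw [e1]
      simp only [map_zero]
      exact ⟨zero_mem _, zero_mem _⟩
  have hIny : InAcl (T : Set ℂ) (ty y') := by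
    intro m
    by_cases hm : Odd m
    · have e1 : ty y' m = y' ((m + 1) / 2) := by simp [ty, hm]
      rw [e1]
      by_cases h1 : (m + 1) / 2 ∈ B
      · by_cases h2 : (m + 1) / 2 = n
        · rw [h2, hy'n]
          simp only [map_one]
          exact ⟨one_mem _, one_mem _⟩
        · have h4 : (m + 1) / 2 ∈ B.erase n := Finset.mem_erase.2 ⟨h2, h1⟩
          refine ⟨hTacl _ ?_, hTacl _ ?_⟩
          · rw [hT]
            simp only [Finset.mem_union, Finset.mem_image]
            exact Or.inr (Or.inl ⟨(m + 1) / 2, h4, rfl⟩)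
          · rw [hT]
            simp only [Finset.mem_union, Finset.mem_image]
            exact Or.inr (Or.inr ⟨(m + 1) / 2, h4, rfl⟩)
      · have h2 : y' ((m + 1) / 2) = 0 := by
          rw [hy'0]
          by_contra h3
          exact h1 ((memB _).2 h3)
        rw [h2]
        simp only [map_zero]
        exact ⟨zero_mem _, zero_mem _⟩
    · have e1 : ty y' m = 0 := by simp [ty, hm]
      rw [e1]
      simp only [map_zero]
      exact ⟨zero_mem _, zero_mem _⟩
  have hy'00 : y' 0 = 0 := (hy'0 0).2 hy.2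
  -- the count
  have hcount := count (h := 2 * n) θ hθ (maskD n (2 ^ r)) (tx x') (ty y') T hInx hIny
    (W.image (fun k => 2 * k - 1)) (by
      intro w hw
      rw [Finset.mem_image] at hw
      obtain ⟨k, hk, rfl⟩ := hw
      rw [hW, Finset.mem_filter, Finset.mem_Icc] at hk
      obtain ⟨⟨h1, h2⟩, h3⟩ := hk
      constructor
      · rw [oddF_mask n r hn1 θ k h1 x' y' hy'00]
        rw [hx', hy', pF_scale n (2 ^ r) _ _ k h1 x y s u z hu hn1, hF k h1 h2, mul_zero]
      · rcases h3 with ⟨a, ha, b, hb, hab⟩ | ⟨h4, h5, h6, h7⟩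
        · have hb1 := hBn b hb
          have ha1 := hAn a ha
          refine ⟨2 * a, by omega, 2 * b - 1, by omega, ⟨a, by ring⟩, ⟨b - 1, by omega⟩,
            Or.inl ?_⟩
          unfold cf
          rw [if_pos (by omega), tx_two, ty_two _ hy'00, ty_odd y' (2 * a) ⟨a, by ring⟩, zero_mul,
            add_zero]
          refine mul_ne_zero ?_ ?_
          · rw [Ne, hx'0]; exact (memA a).1 ha
          · rw [Ne, hy'0]; exact (memB b).1 hb
        · refine ⟨2 * (n - k), by omega, 2 * n - 1, by omega, ⟨n - k, by ring⟩,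
            ⟨n - 1, by omega⟩, Or.inr ⟨⟨rfl, k, h1, h4, h5, rfl⟩, ?_⟩⟩
          unfold df
          rw [if_neg (by omega), if_pos ⟨by omega, by omega⟩, tx_two, ty_two _ hy'00,
            ty_odd y' (2 * (n - k)) ⟨n - k, by ring⟩, map_zero, zero_mul, add_zero]
          refine mul_ne_zero ?_ ?_
          · intro h8
            have h9 : x' (n - k) = 0 := by
              have := congrArg conj h8
              simpa using this
            rw [hx'0] at h9
            exact (memA _).1 h6 h9
          · rw [hy'n]; exact one_ne_zero)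
  have hcardW : (W.image (fun k => 2 * k - 1)).card = W.card := by
    refine Finset.card_image_of_injOn ?_
    intro k hk l hl hkl
    rw [Finset.mem_coe, hW, Finset.mem_filter, Finset.mem_Icc] at hk hl
    have h1 := hk.1
    have h2 := hl.1
    have h3 : 2 * k - 1 = 2 * l - 1 := hkl
    omega
  rw [hcardW] at hcount
  by_cases h0 : 0 ∈ A
  · have h1 := hcomb.1 h0
    have h2 := hcardT.1 h0
    omega
  · have h1 := hcomb.2 h0
    have h2 := hcardT.2 h0
    omega

end Pool.Agent.AD.SA

namespace Pool.Agent.AD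

alias base_unique := Pool.Agent.AD.SA.base_unique

end Pool.Agent.AD
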