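import Mathlib
import Pool.Agent.Lib_helper59.AD.Defs
import Pool.Agent.Lib_helper59.AD.CONV
import Pool.Agent.Lib_helper59.AD.GE
import Pool.Agent.Lib_helper59.AD.LOC
import Pool.Agent.Lib_helper59.AD.NR
import Pool.Agent.Lib_helper59.AD.SA
-- cites stubs: exists_generic, near, base_unique, loc, conv

open scoped ComplexConjugate
open Polynomial

namespace Pool.Agent.AD.PC

open Pool.Agent.AD

private theorem pc_norm (z : ℂ) (δ : ℝ) (h1 : |z.re - 1| < δ / 2) (h2 : |z.im - 0| < δ / 2) :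
    ‖z - 1‖ < δ := by
  have := Complex.norm_le_abs_re_add_abs_im (z - 1)
  rw [Complex.sub_re, Complex.sub_im, Complex.one_re, Complex.one_im] at this
  linarith

theorem pure_core (n r q : ℕ) (hn : n = 2 ^ r * q) (hq : Odd q) (hq3 : 3 ≤ q) :
    ∃ c d : ℕ → ℕ → ℂ, PureNS (2 * n) c d := by
  obtain ⟨m, hm⟩ := hq
  have hm1 : 1 ≤ m := by omega
  have he : 1 ≤ 2 ^ r := Nat.one_le_two_pow
  have hn' : n = 2 ^ r * (2 * m + 1) := by rw [hn, hm]
  have hn1 : 1 ≤ n := by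
    rw [hn]
    exact Nat.one_le_iff_ne_zero.2 (Nat.mul_ne_zero (by omega) (by omega))
  obtain ⟨δ, hδ, hnear⟩ := near n (2 ^ r) m he hm1 hn'
  obtain ⟨θ, hθ1, hθ⟩ := exists_generic (ι := PI (2 * n))
    (Sum.elim (fun a => if a.2.2.2 then 0 else 1) (fun _ => 1)) (δ / 2) (half_pos hδ)
  have hpar : ∀ (b : Bool) (i j : ℕ), i < 2 * n + 1 → j < 2 * n + 1 → ‖par θ b i j - 1‖ < δ := by
    intro b i j hi hj
    rw [par, dif_pos ⟨hi, hj⟩]
    refine pc_norm _ δ ?_ ?_
    · have := hθ1 (Sum.inl (⟨i, hi⟩, ⟨j, hj⟩, b, false))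
      simpa using this
    · have := hθ1 (Sum.inl (⟨i, hi⟩, ⟨j, hj⟩, b, true))
      simpa using this
  obtain ⟨t₀, ht₀, hloc⟩ := loc n (2 ^ r) m he hm1 (fun i j => par θ false (2 * i) (2 * j - 1))
    (muM n (2 ^ r) (fun k => par θ true (2 * (n - k)) (2 * n - 1)))
    (fun x y hx hy hx0 hy0 hF => base_unique n r q hn ⟨m, hm⟩ hq3 θ hθ x y hx hy hx0 hy0 hF) δ hδ
  set t : ℝ := min t₀ δ / 2 with ht
  have htpos : 0 < t := half_pos (lt_min ht₀ hδ)
  have ht1 : t < t₀ := by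
    have := min_le_left t₀ δ
    have h2 : 0 < min t₀ δ := lt_min ht₀ hδ
    rw [ht]
    linarith
  have ht2 : t < δ := by
    have := min_le_right t₀ δ
    have h2 : 0 < min t₀ δ := lt_min ht₀ hδ
    rw [ht]
    linarith
  refine ⟨par θ false, dml n (muM n (2 ^ r) (fun k => par θ true (2 * (n - k)) (2 * n - 1)))
    (lam (2 ^ r) m t), ?_⟩
  intro x y hx hy hxe hyo hF
  by_contra hcon
  rw [not_or, not_forall, not_forall] at hcon
  obtain ⟨⟨j1, hj1⟩, ⟨j2, hj2⟩⟩ := hcon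
  have hX : XV n (fun i => x (2 * i)) := ⟨fun i hi => hx.1 _ (by omega), by simpa using hx.2⟩
  have hY : YV n (fun j => y (2 * j - 1)) :=
    ⟨fun j hj => hy.1 _ (by omega), hyo _ (by simp)⟩
  have hX0 : ∃ i, (fun i => x (2 * i)) i ≠ 0 := by
    have h1 : Even j1 := by
      by_contra hc
      exact hj1 (hxe j1 (Nat.not_even_iff_odd.1 hc))
    obtain ⟨k, hk⟩ := h1
    exact ⟨k, by simpa [show 2 * k = j1 by omega] using hj1⟩
  have hY0 : ∃ j, (fun j => y (2 * j - 1)) j ≠ 0 := by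
    have h1 : Odd j2 := by
      by_contra hc
      exact hj2 (hyo j2 (Nat.not_odd_iff_even.1 hc))
    obtain ⟨k, hk⟩ := h1
    refine ⟨k + 1, ?_⟩
    simpa [show 2 * (k + 1) - 1 = j2 by omega] using hj2
  have hmu : (fun k => if k < n then
      muM n (2 ^ r) (fun k => par θ true (2 * (n - k)) (2 * n - 1)) k else 0)
      = muM n (2 ^ r) (fun k => par θ true (2 * (n - k)) (2 * n - 1)) := by
    funext k
    by_cases hk : k < n
    · rw [if_pos hk]
    · rw [if_neg hk, muM, if_neg (fun hh => hk hh.2.1)]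
  have hpF : ∀ k, 1 ≤ k → k ≤ 2 * n - 1 →
      pF n (fun i j => par θ false (2 * i) (2 * j - 1))
        (muM n (2 ^ r) (fun k => par θ true (2 * (n - k)) (2 * n - 1))) (lam (2 ^ r) m t) k
        (fun i => x (2 * i)) (fun j => y (2 * j - 1)) = 0 := by
    intro k hk1 hk2
    have h1 := conv n hn1 (par θ false)
      (muM n (2 ^ r) (fun k => par θ true (2 * (n - k)) (2 * n - 1))) (lam (2 ^ r) m t) k hk1 x y
      hxe hyo
    rw [hmu] at h1
    rw [← h1]
    exact hF (2 * k - 1) ⟨k - 1, by omega⟩ (by omega)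
  obtain ⟨hxn, hyn, hxs, hys⟩ := hloc t htpos ht1 _ _ hX hY hX0 hY0 hpF
  exact hnear _ _ t
    (fun i hi j hj => hpar false (2 * i) (2 * j - 1) (by omega) (by omega))
    (fun i _ => hpar true (2 * (n - i)) (2 * n - 1) (by omega) (by omega))
    htpos ht2 _ _ hX hY hxn hyn hxs hys hpF

end Pool.Agent.AD.PC

namespace Pool.Agent.AD

alias pure_core := Pool.Agent.AD.PC.pure_core

end Pool.Agent.AD
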