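import Mathlib
import Pool.Agent.Lib_helper59.AD.Defs

/-! helper41, AD block PO: `pure_open`. -/

open scoped ComplexConjugate
open Polynomial

namespace Pool.Agent.AD.PO

/-- extension by zero -/
private noncomputable def ex {h : ℕ} (x : Fin (h + 1) → ℂ) (j : ℕ) : ℂ :=
  if hj : j < h + 1 then x ⟨j, hj⟩ else 0

private theorem ex_cont (h j : ℕ) : Continuous (fun x : Fin (h + 1) → ℂ => ex x j) := by
  unfold ex
  split_ifs with hj
  · exact continuous_apply _
  · exact continuous_const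

/-- extension of the coefficients -/
private noncomputable def ec {h : ℕ} (c : Fin (h + 1) → Fin (h + 1) → ℂ) (i j : ℕ) : ℂ :=
  ex (fun a => ex (c a) j) i

private theorem ec_cont (h i j : ℕ) :
    Continuous (fun c : Fin (h + 1) → Fin (h + 1) → ℂ => ec c i j) := by
  have h1 : Continuous (fun c : Fin (h + 1) → Fin (h + 1) → ℂ => fun a => ex (c a) j) :=
    continuous_pi fun a => (ex_cont h j).comp (continuous_apply a)
  exact (ex_cont h i).comp h1

private theorem ec_eq {h : ℕ} (c : ℕ → ℕ → ℂ) (i j : ℕ) (hi : i < h + 1) (hj : j < h + 1) :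
    ec (h := h) (fun a b => c a b) i j = c i j := by
  simp [ec, ex, hi, hj]

private theorem ex_restrict {h : ℕ} (x : ℕ → ℂ) (hx : ∀ j, h < j → x j = 0) (s : ℂ) (j : ℕ) :
    ex (h := h) (fun i => s * x i) j = s * x j := by
  unfold ex
  split_ifs with hj
  · rfl
  · rw [hx j (by omega), mul_zero]

private theorem oddF_cont (h w : ℕ) : Continuous (fun z : ((Fin (h + 1) → Fin (h + 1) → ℂ) ×
    (Fin (h + 1) → Fin (h + 1) → ℂ)) × ((Fin (h + 1) → ℂ) × (Fin (h + 1) → ℂ)) =>
      oddF h (ec z.1.1) (ec z.1.2) w (ex z.2.1) (ex z.2.2)) := by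
  unfold oddF
  refine continuous_finsetSum _ fun i _ => continuous_finsetSum _ fun j _ => ?_
  have hx : ∀ j, Continuous (fun z : ((Fin (h + 1) → Fin (h + 1) → ℂ) ×
    (Fin (h + 1) → Fin (h + 1) → ℂ)) × ((Fin (h + 1) → ℂ) × (Fin (h + 1) → ℂ)) =>
      ex z.2.1 j) := fun j => (ex_cont h j).comp (continuous_fst.comp continuous_snd)
  have hy : ∀ j, Continuous (fun z : ((Fin (h + 1) → Fin (h + 1) → ℂ) ×
    (Fin (h + 1) → Fin (h + 1) → ℂ)) × ((Fin (h + 1) → ℂ) × (Fin (h + 1) → ℂ)) =>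
      ex z.2.2 j) := fun j => (ex_cont h j).comp (continuous_snd.comp continuous_snd)
  have hc : Continuous (fun z : ((Fin (h + 1) → Fin (h + 1) → ℂ) ×
    (Fin (h + 1) → Fin (h + 1) → ℂ)) × ((Fin (h + 1) → ℂ) × (Fin (h + 1) → ℂ)) =>
      ec z.1.1 i j) := (ec_cont h i j).comp (continuous_fst.comp continuous_fst)
  have hd : Continuous (fun z : ((Fin (h + 1) → Fin (h + 1) → ℂ) ×
    (Fin (h + 1) → Fin (h + 1) → ℂ)) × ((Fin (h + 1) → ℂ) × (Fin (h + 1) → ℂ)) =>
      ec z.1.2 i j) := (ec_cont h i j).comp (continuous_snd.comp continuous_fst)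
  refine (hc.mul ?_).add (hd.mul ?_)
  · unfold cf
    split_ifs
    · exact ((hx i).mul (hy j)).add ((hy i).mul (hx j))
    · exact continuous_const
  · unfold df
    split_ifs
    · exact ((hx i).mul (Complex.continuous_conj.comp (hy j))).add
        ((hy i).mul (Complex.continuous_conj.comp (hx j)))
    · exact ((Complex.continuous_conj.comp (hx i)).mul (hy j)).add
        ((Complex.continuous_conj.comp (hy i)).mul (hx j))
    · exact continuous_const

private theorem closed_all {X ι : Type*} [TopologicalSpace X] {p : ι → Prop} {f : ι → X → ℂ}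
    (hf : ∀ i, Continuous (f i)) : IsClosed {q | ∀ i, p i → f i q = 0} := by
  have : {q | ∀ i, p i → f i q = 0} = ⋂ i, ⋂ _ : p i, {q | f i q = 0} := by ext; simp
  rw [this]
  exact isClosed_iInter fun j => isClosed_iInter fun _ => isClosed_eq (hf j) continuous_const

private theorem closed_all2 {X ι : Type*} [TopologicalSpace X] {p p' : ι → Prop} {f : ι → X → ℂ}
    (hf : ∀ i, Continuous (f i)) : IsClosed {q | ∀ i, p i → p' i → f i q = 0} := by
  have : {q | ∀ i, p i → p' i → f i q = 0} = ⋂ i, ⋂ _ : p i, ⋂ _ : p' i, {q | f i q = 0} := by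
    ext; simp
  rw [this]
  exact isClosed_iInter fun j => isClosed_iInter fun _ => isClosed_iInter fun _ =>
    isClosed_eq (hf j) continuous_const

private theorem oddF_sm (h : ℕ) (c d : ℕ → ℕ → ℂ) (w : ℕ) (x y : ℕ → ℂ) (s t : ℝ) :
    oddF h c d w (fun j => (s : ℂ) * x j) (fun j => (t : ℂ) * y j)
      = (s : ℂ) * t * oddF h c d w x y := by
  unfold oddF
  simp only [Finset.mul_sum]
  refine Finset.sum_congr rfl fun i _ => Finset.sum_congr rfl fun j _ => ?_
  unfold cf df
  split_ifs <;> (try simp only [map_mul, Complex.conj_ofReal]) <;> ring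

private theorem oddF_congr (h : ℕ) (c d c' d' : ℕ → ℕ → ℂ) (w : ℕ) (x y x' y' : ℕ → ℂ)
    (hc : ∀ i j, i < h + 1 → j < h + 1 → c i j = c' i j ∧ d i j = d' i j)
    (hx : ∀ j, x j = x' j) (hy : ∀ j, y j = y' j) :
    oddF h c d w x y = oddF h c' d' w x' y' := by
  obtain rfl : x = x' := funext hx
  obtain rfl : y = y' := funext hy
  unfold oddF
  refine Finset.sum_congr rfl fun i hi => Finset.sum_congr rfl fun j hj => ?_
  rw [Finset.mem_filter, Finset.mem_range] at hi hj
  rw [(hc i j hi.1 hj.1).1, (hc i j hi.1 hj.1).2]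

theorem pure_open (h : ℕ) (c₀ d₀ : ℕ → ℕ → ℂ) (hp : PureNS h c₀ d₀) :
    ∃ δ : ℝ, 0 < δ ∧ ∀ c d : ℕ → ℕ → ℂ,
      (∀ i ≤ h, ∀ j ≤ h, ‖c i j - c₀ i j‖ < δ ∧ ‖d i j - d₀ i j‖ < δ) → PureNS h c d := by
  let V := Fin (h + 1) → ℂ
  let C := Fin (h + 1) → Fin (h + 1) → ℂ
  let Zr : (C × C) → (V × V) → Prop := fun p z =>
    (∀ j, Odd j → ex z.1 j = 0) ∧ (∀ j, Even j → ex z.2 j = 0) ∧ (ex z.1 0).im = 0 ∧
      ∀ w, Odd w → w ≤ 2 * h - 3 → oddF h (ec p.1) (ec p.2) w (ex z.1) (ex z.2) = 0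
  have hclosed : IsClosed {q : (C × C) × (V × V) | Zr q.1 q.2} := by
    have hx : ∀ j, Continuous (fun q : (C × C) × (V × V) => ex q.2.1 j) :=
      fun j => (ex_cont h j).comp (continuous_fst.comp continuous_snd)
    have hy : ∀ j, Continuous (fun q : (C × C) × (V × V) => ex q.2.2 j) :=
      fun j => (ex_cont h j).comp (continuous_snd.comp continuous_snd)
    refine IsClosed.inter ?_ (IsClosed.inter ?_ (IsClosed.inter ?_ ?_))
    · exact closed_all (p := Odd) hx
    · exact closed_all (p := Even) hy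
    · exact isClosed_eq (Complex.continuous_im.comp (hx 0)) continuous_const
    · exact closed_all2 (p := Odd) (p' := fun w => w ≤ 2 * h - 3) (fun w => oddF_cont h w)
  let p₀ : C × C := (fun a b => c₀ a b, fun a b => d₀ a b)
  have hcomp : IsCompact ((Metric.sphere (0 : V) 1) ×ˢ (Metric.sphere (0 : V) 1)) :=
    (isCompact_sphere _ _).prod (isCompact_sphere _ _)
  have hev := hcomp.eventually_forall_of_forall_eventually (x₀ := p₀)
    (P := fun p z => ¬ Zr p z) (by
      intro z hz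
      have h1 : (p₀, z) ∈ {q : (C × C) × (V × V) | Zr q.1 q.2}ᶜ := by
        rintro ⟨h2, h3, h4, h5⟩
        obtain ⟨hz1, hz2⟩ := hz
        rw [mem_sphere_zero_iff_norm] at hz1 hz2
        have h6 := hp (ex z.1) (ex z.2) ⟨fun j hj => by simp only [ex]; rw [dif_neg (by omega)], h4⟩
          ⟨fun j hj => by simp only [ex]; rw [dif_neg (by omega)], by rw [h3 0 (by simp)]; simp⟩ h2 h3
          (fun w hw hw' => by
            rw [← h5 w hw hw']
            apply oddF_congr
            · intro i j hi hj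
              exact ⟨(ec_eq c₀ i j hi hj).symm, (ec_eq d₀ i j hi hj).symm⟩
            · intro j; rfl
            · intro j; rfl)
        have hzero : ∀ v : V, (∀ j, ex v j = 0) → v = 0 := by
          intro v hv
          funext i
          have := hv i
          simp only [ex] at this
          rw [dif_pos i.2] at this
          exact this
        rcases h6 with h6 | h6
        · rw [hzero _ h6] at hz1; simp at hz1
        · rw [hzero _ h6] at hz2; simp at hz2
      exact hclosed.isOpen_compl.mem_nhds h1)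
  obtain ⟨δ, hδ, hball⟩ := Metric.eventually_nhds_iff.1 hev
  refine ⟨δ, hδ, fun c d hcd x y hx hy hxe hyo hF => ?_⟩
  by_contra hcon
  push Not at hcon
  obtain ⟨⟨jx, hjx⟩, ⟨jy, hjy⟩⟩ := hcon
  let x' : V := fun i => x i
  let y' : V := fun i => y i
  have hx'0 : x' ≠ 0 := by
    intro h0
    apply hjx
    by_cases hj : jx < h + 1
    · exact congrFun h0 ⟨jx, hj⟩
    · exact hx.1 jx (by omega)
  have hy'0 : y' ≠ 0 := by
    intro h0
    apply hjy
    by_cases hj : jy < h + 1
    · exact congrFun h0 ⟨jy, hj⟩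
    · exact hy.1 jy (by omega)
  have hdist : dist ((fun a b => c a b, fun a b => d a b) : C × C) p₀ < δ := by
    rw [Prod.dist_eq, max_lt_iff]
    constructor
    · rw [dist_pi_lt_iff hδ]; intro i
      rw [dist_pi_lt_iff hδ]; intro j
      rw [dist_eq_norm]
      exact (hcd i (by omega) j (by omega)).1
    · rw [dist_pi_lt_iff hδ]; intro i
      rw [dist_pi_lt_iff hδ]; intro j
      rw [dist_eq_norm]
      exact (hcd i (by omega) j (by omega)).2
  have hkey := hball hdist (‖x'‖⁻¹ • x', ‖y'‖⁻¹ • y') (by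
    constructor
    · rw [mem_sphere_zero_iff_norm, norm_smul, norm_inv, norm_norm,
        inv_mul_cancel₀ (norm_ne_zero_iff.2 hx'0)]
    · rw [mem_sphere_zero_iff_norm, norm_smul, norm_inv, norm_norm,
        inv_mul_cancel₀ (norm_ne_zero_iff.2 hy'0)])
  apply hkey
  have hex : ∀ j, ex (‖x'‖⁻¹ • x') j = ((‖x'‖⁻¹ : ℝ) : ℂ) * x j := by
    intro j
    rw [← ex_restrict x hx.1]
    rfl
  have hey : ∀ j, ex (‖y'‖⁻¹ • y') j = ((‖y'‖⁻¹ : ℝ) : ℂ) * y j := by
    intro j
    rw [← ex_restrict y hy.1]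
    rfl
  refine ⟨fun j hj => ?_, fun j hj => ?_, ?_, fun w hw hw' => ?_⟩
  · rw [hex, hxe j hj, mul_zero]
  · rw [hey, hyo j hj, mul_zero]
  · rw [hex, Complex.im_ofReal_mul, hx.2, mul_zero]
  · rw [oddF_congr h _ _ c d w _ _ _ _ (fun i j hi hj => ⟨ec_eq c i j hi hj, ec_eq d i j hi hj⟩)
      hex hey, oddF_sm, hF w hw hw', mul_zero]

end Pool.Agent.AD.PO

namespace Pool.Agent.AD

alias pure_open := Pool.Agent.AD.PO.pure_open

end Pool.Agent.AD
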