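import Mathlib
import Pool.Agent.Lib_helper59.AD.Defs
import Pool.Agent.Lib_helper59.AD.GE
import Pool.Agent.Lib_helper59.AD.MIX
import Pool.Agent.Lib_helper59.AD.PC
import Pool.Agent.Lib_helper59.AD.PO
import Pool.Agent.Lib_helper59.AD.ROTA
-- cites stubs: pure_core, pure_open, exists_generic, mixed, oddF_symm

open scoped ComplexConjugate
open Polynomial

namespace Pool.Agent.AD.CORE

open Pool.Agent.AD

/-- the parameters near which the generic point is chosen -/
private noncomputable def th0 (h : ℕ) (c₀ d₀ : ℕ → ℕ → ℂ) : PI h → ℝ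
  | Sum.inl (i, j, b, r) =>
      (fun z : ℂ => cond r z.im z.re) (cond b (d₀ i j) (c₀ i j))
  | Sum.inr _ => 1

private theorem core_norm (z w : ℂ) (δ : ℝ) (h1 : |z.re - w.re| < δ / 2)
    (h2 : |z.im - w.im| < δ / 2) : ‖z - w‖ < δ := by
  have := Complex.norm_le_abs_re_add_abs_im (z - w)
  rw [Complex.sub_re, Complex.sub_im] at this
  linarith

theorem core (n r q : ℕ) (hn : n = 2 ^ r * q) (hq : Odd q) (hq3 : 3 ≤ q) :
    ∃ (c d : ℕ → ℕ → ℂ) (D : ℕ → ℝ), (∀ j, 0 < D j) ∧
      ∀ x y, Vec (2 * n) x → Vec (2 * n) y → Sys (2 * n) c d D x y →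
        (∀ j, x j = 0) ∨ (∀ j, y j = 0) := by
  obtain ⟨c₀, d₀, hp⟩ := pure_core n r q hn hq hq3
  obtain ⟨δ, hδ, hopen⟩ := pure_open (2 * n) c₀ d₀ hp
  obtain ⟨θ, hθ1, hθ⟩ := exists_generic (th0 (2 * n) c₀ d₀) (min (δ / 2) (1 / 2))
    (lt_min (by linarith) (by norm_num))
  have hn3 : 3 ≤ n := by
    rw [hn]
    calc 3 ≤ q := hq3
      _ = 1 * q := (one_mul q).symm
      _ ≤ 2 ^ r * q := Nat.mul_le_mul_right q Nat.one_le_two_pow
  have hpure : PureNS (2 * n) (par θ false) (par θ true) := by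
    apply hopen
    intro i hi j hj
    have hij : i < 2 * n + 1 ∧ j < 2 * n + 1 := ⟨by omega, by omega⟩
    constructor
    · apply core_norm
      · have := (hθ1 (Sum.inl (⟨i, hij.1⟩, ⟨j, hij.2⟩, false, false))).trans_le (min_le_left _ _)
        unfold par
        rw [dif_pos hij]
        exact this
      · have := (hθ1 (Sum.inl (⟨i, hij.1⟩, ⟨j, hij.2⟩, false, true))).trans_le (min_le_left _ _)
        unfold par
        rw [dif_pos hij]
        exact this
    · apply core_norm
      · have := (hθ1 (Sum.inl (⟨i, hij.1⟩, ⟨j, hij.2⟩, true, false))).trans_le (min_le_left _ _)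
        unfold par
        rw [dif_pos hij]
        exact this
      · have := (hθ1 (Sum.inl (⟨i, hij.1⟩, ⟨j, hij.2⟩, true, true))).trans_le (min_le_left _ _)
        unfold par
        rw [dif_pos hij]
        exact this
  refine ⟨par θ false, par θ true, parR θ, ?_, ?_⟩
  · intro j
    unfold parR
    split_ifs with hj
    · have := (hθ1 (Sum.inr ⟨j, hj⟩)).trans_le (min_le_right _ _)
      have h1 : th0 (2 * n) c₀ d₀ (Sum.inr ⟨j, hj⟩) = 1 := rfl
      rw [h1] at this
      have := (abs_lt.1 this).1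
      linarith
    · exact one_pos
  · intro x y hx hy hS
    by_contra hc
    push Not at hc
    rcases mixed (2 * n) (even_two_mul n) (by omega) θ hθ x y hx hy hc.1 hc.2 hS with h1 | h1
    · rcases hpure x y hx hy h1.1 h1.2 hS.2.2 with h2 | h2
      · obtain ⟨j, hj⟩ := hc.1; exact hj (h2 j)
      · obtain ⟨j, hj⟩ := hc.2; exact hj (h2 j)
    · rcases hpure y x hy hx h1.2 h1.1 (fun w hw hw2 => by
        rw [oddF_symm]; exact hS.2.2 w hw hw2) with h2 | h2
      · obtain ⟨j, hj⟩ := hc.2; exact hj (h2 j)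
      · obtain ⟨j, hj⟩ := hc.1; exact hj (h2 j)

end Pool.Agent.AD.CORE

namespace Pool.Agent.AD

alias core := Pool.Agent.AD.CORE.core

end Pool.Agent.AD
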