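import Mathlib
import Pool.Agent.Lib_helper59.AD.Defs
import Pool.Agent.Lib_helper96.OD.Main

/-!
# Realisation of a nonsingular system by `4h` subspaces of `ℝ^{2h+1}`
-/

open scoped ComplexConjugate InnerProductSpace
open Polynomial
open Pool.Agent.Lib_helper96.OD

namespace Pool.Agent.AD.REAL

variable {h : ℕ}

/-- coordinates of a vector -/
noncomputable def cv (x : EE h) : ℕ → ℂ := fun j => co j x

lemma cv_vec (x : EE h) : Vec h (cv x) := ⟨fun j hj => co_gt j hj x, co_zero_im x⟩

lemma cv_add (x y : EE h) (j : ℕ) : cv (x + y) j = cv x j + cv y j := map_add _ _ _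

lemma cv_smul (a : ℝ) (x : EE h) (j : ℕ) : cv (a • x) j = a * cv x j := by
  unfold cv; rw [map_smul, Complex.real_smul]

lemma cf_add (w : ℕ) (x x' y : ℕ → ℂ) (i j : ℕ) :
    cf w (fun k => x k + x' k) y i j = cf w x y i j + cf w x' y i j := by
  unfold cf; split_ifs <;> ring

lemma df_add (w : ℕ) (x x' y : ℕ → ℂ) (i j : ℕ) :
    df w (fun k => x k + x' k) y i j = df w x y i j + df w x' y i j := by
  unfold df; split_ifs <;> (try simp only [map_add]) <;> ring

lemma cf_smul (w : ℕ) (a : ℝ) (x y : ℕ → ℂ) (i j : ℕ) :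
    cf w (fun k => (a : ℂ) * x k) y i j = a * cf w x y i j := by
  unfold cf; split_ifs <;> ring

lemma df_smul (w : ℕ) (a : ℝ) (x y : ℕ → ℂ) (i j : ℕ) :
    df w (fun k => (a : ℂ) * x k) y i j = a * df w x y i j := by
  unfold df; split_ifs <;> (try simp only [map_mul, Complex.conj_ofReal]) <;> ring

lemma cf_symm (w : ℕ) (x y : ℕ → ℂ) (i j : ℕ) : cf w x y i j = cf w y x i j := by
  unfold cf; split_ifs <;> ring

lemma df_symm (w : ℕ) (x y : ℕ → ℂ) (i j : ℕ) : df w x y i j = df w y x i j := by
  unfold df; split_ifs <;> ring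

/-- the odd form on vectors -/
noncomputable def of (h : ℕ) (c d : ℕ → ℕ → ℂ) (w : ℕ) (x y : EE h) : ℂ :=
  oddF h c d w (cv x) (cv y)

lemma of_symm (c d : ℕ → ℕ → ℂ) (w : ℕ) (x y : EE h) : of h c d w x y = of h c d w y x := by
  unfold of oddF
  refine Finset.sum_congr rfl (fun i _ => Finset.sum_congr rfl (fun j _ => ?_))
  rw [cf_symm, df_symm]

lemma of_add_left (c d : ℕ → ℕ → ℂ) (w : ℕ) (x x' y : EE h) :
    of h c d w (x + x') y = of h c d w x y + of h c d w x' y := by
  unfold of oddF
  have e : cv (x + x') = fun k => cv x k + cv x' k := funext (cv_add x x')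
  rw [e]
  simp only [← Finset.sum_add_distrib]
  refine Finset.sum_congr rfl (fun i _ => Finset.sum_congr rfl (fun j _ => ?_))
  rw [cf_add, df_add]; ring

lemma of_smul_left (c d : ℕ → ℕ → ℂ) (w : ℕ) (a : ℝ) (x y : EE h) :
    of h c d w (a • x) y = a * of h c d w x y := by
  unfold of oddF
  have e : cv (a • x) = fun k => (a : ℂ) * cv x k := funext (cv_smul a x)
  rw [e]
  simp only [Finset.mul_sum]
  refine Finset.sum_congr rfl (fun i _ => Finset.sum_congr rfl (fun j _ => ?_))
  rw [cf_smul, df_smul]; ring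

lemma of_add_right (c d : ℕ → ℕ → ℂ) (w : ℕ) (x y y' : EE h) :
    of h c d w x (y + y') = of h c d w x y + of h c d w x y' := by
  rw [of_symm, of_add_left, of_symm c d w y, of_symm c d w y']

lemma of_smul_right (c d : ℕ → ℕ → ℂ) (w : ℕ) (a : ℝ) (x y : EE h) :
    of h c d w x (a • y) = a * of h c d w x y := by
  rw [of_symm, of_smul_left, of_symm]

lemma of_even (c d : ℕ → ℕ → ℂ) (w : ℕ) (x y : EE h) (hx : ∀ j, Odd j → co j x = 0)
    (hy : ∀ j, Odd j → co j y = 0) : of h c d w x y = 0 := by
  unfold of oddF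
  apply Finset.sum_eq_zero; intro i _
  apply Finset.sum_eq_zero; intro j hj
  have ho : Odd j := (Finset.mem_filter.mp hj).2
  have e1 : cv x j = 0 := hx j ho
  have e2 : cv y j = 0 := hy j ho
  simp [cf, df, e1, e2]

lemma of_odd (c d : ℕ → ℕ → ℂ) (w : ℕ) (x y : EE h) (hx : ∀ j, Even j → co j x = 0)
    (hy : ∀ j, Even j → co j y = 0) : of h c d w x y = 0 := by
  unfold of oddF
  apply Finset.sum_eq_zero; intro i hi
  apply Finset.sum_eq_zero; intro j _
  have ho : Even i := (Finset.mem_filter.mp hi).2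
  have e1 : cv x i = 0 := hx i ho
  have e2 : cv y i = 0 := hy i ho
  simp [cf, df, e1, e2]

lemma cv_continuous (j : ℕ) : Continuous (fun x : EE h => cv x j) := co_continuous j

lemma of_continuous (c d : ℕ → ℕ → ℂ) (w : ℕ) :
    Continuous (fun p : EE h × EE h => of h c d w p.1 p.2) := by
  have hx : ∀ j, Continuous (fun p : EE h × EE h => cv p.1 j) := fun j =>
    (cv_continuous j).comp continuous_fst
  have hy : ∀ j, Continuous (fun p : EE h × EE h => cv p.2 j) := fun j =>
    (cv_continuous j).comp continuous_snd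
  unfold of oddF
  apply continuous_finsetSum; intro i _
  apply continuous_finsetSum; intro j _
  apply Continuous.add
  · apply continuous_const.mul
    unfold cf
    split_ifs
    · exact ((hx i).mul (hy j)).add ((hy i).mul (hx j))
    · exact continuous_const
  · apply continuous_const.mul
    unfold df
    split_ifs
    · exact ((hx i).mul (Complex.continuous_conj.comp (hy j))).add
        ((hy i).mul (Complex.continuous_conj.comp (hx j)))
    · exact ((Complex.continuous_conj.comp (hx i)).mul (hy j)).add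
        ((Complex.continuous_conj.comp (hy i)).mul (hx j))
    · exact continuous_const

/-- the forms of the deformed system -/
noncomputable def sysG (h : ℕ) (c d : ℕ → ℕ → ℂ) (D : ℕ → ℝ) :
    (ℕ ⊕ ℕ ⊕ Unit) → ℝ → EE h → EE h → ℂ
  | Sum.inl m, t, x, y => if m ≤ h then evf m t x y else 0
  | Sum.inr (Sum.inl l), _, x, y => if l < h - 1 then of h c d (2 * l + 1) x y else 0
  | Sum.inr (Sum.inr _), _, x, y => ((∑ j ∈ (Finset.range (h + 1)).filter Odd,
      D j * (co j x * conj (co j y)).re : ℝ) : ℂ)

lemma rt_cont' {X : Type*} [TopologicalSpace X] (f : X → ℝ) (g : X → EE h) (hf : Continuous f)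
    (hg : Continuous g) (i : ℕ) : Continuous (fun p => rt (f p) (g p) i) := by
  unfold rt
  split_ifs
  · exact (co_continuous _).comp hg
  · apply Continuous.mul
    · exact ((Complex.continuous_ofReal.comp hf).pow 2).pow _
    · exact Complex.continuous_conj.comp ((co_continuous _).comp hg)

lemma evf_continuous (m : ℕ) :
    Continuous (fun p : ℝ × EE h × EE h => evf m p.1 p.2.1 p.2.2) := by
  unfold evf
  refine continuous_finsetSum _ (fun a _ => Continuous.mul ?_ ?_)
  · exact rt_cont' (fun p : ℝ × EE h × EE h => p.1) (fun p => p.2.1) continuous_fst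
      (continuous_fst.comp continuous_snd) a.1
  · exact rt_cont' (fun p : ℝ × EE h × EE h => p.1) (fun p => p.2.2) continuous_fst
      (continuous_snd.comp continuous_snd) a.2

lemma sysG_continuous (c d : ℕ → ℕ → ℂ) (D : ℕ → ℝ) (i : ℕ ⊕ ℕ ⊕ Unit) :
    Continuous (fun p : ℝ × EE h × EE h => sysG h c d D i p.1 p.2.1 p.2.2) := by
  have hx : ∀ j, Continuous (fun p : ℝ × EE h × EE h => co j p.2.1) := fun j =>
    (co_continuous j).comp (continuous_fst.comp continuous_snd)
  have hy : ∀ j, Continuous (fun p : ℝ × EE h × EE h => co j p.2.2) := fun j =>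
    (co_continuous j).comp (continuous_snd.comp continuous_snd)
  rcases i with m | l | u
  · simp only [sysG]
    split_ifs
    · exact evf_continuous m
    · exact continuous_const
  · simp only [sysG]
    split_ifs
    · exact (of_continuous c d (2 * l + 1)).comp continuous_snd
    · exact continuous_const
  · simp only [sysG]
    apply Complex.continuous_ofReal.comp
    apply continuous_finsetSum
    intro j _
    exact continuous_const.mul (Complex.continuous_re.comp
      ((hx _).mul (Complex.continuous_conj.comp (hy _))))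

lemma sysG_homog (c d : ℕ → ℕ → ℂ) (D : ℕ → ℝ) (i : ℕ ⊕ ℕ ⊕ Unit) (t : ℝ) (a b : ℝ) (x y : EE h) :
    sysG h c d D i t (a • x) (b • y) = (a : ℂ) * b * sysG h c d D i t x y := by
  rcases i with m | l | u
  · simp only [sysG]
    split_ifs
    · unfold evf
      rw [Finset.mul_sum]
      refine Finset.sum_congr rfl (fun c _ => ?_)
      rw [rt_smul, rt_smul]; ring
    · simp
  · simp only [sysG]
    split_ifs
    · rw [of_smul_left, of_smul_right]; ring
    · simp
  · simp only [sysG]
    rw [← Complex.ofReal_mul, ← Complex.ofReal_mul, Finset.mul_sum]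
    congr 1
    refine Finset.sum_congr rfl (fun j _ => ?_)
    rw [map_smul, map_smul, Complex.real_smul, Complex.real_smul, map_mul, Complex.conj_ofReal]
    have : (a : ℂ) * co j x * ((b : ℂ) * conj (co j y))
        = ((a * b : ℝ) : ℂ) * (co j x * conj (co j y)) := by push_cast; ring
    rw [this, Complex.re_ofReal_mul]; ring

lemma inner_proj_odd (x y : EE h) : ⟪((evenE h)ᗮ).starProjection x, y⟫_ℝ
    = ∑ j ∈ (Finset.range (h + 1)).filter Odd, (co j x * conj (co j y)).re := by
  have h1 : ((evenE h)ᗮ).starProjection x = x - (evenE h).starProjection x := by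
    rw [Submodule.starProjection_orthogonal]
    simp
  rw [h1, inner_sub_left, inner_proj_even, inner_eq,
    ← Finset.sum_filter_add_sum_filter_not (Finset.range (h + 1)) Even, add_sub_cancel_left]
  refine Finset.sum_congr ?_ (fun _ _ => rfl)
  ext j
  simp [Nat.not_even_iff_odd]

theorem system (h2 : 2 ≤ h) (c d : ℕ → ℕ → ℂ) (D : ℕ → ℝ) (hD : ∀ j, 0 < D j)
    (hcore : ∀ x y, Vec h x → Vec h y → Sys h c d D x y → (∀ j, x j = 0) ∨ (∀ j, y j = 0)) :
    ∃ (K : Submodule ℝ (EE h)) (V : Fin (h - 1) × Bool → Submodule ℝ (EE h))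
      (W : Fin (2 * h + 1) → Submodule ℝ (EE h)), ∀ x y : EE h,
      ⟪K.starProjection x, y⟫_ℝ = 0 → (∀ i, ⟪(V i).starProjection x, y⟫_ℝ = 0) →
      (∀ j, ⟪(W j).starProjection x, y⟫_ℝ = 0) → x = 0 ∨ y = 0 := by
  obtain ⟨δ, hδ, hns⟩ := small_param (sysG h c d D) (sysG_continuous c d D) (sysG_homog c d D) (by
    intro x y hF
    have hev : ∀ m, m ≤ h → (Pool.Agent.Lib_helper96.OD.pol x * Pool.Agent.Lib_helper96.OD.pol y).coeff (2 * m) = 0 := by
      intro m hm
      have := hF (Sum.inl m)
      simp only [sysG] at this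
      rw [if_pos hm, evf_zero] at this
      exact this
    have htau : ∀ l, l < h - 1 → of h c d (2 * l + 1) x y = 0 := by
      intro l hl
      have := hF (Sum.inr (Sum.inl l))
      simp only [sysG] at this
      rwa [if_pos hl] at this
    have hDf := hF (Sum.inr (Sum.inr ()))
    simp only [sysG] at hDf
    have hD' : ∑ j ∈ (Finset.range (h + 1)).filter Odd, D j * (co j x * conj (co j y)).re = 0 := by
      exact_mod_cast hDf
    have hsys : Sys h c d D (cv x) (cv y) := by
      refine ⟨fun l hl => ?_, hD', fun w hw hw' => ?_⟩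
      · have := hev l hl
        rw [Pool.Agent.Lib_helper96.OD.pol_mul_coeff] at this
        exact this
      · obtain ⟨l, hl⟩ := hw
        have := htau l (by omega)
        unfold of at this
        rw [hl]; exact this
    rcases hcore (cv x) (cv y) (cv_vec x) (cv_vec y) hsys with h1 | h1
    · left
      apply co_ext; intro j _
      rw [map_zero]; exact h1 j
    · right
      apply co_ext; intro j _
      rw [map_zero]; exact h1 j)
  -- the scaling
  set α : ℕ → ℝ := fun j => (Real.sqrt (D j))⁻¹ with hα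
  have hα0 : ∀ j, 0 < α j := fun j => by
    have := Real.sqrt_pos.mpr (hD j)
    simp only [hα]; positivity
  have hw0 : ∀ j, 0 < wt δ j := fun j => by
    unfold wt; split_ifs
    · norm_num
    · positivity
  set Ne : ℝ := Real.sqrt (∑ j ∈ (Finset.range (h + 1)).filter Even, (α j * wt δ j) ^ 2) with hNe
  set No : ℝ := Real.sqrt (∑ j ∈ (Finset.range (h + 1)).filter (fun j => ¬ Even j),
    (α j * wt δ j) ^ 2) with hNo
  have hNe0 : 0 < ∑ j ∈ (Finset.range (h + 1)).filter Even, (α j * wt δ j) ^ 2 := by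
    apply Finset.sum_pos
    · intro j _
      have := mul_pos (hα0 j) (hw0 j)
      positivity
    · exact ⟨0, Finset.mem_filter.mpr ⟨Finset.mem_range.mpr (by omega), Even.zero⟩⟩
  have hNo0 : 0 < ∑ j ∈ (Finset.range (h + 1)).filter (fun j => ¬ Even j), (α j * wt δ j) ^ 2 := by
    apply Finset.sum_pos
    · intro j _
      have := mul_pos (hα0 j) (hw0 j)
      positivity
    · exact ⟨1, Finset.mem_filter.mpr ⟨Finset.mem_range.mpr (by omega), by decide⟩⟩
  have hNep : 0 < Ne := Real.sqrt_pos.mpr hNe0
  have hNop : 0 < No := Real.sqrt_pos.mpr hNo0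
  have hNe2 : Ne ^ 2 = ∑ j ∈ (Finset.range (h + 1)).filter Even, (α j * wt δ j) ^ 2 :=
    Real.sq_sqrt hNe0.le
  have hNo2 : No ^ 2 = ∑ j ∈ (Finset.range (h + 1)).filter (fun j => ¬ Even j), (α j * wt δ j) ^ 2 :=
    Real.sq_sqrt hNo0.le
  set k : ℕ → ℝ := fun j => if Even j then α j / Ne else α j / No with hk
  have hke : ∀ j, Even j → k j = α j / Ne := fun j hj => by simp only [hk]; rw [if_pos hj]
  have hko : ∀ j, ¬ Even j → k j = α j / No := fun j hj => by simp only [hk]; rw [if_neg hj]
  have hk0 : ∀ j, k j ≠ 0 := by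
    intro j
    by_cases hj : Even j
    · rw [hke j hj]; exact (div_pos (hα0 j) hNep).ne'
    · rw [hko j hj]; exact (div_pos (hα0 j) hNop).ne'
  -- vectors
  set av : ℂ → EE h := fun z => mkE h (fun j => if Even j then ((k j * wt δ j : ℝ) : ℂ) * conj z ^ j
    else 0) with hav
  set bv : ℂ → EE h := fun z => mkE h (fun j => if Even j then 0 else
    ((k j * wt δ j : ℝ) : ℂ) * conj z ^ j) with hbv
  have coa : ∀ z j, j ≤ h → co j (av z)
      = if Even j then ((k j * wt δ j : ℝ) : ℂ) * conj z ^ j else 0 := by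
    intro z j hj
    exact co_mkE (fun j => if Even j then ((k j * wt δ j : ℝ) : ℂ) * conj z ^ j else 0)
      (by simp) j hj
  have cob : ∀ z j, j ≤ h → co j (bv z)
      = if Even j then 0 else ((k j * wt δ j : ℝ) : ℂ) * conj z ^ j := by
    intro z j hj
    exact co_mkE (fun j => if Even j then 0 else ((k j * wt δ j : ℝ) : ℂ) * conj z ^ j)
      (by simp) j hj
  have ina : ∀ z x, ⟪x, av z⟫_ℝ = fev δ z (scal k x) := by
    intro z x
    rw [inner_eq]
    unfold fev
    rw [Finset.sum_filter]
    refine Finset.sum_congr rfl (fun j hj => ?_)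
    rw [coa z j (by rw [Finset.mem_range] at hj; omega)]
    split_ifs with he
    · rw [map_mul, map_pow, Complex.conj_conj, Complex.conj_ofReal, co_scal]
      have : co j x * (((k j * wt δ j : ℝ) : ℂ) * z ^ j)
          = ((wt δ j : ℝ) : ℂ) * ((k j : ℂ) * co j x * z ^ j) := by push_cast; ring
      rw [this, Complex.re_ofReal_mul]
    · simp
  have inb : ∀ z x, ⟪x, bv z⟫_ℝ = fod δ z (scal k x) := by
    intro z x
    rw [inner_eq]
    unfold fod
    rw [Finset.sum_filter]
    refine Finset.sum_congr rfl (fun j hj => ?_)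
    rw [cob z j (by rw [Finset.mem_range] at hj; omega)]
    by_cases he : Even j
    · rw [if_pos he, if_neg (not_not.mpr he)]; simp
    · rw [if_neg he, if_pos he, map_mul, map_pow, Complex.conj_conj, Complex.conj_ofReal, co_scal]
      have : co j x * (((k j * wt δ j : ℝ) : ℂ) * z ^ j)
          = ((wt δ j : ℝ) : ℂ) * ((k j : ℂ) * co j x * z ^ j) := by push_cast; ring
      rw [this, Complex.re_ofReal_mul]
  have hzz : ∀ z : ℂ, z * conj z = 1 → ∀ (r : ℝ) (j : ℕ),
      (((r : ℂ) * conj z ^ j) * conj ((r : ℂ) * conj z ^ j)).re = r ^ 2 := by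
    intro z hz r j
    rw [map_mul, map_pow, Complex.conj_conj, Complex.conj_ofReal]
    have : (r : ℂ) * conj z ^ j * ((r : ℂ) * z ^ j) = ((r ^ 2 : ℝ) : ℂ) := by
      have e2 : z ^ j * conj z ^ j = 1 := by rw [← mul_pow, hz, one_pow]
      push_cast
      linear_combination ((r : ℂ) ^ 2) * e2
    rw [this, Complex.ofReal_re]
  have haa : ∀ z : ℂ, z * conj z = 1 → ⟪av z, av z⟫_ℝ = 1 := by
    intro z hz
    rw [inner_eq]
    have h1 : ∑ j ∈ Finset.range (h + 1), (co j (av z) * conj (co j (av z))).re
        = ∑ j ∈ (Finset.range (h + 1)).filter Even, (α j * wt δ j) ^ 2 / Ne ^ 2 := by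
      rw [Finset.sum_filter]
      refine Finset.sum_congr rfl (fun j hj => ?_)
      rw [coa z j (by rw [Finset.mem_range] at hj; omega)]
      split_ifs with he
      · rw [hzz z hz, hke j he]; field_simp
      · simp
    rw [h1, ← Finset.sum_div, ← hNe2, div_self (by positivity)]
  have hbb : ∀ z : ℂ, z * conj z = 1 → ⟪bv z, bv z⟫_ℝ = 1 := by
    intro z hz
    rw [inner_eq]
    have h1 : ∑ j ∈ Finset.range (h + 1), (co j (bv z) * conj (co j (bv z))).re
        = ∑ j ∈ (Finset.range (h + 1)).filter (fun j => ¬ Even j), (α j * wt δ j) ^ 2 / No ^ 2 := by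
      rw [Finset.sum_filter]
      refine Finset.sum_congr rfl (fun j hj => ?_)
      rw [cob z j (by rw [Finset.mem_range] at hj; omega)]
      by_cases he : Even j
      · rw [if_pos he, if_neg (not_not.mpr he)]; simp
      · rw [if_neg he, if_pos he, hzz z hz, hko j he]; field_simp
    rw [h1, ← Finset.sum_div, ← hNo2, div_self (by positivity)]
  have hab : ∀ z : ℂ, ⟪av z, bv z⟫_ℝ = 0 := by
    intro z
    rw [inner_eq]
    apply Finset.sum_eq_zero
    intro j hj
    rw [Finset.mem_range] at hj
    rw [coa z j (by omega), cob z j (by omega)]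
    split_ifs <;> simp
  -- the root of unity
  set ζ : ℂ := Complex.exp (2 * Real.pi * Complex.I / ((4 * h + 2 : ℕ) : ℂ)) with hζdef
  have hζ : IsPrimitiveRoot ζ (4 * h + 2) := Complex.isPrimitiveRoot_exp (4 * h + 2) (by omega)
  have hζ2 : ζ ^ (2 * h + 1) = -1 := by
    have h1 : (ζ ^ (2 * h + 1)) ^ 2 = 1 := by
      rw [← pow_mul, show (2 * h + 1) * 2 = 4 * h + 2 by ring, hζ.pow_eq_one]
    rcases sq_eq_one_iff.mp h1 with h2 | h2
    · exact absurd h2 (hζ.pow_ne_one_of_pos_of_lt (by omega) (by omega))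
    · exact h2
  have hunit : ∀ n : ℕ, ζ ^ n * conj (ζ ^ n) = 1 := by
    intro n
    have h1 : ‖ζ‖ = 1 := Complex.norm_eq_one_of_pow_eq_one hζ.pow_eq_one (by omega)
    rw [Complex.mul_conj, Complex.normSq_eq_norm_sq, norm_pow, h1]; simp
  set W : Fin (2 * h + 1) → Submodule ℝ (EE h) :=
    fun n => Submodule.span ℝ {av (ζ ^ (n : ℕ)), bv (ζ ^ (n : ℕ))} with hW
  -- the forms
  set T : Fin (h - 1) × Bool → EE h →ₗ[ℝ] EE h →ₗ[ℝ] ℝ := fun i =>
    LinearMap.mk₂ ℝ (fun x y => if i.2 then (of h c d (2 * (i.1 : ℕ) + 1) (scal k x) (scal k y)).re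
      else (of h c d (2 * (i.1 : ℕ) + 1) (scal k x) (scal k y)).im)
      (by intro x x' y; simp only [map_add, of_add_left]; split_ifs <;> simp)
      (by intro c x y; simp only [map_smul, of_smul_left]; split_ifs <;> simp)
      (by intro x y y'; simp only [map_add, of_add_right]; split_ifs <;> simp)
      (by intro c x y; simp only [map_smul, of_smul_right]; split_ifs <;> simp) with hT
  have hTapp : ∀ i x y, T i x y = if i.2 then (of h c d (2 * (i.1 : ℕ) + 1) (scal k x) (scal k y)).re
      else (of h c d (2 * (i.1 : ℕ) + 1) (scal k x) (scal k y)).im := fun i x y => rfl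
  have hfin := perturb ((evenE h)ᗮ) T
    (by
      intro i x y
      rw [hTapp, hTapp, of_symm])
    (by
      intro i x hx y hy
      rw [hTapp, of_odd c d (2 * (i.1 : ℕ) + 1) _ _
        (fun j hj => by rw [co_scal, mem_evenE_orth x hx j hj, mul_zero])
        (fun j hj => by rw [co_scal, mem_evenE_orth y hy j hj, mul_zero])]
      simp)
    (by
      intro i x hx y hy
      rw [Submodule.orthogonal_orthogonal] at hx hy
      rw [hTapp, of_even c d (2 * (i.1 : ℕ) + 1) _ _
        (fun j hj => by rw [co_scal, hx j hj, mul_zero])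
        (fun j hj => by rw [co_scal, hy j hj, mul_zero])]
      simp)
    W
    (by
      intro x y h1 hT2 h4
      have h5 : ∀ n < 2 * h + 1, fev δ (ζ ^ n) (scal k x) * fev δ (ζ ^ n) (scal k y)
          + fod δ (ζ ^ n) (scal k x) * fod δ (ζ ^ n) (scal k y) = 0 := by
        intro n hn
        have h6 := h4 ⟨n, hn⟩
        simp only [hW] at h6
        rw [rank_two _ _ (haa _ (hunit n)) (hbb _ (hunit n)) (hab _), ina, ina, inb, inb] at h6
        exact h6
      have h6 := even_forms δ hδ.ne' ζ hζ hζ2 (scal k x) (scal k y) h5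
      have h7 : ∀ l, l < h - 1 → of h c d (2 * l + 1) (scal k x) (scal k y) = 0 := by
        intro l hl
        have h8 := hT2 (⟨l, hl⟩, true)
        have h9 := hT2 (⟨l, hl⟩, false)
        rw [hTapp] at h8 h9
        simp only [if_true, Bool.false_eq_true, if_false] at h8 h9
        exact Complex.ext h8 h9
      have h8 : ∑ j ∈ (Finset.range (h + 1)).filter Odd,
          D j * (co j (scal k x) * conj (co j (scal k y))).re = 0 := by
        have h9 : ∀ j ∈ (Finset.range (h + 1)).filter Odd,
            D j * (co j (scal k x) * conj (co j (scal k y))).re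
              = (No ^ 2)⁻¹ * (co j x * conj (co j y)).re := by
          intro j hj
          rw [co_scal, co_scal, map_mul, Complex.conj_ofReal,
            hko j (Nat.not_even_iff_odd.mpr (Finset.mem_filter.mp hj).2)]
          have e1 : ((α j / No : ℝ) : ℂ) * co j x * (((α j / No : ℝ) : ℂ) * conj (co j y))
              = (((α j / No) ^ 2 : ℝ) : ℂ) * (co j x * conj (co j y)) := by push_cast; ring
          rw [e1, Complex.re_ofReal_mul]
          have e2 : D j * (α j / No) ^ 2 = (No ^ 2)⁻¹ := by
            have e3 : (Real.sqrt (D j)) ^ 2 = D j := Real.sq_sqrt (hD j).le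
            simp only [hα]
            rw [div_pow, inv_pow, e3]
            have : D j ≠ 0 := (hD j).ne'
            field_simp
          rw [← mul_assoc, e2]
        rw [Finset.sum_congr rfl h9, ← Finset.mul_sum, ← inner_proj_odd, h1, mul_zero]
      have h9 : ∀ i, sysG h c d D i δ (scal k x) (scal k y) = 0 := by
        intro i
        rcases i with m | l | u
        · simp only [sysG]
          split_ifs
          · rw [evf_eq, ← mul_add]; exact h6 (h + m)
          · rfl
        · simp only [sysG]
          split_ifs with hl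
          · exact h7 l hl
          · rfl
        · simp only [sysG]
          rw [h8]; simp
      rcases hns _ _ h9 with h10 | h10
      · exact Or.inl (scal_eq_zero k hk0 x h10)
      · exact Or.inr (scal_eq_zero k hk0 y h10))
  obtain ⟨V, hV⟩ := hfin
  exact ⟨(evenE h)ᗮ, V, W, hV⟩

theorem realise (h : ℕ) (h2 : 2 ≤ h) (c d : ℕ → ℕ → ℂ) (D : ℕ → ℝ) (hD : ∀ j, 0 < D j)
    (hns : ∀ x y, Vec h x → Vec h y → Sys h c d D x y → (∀ j, x j = 0) ∨ (∀ j, y j = 0)) :
    ∃ W : Fin (4 * h) → Submodule ℝ (EuclideanSpace ℝ (Fin (2 * h + 1))),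
      ∀ x y : EuclideanSpace ℝ (Fin (2 * h + 1)),
        (∀ n, ‖(W n).starProjection x‖ = ‖(W n).starProjection y‖) → x = y ∨ x = -y := by
  obtain ⟨K, V, W, hns⟩ := system h2 c d D hD hns
  have hcard : Fintype.card (Option (Fin (h - 1) × Bool) ⊕ Fin (2 * h + 1)) = 4 * h := by
    simp only [Fintype.card_sum, Fintype.card_option, Fintype.card_prod, Fintype.card_fin,
      Fintype.card_bool]
    omega
  set e := Fintype.equivFinOfCardEq hcard with he
  set U : Option (Fin (h - 1) × Bool) ⊕ Fin (2 * h + 1) → Submodule ℝ (EE h) := fun i =>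
    match i with
    | Sum.inl none => K
    | Sum.inl (some i) => V i
    | Sum.inr j => W j with hU
  refine ⟨fun n => U (e.symm n), fun x y hxy => ?_⟩
  have h1 : ∀ i, ‖(U i).starProjection x‖ = ‖(U i).starProjection y‖ := by
    intro i
    have := hxy (e i)
    simp only [Equiv.symm_apply_apply] at this
    exact this
  rcases hns (x - y) (x + y) (inner_of_norm _ _ _ (h1 (Sum.inl none)))
    (fun i => inner_of_norm _ _ _ (h1 (Sum.inl (some i))))
    (fun j => inner_of_norm _ _ _ (h1 (Sum.inr j))) with h2 | h2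
  · exact Or.inl (sub_eq_zero.mp h2)
  · exact Or.inr (eq_neg_of_add_eq_zero_left h2)

end Pool.Agent.AD.REAL

namespace Pool.Agent.AD

alias realise := Pool.Agent.AD.REAL.realise

end Pool.Agent.AD
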