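import Mathlib
import Pool.Agent.Lib_helper59.AD.Defs
import Pool.Agent.Lib_helper59.AD.CORE
import Pool.Agent.Lib_helper59.AD.REAL

open scoped ComplexConjugate
open Polynomial

namespace Pool.Agent.AD.EXF

theorem exists_family (n r q : ℕ) (hn : n = 2 ^ r * q) (hq : Odd q) (hq3 : 3 ≤ q) :
    ∃ W : Fin (8 * n) → Submodule ℝ (EuclideanSpace ℝ (Fin (4 * n + 1))),
      ∀ x y : EuclideanSpace ℝ (Fin (4 * n + 1)),
        (∀ n, ‖(W n).starProjection x‖ = ‖(W n).starProjection y‖) → x = y ∨ x = -y := by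
  obtain ⟨c, d, D, hD, hns⟩ := core n r q hn hq hq3
  have hn0 : 0 < n := by
    rw [hn]; positivity
  have key : ∀ a b : ℕ, a = 4 * (2 * n) → b = 2 * (2 * n) + 1 →
      ∃ W : Fin a → Submodule ℝ (EuclideanSpace ℝ (Fin b)),
        ∀ x y : EuclideanSpace ℝ (Fin b),
          (∀ n, ‖(W n).starProjection x‖ = ‖(W n).starProjection y‖) → x = y ∨ x = -y := by
    rintro a b rfl rfl
    exact realise (2 * n) (by omega) c d D hD hns
  exact key _ _ (by ring) (by ring)

end Pool.Agent.AD.EXF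

namespace Pool.Agent.AD

alias exists_family := Pool.Agent.AD.EXF.exists_family

end Pool.Agent.AD
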